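import Pool.Agent.W_4d259d_h44.Base

/-!
# MP_4d259d_ag: the main theorem of each block, as `Prop` valued definitions

Nothing is proved here: each block proves its own statement; the assembly takes them as inputs.
Universe `0` everywhere.
-/

noncomputable section

set_option linter.unusedSectionVars false

namespace Pool.Agent.W_4d259d_h44

open Set Filter Topology Manifold Metric MeasureTheory TopologicalSpace
open scoped ContDiff OnePoint BoundedContinuousFunction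
open Pool.Agent.W_4d259d_h46.Defs Pool.Agent.W_4d259d_h46

section

variable (R : Type) [TopologicalSpace R] [ChartedSpace ℂ R]
variable (E : Type) [NormedAddCommGroup E] [NormedSpace ℂ E]
variable (X : Type) [MetricSpace X] [ChartedSpace E X]

/-- BLOCK FR, output 1 (SPRAY THEOREM): over a neighbourhood of a compact set `A` there is a spray
along `f`; the radius of a spray may be shrunk. -/
def SprayThm : Prop :=
  ∀ (A : Set R), IsCompact A → ∀ (U : Opens R), A ⊆ U → ∀ f : R → X, HolOn E f U →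
    ∃ (W : Opens R) (δ : ℝ) (s : R → E → X), A ⊆ W ∧ W ≤ U ∧ IsSpray W f δ s

/-- BLOCK FR, output 2 (TRANSITION DATA), the form used in the bump lemma.  `WA` relatively
compact in the domain `U` of `f`; `N1 ⊂⊂ N ⊂⊂ unitOf e`; `φ` a chart of `X` with
`f (closure WA ∩ closure N) ⊆ φ.source`.  Then there are a spray `s` over `WA` along `f` and an
operator valued `MB`, holomorphic, bounded and boundedly invertible on `WB = N1 ⊔ (WA ⊓ N)`, with
`φ (s z α) = φ (f z) + MB z (α + ξ z α)` on `O = WA ⊓ N`, `ξ` of second order in `α`. -/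
def TransThm : Prop :=
  ∀ (U WA N1 N : Opens R) (f : R → X), HolOn E f U →
    IsCompact (closure (WA : Set R)) → closure (WA : Set R) ⊆ U →
    ∀ e ∈ DChart R, closure (N1 : Set R) ⊆ N → closure (N : Set R) ⊆ unitOf e →
    ∀ φ ∈ XChart E X, (∀ z ∈ closure (WA : Set R) ∩ closure (N : Set R), f z ∈ φ.source) →
    ∃ (δ C : ℝ) (s : R → E → X) (MB : R → E →L[ℂ] E) (ξ : R → E → E),
      IsSpray WA f δ s ∧
      (∀ ε > 0, ∃ δ' > 0, ∀ z ∈ WA, ∀ α : E, ‖α‖ < δ' → dist (s z α) (f z) < ε) ∧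
      HolOn (E →L[ℂ] E) MB (N1 ⊔ (WA ⊓ N) : Opens R) ∧
      (∀ z ∈ (N1 ⊔ (WA ⊓ N) : Opens R), ‖MB z‖ ≤ C ∧ IsUnit (MB z) ∧ ‖Ring.inverse (MB z)‖ ≤ C) ∧
      HolOn2 E ξ (WA ⊓ N : Opens R) (ball 0 δ) ∧
      (∀ z ∈ WA ⊓ N, ∀ α ∈ ball (0 : E) δ, ‖ξ z α‖ ≤ C) ∧
      (∀ z ∈ WA ⊓ N, ξ z 0 = 0 ∧ fderiv ℂ (ξ z) 0 = 0) ∧
      (∀ z ∈ WA ⊓ N, ∀ α ∈ ball (0 : E) δ,
        s z α ∈ φ.source ∧ φ (s z α) = φ (f z) + MB z (α + ξ z α))

/-- BLOCK FL, output (uniform flexibility): over a compact subset of a chart domain consisting of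
flexible points the constants are uniform. -/
def FlexUnif : Prop :=
  ∀ φ ∈ XChart E X, ∀ C : Set E, IsCompact C → C ⊆ φ.target → (∀ c ∈ C, FlexAt E (φ.symm c)) →
    ∃ (δ ρ M : ℝ), 0 < δ ∧ 0 < ρ ∧ 0 ≤ M ∧ ∀ c ∈ C, ∃ (Lam : ℂ → E → E → X) (Psi : ℂ → E → E → E),
      FlexData φ c δ ρ M Lam Psi

/-- BLOCKS TD + FL + GR (sections 11-17): on a rationally connected manifold every point is
flexible. -/
def AllFlex : Prop := RatConn E X → ∀ x : X, FlexAt E x

/-- BLOCK BU, output 1 (BUMP LEMMA), every point of `X` being flexible. -/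
def BumpThm : Prop :=
  ∀ (f : C(R, X)) (A B : Set R), IsCompact A → IsCompact B → NullSet (frontier A) →
    NullSet (frontier B) → ∀ e ∈ DChart R, B ⊆ halfOf e →
    ∀ φ ∈ XChart E X, (∀ z ∈ closure (B \ A), f z ∈ φ.source) →
    ∀ ε > 0, ∃ ε1 > 0, ∀ (Λ : Set R), Λ.Finite → Λ ⊆ interior A → ∀ (k : ℕ) (W0 : Opens R),
      A ⊆ W0 → ∀ F : R → X, HolOn E F W0 → ∀ H0 : Set R, IsClosed H0 → H0 ⊆ interior A →
      (∀ z ∈ (W0 : Set R) \ H0, dist (F z) (f z) < ε1) →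
      ∃ (W' : Opens R) (F' : R → X) (s : Set (Set R)), A ∪ B ⊆ W' ∧ HolOn E F' W' ∧
        DiscFam s ∧ (∀ D ∈ s, D ⊆ interior B \ A ∧ ∀ z ∈ D, ∀ z' ∈ D, dist (f z) (f z') < ε) ∧
        (∀ z ∈ (W' : Set R) \ (H0 ∪ ⋃₀ s), dist (F' z) (f z) < ε) ∧
        ∀ l ∈ Λ, JetEq E k F' F l

/-- BLOCK BU, output 2 (EXTENSION THEOREM), every point of `X` being flexible. -/
def ExtThm : Prop :=
  ∀ (f : C(R, X)) (U : Opens R), HolOn E f U → ∀ K : Set R, IsCompact K → K ⊆ U →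
    ∀ Λ : Set R, Λ ⊆ U → (∀ L : Set R, IsCompact L → (Λ ∩ L).Finite) →
    ∀ L : Set R, IsCompact L → ∃ C : Set R, IsCompact C ∧ ∀ (k : R → ℕ) (ε : ℝ), 0 < ε →
      ∃ (g : C(R, X)) (U' : Opens R) (s : Set (Set R)), K ∪ L ∪ Λ ⊆ U' ∧ HolOn E g U' ∧
        (∀ l ∈ Λ, JetEq E (k l) g f l) ∧ (∀ z ∉ C, g z = f z) ∧
        DiscFam s ∧
        (∀ D ∈ s, D ⊆ C ∧ Disjoint D K ∧ ∀ z ∈ D, ∀ z' ∈ D, dist (f z) (f z') < ε) ∧
        (∀ z ∉ ⋃₀ s, dist (g z) (f z) < ε)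

/-- BLOCK HO, output (SMALL HOMOTOPY), general `R`: a map `g` which is close to `f` off a family of
small closed discs disjoint from the compact Runge set `K`, and equal to `f` off a fixed compact
set, is homotopic to `f` by a homotopy which is small on `K`. -/
def SmallHom : Prop :=
  ∀ (f : C(R, X)) (K C : Set R), IsCompact K → IsRunge K → IsCompact C → ∀ ε > 0, ∃ ε1 > 0,
    ∀ (g : C(R, X)) (s : Set (Set R)), (∀ z ∉ C, g z = f z) → DiscFam s →
      (∀ D ∈ s, D ⊆ C ∧ Disjoint D K ∧ ∀ z ∈ D, ∀ z' ∈ D, dist (f z) (f z') < ε1) →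
      (∀ z ∉ ⋃₀ s, dist (g z) (f z) < ε1) →
      ∃ H : ContinuousMap.Homotopy f g, ∀ t, ∀ z ∈ K, dist (H (t, z)) (f z) < ε

/-- BLOCK HO, output 2 (RUNGE EXHAUSTION): a compact Runge set starts an exhaustion by compact
Runge sets. -/
def RungeExh : Prop :=
  ∀ K : Set R, IsCompact K → IsRunge K → ∃ L : ℕ → Set R, L 0 = K ∧ (∀ j, IsCompact (L j)) ∧
    (∀ j, IsRunge (L j)) ∧ (∀ j, L j ⊆ interior (L (j + 1))) ∧ (⋃ j, L j) = univ

end

/-- BLOCK G18, output (section 18): every open Riemann surface is good. -/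
def AllGood : Prop :=
  ∀ (R : Type) [TopologicalSpace R] [T2Space R] [ConnectedSpace R] [NoncompactSpace R]
    [SecondCountableTopology R] [ChartedSpace ℂ R] [IsManifold (modelWithCornersSelf ℂ ℂ) ω R],
    GoodSurface R

end Pool.Agent.W_4d259d_h44
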