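import Pool.Agent.W_4d259d_h44.Base

/-!
# MP_4d259d_ag, module A: toolbox for holomorphic maps on `R` (charts, algebra, limits, division)
-/

noncomputable section

set_option linter.unusedSectionVars false

namespace Pool.Agent.W_4d259d_h44

open Set Filter Topology Manifold Metric TopologicalSpace
open scoped ContDiff
open Pool.Agent.W_4d259d_h46.Defs Pool.Agent.W_4d259d_h46 Pool.Agent.W_4d259d_h44

variable {R : Type*} [TopologicalSpace R] [ChartedSpace ℂ R]
  [IsManifold (modelWithCornersSelf ℂ ℂ) ω R]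
variable {E : Type*} [NormedAddCommGroup E] [NormedSpace ℂ E]
variable {X : Type*} [TopologicalSpace X] [ChartedSpace E X]
  [IsManifold (modelWithCornersSelf ℂ E) ω X]
variable {F : Type*} [NormedAddCommGroup F] [NormedSpace ℂ F]
variable {G : Type*} [NormedAddCommGroup G] [NormedSpace ℂ G]

/-! ### Charts -/

theorem chart_hol {e : OpenPartialHomeomorph R ℂ} (he : e ∈ RChart R) : HolOn ℂ e e.source :=   (contMDiffOn_of_mem_maximalAtlas he).mdifferentiableOn (by simp)

theorem chart_symm_hol {e : OpenPartialHomeomorph R ℂ} (he : e ∈ RChart R) :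
    MDifferentiableOn (modelWithCornersSelf ℂ ℂ) (modelWithCornersSelf ℂ ℂ) e.symm e.target :=   (contMDiffOn_symm_of_mem_maximalAtlas he).mdifferentiableOn (by simp)

/-- For maps of the plane `HolOn` is `DifferentiableOn`. -/
theorem holOn_iff_plane {f : ℂ → F} {U : Set ℂ} : HolOn F f U ↔ DifferentiableOn ℂ f U :=   mdifferentiableOn_iff_differentiableOn

theorem holOn_iff_inChart {e : OpenPartialHomeomorph R ℂ} (he : e ∈ RChart R) {U : Set R}
    (hU : IsOpen U) (hUe : U ⊆ e.source) {f : R → F} :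
    HolOn F f U ↔ DifferentiableOn ℂ (fun ζ => f (e.symm ζ)) (e '' U) := by
  rw [← holOn_iff_plane]
  constructor
  · intro h
    refine MDifferentiableOn.comp h ((chart_symm_hol he).mono ?_) ?_
    · rintro _ ⟨z, hz, rfl⟩
      exact e.map_source (hUe hz)
    · rintro _ ⟨z, hz, rfl⟩
      rw [mem_preimage, e.left_inv (hUe hz)]
      exact hz
  · intro h
    have h1 : HolOn F ((fun ζ => f (e.symm ζ)) ∘ e) U :=
      MDifferentiableOn.comp h ((chart_hol he).mono hUe) (fun z hz => mem_image_of_mem _ hz)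
    refine MDifferentiableOn.congr h1 fun z hz => ?_
    show f z = f (e.symm (e z))
    rw [e.left_inv (hUe hz)]

/-- The same for maps into the manifold `X`. -/
theorem holOn_iff_inChartX {e : OpenPartialHomeomorph R ℂ} (he : e ∈ RChart R) {U : Set R}
    (hU : IsOpen U) (hUe : U ⊆ e.source) {f : R → X} :
    HolOn E f U ↔ HolOn E (fun ζ => f (e.symm ζ)) (e '' U) := by
  constructor
  · intro h
    refine MDifferentiableOn.comp h ((chart_symm_hol he).mono ?_) ?_
    · rintro _ ⟨z, hz, rfl⟩
      exact e.map_source (hUe hz)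
    · rintro _ ⟨z, hz, rfl⟩
      rw [mem_preimage, e.left_inv (hUe hz)]
      exact hz
  · intro h
    have h1 : HolOn E ((fun ζ => f (e.symm ζ)) ∘ e) U :=
      MDifferentiableOn.comp h ((chart_hol he).mono hUe) (fun z hz => mem_image_of_mem _ hz)
    refine MDifferentiableOn.congr h1 fun z hz => ?_
    show f z = f (e.symm (e z))
    rw [e.left_inv (hUe hz)]

/-- `φ ∘ f` is holomorphic. -/
theorem holOn_chart_comp {φ : OpenPartialHomeomorph X E} (hφ : φ ∈ XChart E X) {U : Set R}
    {f : R → X} (hf : HolOn E f U) (hfU : ∀ z ∈ U, f z ∈ φ.source) :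
    HolOn E (fun z => φ (f z)) U :=   MDifferentiableOn.comp ((contMDiffOn_of_mem_maximalAtlas hφ).mdifferentiableOn (by simp)) hf hfU

/-- `φ⁻¹ ∘ g` is holomorphic. -/
theorem holOn_chart_symm_comp {φ : OpenPartialHomeomorph X E} (hφ : φ ∈ XChart E X) {U : Set R}
    {g : R → E} (hg : HolOn E g U) (hgU : ∀ z ∈ U, g z ∈ φ.target) :
    HolOn E (fun z => φ.symm (g z)) U :=   MDifferentiableOn.comp ((contMDiffOn_symm_of_mem_maximalAtlas hφ).mdifferentiableOn (by simp)) hg
    hgU

/-- The transition maps of `X` are complex differentiable. -/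
theorem transition_diff {φ ψ : OpenPartialHomeomorph X E} (hφ : φ ∈ XChart E X)
    (hψ : ψ ∈ XChart E X) :
    DifferentiableOn ℂ (fun p => ψ (φ.symm p)) (φ.symm.trans ψ).source := by
  rw [← mdifferentiableOn_iff_differentiableOn]
  refine MDifferentiableOn.comp
    ((contMDiffOn_of_mem_maximalAtlas hψ).mdifferentiableOn (by simp))
    (((contMDiffOn_symm_of_mem_maximalAtlas hφ).mdifferentiableOn (by simp)).mono ?_) ?_
  · intro p hp
    exact hp.1
  · intro p hp
    exact hp.2

/-! ### Algebra -/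

theorem holOn_mono {U V : Set R} {f : R → X} (h : HolOn E f V) (hUV : U ⊆ V) : HolOn E f U :=
  MDifferentiableOn.mono h hUV

/-- Being holomorphic is local. -/
theorem holOn_of_local {U : Set R} {f : R → X}
    (h : ∀ z ∈ U, ∃ V : Set R, IsOpen V ∧ z ∈ V ∧ HolOn E f V) : HolOn E f U := by
  intro z hz
  obtain ⟨V, hV, hzV, hf⟩ := h z hz
  exact ((hf z hzV).mdifferentiableAt (hV.mem_nhds hzV)).mdifferentiableWithinAt

/-- Union of two open sets. -/
theorem holOn_union {U V : Set R} (hU : IsOpen U) (hV : IsOpen V) {f : R → X}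
    (h1 : HolOn E f U) (h2 : HolOn E f V) : HolOn E f (U ∪ V) := by
  refine holOn_of_local fun z hz => ?_
  rcases hz with hz | hz
  · exact ⟨U, hU, hz, h1⟩
  · exact ⟨V, hV, hz, h2⟩

theorem holOn_constX {U : Set R} (c : X) : HolOn E (fun _ : R => c) U :=   mdifferentiableOn_const

theorem holOn_sub {U : Set R} {f g : R → F} (hf : HolOn F f U) (hg : HolOn F g U) :
    HolOn F (fun z => f z - g z) U :=   MDifferentiableOn.sub hf hg

theorem holOn_neg {U : Set R} {f : R → F} (hf : HolOn F f U) : HolOn F (fun z => -f z) U :=   MDifferentiableOn.neg hf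

theorem holOn_mul {U : Set R} {f g : R → ℂ} (hf : HolOn ℂ f U) (hg : HolOn ℂ g U) :
    HolOn ℂ (fun z => f z * g z) U := by
  have h1 : DifferentiableOn ℂ (fun p : ℂ × ℂ => p.1 * p.2) univ :=
    (differentiable_fst.mul differentiable_snd).differentiableOn
  exact MDifferentiableOn.comp (mdifferentiableOn_iff_differentiableOn.2 h1)
    (MDifferentiableOn.prodMk_space hf hg) (fun z _ => mem_univ _)

theorem holOn_smul {U : Set R} {f : R → ℂ} {g : R → F} (hf : HolOn ℂ f U) (hg : HolOn F g U) :
    HolOn F (fun z => f z • g z) U := by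
  have h1 : DifferentiableOn ℂ (fun p : ℂ × F => p.1 • p.2) univ :=
    (differentiable_fst.smul differentiable_snd).differentiableOn
  exact MDifferentiableOn.comp (mdifferentiableOn_iff_differentiableOn.2 h1)
    (MDifferentiableOn.prodMk_space hf hg) (fun z _ => mem_univ _)

theorem holOn_inv {U : Set R} {f : R → ℂ} (hf : HolOn ℂ f U) (h0 : ∀ z ∈ U, f z ≠ 0) :
    HolOn ℂ (fun z => (f z)⁻¹) U := by
  have h1 : DifferentiableOn ℂ (fun p : ℂ => p⁻¹) {p | p ≠ 0} := differentiableOn_inv
  exact MDifferentiableOn.comp (mdifferentiableOn_iff_differentiableOn.2 h1) hf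
    (fun z hz => h0 z hz)

theorem holOn_sum {U : Set R} {ι : Type*} (s : Finset ι) {f : ι → R → F}
    (hf : ∀ i ∈ s, HolOn F (f i) U) : HolOn F (fun z => ∑ i ∈ s, f i z) U := by
  classical
  induction s using Finset.induction_on with
  | empty => simpa using holOn_const (R := R) (0 : F) U
  | insert a s ha ih =>
    have h1 := holOn_add (hf a (Finset.mem_insert_self a s))
      (ih fun i hi => hf i (Finset.mem_insert_of_mem hi))
    refine HolOn.congr' h1 fun z _ => ?_
    rw [Finset.sum_insert ha]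

theorem holOn_prod {U : Set R} {ι : Type*} (s : Finset ι) {f : ι → R → ℂ}
    (hf : ∀ i ∈ s, HolOn ℂ (f i) U) : HolOn ℂ (fun z => ∏ i ∈ s, f i z) U := by
  classical
  induction s using Finset.induction_on with
  | empty => simpa using holOn_const (R := R) (1 : ℂ) U
  | insert a s ha ih =>
    have h1 := holOn_mul (hf a (Finset.mem_insert_self a s))
      (ih fun i hi => hf i (Finset.mem_insert_of_mem hi))
    refine HolOn.congr' h1 fun z _ => ?_
    rw [Finset.prod_insert ha]

theorem holOn_prodMk {U : Set R} {f : R → F} {g : R → G} (hf : HolOn F f U) (hg : HolOn G g U) :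
    HolOn (F × G) (fun z => (f z, g z)) U :=   MDifferentiableOn.prodMk_space hf hg

theorem holOn_comp {U : Set R} {V : Set F} {f : R → F} {g : F → G} (hg : DifferentiableOn ℂ g V)
    (hf : HolOn F f U) (hfV : ∀ z ∈ U, f z ∈ V) : HolOn G (fun z => g (f z)) U :=   MDifferentiableOn.comp (mdifferentiableOn_iff_differentiableOn.2 hg) hf hfV

theorem holOn_clm_apply {U : Set R} {M : R → F →L[ℂ] G} {f : R → F}
    (hM : HolOn (F →L[ℂ] G) M U) (hf : HolOn F f U) : HolOn G (fun z => M z (f z)) U :=   MDifferentiableOn.clm_apply hM hf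

theorem holOn_opMul {U : Set R} {M N : R → F →L[ℂ] F}
    (hM : HolOn (F →L[ℂ] F) M U) (hN : HolOn (F →L[ℂ] F) N U) :
    HolOn (F →L[ℂ] F) (fun z => M z * N z) U := by
  have h1 : DifferentiableOn ℂ (fun p : (F →L[ℂ] F) × (F →L[ℂ] F) => p.1 * p.2) univ :=
    (differentiable_fst.mul differentiable_snd).differentiableOn
  exact holOn_comp h1 (holOn_prodMk hM hN) (fun z _ => mem_univ _)

/-- Inverse of an invertible operator valued map. -/
theorem holOn_opInv [CompleteSpace F] {U : Set R} {M : R → F →L[ℂ] F}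
    (hM : HolOn (F →L[ℂ] F) M U) (h : ∀ z ∈ U, IsUnit (M z)) :
    HolOn (F →L[ℂ] F) (fun z => Ring.inverse (M z)) U := by
  have h1 : DifferentiableOn ℂ (fun p : F →L[ℂ] F => Ring.inverse p) {p | IsUnit p} :=
    fun p hp => (differentiableAt_inverse hp).differentiableWithinAt
  exact holOn_comp h1 hM h

/-- Operator valued maps, `F` finite dimensional: holomorphic if all columns are. -/
theorem holOn_op_of_apply [FiniteDimensional ℂ F] {U : Set R} {M : R → F →L[ℂ] G}
    (h : ∀ v, HolOn G (fun z => M z v) U) : HolOn (F →L[ℂ] G) M U := by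
  let b := Module.finBasis ℂ F
  let c : Fin (Module.finrank ℂ F) → (F →L[ℂ] ℂ) := fun i =>
    LinearMap.toContinuousLinearMap (b.coord i)
  have h1 : HolOn (F →L[ℂ] G) (fun z => ∑ i, (ContinuousLinearMap.smulRightL ℂ F G (c i))
      (M z (b i))) U := by
    refine holOn_sum _ fun i _ => ?_
    exact holOn_comp (V := univ) (ContinuousLinearMap.differentiable _).differentiableOn
      (h (b i)) (fun z _ => mem_univ _)
  refine HolOn.congr' h1 fun z _ => ?_
  ext v
  have h2 : v = ∑ i, (b.coord i v) • b i := by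
    conv_lhs => rw [← b.sum_repr v]
    rfl
  conv_lhs => rw [h2]
  rw [map_sum, sum_apply]
  refine Finset.sum_congr rfl fun i _ => ?_
  rw [map_smul]
  rfl

/-- Composition with a holomorphic map of `R × E`. -/
theorem holOn_comp_spray {U : Set R} {V : Set F} {s : R → F → X}
    (hs : MDifferentiableOn ((modelWithCornersSelf ℂ ℂ).prod (modelWithCornersSelf ℂ F))
      (modelWithCornersSelf ℂ E) (fun q : R × F => s q.1 q.2) (U ×ˢ V))
    {α : R → F} (hα : HolOn F α U) (hαV : ∀ z ∈ U, α z ∈ V) : HolOn E (fun z => s z (α z)) U := by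
  have h1 : MDifferentiableOn (modelWithCornersSelf ℂ ℂ)
      ((modelWithCornersSelf ℂ ℂ).prod (modelWithCornersSelf ℂ F))
      (fun z : R => (z, α z)) U := mdifferentiableOn_id.prodMk hα
  exact MDifferentiableOn.comp hs h1 (fun z hz => ⟨hz, hαV z hz⟩)

/-! ### Limits -/

theorem holOn_of_tendsto [CompleteSpace F] {U : Set R} (hU : IsOpen U) {f : ℕ → R → F} {g : R → F}
    (hf : ∀ n, HolOn F (f n) U) (h : TendstoLocallyUniformlyOn f g atTop U) : HolOn F g U :=   holOn_of_tendstoLocallyUniformlyOn hU hf h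

/-- The same for maps into a metric complex manifold. -/
theorem holOn_of_tendstoX {X : Type*} [MetricSpace X] [ChartedSpace E X]
    [IsManifold (modelWithCornersSelf ℂ E) ω X] [CompleteSpace E] {U : Set R} (hU : IsOpen U)
    {f : ℕ → R → X} {g : R → X} (hf : ∀ n, HolOn E (f n) U)
    (h : TendstoLocallyUniformlyOn f g atTop U) : HolOn E g U := by
  have hgc : ContinuousOn g U :=
    h.continuousOn (Frequently.of_forall fun n => (hf n).continuousOn)
  have hloc := Metric.tendstoLocallyUniformlyOn_iff.1 h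
  refine holOn_of_local fun z₀ hz₀ => ?_
  let φ := chartAt E (g z₀)
  have hφ : φ ∈ XChart E X := IsManifold.chart_mem_maximalAtlas _
  have hsrc : φ.source ∈ 𝓝 (g z₀) := φ.open_source.mem_nhds (mem_chart_source E (g z₀))
  obtain ⟨ε, hε, hball⟩ := Metric.mem_nhds_iff.1 hsrc
  obtain ⟨t, ht, htN⟩ := hloc (ε / 2) (by positivity) z₀ hz₀
  rw [hU.nhdsWithin_eq hz₀] at ht
  obtain ⟨N, hN⟩ := eventually_atTop.1 htN
  have hc0 : ContinuousAt g z₀ := (hgc z₀ hz₀).continuousAt (hU.mem_nhds hz₀)
  have hc1 : ∀ᶠ z in 𝓝 z₀, dist (g z) (g z₀) < ε / 2 :=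
    Metric.tendsto_nhds.1 hc0 (ε / 2) (by positivity)
  have hmem : t ∩ {z | dist (g z) (g z₀) < ε / 2} ∩ U ∈ 𝓝 z₀ :=
    inter_mem (inter_mem ht hc1) (hU.mem_nhds hz₀)
  obtain ⟨V, hVsub, hVo, hzV⟩ := mem_nhds_iff.1 hmem
  have hgV : ∀ z ∈ V, g z ∈ φ.source := fun z hz =>
    hball (Metric.mem_ball.2 ((hVsub hz).1.2.trans (by linarith)))
  have hfV : ∀ n, ∀ z ∈ V, f (n + N) z ∈ φ.source := by
    intro n z hz
    have h1 := hN (n + N) (by omega) z (hVsub hz).1.1
    have h2 : dist (g z) (g z₀) < ε / 2 := (hVsub hz).1.2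
    refine hball (Metric.mem_ball.2 ?_)
    calc dist (f (n + N) z) (g z₀) ≤ dist (f (n + N) z) (g z) + dist (g z) (g z₀) :=
          dist_triangle _ _ _
      _ < ε := by rw [dist_comm] at h1; linarith
  have hlim : TendstoLocallyUniformlyOn (fun n z => φ (f (n + N) z)) (fun z => φ (g z)) atTop V := by
    rw [Metric.tendstoLocallyUniformlyOn_iff]
    intro ε' hε' x hx
    have hcφ : ContinuousAt φ (g x) := φ.continuousAt (hgV x hx)
    obtain ⟨δ, hδ, hδφ⟩ := Metric.continuousAt_iff.1 hcφ (ε' / 2) (by positivity)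
    have hxU : x ∈ U := (hVsub hx).2
    obtain ⟨t', ht', htN'⟩ := hloc (δ / 2) (by positivity) x hxU
    rw [hU.nhdsWithin_eq hxU] at ht'
    have hcx : ContinuousAt g x := (hgc x hxU).continuousAt (hU.mem_nhds hxU)
    have hc2 : ∀ᶠ z in 𝓝 x, dist (g z) (g x) < δ / 2 :=
      Metric.tendsto_nhds.1 hcx (δ / 2) (by positivity)
    refine ⟨t' ∩ {z | dist (g z) (g x) < δ / 2}, mem_nhdsWithin_of_mem_nhds (inter_mem ht' hc2), ?_⟩
    obtain ⟨N', hN'⟩ := eventually_atTop.1 htN'
    filter_upwards [eventually_ge_atTop N'] with n hn z hz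
    have h1 := hN' (n + N) (by omega) z hz.1
    have h2 : dist (g z) (g x) < δ / 2 := hz.2
    have h3 : dist (φ (g z)) (φ (g x)) < ε' / 2 := hδφ (by linarith)
    have h4 : dist (φ (f (n + N) z)) (φ (g x)) < ε' / 2 := by
      apply hδφ
      calc dist (f (n + N) z) (g x) ≤ dist (f (n + N) z) (g z) + dist (g z) (g x) :=
            dist_triangle _ _ _
        _ < δ := by rw [dist_comm] at h1; linarith
    calc dist (φ (g z)) (φ (f (n + N) z)) ≤
          dist (φ (g z)) (φ (g x)) + dist (φ (g x)) (φ (f (n + N) z)) := dist_triangle _ _ _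
      _ < ε' := by rw [dist_comm (φ (g x))]; linarith
  have hhol : HolOn E (fun z => φ (g z)) V :=
    holOn_of_tendsto hVo (fun n => holOn_chart_comp hφ ((hf (n + N)).mono
      (fun z hz => (hVsub hz).2)) (hfV n)) hlim
  refine ⟨V, hVo, hzV, ?_⟩
  have h5 := holOn_chart_symm_comp hφ hhol (fun z hz => φ.map_source (hgV z hz))
  refine MDifferentiableOn.congr h5 fun z hz => ?_
  show g z = φ.symm (φ (g z))
  rw [φ.left_inv (hgV z hz)]

/-! ### Division by a function with a simple zero -/

private theorem exists_open_missing {z p : R} (h : z ≠ p) :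
    ∃ V : Set R, IsOpen V ∧ z ∈ V ∧ p ∉ V := by
  let e := chartAt ℂ z
  by_cases hp : p ∈ e.source
  · refine ⟨e.source ∩ e ⁻¹' {e p}ᶜ, e.isOpen_inter_preimage isOpen_compl_singleton,
      ⟨mem_chart_source ℂ z, ?_⟩, fun hc => hc.2 rfl⟩
    intro hc
    exact h (e.injOn (mem_chart_source ℂ z) hp hc)
  · exact ⟨e.source, e.open_source, mem_chart_source ℂ z, hp⟩

theorem exists_div [CompleteSpace F] {U : Set R} (hU : IsOpen U) {q : R → ℂ} {p : R} (hq : HolOn ℂ q U)
    (hq0 : ∀ z ∈ U, q z = 0 → z = p) (hs : SimpleZero q p) {h : R → F} (hh : HolOn F h U)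
    (hp : p ∈ U → h p = 0) : ∃ g : R → F, HolOn F g U ∧ ∀ z ∈ U, h z = q z • g z := by
  by_cases hpU : p ∈ U
  · let e := chartAt ℂ p
    have he : e ∈ RChart R := IsManifold.chart_mem_maximalAtlas _
    have hpe : p ∈ e.source := mem_chart_source ℂ p
    set V : Set R := U ∩ e.source with hV
    have hVo : IsOpen V := hU.inter e.open_source
    have hpV : p ∈ V := ⟨hpU, hpe⟩
    have himg : e '' V ∈ 𝓝 (e p) := by
      have : IsOpen (e '' V) := e.isOpen_image_of_subset_source hVo inter_subset_right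
      exact this.mem_nhds (mem_image_of_mem _ hpV)
    set qe : ℂ → ℂ := fun ζ => q (e.symm ζ) with hqe
    set hE : ℂ → F := fun ζ => h (e.symm ζ) with hhE
    have hqd : DifferentiableOn ℂ qe (e '' V) :=
      (holOn_iff_inChart he hVo inter_subset_right).1 (hq.mono inter_subset_left)
    have hhd : DifferentiableOn ℂ hE (e '' V) :=
      (holOn_iff_inChart he hVo inter_subset_right).1 (hh.mono inter_subset_left)
    have hqd' : DifferentiableOn ℂ (dslope qe (e p)) (e '' V) :=
      (Complex.differentiableOn_dslope himg).2 hqd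
    have hhd' : DifferentiableOn ℂ (dslope hE (e p)) (e '' V) :=
      (Complex.differentiableOn_dslope himg).2 hhd
    have hqp : qe (e p) = 0 := by
      rw [hqe]
      show q (e.symm (e p)) = 0
      rw [e.left_inv hpe]
      exact hs.1
    have hhp : hE (e p) = 0 := by
      rw [hhE]
      show h (e.symm (e p)) = 0
      rw [e.left_inv hpe]
      exact hp hpU
    have hqw : ∀ w ∈ V, w ≠ p → dslope qe (e p) (e w) = (e w - e p)⁻¹ • q w := by
      intro w hw hne
      have hne' : e w ≠ e p := fun hc => hne (e.injOn hw.2 hpe hc)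
      rw [dslope_of_ne _ hne', slope_def_module, hqp, sub_zero, hqe]
      show (e w - e p)⁻¹ • q (e.symm (e w)) = _
      rw [e.left_inv hw.2]
    have hhw : ∀ w ∈ V, w ≠ p → dslope hE (e p) (e w) = (e w - e p)⁻¹ • h w := by
      intro w hw hne
      have hne' : e w ≠ e p := fun hc => hne (e.injOn hw.2 hpe hc)
      rw [dslope_of_ne _ hne', slope_def_module, hhp, sub_zero, hhE]
      show (e w - e p)⁻¹ • h (e.symm (e w)) = _
      rw [e.left_inv hw.2]
    have hq1 : ∀ ζ ∈ e '' V, dslope qe (e p) ζ ≠ 0 := by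
      rintro _ ⟨w, hw, rfl⟩
      by_cases hwp : w = p
      · subst hwp
        rw [dslope_same]
        exact hs.2 e he hpe
      · rw [hqw w hw hwp]
        refine smul_ne_zero (inv_ne_zero (sub_ne_zero.2 fun hc => hwp (e.injOn hw.2 hpe hc))) ?_
        exact fun hc => hwp (hq0 w hw.1 hc)
    classical
    refine ⟨fun z => if z = p then (dslope qe (e p) (e p))⁻¹ • dslope hE (e p) (e p)
      else (q z)⁻¹ • h z, ?_, ?_⟩
    · refine holOn_of_local fun z hz => ?_
      by_cases hzp : z = p
      · subst hzp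
        refine ⟨V, hVo, hpV, ?_⟩
        rw [holOn_iff_inChart he hVo inter_subset_right]
        refine ((hqd'.inv hq1).smul hhd').congr ?_
        rintro _ ⟨w, hw, rfl⟩
        show (if e.symm (e w) = z then _ else (q (e.symm (e w)))⁻¹ • h (e.symm (e w))) =
          (dslope qe (e z) (e w))⁻¹ • dslope hE (e z) (e w)
        rw [e.left_inv hw.2]
        by_cases hwz : w = z
        · subst hwz
          rw [if_pos rfl]
        · rw [if_neg hwz, hqw w hw hwz, hhw w hw hwz, smul_eq_mul, mul_inv, inv_inv, smul_smul]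
          congr 1
          have hne : e w - e z ≠ 0 := sub_ne_zero.2 fun hc => hwz (e.injOn hw.2 hpe hc)
          field_simp
      · obtain ⟨V', hV', hzV', hpV'⟩ := exists_open_missing hzp
        refine ⟨U ∩ V', hU.inter hV', ⟨hz, hzV'⟩, ?_⟩
        have hne : ∀ w ∈ U ∩ V', w ≠ p := by
          rintro w hw rfl
          exact hpV' hw.2
        have h1 : HolOn F (fun z => (q z)⁻¹ • h z) (U ∩ V') :=
          holOn_smul (holOn_inv (hq.mono inter_subset_left)
            (fun w hw hc => hne w hw (hq0 w hw.1 hc))) (hh.mono inter_subset_left)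
        exact HolOn.congr' h1 fun w hw => if_neg (hne w hw)
    · intro z hz
      by_cases hzp : z = p
      · subst hzp
        rw [hp hpU, hs.1, zero_smul]
      · have hqz : q z ≠ 0 := fun hc => hzp (hq0 z hz hc)
        show h z = q z • (if z = p then _ else (q z)⁻¹ • h z)
        rw [if_neg hzp, smul_smul, mul_inv_cancel₀ hqz, one_smul]
  · have hqz : ∀ z ∈ U, q z ≠ 0 := by
      intro z hz hc
      have := hq0 z hz hc
      subst this
      exact hpU hz
    refine ⟨fun z => (q z)⁻¹ • h z, holOn_smul (holOn_inv hq hqz) hh, fun z hz => ?_⟩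
    rw [smul_smul, mul_inv_cancel₀ (hqz z hz), one_smul]

/-- Riemann's removable singularity theorem on `R` (one point, bounded). -/
theorem removable [T1Space R] [CompleteSpace F] {U : Set R} (hU : IsOpen U) {p : R} (hp : p ∈ U)
    {g : R → F} (hg : HolOn F g (U \ {p})) {C : ℝ} (hb : ∀ z ∈ U \ {p}, ‖g z‖ ≤ C) :
    ∃ g' : R → F, HolOn F g' U ∧ ∀ z ∈ U, z ≠ p → g' z = g z := by
  let e := chartAt ℂ p
  have he : e ∈ RChart R := IsManifold.chart_mem_maximalAtlas _
  have hpe : p ∈ e.source := mem_chart_source ℂ p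
  set V : Set R := U ∩ e.source with hV
  have hVo : IsOpen V := hU.inter e.open_source
  have hpV : p ∈ V := ⟨hp, hpe⟩
  have himg : e '' V ∈ 𝓝 (e p) := by
    have : IsOpen (e '' V) := e.isOpen_image_of_subset_source hVo inter_subset_right
    exact this.mem_nhds (mem_image_of_mem _ hpV)
  have hdiff : DifferentiableOn ℂ (fun ζ => g (e.symm ζ)) (e '' V \ {e p}) := by
    have h1 : HolOn F g (V \ {p}) := hg.mono (fun z hz => ⟨hz.1.1, hz.2⟩)
    have hop : IsOpen (V \ {p}) := hVo.sdiff isClosed_singleton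
    have h2 := (holOn_iff_inChart he hop (fun z hz => hz.1.2)).1 h1
    refine h2.mono ?_
    rintro _ ⟨⟨z, hz, rfl⟩, hne⟩
    refine ⟨z, ⟨hz, ?_⟩, rfl⟩
    rintro rfl
    exact hne rfl
  have hbdd : BddAbove (norm ∘ (fun ζ => g (e.symm ζ)) '' (e '' V \ {e p})) := by
    refine ⟨C, ?_⟩
    rintro _ ⟨_, ⟨⟨z, hz, rfl⟩, hne⟩, rfl⟩
    show ‖g (e.symm (e z))‖ ≤ C
    rw [e.left_inv hz.2]
    refine hb z ⟨hz.1, ?_⟩
    rintro rfl
    exact hne rfl
  have hext := Complex.differentiableOn_update_limUnder_of_bddAbove himg hdiff hbdd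
  set l := limUnder (𝓝[≠] (e p)) (fun ζ => g (e.symm ζ)) with hl
  classical
  refine ⟨fun z => if z = p then l else g z, ?_, fun z _ hne => if_neg hne⟩
  refine holOn_of_local fun z hz => ?_
  by_cases hzp : z = p
  · subst hzp
    refine ⟨V, hVo, hpV, ?_⟩
    rw [holOn_iff_inChart he hVo inter_subset_right]
    refine hext.congr ?_
    rintro _ ⟨w, hw, rfl⟩
    show (if e.symm (e w) = z then l else g (e.symm (e w))) = _
    rw [e.left_inv hw.2]
    by_cases hwz : w = z
    · subst hwz
      rw [if_pos rfl, Function.update_self]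
    · rw [if_neg hwz, Function.update_of_ne, e.left_inv hw.2]
      intro hc
      exact hwz (e.injOn hw.2 hpe hc)
  · refine ⟨U \ {p}, hU.sdiff isClosed_singleton, ⟨hz, hzp⟩, ?_⟩
    refine HolOn.congr' hg fun w hw => ?_
    exact if_neg hw.2

end Pool.Agent.W_4d259d_h44
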