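import Mathlib

/-!
# MP_4d259d_ag, module A: complex differentiable maps between normed spaces
-/

noncomputable section

namespace Pool.Agent.W_4d259d_h44.ApiC

open Set Filter Topology Metric
open scoped ContDiff Interval

variable {F : Type*} [NormedAddCommGroup F] [NormedSpace ℂ F]
variable {G : Type*} [NormedAddCommGroup G] [NormedSpace ℂ G] [CompleteSpace G]

/-- Cauchy estimate for the derivative. -/
theorem norm_fderiv_le {f : F → G} {x0 : F} {r M : ℝ} (hf : DifferentiableOn ℂ f (ball x0 r))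
    (hM : ∀ x ∈ ball x0 r, ‖f x‖ ≤ M) {x : F} (hx : x ∈ ball x0 r) :
    ‖fderiv ℂ f x‖ ≤ M / (r - ‖x - x0‖) := by
  have hxs : 0 < r - ‖x - x0‖ := by
    rw [mem_ball_iff_norm] at hx
    linarith
  have hM0 : 0 ≤ M := (norm_nonneg _).trans (hM x hx)
  have hfx : DifferentiableAt ℂ f x := hf.differentiableAt (isOpen_ball.mem_nhds hx)
  refine ContinuousLinearMap.opNorm_le_bound _ (by positivity) fun v => ?_
  rcases eq_or_ne v 0 with hv | hv
  · simp [hv]
  have hvn : 0 < ‖v‖ := norm_pos_iff.2 hv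
  -- for each smaller radius
  have key : ∀ s : ℝ, 0 < s → s < r - ‖x - x0‖ → ‖fderiv ℂ f x v‖ ≤ M * ‖v‖ / s := by
    intro s hs hsr
    have hcl : ∀ t ∈ closedBall (0 : ℂ) (s / ‖v‖), x + t • v ∈ ball x0 r := by
      intro t ht
      rw [mem_closedBall_zero_iff] at ht
      have h1 : ‖t • v‖ ≤ s := by
        rw [norm_smul]
        calc ‖t‖ * ‖v‖ ≤ s / ‖v‖ * ‖v‖ := by gcongr
          _ = s := by field_simp
      rw [mem_ball_iff_norm]
      have h2 : x + t • v - x0 = (x - x0) + t • v := by abel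
      rw [h2]
      exact (norm_add_le _ _).trans_lt (by linarith)
    have hd : DifferentiableOn ℂ (fun t : ℂ => f (x + t • v)) (closedBall 0 (s / ‖v‖)) := by
      intro t ht
      have h1 := (hf.differentiableAt (isOpen_ball.mem_nhds (hcl t ht)))
      have h2 : DifferentiableAt ℂ (fun t : ℂ => x + t • v) t := by fun_prop
      exact (h1.comp t h2).differentiableWithinAt
    have h3 := Complex.norm_deriv_le_of_forall_mem_sphere_norm_le (c := 0) (R := s / ‖v‖) (C := M)
      (f := fun t : ℂ => f (x + t • v)) (by positivity)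
      (hd.diffContOnCl_ball subset_rfl)
      (fun t ht => hM _ (hcl t (sphere_subset_closedBall ht)))
    have h4 : deriv (fun t : ℂ => f (x + t • v)) 0 = fderiv ℂ f x v := by
      have h5 : HasDerivAt (fun t : ℂ => x + t • v) v 0 := by
        have := ((hasDerivAt_id (0 : ℂ)).smul_const v).const_add x
        simpa using this
      have h6 : HasFDerivAt f (fderiv ℂ f x) (x + (0 : ℂ) • v) := by
        rw [zero_smul, add_zero]
        exact hfx.hasFDerivAt
      exact (h6.comp_hasDerivAt (0 : ℂ) h5).deriv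
    rw [h4] at h3
    calc ‖fderiv ℂ f x v‖ ≤ M / (s / ‖v‖) := h3
      _ = M * ‖v‖ / s := by field_simp
  have hlim : Tendsto (fun s : ℝ => M * ‖v‖ / s) (𝓝[<] (r - ‖x - x0‖))
      (𝓝 (M * ‖v‖ / (r - ‖x - x0‖))) := by
    refine Tendsto.mono_left ?_ nhdsWithin_le_nhds
    exact tendsto_const_nhds.div tendsto_id hxs.ne'
  have hev : ∀ᶠ s in 𝓝[<] (r - ‖x - x0‖), ‖fderiv ℂ f x v‖ ≤ M * ‖v‖ / s := by
    filter_upwards [Ioo_mem_nhdsLT hxs] with s hs
    exact key s hs.1 hs.2
  have h7 := ge_of_tendsto hlim hev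
  calc ‖fderiv ℂ f x v‖ ≤ M * ‖v‖ / (r - ‖x - x0‖) := h7
    _ = M / (r - ‖x - x0‖) * ‖v‖ := by ring

/-- Taylor estimate of order two. -/
theorem taylor_two {f : F → G} {x0 : F} {r M : ℝ} (hf : DifferentiableOn ℂ f (ball x0 r))
    (hM : ∀ x ∈ ball x0 r, ‖f x‖ ≤ M) {v : F} (hv : ‖v‖ < r) :
    ‖f (x0 + v) - f x0 - fderiv ℂ f x0 v‖ ≤ 4 * M * ‖v‖ ^ 2 / r ^ 2 := by
  have hr : 0 < r := (norm_nonneg v).trans_lt hv
  have hx0 : x0 ∈ ball x0 r := mem_ball_self hr
  have hM0 : 0 ≤ M := (norm_nonneg _).trans (hM x0 hx0)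
  have hder := norm_fderiv_le hf hM hx0
  rw [sub_self, norm_zero, sub_zero] at hder
  have hfx : DifferentiableAt ℂ f x0 := hf.differentiableAt (isOpen_ball.mem_nhds hx0)
  set g : F → G := fun w => f w - fderiv ℂ f x0 (w - x0) with hg
  have hgd : DifferentiableOn ℂ g (ball x0 r) := by
    refine hf.sub ?_
    exact (fderiv ℂ f x0).differentiable.comp_differentiableOn (by fun_prop)
  have hg0 : g x0 = f x0 := by simp [hg]
  have hmaps : MapsTo g (ball x0 r) (closedBall (g x0) (4 * M)) := by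
    intro w hw
    rw [mem_closedBall_iff_norm, hg0]
    have h1 : g w - f x0 = f w - f x0 - fderiv ℂ f x0 (w - x0) := by
      simp only [hg]
      abel
    rw [h1]
    have h2 := hM w hw
    have h3 := hM x0 hx0
    have h4 : ‖fderiv ℂ f x0 (w - x0)‖ ≤ M := by
      refine ((fderiv ℂ f x0).le_opNorm _).trans ?_
      rw [mem_ball_iff_norm] at hw
      calc ‖fderiv ℂ f x0‖ * ‖w - x0‖ ≤ M / r * r := by gcongr
        _ = M := by field_simp
    have h5 := norm_sub_le (f w - f x0) (fderiv ℂ f x0 (w - x0))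
    have h6 := norm_sub_le (f w) (f x0)
    linarith
  have hlo : (g · - g x0) =o[𝓝 x0] fun w => ‖w - x0‖ ^ 1 := by
    have h1 := hfx.hasFDerivAt.isLittleO
    have h2 : (fun w => g w - g x0) = fun w => f w - f x0 - fderiv ℂ f x0 (w - x0) := by
      funext w
      rw [hg0]
      simp only [hg]
      abel
    rw [h2]
    simpa using h1.norm_right
  have hz : x0 + v ∈ ball x0 r := by
    rw [mem_ball_iff_norm]
    simpa using hv
  have h := Complex.dist_le_mul_div_pow_of_mapsTo_ball_of_isLittleO hgd hmaps hlo hz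
  rw [dist_eq_norm, dist_eq_norm, hg0] at h
  have h1 : g (x0 + v) - f x0 = f (x0 + v) - f x0 - fderiv ℂ f x0 v := by
    simp only [hg]
    rw [add_sub_cancel_left]
    abel
  rw [h1, add_sub_cancel_left] at h
  refine h.trans (le_of_eq ?_)
  rw [div_pow]
  ring

/-- Lipschitz estimate from a bound. -/
theorem lip_of_bound {f : F → G} {x0 : F} {r r' M : ℝ} (hr : r' < r)
    (hf : DifferentiableOn ℂ f (ball x0 r))
    (hM : ∀ x ∈ ball x0 r, ‖f x‖ ≤ M) {x y : F} (hx : x ∈ ball x0 r') (hy : y ∈ ball x0 r') :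
    ‖f x - f y‖ ≤ M / (r - r') * ‖x - y‖ := by
  have hM0 : 0 ≤ M := (norm_nonneg _).trans (hM x (ball_subset_ball hr.le hx))
  refine Convex.norm_image_sub_le_of_norm_fderiv_le (𝕜 := ℂ) (s := ball x0 r')
    (fun z hz => hf.differentiableAt (isOpen_ball.mem_nhds (ball_subset_ball hr.le hz)))
    (fun z hz => ?_) (convex_ball x0 r') hy hx
  refine (norm_fderiv_le hf hM (ball_subset_ball hr.le hz)).trans ?_
  rw [mem_ball_iff_norm] at hz
  exact div_le_div_of_nonneg_left hM0 (by linarith) (by linarith)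

/-- A map with vanishing first jet is small to second order, with Lipschitz estimate. -/
theorem quad_lip {f : F → G} {r M : ℝ} (hf : DifferentiableOn ℂ f (ball 0 r))
    (hM : ∀ x ∈ ball (0 : F) r, ‖f x‖ ≤ M) (h0 : f 0 = 0) (h1 : fderiv ℂ f 0 = 0) {x y : F}
    (hx : ‖x‖ < r / 2) (hy : ‖y‖ < r / 2) :
    ‖f x - f y‖ ≤ 4 * M / r ^ 2 * (‖x‖ + ‖y‖) * ‖x - y‖ := by
  have hr : 0 < r := by
    have := norm_nonneg x
    linarith
  have hM0 : 0 ≤ M := (norm_nonneg _).trans (hM 0 (mem_ball_self hr))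
  have hf0 : DifferentiableAt ℂ f 0 :=
    hf.differentiableAt (isOpen_ball.mem_nhds (mem_ball_self hr))
  -- the quadratic bound
  have hquad : ∀ w ∈ ball (0 : F) r, ‖f w‖ ≤ M * (‖w‖ / r) ^ 2 := by
    intro w hw
    have hmaps : MapsTo f (ball 0 r) (closedBall (f 0) M) := by
      intro z hz
      rw [mem_closedBall_iff_norm, h0, sub_zero]
      exact hM z hz
    have hlo : (f · - f 0) =o[𝓝 0] fun w => ‖w - 0‖ ^ 1 := by
      have h2 := hf0.hasFDerivAt.isLittleO
      rw [h1] at h2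
      simpa using h2.norm_right
    have h := Complex.dist_le_mul_div_pow_of_mapsTo_ball_of_isLittleO hf hmaps hlo hw
    rw [dist_eq_norm, dist_eq_norm, h0, sub_zero, sub_zero] at h
    exact h
  have hder : ∀ z : F, ‖z‖ < r / 2 → ‖fderiv ℂ f z‖ ≤ 4 * M / r ^ 2 * ‖z‖ := by
    intro z hz
    rcases eq_or_ne z 0 with hz0 | hz0
    · rw [hz0, h1]
      simp
    have hzn : 0 < ‖z‖ := norm_pos_iff.2 hz0
    have hsub : ball z ‖z‖ ⊆ ball 0 r := by
      intro w hw
      rw [mem_ball_iff_norm] at hw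
      rw [mem_ball_zero_iff]
      have h2 : ‖w‖ ≤ ‖w - z‖ + ‖z‖ := by
        have := norm_add_le (w - z) z
        simpa using this
      linarith
    have h3 := norm_fderiv_le (x0 := z) (r := ‖z‖) (M := M * (2 * ‖z‖ / r) ^ 2) (hf.mono hsub)
      (fun w hw => (hquad w (hsub hw)).trans (by
        rw [mem_ball_iff_norm] at hw
        have h2 : ‖w‖ ≤ ‖w - z‖ + ‖z‖ := by
          have := norm_add_le (w - z) z
          simpa using this
        have h4 : ‖w‖ ≤ 2 * ‖z‖ := by linarith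
        gcongr)) (mem_ball_self hzn)
    rw [sub_self, norm_zero, sub_zero] at h3
    refine h3.trans (le_of_eq ?_)
    field_simp
    ring
  set m : ℝ := max ‖x‖ ‖y‖ with hm
  have hmr : m < r / 2 := max_lt hx hy
  have hmle : m ≤ ‖x‖ + ‖y‖ :=
    max_le (by linarith [norm_nonneg y]) (by linarith [norm_nonneg x])
  have hm0 : 0 ≤ m := (norm_nonneg x).trans (le_max_left _ _)
  have hlip := Convex.norm_image_sub_le_of_norm_fderiv_le (𝕜 := ℂ) (f := f)
    (s := closedBall (0 : F) m) (C := 4 * M / r ^ 2 * m) (x := y) (y := x)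
    (fun z hz => hf.differentiableAt (isOpen_ball.mem_nhds (by
      rw [mem_closedBall_zero_iff] at hz
      rw [mem_ball_zero_iff]
      linarith)))
    (fun z hz => by
      rw [mem_closedBall_zero_iff] at hz
      refine (hder z (by linarith)).trans ?_
      gcongr) (convex_closedBall 0 m)
    (mem_closedBall_zero_iff.2 (le_max_right _ _)) (mem_closedBall_zero_iff.2 (le_max_left _ _))
  refine hlip.trans ?_
  gcongr

/-- The derivative is continuous. -/
theorem continuousOn_fderiv {f : F → G} {U : Set F} (hU : IsOpen U)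
    (hf : DifferentiableOn ℂ f U) : ContinuousOn (fderiv ℂ f) U := by
  intro x hx
  apply ContinuousAt.continuousWithinAt
  have hfx : ContinuousAt f x := (hf.differentiableAt (hU.mem_nhds hx)).continuousAt
  obtain ⟨s1, hs1, hs1U⟩ := Metric.isOpen_iff.1 hU x hx
  have hev : ∀ᶠ w in 𝓝 x, ‖f w‖ < ‖f x‖ + 1 :=
    hfx.norm.eventually (gt_mem_nhds (by linarith))
  obtain ⟨s2, hs2, hs2b⟩ := Metric.eventually_nhds_iff_ball.1 hev
  set s : ℝ := min s1 s2 / 3 with hs
  have hspos : 0 < s := by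
    have := lt_min hs1 hs2
    positivity
  have h3s : 3 * s = min s1 s2 := by rw [hs]; ring
  set M : ℝ := ‖f x‖ + 1 with hM
  have hM0 : 0 < M := by positivity
  have hd : DifferentiableOn ℂ f (ball x (3 * s)) :=
    hf.mono ((ball_subset_ball (by rw [h3s]; exact min_le_left _ _)).trans hs1U)
  have hb : ∀ w ∈ ball x (3 * s), ‖f w‖ ≤ M := fun w hw =>
    (hs2b w (ball_subset_ball (by rw [h3s]; exact min_le_right _ _) hw)).le
  have hest : ∀ y ∈ ball x s, ‖fderiv ℂ f y - fderiv ℂ f x‖ ≤ M / s ^ 2 * ‖y - x‖ := by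
    intro y hy
    rw [mem_ball_iff_norm] at hy
    set g : F → G := fun w => f (w + (y - x)) - f w with hg
    have hmem : ∀ w ∈ ball x s, w + (y - x) ∈ ball x (2 * s) ∧ w ∈ ball x (2 * s) := by
      intro w hw
      rw [mem_ball_iff_norm] at hw
      refine ⟨?_, ?_⟩
      · rw [mem_ball_iff_norm]
        have : w + (y - x) - x = (w - x) + (y - x) := by abel
        rw [this]
        exact (norm_add_le _ _).trans_lt (by linarith)
      · rw [mem_ball_iff_norm]
        linarith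
    have hsub23 : ball x (2 * s) ⊆ ball x (3 * s) := ball_subset_ball (by linarith)
    have hfd : ∀ w ∈ ball x (2 * s), DifferentiableAt ℂ f w := fun w hw =>
      hd.differentiableAt (isOpen_ball.mem_nhds (hsub23 hw))
    have hgd : DifferentiableOn ℂ g (ball x s) := by
      intro w hw
      obtain ⟨h1, h2⟩ := hmem w hw
      have h3 : DifferentiableAt ℂ (fun w => f (w + (y - x))) w :=
        (hfd _ h1).comp w (by fun_prop)
      exact (h3.sub (hfd _ h2)).differentiableWithinAt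
    have hgb : ∀ w ∈ ball x s, ‖g w‖ ≤ M / s * ‖y - x‖ := by
      intro w hw
      obtain ⟨h1, h2⟩ := hmem w hw
      have h3 := lip_of_bound (r := 3 * s) (r' := 2 * s) (by linarith) hd hb h1 h2
      have h4 : w + (y - x) - w = y - x := by abel
      rw [h4] at h3
      have h5 : 3 * s - 2 * s = s := by ring
      rw [h5] at h3
      exact h3
    have h6 := norm_fderiv_le hgd hgb (mem_ball_self hspos)
    rw [sub_self, norm_zero, sub_zero] at h6
    have hx2 : x ∈ ball x (2 * s) := mem_ball_self (by linarith)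
    have hy2 : y ∈ ball x (2 * s) := by
      rw [mem_ball_iff_norm]
      linarith
    have h7 : fderiv ℂ g x = fderiv ℂ f y - fderiv ℂ f x := by
      have h8 : HasFDerivAt (fun w => f (w + (y - x))) (fderiv ℂ f y) x := by
        have h9 : HasFDerivAt f (fderiv ℂ f y) (x + (y - x)) := by
          have : x + (y - x) = y := by abel
          rw [this]
          exact (hfd y hy2).hasFDerivAt
        have h10 : HasFDerivAt (fun w : F => w + (y - x)) (ContinuousLinearMap.id ℂ F) x :=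
          (hasFDerivAt_id x).add_const _
        exact h9.comp x h10
      exact (h8.sub (hfd x hx2).hasFDerivAt).fderiv
    rw [h7] at h6
    refine h6.trans (le_of_eq ?_)
    field_simp
  rw [ContinuousAt, tendsto_iff_norm_sub_tendsto_zero]
  have hlim : Tendsto (fun y => M / s ^ 2 * ‖y - x‖) (𝓝 x) (𝓝 0) := by
    have : Continuous fun y : F => M / s ^ 2 * ‖y - x‖ := by fun_prop
    have h := this.tendsto x
    simpa using h
  refine squeeze_zero' (Eventually.of_forall fun _ => norm_nonneg _) ?_ hlim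
  filter_upwards [ball_mem_nhds x hspos] with y hy
  exact hest y hy

/-- Complex differentiable maps are `C¹` (any normed space). -/
theorem contDiffOn_one {f : F → G} {U : Set F} (hU : IsOpen U) (hf : DifferentiableOn ℂ f U) :
    ContDiffOn ℂ 1 f U := by
  have h := (contDiffOn_succ_iff_fderiv_of_isOpen (𝕜 := ℂ) (n := 0) (f := f) hU).2
    ⟨hf, by simp, contDiffOn_zero.2 (continuousOn_fderiv hU hf)⟩
  simpa using h

theorem hasStrictFDerivAt {f : F → G} {U : Set F} (hU : IsOpen U) (hf : DifferentiableOn ℂ f U)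
    {x : F} (hx : x ∈ U) : HasStrictFDerivAt f (fderiv ℂ f x) x :=
  ((contDiffOn_one hU hf).contDiffAt (hU.mem_nhds hx)).hasStrictFDerivAt one_ne_zero

/-- Weierstrass' theorem for uniform convergence on a ball (any normed space). -/
theorem weierstrass_ball {f : ℕ → F → G} {g : F → G} {x0 : F} {s : ℝ}
    (hf : ∀ n, DifferentiableOn ℂ (f n) (ball x0 s))
    (h : TendstoUniformlyOn f g atTop (ball x0 s)) : DifferentiableOn ℂ g (ball x0 s) := by
  intro x hx
  apply DifferentiableAt.differentiableWithinAt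
  have hxs : 0 < s - ‖x - x0‖ := by
    rw [mem_ball_iff_norm] at hx
    linarith
  set d : ℝ := (s - ‖x - x0‖) / 2 with hd
  have hdpos : 0 < d := by positivity
  have hsub : ball x d ⊆ ball x0 s := by
    intro y hy
    rw [mem_ball_iff_norm] at hy ⊢
    have : y - x0 = (y - x) + (x - x0) := by abel
    rw [this]
    exact (norm_add_le _ _).trans_lt (by linarith)
  have hfd : ∀ n, ∀ y ∈ ball x0 s, DifferentiableAt ℂ (f n) y := fun n y hy =>
    (hf n).differentiableAt (isOpen_ball.mem_nhds hy)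
  have hcauchy : UniformCauchySeqOn (fun n => fderiv ℂ (f n)) atTop (ball x d) := by
    rw [Metric.uniformCauchySeqOn_iff]
    intro ε hε
    have h1 := h.uniformCauchySeqOn
    rw [Metric.uniformCauchySeqOn_iff] at h1
    obtain ⟨N, hN⟩ := h1 (ε * d / 2) (by positivity)
    refine ⟨N, fun m hm n hn y hy => ?_⟩
    have h2 := norm_fderiv_le (f := fun w => f m w - f n w) (M := ε * d / 2)
      ((hf m).sub (hf n)) (fun w hw => by
        have := (hN m hm n hn w hw).le
        rwa [dist_eq_norm] at this) (hsub hy)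
    have h3 : fderiv ℂ (fun w => f m w - f n w) y = fderiv ℂ (f m) y - fderiv ℂ (f n) y :=
      fderiv_fun_sub (hfd m y (hsub hy)) (hfd n y (hsub hy))
    rw [h3] at h2
    rw [dist_eq_norm]
    refine h2.trans_lt ?_
    have h4 : d ≤ s - ‖y - x0‖ := by
      rw [mem_ball_iff_norm] at hy
      have : y - x0 = (y - x) + (x - x0) := by abel
      have h5 : ‖y - x0‖ ≤ ‖y - x‖ + ‖x - x0‖ := by
        rw [this]
        exact norm_add_le _ _
      have h6 : s - ‖x - x0‖ = 2 * d := by rw [hd]; ring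
      linarith
    calc ε * d / 2 / (s - ‖y - x0‖) ≤ ε * d / 2 / d :=
          div_le_div_of_nonneg_left (by positivity) hdpos h4
      _ = ε / 2 := by field_simp
      _ < ε := by linarith
  have hlim : ∀ y ∈ ball x d, ∃ L, Tendsto (fun n => fderiv ℂ (f n) y) atTop (𝓝 L) := by
    intro y hy
    exact cauchySeq_tendsto_of_complete (hcauchy.cauchySeq hy)
  choose! g' hg' using hlim
  have htend : TendstoUniformlyOn (fun n => fderiv ℂ (f n)) g' atTop (ball x d) :=
    hcauchy.tendstoUniformlyOn_of_tendsto hg'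
  exact (hasFDerivAt_of_tendstoUniformlyOn isOpen_ball htend
    (fun n y hy => (hfd n y (hsub hy)).hasFDerivAt)
    (fun y hy => h.tendsto_at (hsub hy)) (mem_ball_self hdpos)).differentiableAt

/-- Weierstrass' theorem. -/
theorem differentiableOn_of_tendsto [FiniteDimensional ℂ F] {f : ℕ → F → G} {g : F → G}
    {U : Set F} (hU : IsOpen U)
    (hf : ∀ n, DifferentiableOn ℂ (f n) U) (h : TendstoLocallyUniformlyOn f g atTop U) :
    DifferentiableOn ℂ g U := by
  have : ProperSpace F := FiniteDimensional.proper ℂ F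
  intro x hx
  obtain ⟨s, hs, hsU⟩ := Metric.nhds_basis_closedBall.mem_iff.1 (hU.mem_nhds hx)
  have h1 : TendstoUniformlyOn f g atTop (closedBall x s) :=
    (tendstoLocallyUniformlyOn_iff_forall_isCompact hU).1 h _ hsU (isCompact_closedBall x s)
  have h2 := weierstrass_ball (fun n => (hf n).mono (ball_subset_closedBall.trans hsU))
    (h1.mono ball_subset_closedBall)
  exact (h2.differentiableAt (isOpen_ball.mem_nhds (mem_ball_self hs))).differentiableWithinAt

/-- Directional derivatives of complex differentiable maps are complex differentiable. -/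
theorem differentiableOn_fderiv_apply {f : F → G} {U : Set F} (hU : IsOpen U)
    (hf : DifferentiableOn ℂ f U) (v : F) : DifferentiableOn ℂ (fun x => fderiv ℂ f x v) U := by
  intro x hx
  apply DifferentiableAt.differentiableWithinAt
  have hfx : ContinuousAt f x := (hf.differentiableAt (hU.mem_nhds hx)).continuousAt
  obtain ⟨s1, hs1, hs1U⟩ := Metric.isOpen_iff.1 hU x hx
  have hev : ∀ᶠ w in 𝓝 x, ‖f w‖ < ‖f x‖ + 1 :=
    hfx.norm.eventually (gt_mem_nhds (by linarith))
  obtain ⟨s2, hs2, hs2b⟩ := Metric.eventually_nhds_iff_ball.1 hev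
  set s : ℝ := min s1 s2 / 2 with hs
  have hspos : 0 < s := by
    have := lt_min hs1 hs2
    positivity
  have h2s : 2 * s = min s1 s2 := by rw [hs]; ring
  set M : ℝ := ‖f x‖ + 1 with hM
  have hM0 : 0 < M := by positivity
  have hd : DifferentiableOn ℂ f (ball x (2 * s)) :=
    hf.mono ((ball_subset_ball (by rw [h2s]; exact min_le_left _ _)).trans hs1U)
  have hb : ∀ w ∈ ball x (2 * s), ‖f w‖ ≤ M := fun w hw =>
    (hs2b w (ball_subset_ball (by rw [h2s]; exact min_le_right _ _) hw)).le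
  obtain ⟨n0, hn0⟩ := exists_nat_gt (‖v‖ / s)
  have hn0pos : 0 < (n0 : ℝ) := lt_of_le_of_lt (by positivity) hn0
  have hnorm : ∀ n : ℕ, ‖((n + n0 : ℕ) : ℂ)⁻¹ • v‖ < s := by
    intro n
    rw [norm_smul, norm_inv, Complex.norm_natCast]
    have h1 : (n0 : ℝ) ≤ ((n + n0 : ℕ) : ℝ) := by
      push_cast
      linarith [(Nat.cast_nonneg n : (0 : ℝ) ≤ n)]
    have h2 : 0 < ((n + n0 : ℕ) : ℝ) := hn0pos.trans_le h1
    rw [inv_mul_lt_iff₀ h2]
    rw [div_lt_iff₀ hspos] at hn0
    calc ‖v‖ < n0 * s := hn0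
      _ ≤ ((n + n0 : ℕ) : ℝ) * s := by gcongr
  have hsub : ball x s ⊆ ball x (2 * s) := ball_subset_ball (by linarith)
  have hmem : ∀ n : ℕ, ∀ y ∈ ball x s, y + ((n + n0 : ℕ) : ℂ)⁻¹ • v ∈ ball x (2 * s) := by
    intro n y hy
    rw [mem_ball_iff_norm] at hy ⊢
    have h1 : y + ((n + n0 : ℕ) : ℂ)⁻¹ • v - x = (y - x) + ((n + n0 : ℕ) : ℂ)⁻¹ • v := by abel
    rw [h1]
    have := hnorm n
    exact (norm_add_le _ _).trans_lt (by linarith)
  -- the difference quotients
  set q : ℕ → F → G := fun n y =>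
    ((n + n0 : ℕ) : ℂ) • (f (y + ((n + n0 : ℕ) : ℂ)⁻¹ • v) - f y) with hq
  have hqd : ∀ n, DifferentiableOn ℂ (q n) (ball x s) := by
    intro n y hy
    have h1 : DifferentiableAt ℂ f (y + ((n + n0 : ℕ) : ℂ)⁻¹ • v) :=
      hd.differentiableAt (isOpen_ball.mem_nhds (hmem n y hy))
    have h2 : DifferentiableAt ℂ f y := hd.differentiableAt (isOpen_ball.mem_nhds (hsub hy))
    have h3 : DifferentiableAt ℂ (fun y => f (y + ((n + n0 : ℕ) : ℂ)⁻¹ • v)) y :=
      h1.comp y (by fun_prop)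
    exact ((h3.sub h2).const_smul _).differentiableWithinAt
  have hqe : ∀ n, ∀ y ∈ ball x s, ‖q n y - fderiv ℂ f y v‖ ≤
      4 * M * ‖v‖ ^ 2 / s ^ 2 * ((n + n0 : ℕ) : ℝ)⁻¹ := by
    intro n y hy
    have hNpos : 0 < ((n + n0 : ℕ) : ℝ) := by
      push_cast
      linarith [(Nat.cast_nonneg n : (0 : ℝ) ≤ n)]
    have hNc : ((n + n0 : ℕ) : ℂ) ≠ 0 := by
      have : ((n + n0 : ℕ) : ℝ) ≠ 0 := hNpos.ne'
      exact_mod_cast this
    have hsuby : ball y s ⊆ ball x (2 * s) := by
      intro w hw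
      rw [mem_ball_iff_norm] at hw hy ⊢
      have h1 : w - x = (w - y) + (y - x) := by abel
      rw [h1]
      exact (norm_add_le _ _).trans_lt (by linarith)
    have h1 := taylor_two (hd.mono hsuby) (fun w hw => hb w (hsuby hw)) (hnorm n)
    have h2 : q n y - fderiv ℂ f y v = ((n + n0 : ℕ) : ℂ) •
        (f (y + ((n + n0 : ℕ) : ℂ)⁻¹ • v) - f y
          - fderiv ℂ f y (((n + n0 : ℕ) : ℂ)⁻¹ • v)) := by
      simp only [hq]
      rw [smul_sub _ (f (y + ((n + n0 : ℕ) : ℂ)⁻¹ • v) - f y), map_smul, smul_smul,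
        mul_inv_cancel₀ hNc, one_smul]
    rw [h2, norm_smul, Complex.norm_natCast]
    calc ((n + n0 : ℕ) : ℝ) * ‖f (y + ((n + n0 : ℕ) : ℂ)⁻¹ • v) - f y
          - fderiv ℂ f y (((n + n0 : ℕ) : ℂ)⁻¹ • v)‖
        ≤ ((n + n0 : ℕ) : ℝ) * (4 * M * ‖((n + n0 : ℕ) : ℂ)⁻¹ • v‖ ^ 2 / s ^ 2) := by gcongr
      _ = 4 * M * ‖v‖ ^ 2 / s ^ 2 * ((n + n0 : ℕ) : ℝ)⁻¹ := by
          rw [norm_smul, norm_inv, Complex.norm_natCast]
          field_simp
  have htend : TendstoUniformlyOn q (fun y => fderiv ℂ f y v) atTop (ball x s) := by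
    rw [Metric.tendstoUniformlyOn_iff]
    intro ε hε
    have h1 : Tendsto (fun n : ℕ => 4 * M * ‖v‖ ^ 2 / s ^ 2 * ((n + n0 : ℕ) : ℝ)⁻¹) atTop
        (𝓝 0) := by
      have h2 : Tendsto (fun n : ℕ => ((n + n0 : ℕ) : ℝ)⁻¹) atTop (𝓝 0) :=
        (tendsto_inv_atTop_nhds_zero_nat (𝕜 := ℝ)).comp (tendsto_add_atTop_nat n0)
      simpa using h2.const_mul (4 * M * ‖v‖ ^ 2 / s ^ 2)
    filter_upwards [h1.eventually (gt_mem_nhds hε)] with n hn y hy
    rw [dist_comm, dist_eq_norm]
    exact (hqe n y hy).trans_lt hn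
  exact (weierstrass_ball hqd htend).differentiableAt
    (isOpen_ball.mem_nhds (mem_ball_self hspos))

/-- Finite dimensional source: all derivatives exist. -/
theorem differentiableOn_fderiv [FiniteDimensional ℂ F] {f : F → G} {U : Set F} (hU : IsOpen U)
    (hf : DifferentiableOn ℂ f U) : DifferentiableOn ℂ (fderiv ℂ f) U := by
  let b := Module.finBasis ℂ F
  let c : Fin (Module.finrank ℂ F) → (F →L[ℂ] ℂ) := fun i =>
    LinearMap.toContinuousLinearMap (b.coord i)
  have h1 : DifferentiableOn ℂ (fun x => ∑ i, (ContinuousLinearMap.smulRightL ℂ F G (c i))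
      (fderiv ℂ f x (b i))) U := by
    refine DifferentiableOn.fun_sum fun i _ => ?_
    exact (ContinuousLinearMap.differentiable _).comp_differentiableOn
      (differentiableOn_fderiv_apply hU hf (b i))
  refine h1.congr fun x _ => ?_
  ext v
  have h2 : v = ∑ i, (b.coord i v) • b i := by
    conv_lhs => rw [← b.sum_repr v]
    rfl
  conv_lhs => rw [h2]
  rw [map_sum, ContinuousLinearMap.sum_apply]
  refine Finset.sum_congr rfl fun i _ => ?_
  rw [map_smul]
  rfl

/-- Holomorphic inverse function theorem, friendly form. -/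
theorem inverse_function [CompleteSpace F] {f : F → G} {U : Set F} (hU : IsOpen U)
    (hf : DifferentiableOn ℂ f U) {x0 : F} (hx0 : x0 ∈ U) (L : F ≃L[ℂ] G)
    (hL : fderiv ℂ f x0 = (L : F →L[ℂ] G)) :
    ∃ r > 0, ∃ g : G → F, DifferentiableOn ℂ g (ball (f x0) r) ∧ g (f x0) = x0 ∧
      (∀ y ∈ ball (f x0) r, g y ∈ U ∧ f (g y) = y) ∧
      ∃ r' > 0, ∀ x ∈ ball x0 r', f x ∈ ball (f x0) r ∧ g (f x) = x := by
  have hc : ContDiffAt ℂ 1 f x0 := (contDiffOn_one hU hf).contDiffAt (hU.mem_nhds hx0)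
  have hd : HasFDerivAt f (L : F →L[ℂ] G) x0 := by
    rw [← hL]
    exact (hf.differentiableAt (hU.mem_nhds hx0)).hasFDerivAt
  set Φ := hc.toOpenPartialHomeomorph f hd one_ne_zero with hΦ
  have hsrc : x0 ∈ Φ.source := hc.mem_toOpenPartialHomeomorph_source hd one_ne_zero
  have hcoe : ∀ x, Φ x = f x := fun x => rfl
  have hg0 : Φ.symm (f x0) = x0 := Φ.left_inv hsrc
  have hgc : ContDiffAt ℂ 1 Φ.symm (f x0) := hc.to_localInverse hd one_ne_zero
  have hgcont : ContinuousAt Φ.symm (f x0) := hgc.continuousAt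
  have hev1 : ∀ᶠ y in 𝓝 (f x0), DifferentiableAt ℂ Φ.symm y := by
    have := hgc.eventually (by simp)
    filter_upwards [this] with y hy
    exact hy.differentiableAt one_ne_zero
  have hev2 : ∀ᶠ y in 𝓝 (f x0), Φ.symm y ∈ U := by
    have : U ∈ 𝓝 (Φ.symm (f x0)) := by
      rw [hg0]
      exact hU.mem_nhds hx0
    exact hgcont this
  have hev3 : ∀ᶠ y in 𝓝 (f x0), y ∈ Φ.target :=
    Φ.open_target.mem_nhds (Φ.map_source hsrc)
  obtain ⟨r, hr, hrb⟩ := Metric.eventually_nhds_iff_ball.1 (hev1.and (hev2.and hev3))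
  refine ⟨r, hr, Φ.symm, fun y hy => (hrb y hy).1.differentiableWithinAt, hg0,
    fun y hy => ⟨(hrb y hy).2.1, Φ.right_inv (hrb y hy).2.2⟩, ?_⟩
  have hev4 : ∀ᶠ x in 𝓝 x0, x ∈ Φ.source := Φ.open_source.mem_nhds hsrc
  have hev5 : ∀ᶠ x in 𝓝 x0, f x ∈ ball (f x0) r :=
    hc.continuousAt (ball_mem_nhds _ hr)
  obtain ⟨r', hr', hrb'⟩ := Metric.eventually_nhds_iff_ball.1 (hev4.and hev5)
  exact ⟨r', hr', fun x hx => ⟨(hrb' x hx).2, Φ.left_inv (hrb' x hx).1⟩⟩

theorem contDiffOn_nat [FiniteDimensional ℂ F] {f : F → G} {U : Set F} (hU : IsOpen U)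
    (hf : DifferentiableOn ℂ f U) (n : ℕ) : ContDiffOn ℂ n f U := by
  induction n generalizing f with
  | zero => exact contDiffOn_zero.2 hf.continuousOn
  | succ n ih =>
    have h := (contDiffOn_succ_iff_fderiv_of_isOpen (𝕜 := ℂ) (n := (n : ℕ∞)) (f := f) hU).2
      ⟨hf, by simp, contDiffOn_clm_apply.2 fun v => ih (differentiableOn_fderiv_apply hU hf v)⟩
    exact_mod_cast h

/-- Integrals over translated circles depend complex differentiably on the translation. -/
theorem circle_int_diff {k : ℂ → F → G} {Ω : Set (ℂ × F)} (hΩ : IsOpen Ω)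
    (hk : DifferentiableOn ℂ (fun q : ℂ × F => k q.1 q.2) Ω) {s : ℝ} {q0 : ℂ × F}
    (hq0 : ∀ θ : ℝ, (circleMap q0.1 s θ, q0.2) ∈ Ω) :
    DifferentiableAt ℂ (fun q : ℂ × F => ∫ θ in (0 : ℝ)..2 * Real.pi,
      k (circleMap q.1 s θ) q.2) q0 := by
  set K : ℂ × F → G := fun q => k q.1 q.2 with hK
  have hcirc : ∀ (q : ℂ × F) (θ : ℝ), (circleMap q.1 s θ, q.2) = q + (circleMap 0 s θ, 0) := by
    intro q θ
    rw [Prod.ext_iff]
    constructor
    · simp [circleMap]
    · simp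
  set C : Set (ℂ × F) := (fun θ : ℝ => (circleMap q0.1 s θ, q0.2)) '' Icc 0 (2 * Real.pi) with hC
  have hcm : Continuous fun θ : ℝ => ((circleMap q0.1 s θ, q0.2) : ℂ × F) :=
    (continuous_circleMap _ _).prodMk continuous_const
  have hCc : IsCompact C := isCompact_Icc.image hcm
  have hCΩ : C ⊆ Ω := by
    rintro _ ⟨θ, -, rfl⟩
    exact hq0 θ
  -- a bounded neighbourhood
  obtain ⟨M, hM⟩ := hCc.exists_bound_of_continuousOn (hk.continuousOn.mono hCΩ)
  have hVo : IsOpen (Ω ∩ (fun q => ‖K q‖) ⁻¹' Iio (M + 1)) :=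
    hk.continuousOn.norm.isOpen_inter_preimage hΩ isOpen_Iio
  have hCV : C ⊆ Ω ∩ (fun q => ‖K q‖) ⁻¹' Iio (M + 1) := fun q hq =>
    ⟨hCΩ hq, (hM q hq).trans_lt (by linarith)⟩
  obtain ⟨ε, hε, hεV⟩ := hCc.exists_thickening_subset_open hVo hCV
  have hM1 : 0 ≤ M + 1 := by
    have := (norm_nonneg _).trans (hM (circleMap q0.1 s 0, q0.2)
      ⟨0, ⟨le_rfl, by positivity⟩, rfl⟩)
    linarith
  have hmem : ∀ θ ∈ Icc (0 : ℝ) (2 * Real.pi), ∀ q ∈ ball q0 ε,
      q + (circleMap 0 s θ, 0) ∈ thickening ε C := by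
    intro θ hθ q hq
    rw [mem_thickening_iff]
    refine ⟨(circleMap q0.1 s θ, q0.2), ⟨θ, hθ, rfl⟩, ?_⟩
    rw [hcirc q0 θ, dist_add_right]
    exact hq
  have hdiffK : ∀ p ∈ thickening ε C, DifferentiableAt ℂ K p := fun p hp =>
    hk.differentiableAt (hΩ.mem_nhds (hεV hp).1)
  have hder : ∀ θ ∈ Icc (0 : ℝ) (2 * Real.pi), ∀ q ∈ ball q0 (ε / 2),
      ‖fderiv ℂ K (q + (circleMap 0 s θ, 0))‖ ≤ (M + 1) / (ε / 2) := by
    intro θ hθ q hq
    set p := q + (circleMap 0 s θ, 0) with hp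
    have hsub : ball p (ε / 2) ⊆ thickening ε C := by
      intro w hw
      rw [mem_thickening_iff]
      refine ⟨(circleMap q0.1 s θ, q0.2), ⟨θ, hθ, rfl⟩, ?_⟩
      have h1 : dist p (circleMap q0.1 s θ, q0.2) < ε / 2 := by
        rw [hp, hcirc q0 θ, dist_add_right]
        exact hq
      have h2 := dist_triangle w p (circleMap q0.1 s θ, q0.2)
      rw [mem_ball] at hw
      linarith
    have h := norm_fderiv_le (f := K) (x0 := p) (r := ε / 2) (M := M + 1)
      (fun w hw => (hdiffK w (hsub hw)).differentiableWithinAt)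
      (fun w hw => (hεV (hsub hw)).2.le) (mem_ball_self (by positivity))
    rwa [sub_self, norm_zero, sub_zero] at h
  have hcontD : ContinuousOn (fderiv ℂ K) Ω := continuousOn_fderiv hΩ hk
  have hI : ∀ θ ∈ Ι (0 : ℝ) (2 * Real.pi), θ ∈ Icc (0 : ℝ) (2 * Real.pi) := by
    intro θ hθ
    rw [uIoc_of_le (by positivity)] at hθ
    exact Ioc_subset_Icc_self hθ
  have hcont : ∀ q ∈ ball q0 ε, ContinuousOn (fun θ : ℝ => k (circleMap q.1 s θ) q.2)
      (Icc 0 (2 * Real.pi)) := by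
    intro q hq
    have h1 : ContinuousOn (fun θ : ℝ => K (q + (circleMap 0 s θ, 0))) (Icc 0 (2 * Real.pi)) := by
      refine hk.continuousOn.comp (Continuous.continuousOn ?_) fun θ hθ => (hεV (hmem θ hθ q hq)).1
      exact continuous_const.add ((continuous_circleMap _ _).prodMk continuous_const)
    refine h1.congr fun θ _ => ?_
    show K (circleMap q.1 s θ, q.2) = K (q + (circleMap 0 s θ, 0))
    rw [← hcirc q θ]
  have hmeasI : ∀ f : ℝ → G, ContinuousOn f (Icc 0 (2 * Real.pi)) →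
      MeasureTheory.AEStronglyMeasurable f
        (MeasureTheory.volume.restrict (Ι (0 : ℝ) (2 * Real.pi))) := by
    intro f hf
    rw [uIoc_of_le (by positivity)]
    exact (hf.mono Ioc_subset_Icc_self).aestronglyMeasurable measurableSet_Ioc
  refine (intervalIntegral.hasFDerivAt_integral_of_dominated_of_fderiv_le
    (F := fun (q : ℂ × F) θ => k (circleMap q.1 s θ) q.2)
    (F' := fun q θ => fderiv ℂ K (q + (circleMap 0 s θ, 0)))
    (bound := fun _ => (M + 1) / (ε / 2)) (ball_mem_nhds q0 (by positivity : 0 < ε / 2))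
    ?_ ?_ ?_ ?_ ?_ ?_).differentiableAt
  · filter_upwards [ball_mem_nhds q0 hε] with q hq
    exact hmeasI _ (hcont q hq)
  · refine ContinuousOn.intervalIntegrable ?_
    rw [uIcc_of_le (by positivity)]
    exact hcont q0 (mem_ball_self hε)
  · have h1 : ContinuousOn (fun θ : ℝ => fderiv ℂ K (q0 + (circleMap 0 s θ, 0)))
        (Icc 0 (2 * Real.pi)) := by
      refine hcontD.comp (Continuous.continuousOn ?_)
        fun θ hθ => (hεV (hmem θ hθ q0 (mem_ball_self hε))).1
      exact continuous_const.add ((continuous_circleMap _ _).prodMk continuous_const)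
    rw [uIoc_of_le (by positivity)]
    exact (h1.mono Ioc_subset_Icc_self).aestronglyMeasurable measurableSet_Ioc
  · refine Eventually.of_forall fun θ hθ q hq => hder θ (hI θ hθ) q hq
  · exact intervalIntegrable_const
  · refine Eventually.of_forall fun θ hθ q hq => ?_
    have h1 : HasFDerivAt K (fderiv ℂ K (q + (circleMap 0 s θ, 0))) (q + (circleMap 0 s θ, 0)) :=
      (hdiffK _ (hmem θ (hI θ hθ) q (ball_subset_ball (by linarith) hq))).hasFDerivAt
    have h2 : HasFDerivAt (fun q : ℂ × F => q + ((circleMap 0 s θ, 0) : ℂ × F))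
        (ContinuousLinearMap.id ℂ (ℂ × F)) q := (hasFDerivAt_id q).add_const _
    have h3 := h1.comp q h2
    rw [ContinuousLinearMap.comp_id] at h3
    refine h3.congr_of_eventuallyEq (Eventually.of_forall fun w => ?_)
    show K (circleMap w.1 s θ, w.2) = K (w + (circleMap 0 s θ, 0))
    rw [← hcirc w θ]

/-- Division by the square of a parameter: a holomorphic map `h(ζ,p)` with vanishing first jet in
`ζ` at `ζ = 0` is `ζ² Ψ(ζ,p)`. -/
theorem exists_div_sq {f : ℂ → F → G} {ρ M : ℝ} (hρ : 0 < ρ) {P : Set F} (hP : IsOpen P)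
    (hf : DifferentiableOn ℂ (fun q : ℂ × F => f q.1 q.2) (ball 0 ρ ×ˢ P))
    (hM : ∀ ζ ∈ ball (0 : ℂ) ρ, ∀ p ∈ P, ‖f ζ p‖ ≤ M)
    (h0 : ∀ p ∈ P, f 0 p = 0) (h1 : ∀ p ∈ P, deriv (fun ζ => f ζ p) 0 = 0) :
    ∃ Psi : ℂ → F → G, DifferentiableOn ℂ (fun q : ℂ × F => Psi q.1 q.2) (ball 0 ρ ×ˢ P) ∧
      (∀ ζ ∈ ball (0 : ℂ) ρ, ∀ p ∈ P, ‖Psi ζ p‖ ≤ M / ρ ^ 2) ∧
      ∀ ζ ∈ ball (0 : ℂ) ρ, ∀ p ∈ P, f ζ p = ζ ^ 2 • Psi ζ p := by
  have hOo : IsOpen (ball (0 : ℂ) ρ ×ˢ P) := isOpen_ball.prod hP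
  have hslice : ∀ p ∈ P, DifferentiableOn ℂ (fun ζ => f ζ p) (ball 0 ρ) := by
    intro p hp ζ hζ
    have h2 : DifferentiableAt ℂ (fun q : ℂ × F => f q.1 q.2) (ζ, p) :=
      hf.differentiableAt (hOo.mem_nhds ⟨hζ, hp⟩)
    have h3 : DifferentiableAt ℂ (fun ζ : ℂ => ((ζ, p) : ℂ × F)) ζ :=
      differentiableAt_id.prodMk (differentiableAt_const _)
    exact (h2.comp ζ h3).differentiableWithinAt
  set Psi : ℂ → F → G := fun ζ p => dslope (dslope (fun u => f u p) 0) 0 ζ with hPsi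
  have hne : ∀ p ∈ P, ∀ ζ : ℂ, ζ ≠ 0 → Psi ζ p = (ζ ^ 2)⁻¹ • f ζ p := by
    intro p hp ζ hζ
    simp only [hPsi]
    rw [dslope_of_ne _ hζ, slope_def_module, dslope_of_ne _ hζ, slope_def_module, dslope_same,
      h1 p hp, h0 p hp, sub_zero, sub_zero, sub_zero, smul_smul]
    congr 1
    rw [pow_two, mul_inv]
  have hPd : ∀ p ∈ P, DifferentiableOn ℂ (fun ζ => Psi ζ p) (ball 0 ρ) := by
    intro p hp
    have hn : ball (0 : ℂ) ρ ∈ 𝓝 (0 : ℂ) := ball_mem_nhds _ hρ
    exact (Complex.differentiableOn_dslope hn).2 ((Complex.differentiableOn_dslope hn).2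
      (hslice p hp))
  have hquad : ∀ p ∈ P, ∀ ζ ∈ ball (0 : ℂ) ρ, ‖f ζ p‖ ≤ M * (‖ζ‖ / ρ) ^ 2 := by
    intro p hp ζ hζ
    have hmaps : MapsTo (fun ζ => f ζ p) (ball 0 ρ) (closedBall ((fun ζ => f ζ p) 0) M) := by
      intro z hz
      rw [mem_closedBall_iff_norm]
      simp only [h0 p hp, sub_zero]
      exact hM z hz p hp
    have hda : DifferentiableAt ℂ (fun ζ => f ζ p) 0 :=
      (hslice p hp).differentiableAt (ball_mem_nhds _ hρ)
    have hlo : ((fun ζ => f ζ p) · - (fun ζ => f ζ p) 0) =o[𝓝 0] fun w => ‖w - 0‖ ^ 1 := by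
      have h2 := hda.hasDerivAt.isLittleO
      rw [h1 p hp] at h2
      simpa using h2.norm_right
    have h := Complex.dist_le_mul_div_pow_of_mapsTo_ball_of_isLittleO (hslice p hp) hmaps hlo hζ
    rw [dist_eq_norm, dist_eq_norm] at h
    simpa [h0 p hp] using h
  have hbd' : ∀ p ∈ P, ∀ ζ ∈ ball (0 : ℂ) ρ, ζ ≠ 0 → ‖Psi ζ p‖ ≤ M / ρ ^ 2 := by
    intro p hp ζ hζ hζ0
    have hzn : 0 < ‖ζ‖ := norm_pos_iff.2 hζ0
    rw [hne p hp ζ hζ0, norm_smul, norm_inv, norm_pow, inv_mul_le_iff₀ (by positivity)]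
    refine (hquad p hp ζ hζ).trans (le_of_eq ?_)
    field_simp
  refine ⟨Psi, ?_, ?_, ?_⟩
  · rintro ⟨ζ0, p0⟩ ⟨hζ0, hp0⟩
    apply DifferentiableAt.differentiableWithinAt
    simp only at hζ0 hp0
    by_cases hz : ζ0 = 0
    · -- near `ζ = 0`: circle averages
      subst hz
      set k : ℂ → F → G := fun w p => (w ^ 2)⁻¹ • f w p with hk
      set Ω : Set (ℂ × F) := ((ball (0 : ℂ) ρ) ×ˢ P) ∩ (Prod.fst ⁻¹' {w : ℂ | w ≠ 0}) with hΩ
      have hΩo : IsOpen Ω := hOo.inter (isOpen_ne.preimage continuous_fst)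
      have hkd : DifferentiableOn ℂ (fun q : ℂ × F => k q.1 q.2) Ω := by
        have h2 : DifferentiableOn ℂ (fun q : ℂ × F => (q.1 ^ 2)⁻¹) Ω := by
          refine DifferentiableOn.inv (by fun_prop) fun q hq => ?_
          exact pow_ne_zero _ hq.2
        exact h2.smul (hf.mono inter_subset_left)
      have hcm : ∀ ζ : ℂ, ‖ζ‖ < ρ / 4 → ∀ θ : ℝ,
          circleMap ζ (ρ / 2) θ ∈ ball (0 : ℂ) ρ ∧ circleMap ζ (ρ / 2) θ ≠ 0 := by
        intro ζ hζ θ
        have h2 : ‖circleMap ζ (ρ / 2) θ - ζ‖ = ρ / 2 := by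
          simp [circleMap, abs_of_pos hρ]
        constructor
        · rw [mem_ball_zero_iff]
          have h3 : ‖circleMap ζ (ρ / 2) θ‖ ≤ ‖circleMap ζ (ρ / 2) θ - ζ‖ + ‖ζ‖ := by
            have := norm_add_le (circleMap ζ (ρ / 2) θ - ζ) ζ
            rwa [sub_add_cancel] at this
          linarith
        · intro h4
          rw [h4, zero_sub, norm_neg] at h2
          linarith
      have hmv : ∀ ζ : ℂ, ‖ζ‖ < ρ / 4 → ∀ p ∈ P, Psi ζ p = (2 * Real.pi)⁻¹ •
          ∫ θ in (0 : ℝ)..2 * Real.pi, k (circleMap ζ (ρ / 2) θ) p := by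
        intro ζ hζ p hp
        have h2 : Real.circleAverage (fun u => Psi u p) ζ (ρ / 2) = Psi ζ p := by
          refine DiffContOnCl.circleAverage ?_
          rw [abs_of_pos (by positivity)]
          have h3 : closedBall ζ (ρ / 2) ⊆ ball 0 ρ := by
            intro w hw
            rw [mem_closedBall_iff_norm] at hw
            rw [mem_ball_zero_iff]
            have := norm_add_le (w - ζ) ζ
            rw [sub_add_cancel] at this
            linarith
          exact ((hPd p hp).mono h3).diffContOnCl_ball subset_rfl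
        rw [← h2, Real.circleAverage_def]
        congr 1
        refine intervalIntegral.integral_congr fun θ _ => ?_
        exact hne p hp _ (hcm ζ hζ θ).2
      have hq0 : ∀ θ : ℝ, (circleMap ((0, p0) : ℂ × F).1 (ρ / 2) θ, ((0, p0) : ℂ × F).2) ∈ Ω := by
        intro θ
        have := hcm 0 (by rw [norm_zero]; positivity) θ
        exact ⟨⟨this.1, hp0⟩, this.2⟩
      have hmain := (circle_int_diff hΩo hkd (s := ρ / 2) (q0 := (0, p0)) hq0).const_smul
        ((2 * Real.pi)⁻¹ : ℝ)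
      refine hmain.congr_of_eventuallyEq ?_
      have hev : ∀ᶠ q : ℂ × F in 𝓝 (0, p0), ‖q.1‖ < ρ / 4 ∧ q.2 ∈ P := by
        have h2 : IsOpen {q : ℂ × F | ‖q.1‖ < ρ / 4 ∧ q.2 ∈ P} :=
          (isOpen_lt (f := fun q : ℂ × F => ‖q.1‖) (by fun_prop) continuous_const).inter
            (hP.preimage continuous_snd)
        exact h2.mem_nhds ⟨by simpa using (by positivity : 0 < ρ / 4), hp0⟩
      filter_upwards [hev] with q hq
      exact hmv q.1 hq.1 q.2 hq.2
    · have h2 : DifferentiableAt ℂ (fun q : ℂ × F => (q.1 ^ 2)⁻¹ • f q.1 q.2) (ζ0, p0) := by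
        have h3 : DifferentiableAt ℂ (fun q : ℂ × F => f q.1 q.2) (ζ0, p0) :=
          hf.differentiableAt (hOo.mem_nhds ⟨hζ0, hp0⟩)
        have h4 : DifferentiableAt ℂ (fun q : ℂ × F => (q.1 ^ 2)⁻¹) (ζ0, p0) :=
          DifferentiableAt.inv (by fun_prop) (pow_ne_zero _ hz)
        exact h4.smul h3
      refine h2.congr_of_eventuallyEq ?_
      have hev : ∀ᶠ q : ℂ × F in 𝓝 (ζ0, p0), q.1 ≠ 0 ∧ q.2 ∈ P := by
        have h3 : IsOpen {q : ℂ × F | q.1 ≠ 0 ∧ q.2 ∈ P} :=
          (isOpen_ne.preimage continuous_fst).inter (hP.preimage continuous_snd)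
        exact h3.mem_nhds ⟨hz, hp0⟩
      filter_upwards [hev] with q hq
      exact hne q.2 hq.2 q.1 hq.1
  · intro ζ hζ p hp
    by_cases hz : ζ = 0
    · have hc : ContinuousAt (fun ζ => ‖Psi ζ p‖) 0 :=
        ((hPd p hp).differentiableAt (ball_mem_nhds _ hρ)).continuousAt.norm
      rw [hz]
      refine le_of_tendsto (hc.tendsto.mono_left (nhdsWithin_le_nhds (s := {0}ᶜ))) ?_
      have h2 : ∀ᶠ w in 𝓝[≠] (0 : ℂ), w ∈ ball (0 : ℂ) ρ :=
        nhdsWithin_le_nhds (ball_mem_nhds _ hρ)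
      filter_upwards [h2, self_mem_nhdsWithin] with w hw hw0
      exact hbd' p hp w hw hw0
    · exact hbd' p hp ζ hζ hz
  · intro ζ hζ p hp
    by_cases hz : ζ = 0
    · rw [hz, h0 p hp]
      simp
    · rw [hne p hp ζ hz, smul_smul, mul_inv_cancel₀ (pow_ne_zero _ hz), one_smul]

end Pool.Agent.W_4d259d_h44.ApiC
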