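import Pool.Agent.W_4d259d_h44.ApiA
import Pool.Agent.W_4d259d_h44.ApiB
import Pool.Agent.W_4d259d_h44.ApiC

/-!
# MP_4d259d_ag, module A: Nemytskii operators, contractions with parameter, evaluation
-/

noncomputable section

set_option linter.unusedSectionVars false

namespace Pool.Agent.W_4d259d_h44

open Set Filter Topology Manifold Metric TopologicalSpace
open scoped ContDiff
open Pool.Agent.W_4d259d_h46.Defs Pool.Agent.W_4d259d_h46 Pool.Agent.W_4d259d_h44

variable {R : Type*} [TopologicalSpace R] [ChartedSpace ℂ R]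
  [IsManifold (modelWithCornersSelf ℂ ℂ) ω R]
variable {E : Type*} [NormedAddCommGroup E] [NormedSpace ℂ E] [CompleteSpace E]
variable {F : Type*} [NormedAddCommGroup F] [NormedSpace ℂ F] [CompleteSpace F]

/-- Slices of a holomorphic map on `U × V` in the second variable. -/
theorem hol2_slice {U : Set R} {V : Set E} {ξ : R → E → F} (hξ : HolOn2 F ξ U V) {z : R}
    (hz : z ∈ U) : DifferentiableOn ℂ (ξ z) V := by
  rw [← mdifferentiableOn_iff_differentiableOn]
  have h1 : MDifferentiableOn (modelWithCornersSelf ℂ E)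
      ((modelWithCornersSelf ℂ ℂ).prod (modelWithCornersSelf ℂ E)) (fun w : E => (z, w)) V :=
    (mdifferentiableOn_const).prodMk mdifferentiableOn_id
  exact hξ.comp h1 (fun w hw => ⟨hz, hw⟩)

/-- Composition of a holomorphic map on `U × V` with a holomorphic `U → V`. -/
theorem hol2_sub {U : Set R} {V : Set E} {ξ : R → E → F} (hξ : HolOn2 F ξ U V) {α : R → E}
    (hα : HolOn E α U) (hαV : ∀ z ∈ U, α z ∈ V) : HolOn F (fun z => ξ z (α z)) U := by
  have h1 : MDifferentiableOn (modelWithCornersSelf ℂ ℂ)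
      ((modelWithCornersSelf ℂ ℂ).prod (modelWithCornersSelf ℂ E)) (fun z : R => (z, α z)) U :=
    mdifferentiableOn_id.prodMk hα
  exact hξ.comp h1 (fun z hz => ⟨hz, hαV z hz⟩)

/-- (NEM) The Nemytskii operator of a bounded holomorphic `ξ` is complex differentiable. -/
theorem nem {U : Opens R} {ξ : R → E → F} {δ δ' M : ℝ} (hδ : δ' < δ)
    (hξ : HolOn2 F ξ U (ball (0 : E) δ)) (hM : ∀ z ∈ U, ∀ w ∈ ball (0 : E) δ, ‖ξ z w‖ ≤ M) :
    ∃ Nop : HB U E → HB U F,
      (∀ α : HB U E, ‖α‖ < δ' → ∀ z ∈ U, (Nop α).fn z = ξ z (α.fn z)) ∧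
      DifferentiableOn ℂ Nop (ball 0 δ') ∧
      (∀ α : HB U E, ‖α‖ < δ' → ∀ β : HB U E, ∀ z ∈ U,
        (fderiv ℂ Nop α β).fn z = fderiv ℂ (ξ z) (α.fn z) (β.fn z)) := by
  classical
  have hmem : ∀ α : HB U E, ‖α‖ < δ → ∀ z ∈ U, α.fn z ∈ ball (0 : E) δ := by
    intro α hα z _
    rw [mem_ball_zero_iff]
    exact (α.fn_le z).trans_lt hα
  let Nop : HB U E → HB U F := fun α =>
    if h : ‖α‖ < δ then HB.mk (fun z => ξ z (α.fn z)) (hol2_sub hξ α.fn_hol (hmem α h)) M
      (fun z hz => hM z hz _ (hmem α h z hz)) else 0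
  have hNop : ∀ α : HB U E, ‖α‖ < δ → ∀ z ∈ U, (Nop α).fn z = ξ z (α.fn z) := by
    intro α hα z hz
    simp only [Nop, dif_pos hα]
    rw [HB.mk_fn _ _ _ _ hz]
  set r : ℝ := δ - δ' with hr
  have hr0 : 0 < r := sub_pos.mpr hδ
  have hder : ∀ α : HB U E, ‖α‖ < δ' → ∃ L : HB U E →L[ℂ] HB U F, HasFDerivAt Nop L α ∧
      ∀ β : HB U E, ∀ z ∈ U, (L β).fn z = fderiv ℂ (ξ z) (α.fn z) (β.fn z) := by
    intro α hα
    have hsub : ∀ z, ball (α.fn z) r ⊆ ball (0 : E) δ := by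
      intro z w hw
      rw [mem_ball_iff_norm] at hw
      rw [mem_ball_zero_iff]
      have h1 := α.fn_le z
      have h2 : ‖w‖ ≤ ‖w - α.fn z‖ + ‖α.fn z‖ := by
        have := norm_add_le (w - α.fn z) (α.fn z)
        simpa using this
      linarith
    have hd : ∀ z ∈ U, DifferentiableOn ℂ (ξ z) (ball (α.fn z) r) := fun z hz =>
      (hol2_slice hξ hz).mono (hsub z)
    have hb : ∀ z ∈ U, ∀ x ∈ ball (α.fn z) r, ‖ξ z x‖ ≤ |M| := fun z hz x hx =>
      (hM z hz x (hsub z hx)).trans (le_abs_self M)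
    have htay : ∀ z ∈ U, ∀ v : E, ‖v‖ < r →
        ‖ξ z (α.fn z + v) - ξ z (α.fn z) - fderiv ℂ (ξ z) (α.fn z) v‖ ≤
          4 * |M| * ‖v‖ ^ 2 / r ^ 2 := fun z hz v hv => ApiC.taylor_two (hd z hz) (hb z hz) hv
    have hfd : ∀ z ∈ U, ‖fderiv ℂ (ξ z) (α.fn z)‖ ≤ |M| / r := by
      intro z hz
      have := ApiC.norm_fderiv_le (hd z hz) (hb z hz) (mem_ball_self hr0)
      simpa using this
    have hbd : ∀ β : HB U E, ∀ z ∈ U, ‖fderiv ℂ (ξ z) (α.fn z) (β.fn z)‖ ≤ |M| / r * ‖β‖ := by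
      intro β z hz
      refine ((fderiv ℂ (ξ z) (α.fn z)).le_opNorm _).trans ?_
      exact mul_le_mul (hfd z hz) (β.fn_le z) (norm_nonneg _) (by positivity)
    have hol : ∀ β : HB U E, HolOn F (fun z => fderiv ℂ (ξ z) (α.fn z) (β.fn z)) U := by
      intro β
      set c : ℝ := r / (2 * (‖β‖ + 1)) with hc
      have hβ : 0 < ‖β‖ + 1 := by positivity
      have hc0 : 0 < c := by positivity
      have hcβ : c * ‖β‖ < r := by
        have h1 : c * (2 * (‖β‖ + 1)) = r := by rw [hc]; field_simp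
        nlinarith [norm_nonneg β]
      let cn : ℕ → ℝ := fun n => c / (n + 1)
      have hcn0 : ∀ n, 0 < cn n := fun n => by positivity
      have hcnc : ∀ n, cn n ≤ c := fun n => by
        refine div_le_self hc0.le ?_
        have : (0 : ℝ) ≤ n := Nat.cast_nonneg n
        linarith
      have hcnβ : ∀ n, ‖((cn n : ℝ) : ℂ) • β‖ < r := by
        intro n
        rw [norm_smul, Complex.norm_real, Real.norm_of_nonneg (hcn0 n).le]
        exact (mul_le_mul_of_nonneg_right (hcnc n) (norm_nonneg _)).trans_lt hcβ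
      have hαn : ∀ n, ‖α + ((cn n : ℝ) : ℂ) • β‖ < δ := by
        intro n
        have := norm_add_le α (((cn n : ℝ) : ℂ) • β)
        have := hcnβ n
        linarith
      let g : ℕ → R → F := fun n z => (((cn n : ℝ) : ℂ)⁻¹) •
        (ξ z ((α + ((cn n : ℝ) : ℂ) • β).fn z) + (-1 : ℂ) • ξ z (α.fn z))
      have hg : ∀ n, HolOn F (g n) U := by
        intro n
        refine holOn_const_smul _ (holOn_add ?_ (holOn_const_smul _ ?_))
        · exact hol2_sub hξ (HB.fn_hol _) (hmem _ (hαn n))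
        · exact hol2_sub hξ (HB.fn_hol _) (hmem _ (hα.trans hδ))
      refine holOn_of_tendstoLocallyUniformlyOn U.2 hg ?_
      apply TendstoUniformlyOn.tendstoLocallyUniformlyOn
      rw [Metric.tendstoUniformlyOn_iff]
      intro ε hε
      have hlim : Tendsto (fun n : ℕ => 4 * |M| * ‖β‖ ^ 2 / r ^ 2 * cn n) atTop (𝓝 0) := by
        have h1 : Tendsto cn atTop (𝓝 0) := by
          have := (tendsto_one_div_add_atTop_nhds_zero_nat (𝕜 := ℝ)).const_mul c
          simpa [cn, div_eq_mul_inv] using this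
        simpa using h1.const_mul (4 * |M| * ‖β‖ ^ 2 / r ^ 2)
      filter_upwards [hlim.eventually (gt_mem_nhds hε)] with n hn z hz
      refine lt_of_le_of_lt ?_ hn
      rw [dist_comm, dist_eq_norm]
      have hne : ((cn n : ℝ) : ℂ) ≠ 0 := by
        exact_mod_cast (hcn0 n).ne'
      have h1 : g n z - fderiv ℂ (ξ z) (α.fn z) (β.fn z) = (((cn n : ℝ) : ℂ)⁻¹) •
          (ξ z (α.fn z + ((cn n : ℝ) : ℂ) • β.fn z) - ξ z (α.fn z)
            - fderiv ℂ (ξ z) (α.fn z) (((cn n : ℝ) : ℂ) • β.fn z)) := by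
        simp only [g]
        rw [HB.fn_add, HB.fn_smul, map_smul, smul_sub, smul_smul, inv_mul_cancel₀ hne, one_smul]
        congr 1
        rw [neg_one_smul, ← sub_eq_add_neg]
      have hsm : ‖((cn n : ℝ) : ℂ) • β.fn z‖ ≤ cn n * ‖β‖ := by
        rw [norm_smul, Complex.norm_real, Real.norm_of_nonneg (hcn0 n).le]
        exact mul_le_mul_of_nonneg_left (β.fn_le z) (hcn0 n).le
      have hsmr : ‖((cn n : ℝ) : ℂ) • β.fn z‖ < r := by
        refine hsm.trans_lt (lt_of_le_of_lt ?_ hcβ)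
        exact mul_le_mul_of_nonneg_right (hcnc n) (norm_nonneg _)
      rw [h1, norm_smul, norm_inv, Complex.norm_real, Real.norm_of_nonneg (hcn0 n).le]
      have h2 := htay z hz _ hsmr
      have h3 : 4 * |M| * ‖((cn n : ℝ) : ℂ) • β.fn z‖ ^ 2 / r ^ 2 ≤
          4 * |M| * (cn n * ‖β‖) ^ 2 / r ^ 2 := by gcongr
      calc (cn n)⁻¹ * _ ≤ (cn n)⁻¹ * (4 * |M| * (cn n * ‖β‖) ^ 2 / r ^ 2) :=
            mul_le_mul_of_nonneg_left (h2.trans h3) (inv_nonneg.mpr (hcn0 n).le)
        _ = 4 * |M| * ‖β‖ ^ 2 / r ^ 2 * cn n := by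
            have := (hcn0 n).ne'
            field_simp
    let L0 : HB U E →ₗ[ℂ] HB U F :=
      { toFun := fun β => HB.mk (fun z => fderiv ℂ (ξ z) (α.fn z) (β.fn z)) (hol β)
          (|M| / r * ‖β‖) (hbd β)
        map_add' := by
          intro β β'
          refine HB.ext' fun z hz => ?_
          rw [HB.fn_add, HB.mk_fn _ _ _ _ hz, HB.mk_fn _ _ _ _ hz, HB.mk_fn _ _ _ _ hz,
            HB.fn_add, map_add]
        map_smul' := by
          intro c β
          refine HB.ext' fun z hz => ?_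
          rw [RingHom.id_apply, HB.fn_smul, HB.mk_fn _ _ _ _ hz, HB.mk_fn _ _ _ _ hz,
            HB.fn_smul, map_smul] }
    have hL0 : ∀ β : HB U E, ∀ z ∈ U, (L0 β).fn z = fderiv ℂ (ξ z) (α.fn z) (β.fn z) :=
      fun β z hz => HB.mk_fn _ _ _ _ hz
    let L : HB U E →L[ℂ] HB U F := L0.mkContinuous (|M| / r) (fun β => by
      refine HB.norm_le_of (by positivity) fun z hz => ?_
      rw [hL0 β z hz]
      exact hbd β z hz)
    refine ⟨L, ?_, hL0⟩
    rw [hasFDerivAt_iff_isLittleO_nhds_zero]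
    have hO : (fun h : HB U E => Nop (α + h) - Nop α - L h) =O[𝓝 0] fun h => ‖h‖ ^ 2 := by
      refine Asymptotics.IsBigO.of_bound (4 * |M| / r ^ 2) ?_
      have hnb : ball (0 : HB U E) r ∈ 𝓝 (0 : HB U E) := ball_mem_nhds 0 hr0
      filter_upwards [hnb] with h hh
      rw [mem_ball_zero_iff] at hh
      rw [Real.norm_of_nonneg (by positivity)]
      refine HB.norm_le_of (by positivity) fun z hz => ?_
      have hαh : ‖α + h‖ < δ := by
        have := norm_add_le α h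
        linarith
      have hLh : (L h).fn z = fderiv ℂ (ξ z) (α.fn z) (h.fn z) := hL0 h z hz
      rw [HB.fn_sub, HB.fn_sub, hNop _ hαh z hz, hNop _ (hα.trans hδ) z hz, hLh, HB.fn_add]
      have hhz : ‖h.fn z‖ < r := (h.fn_le z).trans_lt hh
      refine (htay z hz _ hhz).trans ?_
      have : 4 * |M| * ‖h.fn z‖ ^ 2 / r ^ 2 = 4 * |M| / r ^ 2 * ‖h.fn z‖ ^ 2 := by ring
      rw [this]
      have := h.fn_le z
      gcongr
    refine hO.trans_isLittleO ?_
    have h1 : (fun h : HB U E => ‖h‖ ^ 2) =o[𝓝 0] fun h : HB U E => ‖h‖ := by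
      have := Asymptotics.isLittleO_norm_pow_id (E' := HB U E) (n := 2) (by norm_num)
      exact this.norm_right
    exact h1.of_norm_right
  refine ⟨Nop, fun α hα => hNop α (hα.trans hδ), ?_, ?_⟩
  · intro α hα
    rw [mem_ball_zero_iff] at hα
    obtain ⟨L, hL, _⟩ := hder α hα
    exact hL.differentiableAt.differentiableWithinAt
  · intro α hα β z hz
    obtain ⟨L, hL, hL2⟩ := hder α hα
    rw [hL.fderiv]
    exact hL2 β z hz

/-- Lipschitz estimate for `ξ` vanishing to second order at `w = 0`. -/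
theorem nem_lip {U : Opens R} {ξ : R → E → F} {δ M : ℝ}
    (hξ : HolOn2 F ξ U (ball (0 : E) δ)) (hM : ∀ z ∈ U, ∀ w ∈ ball (0 : E) δ, ‖ξ z w‖ ≤ M)
    (h0 : ∀ z ∈ U, ξ z 0 = 0) (h1 : ∀ z ∈ U, fderiv ℂ (ξ z) 0 = 0) :
    ∀ z ∈ U, ∀ w w' : E, ‖w‖ < δ / 2 → ‖w'‖ < δ / 2 →
      ‖ξ z w - ξ z w'‖ ≤ 4 * M / δ ^ 2 * (‖w‖ + ‖w'‖) * ‖w - w'‖ := by
  intro z hz w w' hw hw'
  exact ApiC.quad_lip (hol2_slice hξ hz) (hM z hz) (h0 z hz) (h1 z hz) hw hw'

/-- (EVAL) -/
theorem eval {U : Opens R} {P : Type*} [NormedAddCommGroup P] [NormedSpace ℂ P]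
    {T : Set P} (hT : IsOpen T) {a : P → HB U F} (ha : DifferentiableOn ℂ a T) :
    HolOn2 F (fun z t => (a t).fn z) (U : Set R) T := by
  have hman : IsManifold (modelWithCornersSelf ℂ ℂ) 1 R := IsManifold.of_le (n := ω) le_top
  rintro ⟨z0, t0⟩ ⟨hz0, ht0⟩
  simp only at hz0 ht0
  apply MDifferentiableAt.mdifferentiableWithinAt
  set e := chartAt ℂ z0 with he
  have hz0e : z0 ∈ e.source := mem_chart_source ℂ z0
  have hez : e.symm (e z0) = z0 := e.left_inv hz0e
  -- the function in the chart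
  set g : ℂ × P → F := fun q => (a q.2).fn (e.symm q.1) with hg
  have hHfd : HasFDerivAt a (fderiv ℂ a t0) t0 :=
    (ha.differentiableAt (hT.mem_nhds ht0)).hasFDerivAt
  set Da := fderiv ℂ a t0 with hDa
  have htarget : e z0 ∈ e.target ∩ e.symm ⁻¹' (U : Set R) :=
    ⟨e.map_source hz0e, by rw [mem_preimage, hez]; exact hz0⟩
  have hopen : IsOpen (e.target ∩ e.symm ⁻¹' (U : Set R)) := e.isOpen_inter_preimage_symm U.2
  have hd1 : HasFDerivAt (fun ζ => (a t0).fn (e.symm ζ))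
      (fderiv ℂ (fun ζ => (a t0).fn (e.symm ζ)) (e z0)) (e z0) := by
    have h1 := ((holOn_iff_chart.1 (a t0).fn_hol).2 z0).differentiableAt (hopen.mem_nhds htarget)
    exact h1.hasFDerivAt
  set D1 := fderiv ℂ (fun ζ => (a t0).fn (e.symm ζ)) (e z0) with hD1
  obtain ⟨w, hw0, hw⟩ := equicont (F := F) (U := U) hz0
  have hgd : HasFDerivAt g (D1.comp (ContinuousLinearMap.fst ℂ ℂ P) +
      (evL z0).comp (Da.comp (ContinuousLinearMap.snd ℂ ℂ P))) (e z0, t0) := by
    rw [hasFDerivAt_iff_isLittleO]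
    -- three terms
    have hsub : (fun q : ℂ × P => q.2 - t0) =O[𝓝 (e z0, t0)] fun q => q - (e z0, t0) := by
      refine Asymptotics.IsBigO.of_bound 1 (Eventually.of_forall fun q => ?_)
      rw [one_mul]
      exact norm_snd_le (q - (e z0, t0))
    have hsub1 : (fun q : ℂ × P => q.1 - e z0) =O[𝓝 (e z0, t0)] fun q => q - (e z0, t0) := by
      refine Asymptotics.IsBigO.of_bound 1 (Eventually.of_forall fun q => ?_)
      rw [one_mul]
      exact norm_fst_le (q - (e z0, t0))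
    have t1 : (fun q : ℂ × P => a q.2 - a t0 - Da (q.2 - t0)) =o[𝓝 (e z0, t0)]
        fun q => q - (e z0, t0) := by
      have h1 := (hasFDerivAt_iff_isLittleO.mp hHfd).comp_tendsto
        (continuous_snd.tendsto ((e z0, t0) : ℂ × P))
      exact h1.trans_isBigO hsub
    have t1' : (fun q : ℂ × P => (a q.2 - a t0 - Da (q.2 - t0)).fn (e.symm q.1))
        =o[𝓝 (e z0, t0)] fun q => q - (e z0, t0) := by
      refine Asymptotics.IsBigO.trans_isLittleO ?_ t1
      refine Asymptotics.IsBigO.of_bound 1 (Eventually.of_forall fun q => ?_)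
      rw [one_mul]
      exact HB.fn_le _ _
    have t3 : (fun q : ℂ × P => (a t0).fn (e.symm q.1) - (a t0).fn (e.symm (e z0)) -
        D1 (q.1 - e z0)) =o[𝓝 (e z0, t0)] fun q => q - (e z0, t0) := by
      have h1 := (hasFDerivAt_iff_isLittleO.mp hd1).comp_tendsto
        (continuous_fst.tendsto ((e z0, t0) : ℂ × P))
      exact h1.trans_isBigO hsub1
    have hcont : Tendsto (fun q : ℂ × P => e.symm q.1) (𝓝 (e z0, t0)) (𝓝 z0) := by
      have h1 : ContinuousAt e.symm (e z0) := e.continuousAt_symm (e.map_source hz0e)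
      have h2 : Tendsto e.symm (𝓝 (e z0)) (𝓝 z0) := by
        have := h1.tendsto
        rwa [hez] at this
      exact h2.comp (continuous_fst.tendsto ((e z0, t0) : ℂ × P))
    have t2 : (fun q : ℂ × P => (Da (q.2 - t0)).fn (e.symm q.1) - (Da (q.2 - t0)).fn z0)
        =o[𝓝 (e z0, t0)] fun q => q - (e z0, t0) := by
      have h1 : (fun q : ℂ × P => w (e.symm q.1)) =o[𝓝 (e z0, t0)] fun _ => (1 : ℝ) := by
        rw [Asymptotics.isLittleO_one_iff]
        exact hw0.comp hcont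
      have h2 : (fun q : ℂ × P => Da (q.2 - t0)) =O[𝓝 (e z0, t0)] fun q => q - (e z0, t0) :=
        (Da.isBigO_comp _ _).trans hsub
      have h3 : (fun q : ℂ × P => w (e.symm q.1) * ‖Da (q.2 - t0)‖) =o[𝓝 (e z0, t0)]
          fun q => (1 : ℝ) * ‖q - (e z0, t0)‖ := h1.mul_isBigO h2.norm_norm
      simp only [one_mul] at h3
      refine (Asymptotics.IsBigO.trans_isLittleO ?_ h3).of_norm_right
      refine Asymptotics.IsBigO.of_bound 1 ?_
      filter_upwards [hcont (U.2.mem_nhds hz0)] with q hq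
      rw [one_mul]
      exact (hw _ _ hq).trans (le_abs_self _)
    refine ((t1'.add t2).add t3).congr' ?_ EventuallyEq.rfl
    refine Eventually.of_forall fun q => ?_
    simp only [hg, _root_.add_apply, ContinuousLinearMap.comp_apply,
      ContinuousLinearMap.coe_fst', ContinuousLinearMap.coe_snd', evL_apply, HB.fn_sub, hez,
      Prod.fst_sub, Prod.snd_sub]
    abel
  -- composition with the chart
  have hme : MDifferentiableAt (modelWithCornersSelf ℂ ℂ) (modelWithCornersSelf ℂ ℂ) e z0 :=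
    mdifferentiableAt_atlas (chart_mem_atlas ℂ z0) hz0e
  have hpair : MDifferentiableAt ((modelWithCornersSelf ℂ ℂ).prod (modelWithCornersSelf ℂ P))
      (modelWithCornersSelf ℂ (ℂ × P)) (fun q : R × P => (e q.1, q.2)) (z0, t0) := by
    refine MDifferentiableAt.prodMk_space ?_ ?_
    · exact MDifferentiableAt.comp (z0, t0) (hme : MDifferentiableAt _ _ e (Prod.fst (z0, t0)))
        mdifferentiableAt_fst
    · exact mdifferentiableAt_snd
  have hgm : MDifferentiableAt (modelWithCornersSelf ℂ (ℂ × P)) (modelWithCornersSelf ℂ F) g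
      (e z0, t0) := hgd.differentiableAt.mdifferentiableAt
  have hcomp := MDifferentiableAt.comp (z0, t0) (g := g) (f := fun q : R × P => (e q.1, q.2))
    hgm hpair
  refine hcomp.congr_of_eventuallyEq ?_
  have hev : ∀ᶠ q : R × P in 𝓝 (z0, t0), q.1 ∈ e.source :=
    (continuous_fst.tendsto ((z0, t0) : R × P)) (e.open_source.mem_nhds hz0e)
  filter_upwards [hev] with q hq
  simp only [Function.comp_apply, hg]
  rw [e.left_inv hq]

/-- Algebra of `HolOn2`: composition of a spray like map with a holomorphic `R × P → E`. -/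
theorem hol2_comp {X : Type*} [TopologicalSpace X] [ChartedSpace E X]
    [IsManifold (modelWithCornersSelf ℂ E) ω X] {P : Type*} [NormedAddCommGroup P]
    [NormedSpace ℂ P] {U : Opens R} {V : Set E} {T : Set P} {s : R → E → X}
    (hs : MDifferentiableOn ((modelWithCornersSelf ℂ ℂ).prod (modelWithCornersSelf ℂ E))
      (modelWithCornersSelf ℂ E) (fun q : R × E => s q.1 q.2) ((U : Set R) ×ˢ V))
    {α : R → P → E}
    (hα : MDifferentiableOn ((modelWithCornersSelf ℂ ℂ).prod (modelWithCornersSelf ℂ P))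
      (modelWithCornersSelf ℂ E) (fun q : R × P => α q.1 q.2) ((U : Set R) ×ˢ T))
    (hαV : ∀ z ∈ U, ∀ t ∈ T, α z t ∈ V) :
    MDifferentiableOn ((modelWithCornersSelf ℂ ℂ).prod (modelWithCornersSelf ℂ P))
      (modelWithCornersSelf ℂ E) (fun q : R × P => s q.1 (α q.1 q.2)) ((U : Set R) ×ˢ T) := by
  have h1 : MDifferentiableOn ((modelWithCornersSelf ℂ ℂ).prod (modelWithCornersSelf ℂ P))
      ((modelWithCornersSelf ℂ ℂ).prod (modelWithCornersSelf ℂ E))
      (fun q : R × P => (q.1, α q.1 q.2)) ((U : Set R) ×ˢ T) :=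
    (mdifferentiable_fst.mdifferentiableOn).prodMk hα
  exact hs.comp h1 (fun q hq => ⟨hq.1, hαV q.1 hq.1 q.2 hq.2⟩)

/-- (PAR) Contractions with a parameter: `Φ(t,·)` maps the closed ball of radius `ρ` to itself
and is a `1/2`-contraction there; the fixed point depends complex differentiably on `t`. -/
theorem par {P : Type*} [NormedAddCommGroup P] [NormedSpace ℂ P] {Y : Type*}
    [NormedAddCommGroup Y] [NormedSpace ℂ Y] [CompleteSpace Y] {T : Set P} (hT : IsOpen T)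
    {ρ ρ' : ℝ} (hρ : 0 ≤ ρ) (hρ' : ρ < ρ') {Φ : P → Y → Y}
    (hmaps : ∀ t ∈ T, ∀ y : Y, ‖y‖ ≤ ρ → ‖Φ t y‖ ≤ ρ)
    (hlip : ∀ t ∈ T, ∀ y y' : Y, ‖y‖ < ρ' → ‖y'‖ < ρ' → ‖Φ t y - Φ t y'‖ ≤ 1 / 2 * ‖y - y'‖)
    (hdiff : DifferentiableOn ℂ (fun q : P × Y => Φ q.1 q.2) (T ×ˢ ball 0 ρ')) :
    ∃ y : P → Y, (∀ t ∈ T, ‖y t‖ ≤ ρ ∧ Φ t (y t) = y t) ∧ DifferentiableOn ℂ y T ∧
      ∀ t ∈ T, ∀ y' : Y, ‖y'‖ ≤ ρ → Φ t y' = y' → y' = y t := by
  -- existence of fixed points
  have hex : ∀ t ∈ T, ∃ y : Y, ‖y‖ ≤ ρ ∧ Φ t y = y := by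
    intro t ht
    have : CompleteSpace (closedBall (0 : Y) ρ) := isClosed_closedBall.completeSpace_coe
    have : Nonempty (closedBall (0 : Y) ρ) := ⟨⟨0, mem_closedBall_self hρ⟩⟩
    let φ : closedBall (0 : Y) ρ → closedBall (0 : Y) ρ := fun y =>
      ⟨Φ t y.1, by
        have h := y.2
        rw [mem_closedBall_zero_iff] at h ⊢
        exact hmaps t ht _ h⟩
    have hφ : ContractingWith (1 / 2 : NNReal) φ := by
      refine ⟨?_, LipschitzWith.of_dist_le_mul fun y y' => ?_⟩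
      · rw [← NNReal.coe_lt_coe]; norm_num
      · have h := y.2
        have h' := y'.2
        rw [mem_closedBall_zero_iff] at h h'
        rw [Subtype.dist_eq, Subtype.dist_eq, dist_eq_norm, dist_eq_norm]
        have := hlip t ht y.1 y'.1 (h.trans_lt hρ') (h'.trans_lt hρ')
        simpa [φ] using this
    refine ⟨(hφ.fixedPoint φ).1, ?_, ?_⟩
    · have := (hφ.fixedPoint φ).2
      rwa [mem_closedBall_zero_iff] at this
    · have := hφ.fixedPoint_isFixedPt
      exact congrArg Subtype.val this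
  choose! y hy using hex
  have huniq : ∀ t ∈ T, ∀ y' : Y, ‖y'‖ ≤ ρ → Φ t y' = y' → y' = y t := by
    intro t ht y' hy' hfix
    have h := hlip t ht y' (y t) (hy'.trans_lt hρ') ((hy t ht).1.trans_lt hρ')
    rw [hfix, (hy t ht).2] at h
    have h0 : ‖y' - y t‖ ≤ 0 := by linarith
    exact sub_eq_zero.mp (norm_le_zero_iff.mp h0)
  refine ⟨y, hy, ?_, huniq⟩
  intro t0 ht0
  apply DifferentiableAt.differentiableWithinAt
  set y0 := y t0 with hy0
  have hball : ∀ t ∈ T, ‖y t‖ < ρ' := fun t ht => (hy t ht).1.trans_lt hρ'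
  have hopen : IsOpen (T ×ˢ ball (0 : Y) ρ') := hT.prod isOpen_ball
  have hmem : (t0, y0) ∈ T ×ˢ ball (0 : Y) ρ' :=
    ⟨ht0, by rw [mem_ball_zero_iff]; exact hball t0 ht0⟩
  have hd : HasFDerivAt (fun q : P × Y => Φ q.1 q.2)
      (fderiv ℂ (fun q : P × Y => Φ q.1 q.2) (t0, y0)) (t0, y0) :=
    (hdiff.differentiableAt (hopen.mem_nhds hmem)).hasFDerivAt
  set D := fderiv ℂ (fun q : P × Y => Φ q.1 q.2) (t0, y0) with hD
  set A : P →L[ℂ] Y := D.comp (ContinuousLinearMap.inl ℂ P Y) with hA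
  set B : Y →L[ℂ] Y := D.comp (ContinuousLinearMap.inr ℂ P Y) with hB
  have hDAB : ∀ (u : P) (v : Y), D (u, v) = A u + B v := by
    intro u v
    rw [hA, hB]
    simp only [ContinuousLinearMap.comp_apply, ContinuousLinearMap.inl_apply,
      ContinuousLinearMap.inr_apply]
    rw [← map_add]
    simp
  have hBd : HasFDerivAt (fun v : Y => Φ t0 v) B y0 := by
    have h1 : HasFDerivAt (fun v : Y => ((t0, v) : P × Y)) (ContinuousLinearMap.inr ℂ P Y) y0 :=
      hasFDerivAt_prodMk_right t0 y0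
    exact hd.comp y0 h1
  have hBn : ‖B‖ ≤ 1 / 2 := by
    refine hBd.le_of_lip' (by norm_num) ?_
    have : ball (0 : Y) ρ' ∈ 𝓝 y0 := isOpen_ball.mem_nhds hmem.2
    filter_upwards [this] with v hv
    rw [mem_ball_zero_iff] at hv
    exact hlip t0 ht0 v y0 hv (hball t0 ht0)
  -- Lipschitz continuity of y at t0
  have hAd : HasFDerivAt (fun t : P => Φ t y0) A t0 := by
    have h1 : HasFDerivAt (fun t : P => ((t, y0) : P × Y)) (ContinuousLinearMap.inl ℂ P Y) t0 :=
      hasFDerivAt_prodMk_left t0 y0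
    exact hd.comp t0 h1
  have hylip : ∀ᶠ t in 𝓝 t0, ‖y t - y0‖ ≤ 2 * ‖Φ t y0 - Φ t0 y0‖ := by
    filter_upwards [hT.mem_nhds ht0] with t ht
    have h1 : y t - y0 = (Φ t (y t) - Φ t y0) + (Φ t y0 - Φ t0 y0) := by
      rw [(hy t ht).2, (hy t0 ht0).2]; abel
    have h2 := hlip t ht (y t) y0 (hball t ht) (hball t0 ht0)
    have h3 : ‖y t - y0‖ ≤ ‖Φ t (y t) - Φ t y0‖ + ‖Φ t y0 - Φ t0 y0‖ := by
      conv_lhs => rw [h1]
      exact norm_add_le _ _
    linarith
  have hyO : (fun t => y t - y0) =O[𝓝 t0] fun t => t - t0 := by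
    have h1 : (fun t => y t - y0) =O[𝓝 t0] fun t => Φ t y0 - Φ t0 y0 :=
      Asymptotics.IsBigO.of_bound 2 hylip
    exact h1.trans hAd.isBigO_sub
  have hycont : Tendsto (fun t => (t, y t)) (𝓝 t0) (𝓝 (t0, y0)) := by
    refine tendsto_id.prodMk_nhds ?_
    have h1 : Tendsto (fun t => y t - y0) (𝓝 t0) (𝓝 0) := by
      refine hyO.trans_tendsto ?_
      have : Tendsto (fun t => t - t0) (𝓝 t0) (𝓝 (t0 - t0)) := tendsto_id.sub_const t0
      simpa using this
    simpa using h1.add_const y0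
  have hunit : IsUnit (1 - B) := by
    refine isUnit_one_sub_of_norm_lt_one ?_
    exact hBn.trans_lt (by norm_num)
  obtain ⟨u, hu⟩ := hunit
  set L : P →L[ℂ] Y := ((↑u⁻¹ : Y →L[ℂ] Y)).comp A with hL
  refine ⟨L, ?_⟩
  rw [hasFDerivAt_iff_isLittleO]
  have hlo : (fun t => Φ t (y t) - Φ t0 y0 - D (t - t0, y t - y0)) =o[𝓝 t0] fun t => t - t0 := by
    have h1 := (hasFDerivAt_iff_isLittleO.mp hd).comp_tendsto hycont
    have h2 : (fun t => ((t, y t) : P × Y) - (t0, y0)) =O[𝓝 t0] fun t => t - t0 := by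
      have : (fun t => ((t, y t) : P × Y) - (t0, y0)) = fun t => (t - t0, y t - y0) := by
        funext t; rfl
      rw [this]
      exact Asymptotics.IsBigO.prod_left (Asymptotics.isBigO_refl _ _) hyO
    exact h1.trans_isBigO h2
  have hkey : ∀ᶠ t in 𝓝 t0, (↑u⁻¹ : Y →L[ℂ] Y) (Φ t (y t) - Φ t0 y0 - D (t - t0, y t - y0)) =
      y t - y t0 - L (t - t0) := by
    filter_upwards [hT.mem_nhds ht0] with t ht
    rw [(hy t ht).2, (hy t0 ht0).2, hDAB]
    have h1 : y t - y t0 - (A (t - t0) + B (y t - y0)) = (1 - B) (y t - y0) - A (t - t0) := by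
      simp only [_root_.sub_apply, one_apply_eq_self, ← hy0]
      abel
    rw [h1, map_sub, ← hu]
    have h2 : (↑u⁻¹ : Y →L[ℂ] Y) ((↑u : Y →L[ℂ] Y) (y t - y0)) = y t - y0 := by
      rw [← mul_apply_eq_comp, Units.inv_mul]
      rfl
    rw [h2, hL]
    rfl
  refine (Asymptotics.IsLittleO.congr' ?_ hkey EventuallyEq.rfl)
  exact ((↑u⁻¹ : Y →L[ℂ] Y).isBigO_comp _ _).trans_isLittleO hlo

end Pool.Agent.W_4d259d_h44
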