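import Pool.Agent.W_4d259d_h44.Iface
import Pool.Agent.W_4d259d_h44.ApiC

/-!
# MP_4d259d_ag, BLOCK FL: flexible points, file A (jets, charts)
-/

noncomputable section

set_option linter.unusedSectionVars false

namespace Pool.Agent.W_4d259d_h44

open Set Filter Topology Manifold Metric MeasureTheory TopologicalSpace
open scoped ContDiff OnePoint BoundedContinuousFunction
open Pool.Agent.W_4d259d_h46.Defs Pool.Agent.W_4d259d_h46

variable {E : Type*} [NormedAddCommGroup E] [NormedSpace ℂ E] [FiniteDimensional ℂ E]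
variable {X : Type*} [TopologicalSpace X] [ChartedSpace E X]
  [IsManifold (modelWithCornersSelf ℂ E) ω X]

/-- A chart of `X` is holomorphic. -/
theorem mdiffOn_chart {φ : OpenPartialHomeomorph X E} (hφ : φ ∈ XChart E X) :
    MDifferentiableOn (modelWithCornersSelf ℂ E) (modelWithCornersSelf ℂ E) φ φ.source :=
  (contMDiffOn_of_mem_maximalAtlas hφ).mdifferentiableOn (by simp)

/-- The inverse of a chart of `X` is holomorphic. -/
theorem mdiffOn_chart_symm {φ : OpenPartialHomeomorph X E} (hφ : φ ∈ XChart E X) :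
    MDifferentiableOn (modelWithCornersSelf ℂ E) (modelWithCornersSelf ℂ E) φ.symm φ.target :=
  (contMDiffOn_symm_of_mem_maximalAtlas hφ).mdifferentiableOn (by simp)

/-- Composition with a chart, general source. -/
theorem diffOn_chart_comp {P : Type*} [NormedAddCommGroup P] [NormedSpace ℂ P]
    {φ : OpenPartialHomeomorph X E} (hφ : φ ∈ XChart E X) {g : P → X} {S : Set P}
    (hg : MDifferentiableOn (modelWithCornersSelf ℂ P) (modelWithCornersSelf ℂ E) g S)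
    (hS : ∀ q ∈ S, g q ∈ φ.source) : DifferentiableOn ℂ (fun q => φ (g q)) S := by
  rw [← mdifferentiableOn_iff_differentiableOn]
  exact (mdiffOn_chart hφ).comp hg hS

/-- (FLEXJET), the version with the chart `φ`. -/
theorem flexData_of_jet {φ : OpenPartialHomeomorph X E} (hφ : φ ∈ XChart E X) {x : X}
    (hx : x ∈ φ.source) {d ρ : ℝ} (hd : 0 < d) (hρ : 0 < ρ)
    {Lam : ℂ → E → E → X} {Ui : ℂ → E → E → X}
    (hL : MDifferentiableOn (modelWithCornersSelf ℂ (ℂ × E × E)) (modelWithCornersSelf ℂ E)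
      (fun q : ℂ × E × E => Lam q.1 q.2.1 q.2.2) (univ ×ˢ (ball 0 d ×ˢ ball 0 d)))
    (hU : MDifferentiableOn (modelWithCornersSelf ℂ (ℂ × E × E)) (modelWithCornersSelf ℂ E)
      (fun q : ℂ × E × E => Ui q.1 q.2.1 q.2.2) (ball 0 ρ ×ˢ (ball 0 d ×ˢ ball 0 d)))
    (heq : ∀ ζ ∈ ball (0 : ℂ) ρ, ζ ≠ 0 → ∀ p ∈ ball (0 : E) d, ∀ a ∈ ball (0 : E) d,
      Ui ζ p a = Lam ζ⁻¹ p a)
    (h0 : Ui 0 0 0 = x)
    (L : (E × E) ≃L[ℂ] (E × E))
    (hJ : HasFDerivAt (fun q : E × E => (φ (Ui 0 q.1 q.2), deriv (fun ζ => φ (Ui ζ q.1 q.2)) 0))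
      (L : (E × E) →L[ℂ] (E × E)) (0, 0))
    (hJ0 : deriv (fun ζ => φ (Ui ζ 0 0)) 0 = 0) :
    ∃ (δ ρ M : ℝ) (Lam : ℂ → E → E → X) (Psi : ℂ → E → E → E), FlexData φ (φ x) δ ρ M Lam Psi := by
  classical
  have : CompleteSpace E := FiniteDimensional.complete ℂ E
  -- step 1: shrink
  set D0 : Set (ℂ × E × E) := ball (0 : ℂ) ρ ×ˢ (ball (0 : E) d ×ˢ ball (0 : E) d) with hD0
  have hD0o : IsOpen D0 := isOpen_ball.prod (isOpen_ball.prod isOpen_ball)
  have h00 : ((0 : ℂ), (0 : E), (0 : E)) ∈ D0 :=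
    ⟨mem_ball_self hρ, mem_ball_self hd, mem_ball_self hd⟩
  have hcU : ContinuousAt (fun q : ℂ × E × E => Ui q.1 q.2.1 q.2.2) (0, 0, 0) :=
    (hU.continuousOn).continuousAt (hD0o.mem_nhds h00)
  have hsrc : ∀ᶠ q : ℂ × E × E in 𝓝 (0, 0, 0), Ui q.1 q.2.1 q.2.2 ∈ φ.source := by
    have h1 : (fun q : ℂ × E × E => Ui q.1 q.2.1 q.2.2) (0, 0, 0) ∈ φ.source := by
      simpa [h0] using hx
    exact hcU.eventually (φ.open_source.mem_nhds h1)
  have hcφ : ContinuousAt (fun q : ℂ × E × E => φ (Ui q.1 q.2.1 q.2.2)) (0, 0, 0) := by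
    have h1 : ContinuousAt φ ((fun q : ℂ × E × E => Ui q.1 q.2.1 q.2.2) (0, 0, 0)) := by
      refine φ.continuousAt ?_
      simpa [h0] using hx
    exact ContinuousAt.comp h1 hcU
  have hbdd : ∀ᶠ q : ℂ × E × E in 𝓝 (0, 0, 0),
      φ (Ui q.1 q.2.1 q.2.2) ∈ ball (φ x) 1 := by
    have h1 : (fun q : ℂ × E × E => φ (Ui q.1 q.2.1 q.2.2)) (0, 0, 0) ∈ ball (φ x) 1 := by
      simp [h0]
    exact hcφ.eventually (isOpen_ball.mem_nhds h1)
  obtain ⟨η, hη0, hη⟩ := Metric.eventually_nhds_iff_ball.mp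
    ((hsrc.and hbdd).and (hD0o.mem_nhds h00))
  have hprod : ∀ ζ ∈ ball (0 : ℂ) η, ∀ p ∈ ball (0 : E) η, ∀ a ∈ ball (0 : E) η,
      (ζ, p, a) ∈ ball ((0 : ℂ), (0 : E), (0 : E)) η := by
    intro ζ hζ p hp a ha
    rw [← ball_prod_same, ← ball_prod_same]
    exact ⟨hζ, hp, ha⟩
  set V : Set (E × E) := ball (0 : E) η ×ˢ ball (0 : E) η with hV
  have hVo : IsOpen V := isOpen_ball.prod isOpen_ball
  set G : ℂ × E × E → E := fun q => φ (Ui q.1 q.2.1 q.2.2) with hG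
  have hGd : DifferentiableOn ℂ G (ball (0 : ℂ) η ×ˢ V) := by
    refine diffOn_chart_comp hφ (hU.mono ?_) ?_
    · rintro ⟨ζ, p, a⟩ ⟨h1, h2, h3⟩
      exact (hη _ (hprod ζ h1 p h2 a h3)).2
    · rintro ⟨ζ, p, a⟩ ⟨h1, h2, h3⟩
      exact (hη _ (hprod ζ h1 p h2 a h3)).1.1
  have hGo : IsOpen (ball (0 : ℂ) η ×ˢ V) := isOpen_ball.prod hVo
  -- step 2: the jet map
  set J : E × E → E × E := fun q => (φ (Ui 0 q.1 q.2), deriv (fun ζ => φ (Ui ζ q.1 q.2)) 0)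
    with hJdef
  have hder : ∀ q ∈ V, HasDerivAt (fun ζ => G (ζ, q)) (fderiv ℂ G (0, q) (1, 0)) 0 := by
    intro q hq
    have h1 : HasFDerivAt G (fderiv ℂ G (0, q)) (0, q) :=
      (hGd.differentiableAt (hGo.mem_nhds ⟨mem_ball_self hη0, hq⟩)).hasFDerivAt
    have h2 : HasDerivAt (fun ζ : ℂ => (ζ, q)) ((1 : ℂ), (0 : E × E)) 0 :=
      (hasDerivAt_id (0 : ℂ)).prodMk (hasDerivAt_const (0 : ℂ) q)
    exact h1.comp_hasDerivAt (0 : ℂ) h2
  have hJd : DifferentiableOn ℂ J V := by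
    have h1 : DifferentiableOn ℂ (fun q : E × E => ((0 : ℂ), q)) V := by fun_prop
    have hmaps : MapsTo (fun q : E × E => ((0 : ℂ), q)) V (ball (0 : ℂ) η ×ˢ V) :=
      fun q hq => ⟨mem_ball_self hη0, hq⟩
    refine DifferentiableOn.prodMk (hGd.comp h1 hmaps) ?_
    have h2 : DifferentiableOn ℂ (fun q : E × E => fderiv ℂ G (0, q) (1, 0)) V := by
      have h3 := (ApiC.differentiableOn_fderiv hGo hGd).comp h1 hmaps
      exact h3.clm_apply (differentiableOn_const _)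
    exact h2.congr fun q hq => (hder q hq).deriv
  have hJ00 : J (0, 0) = (φ x, 0) := by
    simp only [hJdef, h0, hJ0]
  have h0V : ((0 : E), (0 : E)) ∈ V := ⟨mem_ball_self hη0, mem_ball_self hη0⟩
  -- step 3: the inverse of the jet map
  obtain ⟨r, hr, N, hNd, _, hN, -⟩ := ApiC.inverse_function hVo hJd h0V L hJ.fderiv
  rw [hJ00] at hNd hN
  set P : Set (E × E) := ball (φ x) r ×ˢ ball (0 : E) r with hP
  have hPb : P = ball (φ x, (0 : E)) r := by rw [hP, ball_prod_same]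
  have hPo : IsOpen P := isOpen_ball.prod isOpen_ball
  -- step 4: division
  set f : ℂ → E × E → E := fun ζ q => G (ζ, N q) - q.1 - ζ • q.2 with hf
  have hNP : ∀ q ∈ P, N q ∈ V ∧ J (N q) = q := fun q hq => hN q (hPb ▸ hq)
  have hfd : DifferentiableOn ℂ (fun q : ℂ × (E × E) => f q.1 q.2) (ball 0 η ×ˢ P) := by
    have h1 : DifferentiableOn ℂ (fun q : ℂ × (E × E) => (q.1, N q.2)) (ball 0 η ×ˢ P) := by
      refine DifferentiableOn.prodMk differentiableOn_fst ?_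
      refine (hPb ▸ hNd : DifferentiableOn ℂ N P).comp differentiableOn_snd (fun q hq => hq.2)
    have h2 : DifferentiableOn ℂ (fun q : ℂ × (E × E) => G (q.1, N q.2)) (ball 0 η ×ˢ P) :=
      hGd.comp h1 (fun q hq => ⟨hq.1, (hNP q.2 hq.2).1⟩)
    refine (h2.sub ?_).sub ?_
    · fun_prop
    · fun_prop
  have hfM : ∀ ζ ∈ ball (0 : ℂ) η, ∀ q ∈ P,
      ‖f ζ q‖ ≤ (‖φ x‖ + 1) + (‖φ x‖ + r) + η * r := by
    intro ζ hζ q hq
    have h1 : ‖G (ζ, N q)‖ ≤ ‖φ x‖ + 1 := by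
      have hNq := (hNP q hq).1
      have := (hη _ (hprod ζ hζ (N q).1 hNq.1 (N q).2 hNq.2)).1.2
      rw [mem_ball_iff_norm] at this
      have h2 := norm_le_norm_add_norm_sub' (G (ζ, N q)) (φ x)
      have h3 : ‖G (ζ, N q) - φ x‖ < 1 := this
      rw [norm_sub_rev] at h3
      rw [norm_sub_rev] at h2
      linarith
    have h2 : ‖q.1‖ ≤ ‖φ x‖ + r := by
      have h3 : ‖q.1 - φ x‖ < r := mem_ball_iff_norm.mp hq.1
      have h4 := norm_le_norm_add_norm_sub' q.1 (φ x)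
      linarith
    have h3 : ‖ζ • q.2‖ ≤ η * r := by
      rw [norm_smul]
      exact mul_le_mul (mem_ball_zero_iff.mp hζ).le (mem_ball_zero_iff.mp hq.2).le
        (norm_nonneg _) hη0.le
    calc ‖f ζ q‖ ≤ ‖G (ζ, N q) - q.1‖ + ‖ζ • q.2‖ := norm_sub_le _ _
      _ ≤ (‖G (ζ, N q)‖ + ‖q.1‖) + ‖ζ • q.2‖ := by gcongr; exact norm_sub_le _ _
      _ ≤ _ := by gcongr
  have hf0 : ∀ q ∈ P, f 0 q = 0 := by
    intro q hq
    have h1 := congrArg Prod.fst (hNP q hq).2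
    simp only [hJdef] at h1
    simp only [hf, hG, h1, zero_smul, sub_self]
  have hf1 : ∀ q ∈ P, deriv (fun ζ => f ζ q) 0 = 0 := by
    intro q hq
    have h1 := congrArg Prod.snd (hNP q hq).2
    simp only [hJdef] at h1
    have h2 : HasDerivAt (fun ζ => G (ζ, N q)) (deriv (fun ζ => G (ζ, N q)) 0) 0 :=
      (hder (N q) (hNP q hq).1).differentiableAt.hasDerivAt
    have h3 : deriv (fun ζ => G (ζ, N q)) 0 = q.2 := h1
    rw [h3] at h2
    have h4 : HasDerivAt (fun ζ : ℂ => ζ • q.2) ((1 : ℂ) • q.2) 0 :=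
      (hasDerivAt_id (0 : ℂ)).smul_const q.2
    have h5 : HasDerivAt (fun ζ => f ζ q) (q.2 - (1 : ℂ) • q.2) 0 := (h2.sub_const q.1).sub h4
    rw [h5.deriv, one_smul, sub_self]
  obtain ⟨Psi, hPsi, hPsiM, hPsieq⟩ := ApiC.exists_div_sq hη0 hPo hfd hfM hf0 hf1
  refine ⟨r, η, ((‖φ x‖ + 1) + (‖φ x‖ + r) + η * r) / η ^ 2,
    fun z p a => Lam z (N (p, a)).1 (N (p, a)).2, fun ζ p a => Psi ζ (p, a), ?_⟩
  have hVd : ∀ q ∈ V, q.1 ∈ ball (0 : E) d ∧ q.2 ∈ ball (0 : E) d := by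
    intro q hq
    have := (hη _ (hprod 0 (mem_ball_self hη0) q.1 hq.1 q.2 hq.2)).2
    exact ⟨this.2.1, this.2.2⟩
  refine ⟨hr, hη0, ?_, ?_, ?_, ?_⟩
  · have h1 : DifferentiableOn ℂ (fun q : ℂ × E × E => (q.1, (N (q.2.1, q.2.2)).1,
        (N (q.2.1, q.2.2)).2)) (univ ×ˢ P) := by
      refine DifferentiableOn.prodMk differentiableOn_fst ?_
      exact (hPb ▸ hNd : DifferentiableOn ℂ N P).comp differentiableOn_snd (fun q hq => hq.2)
    have h2 := mdifferentiableOn_iff_differentiableOn.mpr h1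
    exact MDifferentiableOn.comp hL h2 (fun q hq =>
      ⟨mem_univ _, (hVd _ (hNP q.2 hq.2).1).1, (hVd _ (hNP q.2 hq.2).1).2⟩)
  · exact hPsi
  · intro ζ hζ p hp a ha
    exact hPsiM ζ hζ (p, a) ⟨hp, ha⟩
  · intro ζ hζ hζ0 p hp a ha
    have hq : (p, a) ∈ P := ⟨hp, ha⟩
    have hNq := (hNP (p, a) hq).1
    have hζρ : ζ ∈ ball (0 : ℂ) ρ :=
      (hη _ (hprod ζ hζ (N (p, a)).1 hNq.1 (N (p, a)).2 hNq.2)).2.1
    have h1 : Ui ζ (N (p, a)).1 (N (p, a)).2 = Lam ζ⁻¹ (N (p, a)).1 (N (p, a)).2 :=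
      heq ζ hζρ hζ0 _ (hVd _ hNq).1 _ (hVd _ hNq).2
    rw [← h1]
    refine ⟨(hη _ (hprod ζ hζ (N (p, a)).1 hNq.1 (N (p, a)).2 hNq.2)).1.1, ?_⟩
    have h2 := hPsieq ζ hζ (p, a) hq
    simp only [hf, hG] at h2
    rw [← h2]
    abel

/-- (FLEXJET) A holomorphic family of rational curves `η ↦ Lam η p a` (`η ∈ ℂ`), which extends
holomorphically to `η = ∞` (`Ui ζ p a`, `ζ = 1/η` near `0`), and whose jet map
`(p,a) ↦ (φ (Ui 0 p a), ∂_ζ φ (Ui ζ p a) at ζ = 0)` is a local biholomorphism at `(0,0)` over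
`(φ x, 0)`, makes `x` flexible.
Proof: let `N` be the local inverse of the jet map `J` (ApiC.inverse_function), defined on a ball
around `(φ x, 0)`; `Lam' η p' a' := Lam η (N (p',a')).1 (N (p',a')).2`; the map
`f ζ (p',a') := φ (Ui ζ (N ..)) - p' - ζ • a'` has vanishing first jet at `ζ = 0`; divide by `ζ²`
(ApiC.exists_div_sq), after shrinking so that everything is bounded and `Ui` lies in
`φ.source`. -/
theorem flexAt_of_jet {φ : OpenPartialHomeomorph X E} (hφ : φ ∈ XChart E X) {x : X}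
    (hx : x ∈ φ.source) {d ρ : ℝ} (hd : 0 < d) (hρ : 0 < ρ)
    {Lam : ℂ → E → E → X} {Ui : ℂ → E → E → X}
    (hL : MDifferentiableOn (modelWithCornersSelf ℂ (ℂ × E × E)) (modelWithCornersSelf ℂ E)
      (fun q : ℂ × E × E => Lam q.1 q.2.1 q.2.2) (univ ×ˢ (ball 0 d ×ˢ ball 0 d)))
    (hU : MDifferentiableOn (modelWithCornersSelf ℂ (ℂ × E × E)) (modelWithCornersSelf ℂ E)
      (fun q : ℂ × E × E => Ui q.1 q.2.1 q.2.2) (ball 0 ρ ×ˢ (ball 0 d ×ˢ ball 0 d)))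
    (heq : ∀ ζ ∈ ball (0 : ℂ) ρ, ζ ≠ 0 → ∀ p ∈ ball (0 : E) d, ∀ a ∈ ball (0 : E) d,
      Ui ζ p a = Lam ζ⁻¹ p a)
    (h0 : Ui 0 0 0 = x)
    (L : (E × E) ≃L[ℂ] (E × E))
    (hJ : HasFDerivAt (fun q : E × E => (φ (Ui 0 q.1 q.2), deriv (fun ζ => φ (Ui ζ q.1 q.2)) 0))
      (L : (E × E) →L[ℂ] (E × E)) (0, 0))
    (hJ0 : deriv (fun ζ => φ (Ui ζ 0 0)) 0 = 0) : FlexAt E x :=
  ⟨φ, hφ, hx, flexData_of_jet hφ hx hd hρ hL hU heq h0 L hJ hJ0⟩

/-- A point with flexible data in one chart has flexible data in every other chart.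
(Apply `flexAt_of_jet`-like argument: with `Ui ζ p a := φ.symm (p + ζ • a + ζ² • Psi ζ p a)`, the jet
map in the chart `ψ` is `(p,a) ↦ (τ p, Dτ(p) a)`, `τ = ψ ∘ φ.symm`.) -/
theorem flexAt_chart {x : X} (h : FlexAt E x) {ψ : OpenPartialHomeomorph X E}
    (hψ : ψ ∈ XChart E X) (hx : x ∈ ψ.source) :
    ∃ (δ ρ M : ℝ) (Lam : ℂ → E → E → X) (Psi : ℂ → E → E → E),
      FlexData ψ (ψ x) δ ρ M Lam Psi := by
  classical
  have : CompleteSpace E := FiniteDimensional.complete ℂ E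
  obtain ⟨φ, hφ, hxφ, δ, ρ, M, Lam, Psi, H⟩ := h
  -- the transition map
  set τ : E → E := fun p => ψ (φ.symm p) with hτ
  set σ : E → E := fun p => φ (ψ.symm p) with hσ
  set S : Set E := φ.target ∩ φ.symm ⁻¹' ψ.source with hS
  have hSo : IsOpen S := φ.isOpen_inter_preimage_symm ψ.open_source
  set S' : Set E := ψ.target ∩ ψ.symm ⁻¹' φ.source with hS'
  have hSo' : IsOpen S' := ψ.isOpen_inter_preimage_symm φ.open_source
  have hτd : DifferentiableOn ℂ τ S := by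
    refine diffOn_chart_comp hψ ((mdiffOn_chart_symm hφ).mono inter_subset_left) ?_
    exact fun q hq => hq.2
  have hσd : DifferentiableOn ℂ σ S' := by
    refine diffOn_chart_comp hφ ((mdiffOn_chart_symm hψ).mono inter_subset_left) ?_
    exact fun q hq => hq.2
  have hxS : φ x ∈ S := ⟨φ.map_source hxφ, by rw [mem_preimage, φ.left_inv hxφ]; exact hx⟩
  have hxS' : ψ x ∈ S' := ⟨ψ.map_source hx, by rw [mem_preimage, ψ.left_inv hx]; exact hxφ⟩
  have hτx : τ (φ x) = ψ x := by simp only [hτ, φ.left_inv hxφ]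
  have hσx : σ (ψ x) = φ x := by simp only [hσ, ψ.left_inv hx]
  have hτx' : HasFDerivAt τ (fderiv ℂ τ (φ x)) (φ x) :=
    (hτd.differentiableAt (hSo.mem_nhds hxS)).hasFDerivAt
  have hσx' : HasFDerivAt σ (fderiv ℂ σ (ψ x)) (ψ x) :=
    (hσd.differentiableAt (hSo'.mem_nhds hxS')).hasFDerivAt
  have hστ : ∀ᶠ p in 𝓝 (φ x), σ (τ p) = p := by
    filter_upwards [hSo.mem_nhds hxS] with p hp
    simp only [hσ, hτ]
    rw [ψ.left_inv hp.2, φ.right_inv hp.1]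
  have hτσ : ∀ᶠ p in 𝓝 (ψ x), τ (σ p) = p := by
    filter_upwards [hSo'.mem_nhds hxS'] with p hp
    simp only [hσ, hτ]
    rw [φ.left_inv hp.2, ψ.right_inv hp.1]
  have hA : ∀ v, fderiv ℂ σ (ψ x) (fderiv ℂ τ (φ x) v) = v := by
    have h1 : HasFDerivAt (fun p => σ (τ p)) ((fderiv ℂ σ (ψ x)).comp (fderiv ℂ τ (φ x))) (φ x) := by
      have h2 : HasFDerivAt σ (fderiv ℂ σ (ψ x)) (τ (φ x)) := by rw [hτx]; exact hσx'
      exact h2.comp (φ x) hτx'
    have h2 : HasFDerivAt (fun p => σ (τ p)) (ContinuousLinearMap.id ℂ E) (φ x) :=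
      (hasFDerivAt_id (φ x)).congr_of_eventuallyEq hστ
    intro v
    exact DFunLike.congr_fun (h1.unique h2) v
  have hB : ∀ v, fderiv ℂ τ (φ x) (fderiv ℂ σ (ψ x) v) = v := by
    have h1 : HasFDerivAt (fun p => τ (σ p)) ((fderiv ℂ τ (φ x)).comp (fderiv ℂ σ (ψ x))) (ψ x) := by
      have h2 : HasFDerivAt τ (fderiv ℂ τ (φ x)) (σ (ψ x)) := by rw [hσx]; exact hτx'
      exact h2.comp (ψ x) hσx'
    have h2 : HasFDerivAt (fun p => τ (σ p)) (ContinuousLinearMap.id ℂ E) (ψ x) :=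
      (hasFDerivAt_id (ψ x)).congr_of_eventuallyEq hτσ
    intro v
    exact DFunLike.congr_fun (h1.unique h2) v
  let T : E ≃L[ℂ] E := ContinuousLinearEquiv.equivOfInverse (fderiv ℂ τ (φ x)) (fderiv ℂ σ (ψ x))
    hA hB
  -- the curve in the chart `φ`
  set D0 : Set (ℂ × E × E) := ball (0 : ℂ) ρ ×ˢ (ball (0 : E) δ ×ˢ ball (0 : E) δ) with hD0
  have hD0o : IsOpen D0 := isOpen_ball.prod (isOpen_ball.prod isOpen_ball)
  have h00 : ((0 : ℂ), (0 : E), (0 : E)) ∈ D0 :=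
    ⟨mem_ball_self H.rpos, mem_ball_self H.dpos, mem_ball_self H.dpos⟩
  set c : ℂ × E × E → E := fun q =>
    (φ x + q.2.1) + q.1 • q.2.2 + q.1 ^ 2 • Psi q.1 (φ x + q.2.1) q.2.2 with hc
  have hshift : ∀ p ∈ ball (0 : E) δ, φ x + p ∈ ball (φ x) δ := by
    intro p hp
    rw [mem_ball_iff_norm, add_sub_cancel_left]
    exact mem_ball_zero_iff.mp hp
  have hPsid : DifferentiableOn ℂ (fun q : ℂ × E × E => Psi q.1 (φ x + q.2.1) q.2.2) D0 := by
    have h1 : DifferentiableOn ℂ (fun q : ℂ × E × E => (q.1, φ x + q.2.1, q.2.2)) D0 := by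
      fun_prop
    exact H.holPsi.comp h1 (fun q hq => ⟨hq.1, hshift _ hq.2.1, hq.2.2⟩)
  have hcd : DifferentiableOn ℂ c D0 := by
    refine DifferentiableOn.add (by fun_prop) (DifferentiableOn.smul (by fun_prop) hPsid)
  have hc0 : c (0, 0, 0) = φ x := by simp [hc]
  have hcS : ∀ᶠ q in 𝓝 ((0 : ℂ), (0 : E), (0 : E)), c q ∈ S := by
    have h1 : ContinuousAt c (0, 0, 0) := hcd.continuousOn.continuousAt (hD0o.mem_nhds h00)
    exact h1.eventually (hSo.mem_nhds (by rw [hc0]; exact hxS))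
  have hxS2 : ∀ᶠ q in 𝓝 ((0 : ℂ), (0 : E), (0 : E)), φ x + q.2.1 ∈ S := by
    have h1 : ContinuousAt (fun q : ℂ × E × E => φ x + q.2.1) (0, 0, 0) := by fun_prop
    exact h1.eventually (hSo.mem_nhds (by simpa using hxS))
  obtain ⟨η, hη0, hη⟩ := Metric.eventually_nhds_iff_ball.mp
    ((hcS.and hxS2).and (hD0o.mem_nhds h00))
  have hprod : ∀ ζ ∈ ball (0 : ℂ) η, ∀ p ∈ ball (0 : E) η, ∀ a ∈ ball (0 : E) η,
      (ζ, p, a) ∈ ball ((0 : ℂ), (0 : E), (0 : E)) η := by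
    intro ζ hζ p hp a ha
    rw [← ball_prod_same, ← ball_prod_same]
    exact ⟨hζ, hp, ha⟩
  have hk : ∀ ζ ∈ ball (0 : ℂ) η, ∀ p ∈ ball (0 : E) η, ∀ a ∈ ball (0 : E) η,
      c (ζ, p, a) ∈ S ∧ φ x + p ∈ S ∧ (ζ, p, a) ∈ D0 := by
    intro ζ hζ p hp a ha
    have := hη _ (hprod ζ hζ p hp a ha)
    exact ⟨this.1.1, this.1.2, this.2⟩
  have hder : ∀ p ∈ ball (0 : E) η, ∀ a ∈ ball (0 : E) η,
      HasDerivAt (fun ζ => ψ (φ.symm (c (ζ, p, a)))) (fderiv ℂ τ (φ x + p) a) 0 := by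
    intro p hp a ha
    have h0m := hk 0 (mem_ball_self hη0) p hp a ha
    have h1 : HasDerivAt (fun ζ => c (ζ, p, a)) a 0 := by
      have h2 : DifferentiableAt ℂ (fun ζ : ℂ => Psi ζ (φ x + p) a) 0 := by
        have h3 : DifferentiableAt ℂ (fun ζ : ℂ => ((ζ, p, a) : ℂ × E × E)) 0 := by fun_prop
        exact ((hPsid.differentiableAt (hD0o.mem_nhds h0m.2.2))).comp (0 : ℂ) h3
      have h4 : HasDerivAt (fun ζ : ℂ => ζ ^ 2) 0 0 := by
        simpa using hasDerivAt_pow 2 (0 : ℂ)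
      have h5 := h4.smul h2.hasDerivAt
      have h6 : HasDerivAt (fun ζ : ℂ => ζ • a) ((1 : ℂ) • a) 0 :=
        (hasDerivAt_id (0 : ℂ)).smul_const a
      have h7 := (h6.const_add (φ x + p)).add h5
      refine HasDerivAt.congr_deriv (f := fun ζ => c (ζ, p, a)) h7 ?_
      simp
    have h2 : HasFDerivAt τ (fderiv ℂ τ (φ x + p)) (c (0, p, a)) := by
      have h3 : c (0, p, a) = φ x + p := by simp [hc]
      rw [h3]
      exact (hτd.differentiableAt (hSo.mem_nhds h0m.2.1)).hasFDerivAt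
    exact h2.comp_hasDerivAt (0 : ℂ) h1
  have hL' : MDifferentiableOn (modelWithCornersSelf ℂ (ℂ × E × E)) (modelWithCornersSelf ℂ E)
      (fun q : ℂ × E × E => Lam q.1 (φ x + q.2.1) q.2.2) (univ ×ˢ (ball 0 η ×ˢ ball 0 η)) := by
    have h1 : DifferentiableOn ℂ (fun q : ℂ × E × E => (q.1, φ x + q.2.1, q.2.2))
        (univ ×ˢ (ball (0 : E) η ×ˢ ball (0 : E) η)) := by fun_prop
    refine MDifferentiableOn.comp H.hol (mdifferentiableOn_iff_differentiableOn.mpr h1) ?_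
    rintro ⟨z, p, a⟩ ⟨_, hp, ha⟩
    have := (hk 0 (mem_ball_self hη0) p hp a ha).2.2
    exact ⟨mem_univ _, hshift _ this.2.1, this.2.2⟩
  have hU' : MDifferentiableOn (modelWithCornersSelf ℂ (ℂ × E × E)) (modelWithCornersSelf ℂ E)
      (fun q : ℂ × E × E => φ.symm (c (q.1, q.2.1, q.2.2)))
      (ball 0 η ×ˢ (ball 0 η ×ˢ ball 0 η)) := by
    have h1 : DifferentiableOn ℂ c (ball (0 : ℂ) η ×ˢ (ball (0 : E) η ×ˢ ball (0 : E) η)) :=
      hcd.mono fun q hq => (hk q.1 hq.1 q.2.1 hq.2.1 q.2.2 hq.2.2).2.2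
    refine MDifferentiableOn.comp (mdiffOn_chart_symm hφ)
      (mdifferentiableOn_iff_differentiableOn.mpr h1) ?_
    exact fun q hq => (hk q.1 hq.1 q.2.1 hq.2.1 q.2.2 hq.2.2).1.1
  refine flexData_of_jet (Lam := fun z p a => Lam z (φ x + p) a)
    (Ui := fun ζ p a => φ.symm (c (ζ, p, a))) hψ hx hη0 hη0 hL' hU' ?_ ?_ (T.prodCongr T) ?_ ?_
  · intro ζ hζ hζ0 p hp a ha
    have h1 := (hk ζ hζ p hp a ha).2.2
    obtain ⟨h2, h3⟩ := H.eq ζ h1.1 hζ0 (φ x + p) (hshift _ h1.2.1) a h1.2.2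
    have h4 : c (ζ, p, a) = φ (Lam ζ⁻¹ (φ x + p) a) := h3.symm
    simp only [h4]
    exact φ.left_inv h2
  · simp only [hc0]
    exact φ.left_inv hxφ
  · have hJeq : (fun q : E × E => (ψ (φ.symm (c (0, q.1, q.2))),
        deriv (fun ζ => ψ (φ.symm (c (ζ, q.1, q.2)))) 0)) =ᶠ[𝓝 (0, 0)]
        fun q => (τ (φ x + q.1), fderiv ℂ τ (φ x + q.1) q.2) := by
      have hb : ball (0 : E) η ×ˢ ball (0 : E) η ∈ 𝓝 ((0 : E), (0 : E)) :=
        (isOpen_ball.prod isOpen_ball).mem_nhds ⟨mem_ball_self hη0, mem_ball_self hη0⟩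
      filter_upwards [hb] with q hq
      rw [(hder q.1 hq.1 q.2 hq.2).deriv]
      have h3 : c (0, q.1, q.2) = φ x + q.1 := by simp [hc]
      rw [h3]
    refine HasFDerivAt.congr_of_eventuallyEq ?_ hJeq
    have e1 : HasFDerivAt (fun q : E × E => φ x + q.1) (ContinuousLinearMap.fst ℂ E E)
        ((0 : E), (0 : E)) := hasFDerivAt_fst.const_add _
    have e2 : HasFDerivAt τ (fderiv ℂ τ (φ x)) ((fun q : E × E => φ x + q.1) (0, 0)) := by
      simpa using hτx'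
    have e3 := e2.comp ((0 : E), (0 : E)) e1
    have e4 : HasFDerivAt (fderiv ℂ τ) (fderiv ℂ (fderiv ℂ τ) (φ x))
        ((fun q : E × E => φ x + q.1) (0, 0)) := by
      have := ((ApiC.differentiableOn_fderiv hSo hτd).differentiableAt
        (hSo.mem_nhds hxS)).hasFDerivAt
      simpa using this
    have e5 := (e4.comp ((0 : E), (0 : E)) e1).clm_apply
      (hasFDerivAt_snd (𝕜 := ℂ) (E := E) (F := E) (p := ((0 : E), (0 : E))))
    have e6 := e3.prodMk e5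
    refine e6.congr_fderiv ?_
    ext v <;> simp [T]
  · have := (hder 0 (mem_ball_self hη0) 0 (mem_ball_self hη0)).deriv
    rw [this, map_zero]

end Pool.Agent.W_4d259d_h44
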