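import Pool.Agent.W_4d259d_h44.GrD
import Pool.Agent.W_4d259d_h44.FlexA
import Pool.Agent.W_4d259d_h44.ApiD
import Pool.Agent.W_4d259d_h41.SpA

/-!
# MP_4d259d_ag, BLOCK GR (section 16): the grafted family of curves
-/

noncomputable section

set_option linter.unusedSectionVars false

namespace Pool.Agent.W_4d259d_h44

open Set Filter Topology Manifold Metric MeasureTheory TopologicalSpace
open scoped ContDiff OnePoint BoundedContinuousFunction
open Pool.Agent.W_4d259d_h46.Defs Pool.Agent.W_4d259d_h46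

variable {E : Type} [NormedAddCommGroup E] [NormedSpace ℂ E] [FiniteDimensional ℂ E]
variable {X : Type} [MetricSpace X] [ChartedSpace E X] [IsManifold (modelWithCornersSelf ℂ E) ω X]

/-- Composition of a two variable holomorphic map with a pair of differentiable maps. -/
private theorem grE_comp {Y : Type*} [TopologicalSpace Y] {G : Type*} [NormedAddCommGroup G]
    [NormedSpace ℂ G] [ChartedSpace G Y] {F : Type*} [NormedAddCommGroup F] [NormedSpace ℂ F]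
    {s : ℂ → F → Y} {U : Set ℂ} {V : Set F} (hs : HolOn2 G s U V)
    {P : Type*} [NormedAddCommGroup P] [NormedSpace ℂ P] {S : Set P} {g : P → ℂ} {w : P → F}
    (hg : DifferentiableOn ℂ g S) (hw : DifferentiableOn ℂ w S)
    (h : ∀ q ∈ S, g q ∈ U ∧ w q ∈ V) :
    MDifferentiableOn (modelWithCornersSelf ℂ P) (modelWithCornersSelf ℂ G)
      (fun q => s (g q) (w q)) S := by
  have h1 : MDifferentiableOn (modelWithCornersSelf ℂ P)
      ((modelWithCornersSelf ℂ ℂ).prod (modelWithCornersSelf ℂ F)) (fun q => (g q, w q)) S :=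
    (mdifferentiableOn_iff_differentiableOn.2 hg).prodMk
      (mdifferentiableOn_iff_differentiableOn.2 hw)
  exact hs.comp h1 (fun q hq => ⟨(h q hq).1, (h q hq).2⟩)

/-- Joint differentiability of the evaluation. -/
private theorem grE_eval {U : Opens ℂ} {P : Type*} [NormedAddCommGroup P] [NormedSpace ℂ P]
    {T : Set P} (hT : IsOpen T) {a : P → HB U E} (ha : DifferentiableOn ℂ a T)
    {Q : Type*} [NormedAddCommGroup Q] [NormedSpace ℂ Q] {S : Set Q} {g : Q → ℂ} {w : Q → P}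
    (hg : DifferentiableOn ℂ g S) (hw : DifferentiableOn ℂ w S)
    (h : ∀ q ∈ S, g q ∈ U ∧ w q ∈ T) :
    DifferentiableOn ℂ (fun q => (a (w q)).fn (g q)) S := by
  haveI : CompleteSpace E := FiniteDimensional.complete ℂ E
  rw [← mdifferentiableOn_iff_differentiableOn]
  exact grE_comp (eval hT ha) hg hw h

/-- Locality on an open set. -/
private theorem grE_local {P : Type*} [NormedAddCommGroup P] [NormedSpace ℂ P] {S : Set P}
    {f : P → X} (h : ∀ q ∈ S, ∃ (O : Set P) (g : P → X), IsOpen O ∧ q ∈ O ∧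
      MDifferentiableOn (modelWithCornersSelf ℂ P) (modelWithCornersSelf ℂ E) g O ∧
      ∀ q' ∈ O, f q' = g q') :
    MDifferentiableOn (modelWithCornersSelf ℂ P) (modelWithCornersSelf ℂ E) f S := by
  intro q hq
  obtain ⟨O, g, hO, hqO, hg, hfg⟩ := h q hq
  have h1 : MDifferentiableAt (modelWithCornersSelf ℂ P) (modelWithCornersSelf ℂ E) g q :=
    (hg q hqO).mdifferentiableAt (hO.mem_nhds hqO)
  have h2 : f =ᶠ[𝓝 q] g := by
    filter_upwards [hO.mem_nhds hqO] with q' hq'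
    exact hfg q' hq'
  exact (h1.congr_of_eventuallyEq h2).mdifferentiableWithinAt

/-- The equivalence `(p,a) ↦ (A p, B p + A a)`. -/
private theorem grE_equiv {A : E →L[ℂ] E} (hA : IsUnit A) (B : E →L[ℂ] E) :
    ∃ L : (E × E) ≃L[ℂ] (E × E), ∀ q : E × E, L q = (A q.1, B q.1 + A q.2) := by
  obtain ⟨u, hu⟩ := hA
  set A' : E →L[ℂ] E := ((u⁻¹ : (E →L[ℂ] E)ˣ) : E →L[ℂ] E) with hA'
  have h1 : ∀ x, A (A' x) = x := by
    intro x
    have : (u : E →L[ℂ] E) * ((u⁻¹ : (E →L[ℂ] E)ˣ) : E →L[ℂ] E) = 1 := u.mul_inv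
    rw [← hu]
    exact congrArg (fun f : E →L[ℂ] E => f x) this
  have h2 : ∀ x, A' (A x) = x := by
    intro x
    have : ((u⁻¹ : (E →L[ℂ] E)ˣ) : E →L[ℂ] E) * (u : E →L[ℂ] E) = 1 := u.inv_mul
    rw [← hu]
    exact congrArg (fun f : E →L[ℂ] E => f x) this
  let f1 : (E × E) →L[ℂ] (E × E) :=
    (A.comp (ContinuousLinearMap.fst ℂ E E)).prod
      (B.comp (ContinuousLinearMap.fst ℂ E E) + A.comp (ContinuousLinearMap.snd ℂ E E))
  let f2 : (E × E) →L[ℂ] (E × E) :=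
    (A'.comp (ContinuousLinearMap.fst ℂ E E)).prod
      (A'.comp (ContinuousLinearMap.snd ℂ E E) -
        A'.comp (B.comp (A'.comp (ContinuousLinearMap.fst ℂ E E))))
  have e1 : ∀ q, f1 q = (A q.1, B q.1 + A q.2) := fun q => rfl
  have e2 : ∀ q, f2 q = (A' q.1, A' q.2 - A' (B (A' q.1))) := fun q => rfl
  refine ⟨ContinuousLinearEquiv.equivOfInverse f1 f2 ?_ ?_, fun q => rfl⟩
  · intro q
    rw [e1, e2]
    simp only [h2, map_add]
    ext <;> simp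
  · intro q
    rw [e2, e1]
    simp only [h1, map_sub]
    ext <;> simp

/-- The derivative of the jet map. -/
private theorem grE_jetmap {F : ℂ × E → E} {W : Set (ℂ × E)} (hW : IsOpen W) (h0 : (0, 0) ∈ W)
    (hF : DifferentiableOn ℂ F W) : ∃ B : E →L[ℂ] E, ∀ L : (E × E) →L[ℂ] (E × E),
      (∀ q, L q = (fderiv ℂ F (0, 0) (0, q.1), B q.1 + fderiv ℂ F (0, 0) (0, q.2))) →
      HasFDerivAt (fun q : E × E => (F (0, q.1), fderiv ℂ F (0, q.1) (1, q.2))) L (0, 0) := by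
  haveI : CompleteSpace E := FiniteDimensional.complete ℂ E
  have h1 : HasFDerivAt F (fderiv ℂ F (0, 0)) (0, 0) :=
    (hF.differentiableAt (hW.mem_nhds h0)).hasFDerivAt
  have h2 : HasFDerivAt (fderiv ℂ F) (fderiv ℂ (fderiv ℂ F) (0, 0)) (0, 0) :=
    ((ApiC.differentiableOn_fderiv hW hF).differentiableAt (hW.mem_nhds h0)).hasFDerivAt
  set DF := fderiv ℂ F (0, 0) with hDF
  set D2 := fderiv ℂ (fderiv ℂ F) (0, 0) with hD2
  set i1 : (E × E) →L[ℂ] (ℂ × E) :=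
    (ContinuousLinearMap.inr ℂ ℂ E).comp (ContinuousLinearMap.fst ℂ E E) with hi1
  set i2 : (E × E) →L[ℂ] (ℂ × E) :=
    (ContinuousLinearMap.inr ℂ ℂ E).comp (ContinuousLinearMap.snd ℂ E E) with hi2
  have hj : HasFDerivAt (fun q : E × E => ((0 : ℂ), q.1)) i1 (0, 0) := i1.hasFDerivAt
  have hj2 : HasFDerivAt (fun q : E × E => ((1 : ℂ), q.2)) i2 (0, 0) := by
    have h3 := (i2.hasFDerivAt (x := ((0 : E), (0 : E)))).const_add ((1 : ℂ), (0 : E))
    refine h3.congr_of_eventuallyEq (Eventually.of_forall fun q => ?_)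
    show ((1 : ℂ), q.2) = ((1 : ℂ), (0 : E)) + ((0 : ℂ), q.2)
    rw [Prod.mk_add_mk, add_zero, zero_add]
  have h3 : HasFDerivAt (fun q : E × E => F (0, q.1)) (DF.comp i1) (0, 0) :=
    HasFDerivAt.comp (g := F) ((0 : E), (0 : E)) (by exact h1) hj
  have h4 : HasFDerivAt (fun q : E × E => fderiv ℂ F (0, q.1)) (D2.comp i1) (0, 0) :=
    HasFDerivAt.comp (g := fderiv ℂ F) ((0 : E), (0 : E)) (by exact h2) hj
  have h5 := h4.clm_apply hj2
  refine ⟨(D2.comp (ContinuousLinearMap.inr ℂ ℂ E)).flip (1, 0), fun L hL => ?_⟩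
  have h6 := h3.prodMk h5
  refine h6.congr_fderiv ?_
  refine ContinuousLinearMap.ext fun q => ?_
  rw [hL]
  refine Prod.ext rfl ?_
  show DF (0, q.2) + D2 (0, q.1) (1, 0) = D2 (0, q.1) (1, 0) + DF (0, q.2)
  exact add_comm _ _

/-- The derivative at `ζ = 0` of `F (ζ, p + ζ a + ζ² V ζ)`. -/
private theorem grE_deriv {F : ℂ × E → E} {p a : E} {V : ℂ → E}
    (hF : DifferentiableAt ℂ F (0, p)) (hV : DifferentiableAt ℂ V 0) :
    deriv (fun ζ : ℂ => F (ζ, p + ζ • a + ζ ^ 2 • V ζ)) 0 = fderiv ℂ F (0, p) (1, a) := by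
  have h1 : HasDerivAt (fun ζ : ℂ => p + ζ • a + ζ ^ 2 • V ζ) a 0 := by
    have h2 : HasDerivAt (fun ζ : ℂ => ζ • a) ((1 : ℂ) • a) 0 := (hasDerivAt_id 0).smul_const a
    have h3 : HasDerivAt (fun ζ : ℂ => ζ ^ 2 • V ζ)
        ((0 : ℂ) ^ 2 • deriv V 0 + (((2 : ℕ) : ℂ) * (0 : ℂ) ^ (2 - 1)) • V 0) 0 :=
      (hasDerivAt_pow 2 (0 : ℂ)).smul hV.hasDerivAt
    have h4 : HasDerivAt (fun ζ : ℂ => p + ζ • a + ζ ^ 2 • V ζ) ((1 : ℂ) • a +
        ((0 : ℂ) ^ 2 • deriv V 0 + (((2 : ℕ) : ℂ) * (0 : ℂ) ^ (2 - 1)) • V 0)) 0 :=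
      (h2.const_add p).add h3
    have e : (1 : ℂ) • a +
        ((0 : ℂ) ^ 2 • deriv V 0 + (((2 : ℕ) : ℂ) * (0 : ℂ) ^ (2 - 1)) • V 0) = a := by simp
    rw [e] at h4
    exact h4
  have h2 : HasDerivAt (fun ζ : ℂ => (ζ, p + ζ • a + ζ ^ 2 • V ζ)) ((1 : ℂ), a) 0 :=
    (hasDerivAt_id 0).prodMk h1
  have h3 : ((0 : ℂ), p + (0 : ℂ) • a + (0 : ℂ) ^ 2 • V 0) = ((0 : ℂ), p) := by simp
  have h4 : HasFDerivAt F (fderiv ℂ F (0, p)) ((0 : ℂ), p + (0 : ℂ) • a + (0 : ℂ) ^ 2 • V 0) := by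
    rw [h3]; exact hF.hasFDerivAt
  exact (h4.comp_hasDerivAt 0 h2).deriv

section main

variable {v0 vi : ℂ → X} {r1 r2 : ℝ} {D : TwoDisc E v0 vi r1 r2} {J : Finset ℂ}
  {r ρ κ M : ℝ} {LL : ℂ → ℂ → ℂ → E → E → X} {Ups : ℂ → ℂ → ℂ → E → E → E}

/-- the outer coordinate -/
private def grWi (S : GraftSol D J r ρ κ Ups) (q : ℂ × E × E) : E :=
  q.2.1 + q.1 • q.2.2 + q.1 ^ 2 • (S.Vi q.2).fn q.1

/-- the inner coordinate -/
private def grW0 (S : GraftSol D J r ρ κ Ups) (q : ℂ × E × E) : E :=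
  (S.V0 q.2).fn q.1 + ∑ j : J, ((q.1 - (j : ℂ))⁻¹ • S.β q.2 j + (S.ym q.2 j).fn q.1)

/-- the formula outside -/
private def grFC (S : GraftSol D J r ρ κ Ups) (q : ℂ × E × E) : X :=
  D.si q.1⁻¹ (grWi S (q.1⁻¹, q.2))

/-- the formula near `j` -/
private def grFB (S : GraftSol D J r ρ κ Ups) (LL : ℂ → ℂ → ℂ → E → E → X) (j : J)
    (q : ℂ × E × E) : X :=
  LL j ((q.1 - (j : ℂ)) / (S.ε : ℂ)) q.1 ((S.om q.2 j).fn q.1) ((S.ε : ℂ)⁻¹ • S.β q.2 j)

/-- the formula inside -/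
private def grFA (S : GraftSol D J r ρ κ Ups) (q : ℂ × E × E) : X := D.s0 q.1 (grW0 S q)

open Classical in
/-- the grafted curves -/
private def grLam (S : GraftSol D J r ρ κ Ups) (LL : ℂ → ℂ → ℂ → E → E → X)
    (q : ℂ × E × E) : X :=
  if r1 < ‖q.1‖ then grFC S q
  else if h : ∃ j : J, q.1 ∈ ball (j : ℂ) r then grFB S LL h.choose q
  else grFA S q

private theorem grWi_diff (S : GraftSol D J r ρ κ Ups) :
    DifferentiableOn ℂ (grWi S) ((disc r1⁻¹ : Set ℂ) ×ˢ ball (0 : E × E) S.d) := by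
  have h1 : DifferentiableOn ℂ (fun q : ℂ × E × E => (S.Vi q.2).fn q.1)
      ((disc r1⁻¹ : Set ℂ) ×ˢ ball (0 : E × E) S.d) :=
    grE_eval isOpen_ball S.diffVi differentiableOn_fst differentiableOn_snd
      (fun q hq => ⟨hq.1, hq.2⟩)
  have h2 : Differentiable ℂ (fun q : ℂ × E × E => q.2.1 + q.1 • q.2.2) := by fun_prop
  have h3 : Differentiable ℂ (fun q : ℂ × E × E => q.1 ^ 2) := by fun_prop
  exact h2.differentiableOn.add (h3.differentiableOn.smul h1)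

/-- the region inside -/
private def grRA (S : GraftSol D J r ρ κ Ups) : Set (ℂ × E × E) :=
  {q | q.1 ∈ (disc r2 : Set ℂ) ∧ (∀ j ∈ J, 3 * r / 8 < ‖q.1 - j‖) ∧ q.2 ∈ ball (0 : E × E) S.d}

private theorem grRA_open (S : GraftSol D J r ρ κ Ups) : IsOpen (grRA S) := by
  have h1 : IsOpen {q : ℂ × E × E | q.1 ∈ (disc r2 : Set ℂ)} :=
    (disc r2).2.preimage continuous_fst
  have h2 : IsOpen {q : ℂ × E × E | ∀ j ∈ J, 3 * r / 8 < ‖q.1 - j‖} := by
    have : {q : ℂ × E × E | ∀ j ∈ J, 3 * r / 8 < ‖q.1 - j‖} =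
        ⋂ j ∈ J, {q : ℂ × E × E | 3 * r / 8 < ‖q.1 - j‖} := by
      ext q; simp
    rw [this]
    refine isOpen_biInter_finset fun j _ => ?_
    exact isOpen_lt continuous_const (continuous_fst.sub continuous_const).norm
  have h3 : IsOpen {q : ℂ × E × E | q.2 ∈ ball (0 : E × E) S.d} :=
    isOpen_ball.preimage continuous_snd
  exact h1.inter (h2.inter h3)

private theorem grW0_diff (hr : 0 < r) (S : GraftSol D J r ρ κ Ups) :
    DifferentiableOn ℂ (grW0 S) (grRA S) := by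
  have h1 : DifferentiableOn ℂ (fun q : ℂ × E × E => (S.V0 q.2).fn q.1) (grRA S) :=
    grE_eval isOpen_ball S.diffV0 differentiableOn_fst differentiableOn_snd
      (fun q hq => ⟨hq.1, hq.2.2⟩)
  refine h1.add ?_
  refine DifferentiableOn.fun_sum fun j _ => ?_
  refine DifferentiableOn.add ?_ ?_
  · refine DifferentiableOn.smul ?_ ?_
    · refine DifferentiableOn.inv (by fun_prop) fun q hq h => ?_
      have h2 := hq.2.1 j j.2
      rw [h, norm_zero] at h2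
      linarith
    · have h2 := differentiableOn_pi.1 S.diffβ j
      exact h2.comp differentiableOn_snd fun q hq => hq.2.2
  · exact grE_eval isOpen_ball (S.diffym j) differentiableOn_fst differentiableOn_snd
      (fun q hq => ⟨hq.2.1 j j.2, hq.2.2⟩)

private theorem grFA_mdiff (hr : 0 < r) (S : GraftSol D J r ρ κ Ups) :
    MDifferentiableOn (modelWithCornersSelf ℂ (ℂ × E × E)) (modelWithCornersSelf ℂ E)
      (grFA S) (grRA S) := by
  refine grE_comp D.spray0.hol differentiableOn_fst (grW0_diff hr S) fun q hq => ⟨?_, ?_⟩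
  · exact ball_subset_ball D.hqr2.le hq.1
  · rw [mem_ball_zero_iff]
    exact (S.w0lt q.2 hq.2.2 q.1 hq.1 hq.2.1).trans_le D.hdδ

/-- the region outside -/
private def grRC (S : GraftSol D J r ρ κ Ups) : Set (ℂ × E × E) :=
  {q | r1 < ‖q.1‖ ∧ q.2 ∈ ball (0 : E × E) S.d}

private theorem grRC_open (S : GraftSol D J r ρ κ Ups) : IsOpen (grRC S) :=
  (isOpen_lt continuous_const continuous_fst.norm).inter (isOpen_ball.preimage continuous_snd)

private theorem grInv (h1 : 0 < r1) {z : ℂ} (hz : r1 < ‖z‖) : z⁻¹ ∈ (disc r1⁻¹ : Set ℂ) := by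
  show z⁻¹ ∈ ball (0 : ℂ) r1⁻¹
  rw [mem_ball_zero_iff, norm_inv]
  exact inv_strictAnti₀ h1 hz

private theorem grFC_mdiff (h1 : 0 < r1) (S : GraftSol D J r ρ κ Ups) :
    MDifferentiableOn (modelWithCornersSelf ℂ (ℂ × E × E)) (modelWithCornersSelf ℂ E)
      (grFC S) (grRC S) := by
  have hi : DifferentiableOn ℂ (fun q : ℂ × E × E => q.1⁻¹) (grRC S) := by
    refine DifferentiableOn.inv (by fun_prop) fun q hq h => ?_
    have h2 := hq.1
    rw [h, norm_zero] at h2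
    linarith
  have hw : DifferentiableOn ℂ (fun q : ℂ × E × E => grWi S (q.1⁻¹, q.2)) (grRC S) :=
    (grWi_diff S).comp (hi.prodMk differentiableOn_snd) fun q hq => ⟨grInv h1 hq.1, hq.2⟩
  refine grE_comp D.sprayi.hol hi hw fun q hq => ⟨?_, ?_⟩
  · have h2 := grInv h1 hq.1
    have h3 : r1⁻¹ ≤ D.q1⁻¹ := inv_anti₀ D.hq1 D.hqr1.le
    exact ball_subset_ball h3 h2
  · rw [mem_ball_zero_iff]
    exact S.wilt q.2 hq.2 q.1⁻¹ (grInv h1 hq.1)

/-- the region near `j` -/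
private def grRB (S : GraftSol D J r ρ κ Ups) (j : J) : Set (ℂ × E × E) :=
  {q | q.1 ∈ ball (j : ℂ) r ∧ q.2 ∈ ball (0 : E × E) S.d}

private theorem grRB_open (S : GraftSol D J r ρ κ Ups) (j : J) : IsOpen (grRB S j) :=
  (isOpen_ball.preimage continuous_fst).inter (isOpen_ball.preimage continuous_snd)

private theorem grFB_mdiff (S : GraftSol D J r ρ κ Ups)
    (hfam : ∀ j ∈ J, GraftFam D.s0 D.δ j r ρ κ M (LL j) (Ups j)) (j : J) :
    MDifferentiableOn (modelWithCornersSelf ℂ (ℂ × E × E)) (modelWithCornersSelf ℂ E)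
      (grFB S LL j) (grRB S j) := by
  have h1 : DifferentiableOn ℂ (fun q : ℂ × E × E => (S.om q.2 j).fn q.1) (grRB S j) :=
    grE_eval isOpen_ball (S.diffom j) differentiableOn_fst differentiableOn_snd
      (fun q hq => ⟨hq.1, hq.2⟩)
  have h2 : DifferentiableOn ℂ (fun q : ℂ × E × E => S.β q.2 j) (grRB S j) :=
    (differentiableOn_pi.1 S.diffβ j).comp differentiableOn_snd fun q hq => hq.2
  have h3 : DifferentiableOn ℂ (fun q : ℂ × E × E => ((q.1 - (j : ℂ)) / (S.ε : ℂ), q.1,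
      (S.om q.2 j).fn q.1, (S.ε : ℂ)⁻¹ • S.β q.2 j)) (grRB S j) := by
    refine DifferentiableOn.prodMk ?_ (differentiableOn_fst.prodMk (h1.prodMk (h2.const_smul _)))
    have h4 : Differentiable ℂ (fun q : ℂ × E × E => (q.1 - (j : ℂ)) * (S.ε : ℂ)⁻¹) :=
      (differentiable_fst.sub_const _).mul_const _
    exact h4.differentiableOn
  refine (hfam j j.2).hol.comp (mdifferentiableOn_iff_differentiableOn.2 h3) fun q hq => ?_
  refine ⟨mem_univ _, hq.1, ?_, ?_⟩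
  · show (S.om q.2 j).fn q.1 ∈ ball (0 : E) κ
    rw [mem_ball_zero_iff]
    exact S.omlt q.2 hq.2 j q.1 hq.1
  · show (S.ε : ℂ)⁻¹ • S.β q.2 j ∈ ball (0 : E) κ
    rw [mem_ball_zero_iff]
    exact S.βlt q.2 hq.2 j

/-- overlap of the inside and the outside -/
private theorem grAC (S : GraftSol D J r ρ κ Ups) {q : ℂ × E × E}
    (hA : q ∈ grRA S) (hC : r1 < ‖q.1‖) : grFC S q = grFA S q := by
  have hz2 : ‖q.1‖ < r2 := mem_ball_zero_iff.1 hA.1
  have hz : q.1 ∈ annu r1 r2 := ⟨hC, hz2⟩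
  have hz' : q.1 ∈ annu D.q1 D.q2 := ⟨D.hqr1.trans hC, hz2.trans D.hqr2⟩
  have h1 := S.trans q.2 hA.2.2 q.1 hz
  have h2 := D.θeq q.1 hz' (grW0 S q)
    (by rw [mem_ball_zero_iff]; exact S.w0lt q.2 hA.2.2 q.1 hA.1 hA.2.1)
  have h3 : D.θ q.1 (grW0 S q) = grWi S (q.1⁻¹, q.2) := h1
  show D.si q.1⁻¹ (grWi S (q.1⁻¹, q.2)) = D.s0 q.1 (grW0 S q)
  rw [← h2, h3]

/-- overlap of the inside and a small disc -/
private theorem grAB (hr : 0 < r) (S : GraftSol D J r ρ κ Ups)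
    (hfam : ∀ j ∈ J, GraftFam D.s0 D.δ j r ρ κ M (LL j) (Ups j)) {q : ℂ × E × E} (j : J)
    (hA : q ∈ grRA S) (hB : q ∈ grRB S j) : grFB S LL j q = grFA S q := by
  have hz1 := hA.2.1 j j.2
  have hz2 : ‖q.1 - (j : ℂ)‖ < r := by
    have := hB.1
    rwa [mem_ball, dist_eq_norm] at this
  have hz0 : q.1 - (j : ℂ) ≠ 0 := by
    intro h
    rw [h, norm_zero] at hz1
    linarith
  have hε : (S.ε : ℂ) ≠ 0 := by exact_mod_cast S.εpos.ne'
  set ζ : ℂ := (S.ε : ℂ) / (q.1 - (j : ℂ)) with hζ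
  have hζ0 : ζ ≠ 0 := div_ne_zero hε hz0
  have hζinv : (q.1 - (j : ℂ)) / (S.ε : ℂ) = ζ⁻¹ := by rw [hζ, inv_div]
  have hζb : ζ ∈ ball (0 : ℂ) ρ := by
    rw [mem_ball_zero_iff, hζ, norm_div]
    have hn : ‖(S.ε : ℂ)‖ = S.ε := by
      rw [Complex.norm_real, Real.norm_eq_abs, abs_of_pos S.εpos]
    rw [hn]
    have h1 : S.ε / ‖q.1 - (j : ℂ)‖ ≤ S.ε / (3 * r / 8) :=
      div_le_div_of_nonneg_left S.εpos.le (by linarith) hz1.le
    have h2 : S.ε / (3 * r / 8) ≤ 4 * S.ε / r := by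
      rw [div_le_div_iff₀ (by linarith) hr]
      nlinarith [S.εpos, mul_pos S.εpos hr]
    exact (h1.trans h2).trans_lt S.small
  have hw : (S.om q.2 j).fn q.1 ∈ ball (0 : E) κ := by
    rw [mem_ball_zero_iff]
    exact S.omlt q.2 hA.2.2 j q.1 hB.1
  have hb : (S.ε : ℂ)⁻¹ • S.β q.2 j ∈ ball (0 : E) κ := by
    rw [mem_ball_zero_iff]
    exact S.βlt q.2 hA.2.2 j
  have h1 := ((hfam j j.2).eq ζ hζb hζ0 q.1 hB.1 _ hw _ hb).2
  have h2 := S.split q.2 hA.2.2 j q.1 ⟨hz1, hz2⟩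
  have h3 := S.reg q.2 hA.2.2 j q.1 hB.1
  have h4 : (S.om q.2 j).fn q.1 + ζ • ((S.ε : ℂ)⁻¹ • S.β q.2 j) + ζ ^ 2 •
      Ups j ζ q.1 ((S.om q.2 j).fn q.1) ((S.ε : ℂ)⁻¹ • S.β q.2 j) = grW0 S q := by
    rw [← h2]
    have h5 : ζ • ((S.ε : ℂ)⁻¹ • S.β q.2 j) = (q.1 - (j : ℂ))⁻¹ • S.β q.2 j := by
      rw [smul_smul]
      congr 1
      rw [hζ]
      field_simp
    rw [h5]
    unfold grW0
    rw [← Finset.add_sum_erase _ _ (Finset.mem_univ j)]
    have h6 : (S.om q.2 j).fn q.1 + (q.1 - (j : ℂ))⁻¹ • S.β q.2 j +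
        ((S.yp q.2 j).fn q.1 + (S.ym q.2 j).fn q.1) =
        ((S.om q.2 j).fn q.1 + (S.yp q.2 j).fn q.1) +
          ((q.1 - (j : ℂ))⁻¹ • S.β q.2 j + (S.ym q.2 j).fn q.1) := by abel
    rw [h6, h3]
    abel
  show LL j ((q.1 - (j : ℂ)) / (S.ε : ℂ)) q.1 ((S.om q.2 j).fn q.1) ((S.ε : ℂ)⁻¹ • S.β q.2 j) =
    D.s0 q.1 (grW0 S q)
  rw [hζinv, h1, h4]

private theorem grLam_mdiff (h1 : 0 < r1) (hr : 0 < r) (S : GraftSol D J r ρ κ Ups)
    (hJ : ∀ j ∈ J, ‖j‖ + r ≤ r1) (hJ2 : ∀ i ∈ J, ∀ j ∈ J, i ≠ j → 2 * r ≤ ‖i - j‖)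
    (hfam : ∀ j ∈ J, GraftFam D.s0 D.δ j r ρ κ M (LL j) (Ups j)) :
    MDifferentiableOn (modelWithCornersSelf ℂ (ℂ × E × E)) (modelWithCornersSelf ℂ E)
      (grLam S LL) (univ ×ˢ ball (0 : E × E) S.d) := by
  have hnC : ∀ (j : J) (z : ℂ), z ∈ ball (j : ℂ) r → ¬ r1 < ‖z‖ := by
    intro j z hz h
    rw [mem_ball, dist_eq_norm] at hz
    have h2 := hJ j j.2
    have h3 := norm_le_norm_add_norm_sub' z (j : ℂ)
    linarith
  have huniq : ∀ (i j : J) (z : ℂ), z ∈ ball (i : ℂ) r → z ∈ ball (j : ℂ) r → i = j := by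
    intro i j z hi hj
    by_contra hij
    have hij' : (i : ℂ) ≠ j := fun h => hij (Subtype.ext h)
    have h2 := hJ2 i i.2 j j.2 hij'
    rw [mem_ball, dist_eq_norm] at hi hj
    have h3 : ‖(i : ℂ) - j‖ ≤ ‖z - (i : ℂ)‖ + ‖z - (j : ℂ)‖ := by
      have e : (i : ℂ) - j = (z - j) - (z - i) := by ring
      rw [e, add_comm]
      exact norm_sub_le _ _
    linarith
  refine grE_local fun q hq => ?_
  by_cases hC : r1 < ‖q.1‖
  · refine ⟨grRC S, grFC S, grRC_open S, ⟨hC, hq.2⟩, grFC_mdiff h1 S, fun q' hq' => ?_⟩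
    unfold grLam
    rw [if_pos hq'.1]
  by_cases hB : ∃ j : J, q.1 ∈ ball (j : ℂ) r
  · obtain ⟨j, hj⟩ := hB
    refine ⟨grRB S j, grFB S LL j, grRB_open S j, ⟨hj, hq.2⟩, grFB_mdiff S hfam j,
      fun q' hq' => ?_⟩
    have hex : ∃ j : J, q'.1 ∈ ball (j : ℂ) r := ⟨j, hq'.1⟩
    unfold grLam
    rw [if_neg (hnC j q'.1 hq'.1), dif_pos hex, huniq _ j q'.1 hex.choose_spec hq'.1]
  · refine ⟨grRA S, grFA S, grRA_open S, ⟨?_, ?_, hq.2⟩, grFA_mdiff hr S, fun q' hq' => ?_⟩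
    · show q.1 ∈ ball (0 : ℂ) r2
      rw [mem_ball_zero_iff]
      exact (not_lt.1 hC).trans_lt D.hr
    · intro j hj
      by_contra h
      refine hB ⟨⟨j, hj⟩, ?_⟩
      rw [mem_ball, dist_eq_norm]
      linarith
    · unfold grLam
      by_cases hC' : r1 < ‖q'.1‖
      · rw [if_pos hC']
        exact grAC S hq' hC'
      · rw [if_neg hC']
        by_cases hB' : ∃ j : J, q'.1 ∈ ball (j : ℂ) r
        · rw [dif_pos hB']
          exact grAB hr S hfam _ hq' ⟨hB'.choose_spec, hq'.2.2⟩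
        · rw [dif_neg hB']

end main

/-- From a solution of the grafting problem for the doubled curve (`vi` with `vi'(0) = 0`) the point
`vi 0` is flexible.
Proof: `Lam z p a` is `s0 z (w0 z)` for `|z| < r2` off the closed discs of radius `r/2`,
`LL j ((z-j)/ε) z (om j z) (β j/ε)` on `ball j r`, and `si z⁻¹ (p + a/z + z⁻² Vi z⁻¹)` for
`|z| > r1`; they agree on overlaps ((i), (ii) and `GraftFam.eq`; (iii) and `θeq`);
`Ui ζ p a = si ζ (p + ζ a + ζ² Vi ζ)`.  Jet map `(τ p, h p + Dτ(p) a)`, `τ p = φ (si 0 p)`,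
`h p = ∂_ζ φ (si ζ p)` at `ζ = 0`, `h 0 = 0` because `vi` has vanishing derivative at `0`.
`flexAt_of_jet`; joint holomorphy from `ApiD.eval`, `hol2_comp`. -/
theorem flexAt_of_graft {u0 ui : ℂ → X} (hu : IsPair E u0 ui) {r1 r2 : ℝ} (h1 : 0 < r1)
    (D : TwoDisc E (fun z => u0 (z ^ 2)) (fun z => ui (z ^ 2)) r1 r2) (J : Finset ℂ)
    {r ρ κ M : ℝ} (hr : 0 < r) (hJ : ∀ j ∈ J, ‖j‖ + r ≤ r1)
    (hJ2 : ∀ i ∈ J, ∀ j ∈ J, i ≠ j → 2 * r ≤ ‖i - j‖)
    {LL : ℂ → ℂ → ℂ → E → E → X} {Ups : ℂ → ℂ → ℂ → E → E → E}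
    (hfam : ∀ j ∈ J, GraftFam D.s0 D.δ j r ρ κ M (LL j) (Ups j))
    (S : GraftSol D J r ρ κ Ups) : FlexAt E (ui 0) := by
  haveI : CompleteSpace E := FiniteDimensional.complete ℂ E
  set φ := chartAt E (ui 0) with hφdef
  have hφ : φ ∈ XChart E X := IsManifold.chart_mem_maximalAtlas _
  have hx : ui 0 ∈ φ.source := mem_chart_source E (ui 0)
  have hz0 : (0 : ℂ) ∈ disc D.q1⁻¹ := by
    show (0 : ℂ) ∈ ball (0 : ℂ) D.q1⁻¹
    rw [mem_ball_zero_iff, norm_zero]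
    exact inv_pos.2 D.hq1
  have hz1 : (0 : ℂ) ∈ disc r1⁻¹ := by
    show (0 : ℂ) ∈ ball (0 : ℂ) r1⁻¹
    rw [mem_ball_zero_iff, norm_zero]
    exact inv_pos.2 h1
  have hδ := D.sprayi.pos
  have hsi0 : D.si 0 0 = ui 0 := by
    have := D.sprayi.zero 0 hz0
    simpa using this
  -- `F (ζ, w) = φ (si ζ w)`
  have hsm : MDifferentiableOn (modelWithCornersSelf ℂ (ℂ × E)) (modelWithCornersSelf ℂ E)
      (fun q : ℂ × E => D.si q.1 q.2) ((disc D.q1⁻¹ : Set ℂ) ×ˢ ball (0 : E) D.δ) :=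
    grE_comp D.sprayi.hol differentiableOn_fst differentiableOn_snd (fun q hq => hq)
  set W0 : Set (ℂ × E) := (disc D.q1⁻¹ : Set ℂ) ×ˢ ball (0 : E) D.δ with hW0
  have hW0o : IsOpen W0 := (disc D.q1⁻¹).2.prod isOpen_ball
  set W : Set (ℂ × E) := W0 ∩ (fun q : ℂ × E => D.si q.1 q.2) ⁻¹' φ.source with hWdef
  have hWo : IsOpen W := hsm.continuousOn.isOpen_inter_preimage hW0o φ.open_source
  have h00 : ((0 : ℂ), (0 : E)) ∈ W := by
    refine ⟨⟨hz0, mem_ball_self hδ⟩, ?_⟩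
    show D.si 0 0 ∈ φ.source
    rw [hsi0]
    exact hx
  set F : ℂ × E → E := fun q => φ (D.si q.1 q.2) with hF
  have hFd : DifferentiableOn ℂ F W :=
    diffOn_chart_comp hφ (hsm.mono inter_subset_left) (fun q hq => hq.2)
  obtain ⟨B, hB⟩ := grE_jetmap hWo h00 hFd
  -- the partial derivative is invertible
  have hFat : ∀ p : E, ((0 : ℂ), p) ∈ W → DifferentiableAt ℂ F (0, p) := fun p hp =>
    hFd.differentiableAt (hWo.mem_nhds hp)
  set A : E →L[ℂ] E := (fderiv ℂ F (0, 0)).comp (ContinuousLinearMap.inr ℂ ℂ E) with hA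
  have hAunit : IsUnit A := by
    have h2 := W_4d259d_h41.sp_unit D.sprayi hφ hz0 (by simpa using hx)
    have h3 : fderiv ℂ (fun w => φ (D.si 0 w)) 0 = A := by
      have h4 : HasFDerivAt (fun w : E => ((0 : ℂ), w)) (ContinuousLinearMap.inr ℂ ℂ E) 0 :=
        (ContinuousLinearMap.inr ℂ ℂ E).hasFDerivAt
      have h5 : HasFDerivAt F (fderiv ℂ F (0, 0)) ((0 : ℂ), (0 : E)) := (hFat 0 h00).hasFDerivAt
      have h6 : HasFDerivAt (fun w : E => F (0, w)) A 0 := HasFDerivAt.comp (g := F) (0 : E) h5 h4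
      exact h6.fderiv
    rwa [h3] at h2
  obtain ⟨L, hL⟩ := grE_equiv hAunit B
  -- the maps
  set T : Set (E × E) := ball (0 : E × E) S.d with hT
  have hTprod : ball (0 : E) S.d ×ˢ ball (0 : E) S.d = T := by
    rw [ball_prod_same]
    rfl
  set Lam : ℂ → E → E → X := fun z p a => grLam S LL (z, p, a) with hLam
  set Ui : ℂ → E → E → X := fun ζ p a => D.si ζ (grWi S (ζ, p, a)) with hUi
  have hmL : MDifferentiableOn (modelWithCornersSelf ℂ (ℂ × E × E)) (modelWithCornersSelf ℂ E)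
      (fun q : ℂ × E × E => Lam q.1 q.2.1 q.2.2)
      (univ ×ˢ (ball 0 S.d ×ˢ ball 0 S.d)) := by
    rw [hTprod]
    exact grLam_mdiff h1 hr S hJ hJ2 hfam
  have hr1q : r1⁻¹ ≤ D.q1⁻¹ := inv_anti₀ D.hq1 D.hqr1.le
  have hmU : MDifferentiableOn (modelWithCornersSelf ℂ (ℂ × E × E)) (modelWithCornersSelf ℂ E)
      (fun q : ℂ × E × E => Ui q.1 q.2.1 q.2.2)
      (ball 0 r1⁻¹ ×ˢ (ball 0 S.d ×ˢ ball 0 S.d)) := by
    rw [hTprod]
    refine grE_comp D.sprayi.hol differentiableOn_fst (grWi_diff S) fun q hq => ⟨?_, ?_⟩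
    · exact ball_subset_ball hr1q hq.1
    · rw [mem_ball_zero_iff]
      exact S.wilt q.2 hq.2 q.1 hq.1
  have heq : ∀ ζ ∈ ball (0 : ℂ) r1⁻¹, ζ ≠ 0 → ∀ p ∈ ball (0 : E) S.d, ∀ a ∈ ball (0 : E) S.d,
      Ui ζ p a = Lam ζ⁻¹ p a := by
    intro ζ hζ hζ0 p _ a _
    have h2 : r1 < ‖ζ⁻¹‖ := by
      rw [mem_ball_zero_iff] at hζ
      rw [norm_inv]
      exact (lt_inv_comm₀ (norm_pos_iff.2 hζ0) h1).1 hζ
    show D.si ζ (grWi S (ζ, p, a)) = grLam S LL (ζ⁻¹, p, a)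
    unfold grLam
    rw [if_pos h2]
    unfold grFC
    simp only [inv_inv]
  have hUi0 : ∀ p a : E, Ui 0 p a = D.si 0 p := by
    intro p a
    show D.si 0 (p + (0 : ℂ) • a + (0 : ℂ) ^ 2 • (S.Vi (p, a)).fn 0) = _
    simp
  have h0 : Ui 0 0 0 = ui 0 := by rw [hUi0, hsi0]
  have hVd : ∀ t : E × E, DifferentiableAt ℂ (S.Vi t).fn 0 := by
    intro t
    have h2 : DifferentiableOn ℂ (S.Vi t).fn (disc r1⁻¹ : Set ℂ) := holOn_iff.1 (S.Vi t).fn_hol
    exact h2.differentiableAt ((disc r1⁻¹).2.mem_nhds hz1)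
  have hderiv : ∀ p a : E, ((0 : ℂ), p) ∈ W →
      deriv (fun ζ => φ (Ui ζ p a)) 0 = fderiv ℂ F (0, p) (1, a) := by
    intro p a hp
    exact grE_deriv (F := F) (hFat p hp) (hVd (p, a))
  have hJ' : HasFDerivAt
      (fun q : E × E => (φ (Ui 0 q.1 q.2), deriv (fun ζ => φ (Ui ζ q.1 q.2)) 0))
      (L : (E × E) →L[ℂ] (E × E)) (0, 0) := by
    refine (hB (L : (E × E) →L[ℂ] (E × E)) fun q => hL q).congr_of_eventuallyEq ?_
    have h2 : ∀ᶠ q : E × E in 𝓝 (0, 0), ((0 : ℂ), q.1) ∈ W := by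
      have h3 : ContinuousAt (fun q : E × E => ((0 : ℂ), q.1)) (0, 0) := by fun_prop
      exact h3.preimage_mem_nhds (hWo.mem_nhds h00)
    filter_upwards [h2] with q hq
    rw [hderiv q.1 q.2 hq, hUi0]
  have hJ0 : deriv (fun ζ => φ (Ui ζ 0 0)) 0 = 0 := by
    rw [hderiv 0 0 h00]
    have h2 : fderiv ℂ F (0, 0) (1, 0) = deriv (fun ζ : ℂ => F (ζ, 0)) 0 := by
      have h3 : HasDerivAt (fun ζ : ℂ => (ζ, (0 : E))) ((1 : ℂ), (0 : E)) 0 :=
        (hasDerivAt_id 0).prodMk (hasDerivAt_const 0 0)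
      have h4 : HasFDerivAt F (fderiv ℂ F (0, 0)) ((0 : ℂ), (0 : E)) := (hFat 0 h00).hasFDerivAt
      exact (h4.comp_hasDerivAt 0 h3).deriv.symm
    rw [h2]
    have h3 : (fun ζ : ℂ => F (ζ, 0)) =ᶠ[𝓝 0] fun ζ => φ (ui (ζ ^ 2)) := by
      filter_upwards [(disc D.q1⁻¹).2.mem_nhds hz0] with ζ hζ
      show φ (D.si ζ 0) = _
      rw [D.sprayi.zero ζ hζ]
    rw [h3.deriv_eq]
    have h4 : DifferentiableAt ℂ (fun ζ => φ (ui ζ)) 0 := by
      have h5 : DifferentiableOn ℂ (fun ζ => φ (ui ζ)) (ui ⁻¹' φ.source) :=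
        diffOn_chart_comp hφ (hu.holi.mono (subset_univ _)) (fun q hq => hq)
      have h6 : IsOpen (ui ⁻¹' φ.source) :=
        φ.open_source.preimage (continuousOn_univ.1 hu.holi.continuousOn)
      exact h5.differentiableAt (h6.mem_nhds hx)
    have h5 : HasDerivAt (fun ζ : ℂ => ζ ^ 2) (((2 : ℕ) : ℂ) * (0 : ℂ) ^ (2 - 1)) 0 :=
      hasDerivAt_pow 2 (0 : ℂ)
    have h6 : HasDerivAt (fun ζ => φ (ui ζ)) (deriv (fun ζ => φ (ui ζ)) 0) ((0 : ℂ) ^ 2) := by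
      have : (0 : ℂ) ^ 2 = 0 := by norm_num
      rw [this]
      exact h4.hasDerivAt
    have h7 := (h6.scomp (0 : ℂ) h5).deriv
    have h8 : (fun ζ : ℂ => φ (ui (ζ ^ 2))) = (fun ζ => φ (ui ζ)) ∘ fun ζ : ℂ => ζ ^ 2 := rfl
    rw [h8, h7]
    simp
  exact flexAt_of_jet hφ hx S.dpos (inv_pos.2 h1) hmL hmU heq h0 L hJ' hJ0

end Pool.Agent.W_4d259d_h44
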