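import Pool.Agent.W_4d259d_h44.TwoDisc

/-!
# MP_4d259d_ag, BLOCK FL: rational curves as pairs of maps
-/

noncomputable section

set_option linter.unusedSectionVars false

namespace Pool.Agent.W_4d259d_h44

open Set Filter Topology Manifold Metric MeasureTheory TopologicalSpace
open scoped ContDiff OnePoint BoundedContinuousFunction
open Pool.Agent.W_4d259d_h46.Defs Pool.Agent.W_4d259d_h46

variable {E : Type} [NormedAddCommGroup E] [NormedSpace ℂ E] [FiniteDimensional ℂ E]
variable {X : Type} [MetricSpace X] [ChartedSpace E X]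
  [IsManifold (modelWithCornersSelf ℂ E) ω X]

/-! ### Rational curves as pairs -/

/-- The pull back by `z ↦ z²`. -/
theorem IsPair.sq {u0 ui : ℂ → X} (h : IsPair E u0 ui) :
    IsPair E (fun z => u0 (z ^ 2)) (fun z => ui (z ^ 2)) := by
  have h2 : MDifferentiable (modelWithCornersSelf ℂ ℂ) (modelWithCornersSelf ℂ ℂ)
      (fun z : ℂ => z ^ 2) :=
    (differentiable_id.pow 2 : Differentiable ℂ fun z : ℂ => z ^ 2).mdifferentiable
  refine ⟨?_, ?_, ?_⟩
  · exact mdifferentiableOn_univ.2 ((mdifferentiableOn_univ.1 h.hol0).comp h2)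
  · exact mdifferentiableOn_univ.2 ((mdifferentiableOn_univ.1 h.holi).comp h2)
  · intro t ht
    show ui (t⁻¹ ^ 2) = u0 (t ^ 2)
    rw [inv_pow]
    exact h.eq _ (pow_ne_zero 2 ht)

/-- Swap `0` and `∞`. -/
theorem IsPair.swap {u0 ui : ℂ → X} (h : IsPair E u0 ui) : IsPair E ui u0 := by
  refine ⟨h.holi, h.hol0, fun t ht => ?_⟩
  rw [← h.eq t⁻¹ (inv_ne_zero ht), inv_inv]

/-- The pull back by the translation `z ↦ z + c`. -/
theorem IsPair.translate {u0 ui : ℂ → X} (h : IsPair E u0 ui) (c : ℂ) :
    ∃ vi : ℂ → X, IsPair E (fun z => u0 (z + c)) vi ∧ vi 0 = ui 0 := by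
  classical
  have h0 := mdifferentiableOn_univ.1 h.hol0
  have hi := mdifferentiableOn_univ.1 h.holi
  refine ⟨fun η => if η = 0 then ui 0 else u0 (η⁻¹ + c), ⟨?_, ?_, ?_⟩, by simp⟩
  · exact mdifferentiableOn_univ.2 (h0.comp
      (differentiable_id.add_const c : Differentiable ℂ fun z : ℂ => z + c).mdifferentiable)
  · refine mdifferentiableOn_univ.2 fun η => ?_
    by_cases hη : η = 0
    · subst hη
      have h1 : DifferentiableAt ℂ (fun η : ℂ => η / (1 + c * η)) 0 := by
        refine DifferentiableAt.div (by fun_prop) (by fun_prop) (by simp)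
      have h2 : MDifferentiableAt (modelWithCornersSelf ℂ ℂ) (modelWithCornersSelf ℂ E)
          (fun η : ℂ => ui (η / (1 + c * η))) 0 :=
        MDifferentiableAt.comp (0 : ℂ) (hi _) h1.mdifferentiableAt
      refine h2.congr_of_eventuallyEq ?_
      have h3 : ∀ᶠ η : ℂ in 𝓝 0, 1 + c * η ≠ 0 := by
        have : ContinuousAt (fun η : ℂ => 1 + c * η) 0 := by fun_prop
        exact this.eventually_ne (by simp)
      filter_upwards [h3] with η hη
      by_cases h0 : η = 0
      · simp [h0]
      · rw [if_neg h0, ← h.eq]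
        · congr 1
          field_simp
        · intro h4
          apply hη
          have : η * (η⁻¹ + c) = 0 := by rw [h4, mul_zero]
          rw [mul_add, mul_inv_cancel₀ h0] at this
          rw [← this]; ring
    · have h1 : DifferentiableAt ℂ (fun η : ℂ => η⁻¹ + c) η :=
        (differentiableAt_inv hη).add_const c
      have h2 : MDifferentiableAt (modelWithCornersSelf ℂ ℂ) (modelWithCornersSelf ℂ E)
          (fun η : ℂ => u0 (η⁻¹ + c)) η :=
        MDifferentiableAt.comp η (h0 _) h1.mdifferentiableAt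
      refine h2.congr_of_eventuallyEq ?_
      filter_upwards [isOpen_ne.mem_nhds hη] with ξ hξ
      rw [if_neg hξ]
  · intro t ht
    show (if t⁻¹ = 0 then ui 0 else u0 (t⁻¹⁻¹ + c)) = u0 (t + c)
    rw [if_neg (inv_ne_zero ht), inv_inv]

/-- Rationally connected in terms of pairs, with the two points at `0` and `∞`: any two distinct
points are `u0 0` and `ui 0` for some pair (Moebius reparametrisation: translations and
`z ↦ 1/z` suffice). -/
theorem exists_pair_zero_inf (h : RatConn E X) {x y : X} (hxy : x ≠ y) :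
    ∃ u0 ui : ℂ → X, IsPair E u0 ui ∧ u0 0 = x ∧ ui 0 = y := by
  obtain ⟨u0, ui, h0, hi, he, hx, hy⟩ := ratConn_iff_pair.1 h x y
  have hp : IsPair E u0 ui := ⟨h0, hi, he⟩
  rcases hx with hx | ⟨a, ha⟩
  · rcases hy with hy | ⟨b, hb⟩
    · exact absurd (hx.trans hy.symm) hxy
    · obtain ⟨vi, hv, hv0⟩ := hp.translate b
      refine ⟨vi, _, hv.swap, hv0.trans hx.symm, ?_⟩
      show u0 (0 + b) = y
      rw [zero_add, hb]
  · rcases hy with hy | ⟨b, hb⟩
    · obtain ⟨vi, hv, hv0⟩ := hp.translate a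
      refine ⟨_, vi, hv, ?_, hv0.trans hy.symm⟩
      show u0 (0 + a) = x
      rw [zero_add, ha]
    · have hab : a - b ≠ 0 := by
        intro h
        apply hxy
        rw [← ha, ← hb, sub_eq_zero.1 h]
      obtain ⟨vi, hv, hv0⟩ := hp.translate b
      obtain ⟨wi, hw, hw0⟩ := hv.swap.translate (a - b)⁻¹
      refine ⟨_, wi, hw, ?_, ?_⟩
      · show vi (0 + (a - b)⁻¹) = x
        rw [zero_add, hv.eq (a - b) hab]
        show u0 (a - b + b) = x
        rw [sub_add_cancel, ha]
      · rw [hw0]
        show u0 (0 + b) = y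
        rw [zero_add, hb]

end Pool.Agent.W_4d259d_h44
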