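import Pool.Agent.W_4d259d_h44.LocInv
import Pool.Agent.W_4d259d_h44.ApiD

/-!
# MP_4d259d_ag: the two disc model (section 11): existence, gluing, coordinates
-/

noncomputable section

set_option linter.unusedSectionVars false

namespace Pool.Agent.W_4d259d_h44

open Set Filter Topology Manifold Metric MeasureTheory TopologicalSpace
open scoped ContDiff OnePoint BoundedContinuousFunction
open Pool.Agent.W_4d259d_h46.Defs Pool.Agent.W_4d259d_h46

section aux29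

variable {R : Type*} [TopologicalSpace R] [ChartedSpace ℂ R]
variable {E : Type*} [NormedAddCommGroup E] [NormedSpace ℂ E]
variable {X : Type*} [MetricSpace X] [ChartedSpace E X]

/-- Shrinking a spray. -/
theorem IsSpray.mono29 {W W' : Opens R} {f : R → X} {δ δ' : ℝ} {s : R → E → X}
    (hs : IsSpray W f δ s) (hW : W' ≤ W) (hδ : δ' ≤ δ) (h0 : 0 < δ') : IsSpray W' f δ' s :=
  ⟨h0, hs.hol.mono (prod_mono hW (ball_subset_ball hδ)), fun z hz => hs.zero z (hW hz),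
    fun z hz => hs.inv z (hW hz)⟩

/-- Shrinking a local inverse. -/
theorem IsLocInv.mono29 {W W' : Opens R} {f : R → X} {δ δ' δ'' κ κ' : ℝ} {s : R → E → X}
    {l : R → X → E} (h : IsLocInv W f δ s δ' κ l) (hW : W' ≤ W) (hκ : κ' ≤ κ) (hκ0 : 0 < κ')
    (hδ : δ'' ≤ δ') (hδ0 : 0 < δ'')
    (hs : ∀ z ∈ W', ∀ w : E, ‖w‖ < δ'' → dist (s z w) (f z) < κ') :
    IsLocInv W' f δ s δ'' κ' l := by
  refine ⟨hδ0, hκ0, ?_, ?_, ?_, ?_, ?_⟩
  · refine h.hol.mono fun q hq => ⟨hW hq.1, hq.2.trans_le hκ⟩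
  · exact fun z hz x hx => h.right z (hW hz) x (hx.trans_le hκ)
  · exact fun z hz w hw => ⟨hs z hz w hw, (h.left z (hW hz) w (hw.trans_le hδ)).2⟩
  · intro ε hε
    obtain ⟨k, hk, hk'⟩ := h.small ε hε
    exact ⟨k, hk, fun z hz => hk' z (hW hz)⟩
  · intro ε hε
    obtain ⟨k, hk, hk'⟩ := h.small' ε hε
    exact ⟨k, hk, fun z hz => hk' z (hW hz)⟩

/-- Composition of the local inverse with a map. -/
theorem IsLocInv.comp29 {W : Opens R} {f : R → X} {δ δ' κ : ℝ} {s : R → E → X}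
    {l : R → X → E} (h : IsLocInv W f δ s δ' κ l) {U : Set R} (hU : U ⊆ W) {g : R → X}
    (hg : HolOn E g U) (hd : ∀ z ∈ U, dist (g z) (f z) < κ) : HolOn E (fun z => l z (g z)) U := by
  have h1 : MDifferentiableOn (modelWithCornersSelf ℂ ℂ)
      ((modelWithCornersSelf ℂ ℂ).prod (modelWithCornersSelf ℂ E))
      (fun z : R => (z, g z)) U := mdifferentiableOn_id.prodMk hg
  exact h.hol.comp h1 (fun z hz => ⟨hU hz, hd z hz⟩)

end aux29

variable (E : Type) [NormedAddCommGroup E] [NormedSpace ℂ E]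
variable {X : Type} [MetricSpace X] [ChartedSpace E X]

theorem disc_le29 {r r' : ℝ} {W : Opens ℂ} (h : r ≤ r') (hW : closedBall (0 : ℂ) r' ⊆ W) :
    disc r ≤ W := fun _ hz => hW (ball_subset_closedBall (ball_subset_ball h hz))

variable {E} in
theorem isUnit_of_comp29 [FiniteDimensional ℂ E] {A B : E → E} {d : ℝ} (hd : 0 < d)
    (hB : DifferentiableAt ℂ B 0) (hB0 : B 0 = 0) (hA : DifferentiableAt ℂ A 0)
    (h : ∀ w ∈ ball (0 : E) d, A (B w) = w) : IsUnit (fderiv ℂ B 0) := by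
  have h1 : HasFDerivAt (fun w => A (B w)) ((fderiv ℂ A 0).comp (fderiv ℂ B 0)) 0 := by
    have hA' : HasFDerivAt A (fderiv ℂ A 0) (B 0) := by rw [hB0]; exact hA.hasFDerivAt
    exact hA'.comp (0 : E) hB.hasFDerivAt
  have h2 : HasFDerivAt (fun w => A (B w)) (ContinuousLinearMap.id ℂ E) 0 := by
    refine (hasFDerivAt_id (0 : E)).congr_of_eventuallyEq ?_
    filter_upwards [ball_mem_nhds (0 : E) hd] with w hw
    exact h w hw
  have h3 := h1.unique h2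
  have hinj : Function.Injective (fderiv ℂ B 0) := by
    intro v w hvw
    have h4 := congrArg (fun L : E →L[ℂ] E => L v) h3
    have h5 := congrArg (fun L : E →L[ℂ] E => L w) h3
    simp only [ContinuousLinearMap.coe_comp, Function.comp_apply, ContinuousLinearMap.id_apply] at h4 h5
    rw [← h4, ← h5]
    exact congrArg (fderiv ℂ A 0) hvw
  have hker : LinearMap.ker (fderiv ℂ B 0 : E →ₗ[ℂ] E) = ⊥ := LinearMap.ker_eq_bot.2 hinj
  let e : E ≃ₗ[ℂ] E := LinearEquiv.ofInjectiveEndo (fderiv ℂ B 0 : E →ₗ[ℂ] E) hinj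
  have h6 : fderiv ℂ B 0 = (e.toContinuousLinearEquiv : E →L[ℂ] E) := by
    ext v; rfl
  rw [h6]
  exact ⟨ContinuousLinearEquiv.toUnit e.toContinuousLinearEquiv, rfl⟩

/-- Existence of the two disc model (BLOCK FR/TD): sprays from `SprayThm ℂ E X`, local inverses
from `exists_locInv`, `θ z w = li z⁻¹ (s0 z w)`; shrink `q1, q2` towards `r1, r2` so that all
data live on compact neighbourhoods. -/
theorem exists_twoDisc [FiniteDimensional ℂ E] [IsManifold (modelWithCornersSelf ℂ E) ω X]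
    (hS : SprayThm ℂ E X) {u0 ui : ℂ → X} (hu : IsPair E u0 ui) {r1 r2 : ℝ} (h1 : 0 < r1)
    (h2 : r1 < r2) : Nonempty (TwoDisc E u0 ui r1 r2) := by
  set q1 : ℝ := r1 / 2 with hq1
  set q2 : ℝ := r2 + 1 with hq2
  have hq1p : 0 < q1 := by positivity
  obtain ⟨W0, δ0, s0, hA0, -, hs0⟩ := hS (closedBall 0 q2) (isCompact_closedBall _ _) ⊤
    (subset_univ _) u0 hu.hol0
  obtain ⟨Wi, δi, si, hAi, -, hsi⟩ := hS (closedBall 0 q1⁻¹) (isCompact_closedBall _ _) ⊤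
    (subset_univ _) ui hu.holi
  set δ : ℝ := min δ0 δi with hδ
  have hδp : 0 < δ := lt_min hs0.pos hsi.pos
  have hs0' := hs0.mono29 le_rfl (min_le_left δ0 δi) hδp
  have hsi' := hsi.mono29 le_rfl (min_le_right δ0 δi) hδp
  obtain ⟨V0, d0, k0, l0, hC0, hVW0, hd0, hl0⟩ := exists_locInv (W := W0) (f := u0)
    (hu.hol0.mono (subset_univ _)) hs0' (isCompact_closedBall 0 q2) hA0
  obtain ⟨Vi, di, ki, li, hCi, hVWi, hdi, hli⟩ := exists_locInv (W := Wi) (f := ui)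
    (hu.holi.mono (subset_univ _)) hsi' (isCompact_closedBall 0 q1⁻¹) hAi
  set κ : ℝ := min k0 ki with hκ
  have hκp : 0 < κ := lt_min hl0.kpos hli.kpos
  obtain ⟨e0, he0, he0'⟩ := hl0.small' κ hκp
  obtain ⟨ei, hei, hei'⟩ := hli.small' κ hκp
  set δ' : ℝ := min (min d0 di) (min e0 ei) with hδ'
  have hδ'p : 0 < δ' := lt_min (lt_min hl0.dpos hli.dpos) (lt_min he0 hei)
  have hV0 : disc q2 ≤ V0 := disc_le29 le_rfl hC0
  have hVi : disc q1⁻¹ ≤ Vi := disc_le29 le_rfl hCi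
  have m0 := hl0.mono29 hV0 (min_le_left k0 ki) hκp
    ((min_le_left _ _).trans (min_le_left _ _) : δ' ≤ d0) hδ'p
    (fun z hz w hw => he0' z (hV0 hz) w (hw.trans_le ((min_le_right _ _).trans (min_le_left _ _))))
  have mi := hli.mono29 hVi (min_le_right k0 ki) hκp
    ((min_le_left _ _).trans (min_le_right _ _) : δ' ≤ di) hδ'p
    (fun z hz w hw => hei' z (hVi hz) w (hw.trans_le ((min_le_right _ _).trans (min_le_right _ _))))
  have n0 := hs0'.mono29 (hV0.trans hVW0) le_rfl hδp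
  have ni := hsi'.mono29 (hVi.trans hVWi) le_rfl hδp
  set d : ℝ := min δ' δ with hd
  have hdp : 0 < d := lt_min hδ'p hδp
  have hann : ∀ z ∈ annu q1 q2, z ≠ 0 ∧ z ∈ disc q2 ∧ z⁻¹ ∈ disc q1⁻¹ := by
    intro z hz
    have hz' : q1 < ‖z‖ ∧ ‖z‖ < q2 := hz
    have h0 : 0 < ‖z‖ := hq1p.trans hz'.1
    refine ⟨norm_pos_iff.1 h0, ?_, ?_⟩
    · show z ∈ ball (0 : ℂ) q2
      rw [mem_ball_zero_iff]; exact hz'.2
    · show z⁻¹ ∈ ball (0 : ℂ) q1⁻¹
      rw [mem_ball_zero_iff, norm_inv]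
      exact (inv_lt_inv₀ h0 hq1p).2 hz'.1
  have hux : ∀ z ∈ annu q1 q2, ui z⁻¹ = u0 z := fun z hz => hu.eq z (hann z hz).1
  have hclose : ∀ z ∈ annu q1 q2, ∀ w : E, ‖w‖ < d → dist (s0 z w) (ui z⁻¹) < κ := by
    intro z hz w hw
    rw [hux z hz]
    exact (m0.left z (hann z hz).2.1 w (hw.trans_le (min_le_left _ _))).1
  have hclosei : ∀ z ∈ annu q1 q2, ∀ w : E, ‖w‖ < δ' → dist (si z⁻¹ w) (u0 z) < κ := by
    intro z hz w hw
    rw [← hux z hz]
    exact (mi.left z⁻¹ (hann z hz).2.2 w hw).1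
  have hθhol : HolOn2 E (fun z w => li z⁻¹ (s0 z w)) (annu q1 q2 : Set ℂ) (ball (0 : E) d) := by
    have g1 : MDifferentiableOn ((modelWithCornersSelf ℂ ℂ).prod (modelWithCornersSelf ℂ E))
        (modelWithCornersSelf ℂ ℂ) (fun q : ℂ × E => q.1⁻¹)
        ((annu q1 q2 : Set ℂ) ×ˢ ball (0 : E) d) := by
      have g2 : MDifferentiableOn (modelWithCornersSelf ℂ ℂ) (modelWithCornersSelf ℂ ℂ)
          (fun z : ℂ => z⁻¹) (annu q1 q2 : Set ℂ) := by
        rw [mdifferentiableOn_iff_differentiableOn]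
        intro z hz
        exact (differentiableAt_inv (hann z hz).1).differentiableWithinAt
      exact g2.comp mdifferentiable_fst.mdifferentiableOn (fun q hq => hq.1)
    have g3 : MDifferentiableOn ((modelWithCornersSelf ℂ ℂ).prod (modelWithCornersSelf ℂ E))
        (modelWithCornersSelf ℂ E) (fun q : ℂ × E => s0 q.1 q.2)
        ((annu q1 q2 : Set ℂ) ×ˢ ball (0 : E) d) := by
      refine n0.hol.mono (prod_mono (fun z hz => (hann z hz).2.1) (ball_subset_ball ?_))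
      exact min_le_right _ _
    exact mi.hol.comp (g1.prodMk g3) (fun q hq =>
      ⟨(hann q.1 hq.1).2.2, hclose q.1 hq.1 q.2 (mem_ball_zero_iff.1 hq.2)⟩)
  have hθzero : ∀ z ∈ annu q1 q2, li z⁻¹ (s0 z 0) = 0 := by
    intro z hz
    rw [n0.zero z (hann z hz).2.1, ← hux z hz, ← ni.zero z⁻¹ (hann z hz).2.2]
    exact (mi.left z⁻¹ (hann z hz).2.2 0 (by rw [norm_zero]; exact hδ'p)).2
  refine ⟨{ q1 := q1, q2 := q2, hq1 := hq1p, hqr1 := by rw [hq1]; linarith, hr := h2,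
            hqr2 := by rw [hq2]; linarith, δ := δ, s0 := s0, si := si, spray0 := n0,
            sprayi := ni, δ' := δ', κ := κ, l0 := l0, li := li, inv0 := m0, invi := mi,
            d := d, hd := hdp, hdδ := min_le_right _ _, θ := fun z w => li z⁻¹ (s0 z w),
            θhol := hθhol, θzero := hθzero, θunit := ?_, θlt := ?_, θeq := ?_, θuniq := ?_ }⟩
  · intro z hz
    refine isUnit_of_comp29 (A := fun w => l0 z (si z⁻¹ w)) hdp ?_ (hθzero z hz) ?_ ?_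
    · exact (hol2_slice hθhol hz).differentiableAt (ball_mem_nhds _ hdp)
    · have g0 : 0 < min δ' δ := hdp
      have g1 : MDifferentiableOn (modelWithCornersSelf ℂ E)
          ((modelWithCornersSelf ℂ ℂ).prod (modelWithCornersSelf ℂ E))
          (fun w : E => (z⁻¹, w)) (ball (0 : E) d) :=
        (mdifferentiableOn_const).prodMk mdifferentiableOn_id
      have g2 : MDifferentiableOn (modelWithCornersSelf ℂ E) (modelWithCornersSelf ℂ E)
          (fun w : E => si z⁻¹ w) (ball (0 : E) d) :=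
        ni.hol.comp g1 (fun w hw => ⟨(hann z hz).2.2, ball_subset_ball (min_le_right _ _) hw⟩)
      have g3 : MDifferentiableOn (modelWithCornersSelf ℂ E)
          ((modelWithCornersSelf ℂ ℂ).prod (modelWithCornersSelf ℂ E))
          (fun w : E => (z, si z⁻¹ w)) (ball (0 : E) d) :=
        (mdifferentiableOn_const).prodMk g2
      have g4 : MDifferentiableOn (modelWithCornersSelf ℂ E) (modelWithCornersSelf ℂ E)
          (fun w : E => l0 z (si z⁻¹ w)) (ball (0 : E) d) :=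
        m0.hol.comp g3 (fun w hw => ⟨(hann z hz).2.1, hclosei z hz w
          ((mem_ball_zero_iff.1 hw).trans_le (min_le_left _ _))⟩)
      exact (mdifferentiableOn_iff_differentiableOn.1 g4).differentiableAt
        (ball_mem_nhds _ hdp)
    · intro w hw
      have hw' := mem_ball_zero_iff.1 hw
      show l0 z (si z⁻¹ (li z⁻¹ (s0 z w))) = w
      rw [(mi.right z⁻¹ (hann z hz).2.2 _ (hclose z hz w hw')).2]
      exact (m0.left z (hann z hz).2.1 w (hw'.trans_le (min_le_left _ _))).2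
  · intro z hz w hw
    exact (mi.right z⁻¹ (hann z hz).2.2 _ (hclose z hz w (mem_ball_zero_iff.1 hw))).1
  · intro z hz w hw
    exact (mi.right z⁻¹ (hann z hz).2.2 _ (hclose z hz w (mem_ball_zero_iff.1 hw))).2
  · intro z hz w hw w' hw' h
    show w' = li z⁻¹ (s0 z w)
    rw [← h]
    exact (mi.left z⁻¹ (hann z hz).2.2 w'
      ((mem_ball_zero_iff.1 hw').trans_le (min_le_left _ _))).2.symm

/-- Gluing: a pair of holomorphic maps `w0`, `wi` on slightly larger discs with small values and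
`wi z⁻¹ = θ z (w0 z)` on the annulus gives a rational curve. -/
theorem TwoDisc.glue [IsManifold (modelWithCornersSelf ℂ E) ω X] {u0 ui : ℂ → X} {r1 r2 : ℝ}
    (D : TwoDisc E u0 ui r1 r2) (h1 : 0 < r1) {w0 wi : ℂ → E}
    (h0 : DifferentiableOn ℂ w0 (ball 0 r2)) (hi : DifferentiableOn ℂ wi (ball 0 r1⁻¹))
    (hb0 : ∀ z ∈ ball (0 : ℂ) r2, ‖w0 z‖ < D.d) (hbi : ∀ η ∈ ball (0 : ℂ) r1⁻¹, ‖wi η‖ < D.δ)
    (he : ∀ z ∈ annu r1 r2, wi z⁻¹ = D.θ z (w0 z)) :
    ∃ v0 vi : ℂ → X, IsPair E v0 vi ∧ (∀ z ∈ ball (0 : ℂ) r2, v0 z = D.s0 z (w0 z)) ∧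
      ∀ η ∈ ball (0 : ℂ) r1⁻¹, vi η = D.si η (wi η) := by
  classical
  have hr2 : 0 < r2 := h1.trans D.hr
  have hb1 : ball (0 : ℂ) r2 ⊆ disc D.q2 := ball_subset_ball D.hqr2.le
  have hb2 : ball (0 : ℂ) r1⁻¹ ⊆ disc D.q1⁻¹ :=
    ball_subset_ball ((inv_le_inv₀ h1 D.hq1).2 D.hqr1.le)
  -- the two halves
  have p0 : HolOn E (fun z => D.s0 z (w0 z)) (ball (0 : ℂ) r2) := by
    refine holOn_comp_spray (V := ball (0 : E) D.δ) (D.spray0.hol.mono (prod_mono hb1 le_rfl))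
      (holOn_iff_plane.2 h0) ?_
    intro z hz
    rw [mem_ball_zero_iff]
    exact (hb0 z hz).trans_le D.hdδ
  have pi : HolOn E (fun z => D.si z (wi z)) (ball (0 : ℂ) r1⁻¹) := by
    refine holOn_comp_spray (V := ball (0 : E) D.δ) (D.sprayi.hol.mono (prod_mono hb2 le_rfl))
      (holOn_iff_plane.2 hi) ?_
    intro z hz
    rw [mem_ball_zero_iff]
    exact hbi z hz
  have hann : ∀ z ∈ annu r1 r2, D.si z⁻¹ (wi z⁻¹) = D.s0 z (w0 z) := by
    intro z hz
    have hz' : r1 < ‖z‖ ∧ ‖z‖ < r2 := hz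
    have hzq : z ∈ annu D.q1 D.q2 := ⟨D.hqr1.trans hz'.1, hz'.2.trans D.hqr2⟩
    rw [he z hz]
    refine D.θeq z hzq (w0 z) ?_
    rw [mem_ball_zero_iff]
    exact hb0 z (by rw [mem_ball_zero_iff]; exact hz'.2)
  have hinv : MDifferentiableOn (modelWithCornersSelf ℂ ℂ) (modelWithCornersSelf ℂ ℂ)
      (fun z : ℂ => z⁻¹) ({0}ᶜ : Set ℂ) := by
    rw [mdifferentiableOn_iff_differentiableOn]
    intro z hz
    exact (differentiableAt_inv hz).differentiableWithinAt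
  -- the exterior versions
  have e0 : HolOn E (fun η : ℂ => D.s0 η⁻¹ (w0 η⁻¹)) {η : ℂ | r2⁻¹ < ‖η‖} := by
    refine MDifferentiableOn.comp p0 (hinv.mono ?_) ?_
    · intro η hη
      have hη' : r2⁻¹ < ‖η‖ := hη
      exact norm_pos_iff.1 ((inv_pos.2 hr2).trans hη')
    · intro η hη
      have hη' : r2⁻¹ < ‖η‖ := hη
      show η⁻¹ ∈ ball (0 : ℂ) r2
      rw [mem_ball_zero_iff, norm_inv]
      exact inv_lt_of_inv_lt₀ hr2 hη'
  have ei : HolOn E (fun z : ℂ => D.si z⁻¹ (wi z⁻¹)) {z : ℂ | r1 < ‖z‖} := by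
    refine MDifferentiableOn.comp pi (hinv.mono ?_) ?_
    · intro z hz
      have hz' : r1 < ‖z‖ := hz
      exact norm_pos_iff.1 (h1.trans hz')
    · intro z hz
      have hz' : r1 < ‖z‖ := hz
      show z⁻¹ ∈ ball (0 : ℂ) r1⁻¹
      rw [mem_ball_zero_iff, norm_inv]
      exact (inv_lt_inv₀ (h1.trans hz') h1).2 hz'
  refine ⟨fun z => if ‖z‖ < r2 then D.s0 z (w0 z) else D.si z⁻¹ (wi z⁻¹),
    fun η => if ‖η‖ < r1⁻¹ then D.si η (wi η) else D.s0 η⁻¹ (w0 η⁻¹), ⟨?_, ?_, ?_⟩, ?_, ?_⟩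
  · have hU : (univ : Set ℂ) = ball (0 : ℂ) r2 ∪ {z : ℂ | r1 < ‖z‖} := by
      ext z
      simp only [mem_univ, mem_union, mem_ball_zero_iff, mem_ofPred_eq, true_iff]
      rcases lt_or_ge ‖z‖ r2 with h | h
      · exact Or.inl h
      · exact Or.inr (D.hr.trans_le h)
    rw [hU]
    refine holOn_union isOpen_ball (isOpen_lt continuous_const continuous_norm) ?_ ?_
    · refine MDifferentiableOn.congr p0 fun z hz => ?_
      rw [mem_ball_zero_iff] at hz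
      rw [if_pos hz]
    · refine MDifferentiableOn.congr ei fun z hz => ?_
      have hz' : r1 < ‖z‖ := hz
      by_cases h : ‖z‖ < r2
      · rw [if_pos h, hann z ⟨hz', h⟩]
      · rw [if_neg h]
  · have hU : (univ : Set ℂ) = ball (0 : ℂ) r1⁻¹ ∪ {η : ℂ | r2⁻¹ < ‖η‖} := by
      ext z
      simp only [mem_univ, mem_union, mem_ball_zero_iff, mem_ofPred_eq, true_iff]
      rcases lt_or_ge ‖z‖ r1⁻¹ with h | h
      · exact Or.inl h
      · exact Or.inr (((inv_lt_inv₀ hr2 h1).2 D.hr).trans_le h)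
    rw [hU]
    refine holOn_union isOpen_ball (isOpen_lt continuous_const continuous_norm) ?_ ?_
    · refine MDifferentiableOn.congr pi fun z hz => ?_
      rw [mem_ball_zero_iff] at hz
      rw [if_pos hz]
    · refine MDifferentiableOn.congr e0 fun η hη => ?_
      have hη' : r2⁻¹ < ‖η‖ := hη
      by_cases h : ‖η‖ < r1⁻¹
      · rw [if_pos h]
        have h3 : η⁻¹ ∈ annu r1 r2 := by
          refine ⟨?_, ?_⟩
          · rw [norm_inv]
            exact lt_inv_of_lt_inv₀ ((inv_pos.2 hr2).trans hη') h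
          · rw [norm_inv]
            exact inv_lt_of_inv_lt₀ hr2 hη'
        have h4 := hann η⁻¹ h3
        rw [inv_inv] at h4
        exact h4
      · rw [if_neg h]
  · intro t ht
    have ht' : 0 < ‖t‖ := norm_pos_iff.2 ht
    show (if ‖t⁻¹‖ < r1⁻¹ then D.si t⁻¹ (wi t⁻¹) else D.s0 t⁻¹⁻¹ (w0 t⁻¹⁻¹)) =
      if ‖t‖ < r2 then D.s0 t (w0 t) else D.si t⁻¹ (wi t⁻¹)
    have h3 : ‖t⁻¹‖ < r1⁻¹ ↔ r1 < ‖t‖ := by
      rw [norm_inv]; exact inv_lt_inv₀ ht' h1
    by_cases h4 : r1 < ‖t‖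
    · rw [if_pos (h3.2 h4)]
      by_cases h5 : ‖t‖ < r2
      · rw [if_pos h5]; exact hann t ⟨h4, h5⟩
      · rw [if_neg h5]
    · rw [if_neg (fun h => h4 (h3.1 h)), inv_inv, if_pos ((not_lt.1 h4).trans_lt D.hr)]
  · intro z hz
    exact if_pos (mem_ball_zero_iff.1 hz)
  · intro η hη
    exact if_pos (mem_ball_zero_iff.1 hη)

/-- Coordinates: a rational curve `(v0, vi)` uniformly close to `(u0, ui)` on the discs has
coordinates, holomorphic on the open discs of radii `r2`, `1/r1` (and on any larger discs on which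
it is still close). -/
theorem TwoDisc.coords [FiniteDimensional ℂ E] [IsManifold (modelWithCornersSelf ℂ E) ω X]
    {u0 ui : ℂ → X} {r1 r2 : ℝ} (D : TwoDisc E u0 ui r1 r2) (h1 : 0 < r1) {ε : ℝ} (hε : 0 < ε) :
    ∃ κ > 0, ∀ (v0 vi : ℂ → X), IsPair E v0 vi → ∀ t1 t2 : ℝ, D.q1 < t1 → t1 ≤ r1 → r2 ≤ t2 →
      t2 < D.q2 → (∀ z ∈ ball (0 : ℂ) t2, dist (v0 z) (u0 z) < κ) →
      (∀ η ∈ ball (0 : ℂ) t1⁻¹, dist (vi η) (ui η) < κ) →
      ∃ w0 wi : ℂ → E, DifferentiableOn ℂ w0 (ball 0 t2) ∧ DifferentiableOn ℂ wi (ball 0 t1⁻¹) ∧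
        (∀ z ∈ ball (0 : ℂ) t2, ‖w0 z‖ < ε ∧ D.s0 z (w0 z) = v0 z) ∧
        (∀ η ∈ ball (0 : ℂ) t1⁻¹, ‖wi η‖ < ε ∧ D.si η (wi η) = vi η) ∧
        (∀ z ∈ annu t1 t2, wi z⁻¹ = D.θ z (w0 z)) := by
  have hε' : 0 < min ε D.d := lt_min hε D.hd
  obtain ⟨k0, hk0, hk0'⟩ := D.inv0.small _ hε'
  obtain ⟨ki, hki, hki'⟩ := D.invi.small _ hε'
  refine ⟨min D.κ (min k0 ki), lt_min D.inv0.kpos (lt_min hk0 hki), ?_⟩
  intro v0 vi hv t1 t2 ht1 ht1' ht2' ht2 hc0 hci
  have ht1p : 0 < t1 := D.hq1.trans ht1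
  have hb1 : ball (0 : ℂ) t2 ⊆ disc D.q2 := ball_subset_ball ht2.le
  have hb2 : ball (0 : ℂ) t1⁻¹ ⊆ disc D.q1⁻¹ :=
    ball_subset_ball ((inv_le_inv₀ ht1p D.hq1).2 ht1.le)
  have hs0 : ∀ z ∈ ball (0 : ℂ) t2, ‖D.l0 z (v0 z)‖ < min ε D.d ∧
      D.s0 z (D.l0 z (v0 z)) = v0 z := fun z hz =>
    ⟨hk0' z (hb1 hz) _ ((hc0 z hz).trans_le ((min_le_right _ _).trans (min_le_left _ _))),
      (D.inv0.right z (hb1 hz) _ ((hc0 z hz).trans_le (min_le_left _ _))).2⟩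
  have hsi : ∀ z ∈ ball (0 : ℂ) t1⁻¹, ‖D.li z (vi z)‖ < min ε D.d ∧
      D.si z (D.li z (vi z)) = vi z := fun z hz =>
    ⟨hki' z (hb2 hz) _ ((hci z hz).trans_le ((min_le_right _ _).trans (min_le_right _ _))),
      (D.invi.right z (hb2 hz) _ ((hci z hz).trans_le (min_le_left _ _))).2⟩
  refine ⟨fun z => D.l0 z (v0 z), fun z => D.li z (vi z), ?_, ?_, ?_, ?_, ?_⟩
  · exact holOn_iff_plane.1 (D.inv0.comp29 hb1 (hv.hol0.mono (subset_univ _))
      fun z hz => (hc0 z hz).trans_le (min_le_left _ _))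
  · exact holOn_iff_plane.1 (D.invi.comp29 hb2 (hv.holi.mono (subset_univ _))
      fun z hz => (hci z hz).trans_le (min_le_left _ _))
  · exact fun z hz => ⟨(hs0 z hz).1.trans_le (min_le_left _ _), (hs0 z hz).2⟩
  · exact fun z hz => ⟨(hsi z hz).1.trans_le (min_le_left _ _), (hsi z hz).2⟩
  · intro z hz
    have hz' : t1 < ‖z‖ ∧ ‖z‖ < t2 := hz
    have hz0 : 0 < ‖z‖ := ht1p.trans hz'.1
    have hz1 : z ∈ ball (0 : ℂ) t2 := by rw [mem_ball_zero_iff]; exact hz'.2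
    have hz2 : z⁻¹ ∈ ball (0 : ℂ) t1⁻¹ := by
      rw [mem_ball_zero_iff, norm_inv]
      exact (inv_lt_inv₀ hz0 ht1p).2 hz'.1
    have hzq : z ∈ annu D.q1 D.q2 := ⟨ht1.trans hz'.1, hz'.2.trans ht2⟩
    refine D.θuniq z hzq _ ?_ _ ?_ ?_
    · rw [mem_ball_zero_iff]
      exact (hs0 z hz1).1.trans_le (min_le_right _ _)
    · rw [mem_ball_zero_iff]
      exact (hsi _ hz2).1.trans_le (min_le_right _ _)
    · show D.si z⁻¹ (D.li z⁻¹ (vi z⁻¹)) = D.s0 z (D.l0 z (v0 z))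
      rw [(hsi _ hz2).2, (hs0 z hz1).2]
      exact hv.eq z (norm_pos_iff.1 hz0)

end Pool.Agent.W_4d259d_h44
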