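import Pool.Agent.W_4d259d_h44.GrA
import Pool.Agent.W_4d259d_h44.GrE
import Pool.Agent.W_4d259d_h44.TwoDiscB
import Pool.Agent.W_4d259d_h44.Pairs

/-!
# MP_4d259d_ag, BLOCK GR: flexibility propagates along rational curves (section 16)
-/

noncomputable section

set_option linter.unusedSectionVars false

namespace Pool.Agent.W_4d259d_h44

open Set Filter Topology Manifold Metric MeasureTheory TopologicalSpace
open scoped ContDiff OnePoint BoundedContinuousFunction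
open Pool.Agent.W_4d259d_h46.Defs Pool.Agent.W_4d259d_h46

variable {E : Type} [NormedAddCommGroup E] [NormedSpace ℂ E] [FiniteDimensional ℂ E]
variable {X : Type} [MetricSpace X] [ChartedSpace E X] [IsManifold (modelWithCornersSelf ℂ E) ω X]

/-- The cokernel lemma in the form used here (BLOCK TD, section 12 and the CLAIM of section 16):
proved in W_4d259d_h53. -/
def CokLemma (E : Type) [NormedAddCommGroup E] [NormedSpace ℂ E] : Prop :=
  ∀ (q1 r1 r2 q2 : ℝ), 0 < q1 → q1 < r1 → r1 < r2 → r2 < q2 →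
    ∀ G : ℂ → E →L[ℂ] E, DifferentiableOn ℂ G (annu q1 q2) → (∀ z ∈ annu q1 q2, IsUnit (G z)) →
    ∀ (c0 : ℂ) (r0 : ℝ), 0 < r0 → closedBall c0 r0 ⊆ ball 0 r1 →
    ∃ (J : Finset ℂ) (Rr : HB (annu r1 r2) E →L[ℂ] HB (disc r2) E × (J → E) × HB (disc r1⁻¹) E),
      (∀ j ∈ J, j ∈ ball c0 r0) ∧ ∀ y : HB (annu r1 r2) E, ∀ z ∈ annu r1 r2,
        (z⁻¹) ^ 2 • (Rr y).2.2.fn z⁻¹ - G z
          ((Rr y).1.fn z + ∑ j : J, (z - (j : ℂ))⁻¹ • (Rr y).2.1 j) = y.fn z

/-- A joint holomorphic map on `ℂ × E` with the product model is complex differentiable. -/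
theorem diffOn_of_hol2_29 {E' : Type*} [NormedAddCommGroup E'] [NormedSpace ℂ E']
    {θ : ℂ → E → E'} {U : Set ℂ} {V : Set E} (h : HolOn2 E' θ U V) :
    DifferentiableOn ℂ (fun q : ℂ × E => θ q.1 q.2) (U ×ˢ V) := by
  rw [← mdifferentiableOn_iff_differentiableOn]
  have h1 : MDifferentiableOn (modelWithCornersSelf ℂ (ℂ × E))
      ((modelWithCornersSelf ℂ ℂ).prod (modelWithCornersSelf ℂ E))
      (fun q : ℂ × E => (q.1, q.2)) (U ×ˢ V) :=
    ((differentiable_fst : Differentiable ℂ (Prod.fst : ℂ × E → ℂ)).mdifferentiable.prodMk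
      (differentiable_snd : Differentiable ℂ (Prod.snd : ℂ × E → E)).mdifferentiable).mdifferentiableOn
  exact h.comp h1 (fun q hq => hq)

/-- the fibre derivative along the zero section is holomorphic. -/
theorem diffOn_fderiv_zero29 {θ : ℂ → E → E} {U : Set ℂ} (hU : IsOpen U) {d : ℝ} (hd : 0 < d)
    (h : HolOn2 E θ U (ball (0 : E) d)) : DifferentiableOn ℂ (fun z => fderiv ℂ (θ z) 0) U := by
  have h1 := diffOn_of_hol2_29 h
  have hO : IsOpen (U ×ˢ ball (0 : E) d) := hU.prod isOpen_ball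
  have h2 := ApiC.differentiableOn_fderiv hO h1
  have h3 : ∀ z ∈ U, fderiv ℂ (θ z) 0 =
      (fderiv ℂ (fun q : ℂ × E => θ q.1 q.2) (z, 0)).comp (ContinuousLinearMap.inr ℂ ℂ E) := by
    intro z hz
    have h4 : HasFDerivAt (fun q : ℂ × E => θ q.1 q.2)
        (fderiv ℂ (fun q : ℂ × E => θ q.1 q.2) (z, 0)) (z, 0) :=
      (h1.differentiableAt (hO.mem_nhds ⟨hz, mem_ball_self hd⟩)).hasFDerivAt
    have h5 : HasFDerivAt (fun w : E => ((z, w) : ℂ × E)) (ContinuousLinearMap.inr ℂ ℂ E) 0 :=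
      hasFDerivAt_prodMk_right z 0
    exact (h4.comp (0 : E) h5).fderiv
  have h6 : DifferentiableOn ℂ (fun z : ℂ =>
      (fderiv ℂ (fun q : ℂ × E => θ q.1 q.2) (z, 0)).comp (ContinuousLinearMap.inr ℂ ℂ E)) U := by
    refine DifferentiableOn.clm_comp ?_ (differentiableOn_const _)
    refine h2.comp (f := fun z : ℂ => ((z, 0) : ℂ × E)) ?_ (fun z hz => ⟨hz, mem_ball_self hd⟩)
    exact (differentiable_id.prodMk (differentiable_const _)).differentiableOn
  exact h6.congr h3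

/-- a positive lower bound for finitely many positive numbers. -/
theorem exists_lb29 {α : Type*} (s : Finset α) (f : α → ℝ) (hf : ∀ a ∈ s, 0 < f a) :
    ∃ r > 0, ∀ a ∈ s, r ≤ f a := by
  rcases s.eq_empty_or_nonempty with rfl | hs
  · exact ⟨1, one_pos, by simp⟩
  · obtain ⟨a, ha, hmin⟩ := s.exists_min_image f hs
    exact ⟨f a, hf a ha, hmin⟩

/-- Section 16 (BLOCK GR): if the rational curve `(u0, ui)` contains a flexible point `u0 c`, then
`ui 0` is flexible.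
Proof: `v = u(z²)`; `v0 z = u0 (z²)` is flexible for `z` in a small disc `ball c0 r0` around a
square root of `c` (`isOpen_flex`); `r1 > |c0| + r0`, `r2 = r1 + 1`; `exists_twoDisc` for `v`;
`CokLemma` for `G z = D_w θ(z,0)`; `exists_graftFam` at the finitely many `j ∈ J`, common constants
by `GraftFam.mono`; `solve16`; `flexAt_of_graft`. -/
theorem flexAt_propagate (hC : CokLemma E) (hS : SprayThm ℂ E X) {u0 ui : ℂ → X}
    (hu : IsPair E u0 ui) {c : ℂ} (hc : FlexAt E (u0 c)) : FlexAt E (ui 0) := by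
  classical
  obtain ⟨c0, hc0⟩ := IsAlgClosed.exists_pow_nat_eq c (n := 2) two_pos
  have hv := hu.sq
  have hcont : Continuous (fun z : ℂ => u0 (z ^ 2)) :=
    (mdifferentiableOn_univ.1 hv.hol0).continuous
  have hO : IsOpen {z : ℂ | FlexAt E (u0 (z ^ 2))} := isOpen_flex.preimage hcont
  have hmem : c0 ∈ {z : ℂ | FlexAt E (u0 (z ^ 2))} := by
    show FlexAt E (u0 (c0 ^ 2))
    rw [hc0]; exact hc
  obtain ⟨r0, hr0, hball⟩ := Metric.isOpen_iff.1 hO c0 hmem
  set r1 : ℝ := ‖c0‖ + r0 + 1 with hr1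
  have hr1p : 0 < r1 := by positivity
  set r2 : ℝ := r1 + 1 with hr2
  obtain ⟨D⟩ := exists_twoDisc E hS hv hr1p (show r1 < r2 by rw [hr2]; linarith)
  obtain ⟨J, Rr, hJc, hRr⟩ := hC D.q1 r1 r2 D.q2 D.hq1 D.hqr1 D.hr D.hqr2
    (fun z => fderiv ℂ (D.θ z) 0)
    (diffOn_fderiv_zero29 (annu D.q1 D.q2).isOpen D.hd D.θhol) D.θunit c0 r0 hr0 (by
      intro z hz
      rw [mem_closedBall, dist_eq_norm] at hz
      rw [mem_ball_zero_iff]
      calc ‖z‖ = ‖(z - c0) + c0‖ := by rw [sub_add_cancel]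
        _ ≤ ‖z - c0‖ + ‖c0‖ := norm_add_le _ _
        _ < r1 := by rw [hr1]; linarith)
  have hJn : ∀ j ∈ J, ‖j‖ < r1 := by
    intro j hj
    have h1 := hJc j hj
    rw [mem_ball, dist_eq_norm] at h1
    calc ‖j‖ = ‖(j - c0) + c0‖ := by rw [sub_add_cancel]
      _ ≤ ‖j - c0‖ + ‖c0‖ := norm_add_le _ _
      _ < r1 := by rw [hr1]; linarith
  have hex : ∀ j : ℂ, j ∈ J → ∃ (r ρ κ1 M : ℝ) (LL : ℂ → ℂ → E → E → X)
      (Ups : ℂ → ℂ → E → E → E), 0 ≤ M ∧ GraftFam D.s0 D.δ j r ρ κ1 M LL Ups := by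
    intro j hj
    have hjq : j ∈ disc D.q2 := by
      show j ∈ ball (0 : ℂ) D.q2
      rw [mem_ball_zero_iff]
      have := hJn j hj
      have := D.hr
      have := D.hqr2
      linarith
    exact exists_graftFam (hv.hol0.mono (subset_univ _)) D.spray0 D.inv0 hjq (hball (hJc j hj))
  have : Nonempty X := ⟨ui 0⟩
  choose! rr rρ rκ rM rLL rUps hM0 hfam using hex
  obtain ⟨ra, hra, hra'⟩ := exists_lb29 J rr (fun j hj => (hfam j hj).rpos)
  obtain ⟨ρ, hρ, hρ'⟩ := exists_lb29 J rρ (fun j hj => (hfam j hj).rhopos)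
  obtain ⟨κ, hκ, hκ'⟩ := exists_lb29 J rκ (fun j hj => (hfam j hj).kpos)
  obtain ⟨rb, hrb, hrb'⟩ := exists_lb29 J (fun j => r1 - ‖j‖) (fun j hj => by
    have := hJn j hj
    show 0 < r1 - ‖j‖
    linarith)
  obtain ⟨rc, hrc, hrc'⟩ := exists_lb29 J.offDiag (fun p => ‖p.1 - p.2‖ / 2) (fun p hp => by
    have h1 := (Finset.mem_offDiag.1 hp).2.2
    have : 0 < ‖p.1 - p.2‖ := norm_pos_iff.2 (sub_ne_zero.2 h1)
    show 0 < ‖p.1 - p.2‖ / 2
    linarith)
  set r : ℝ := min ra (min rb rc) with hr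
  have hrp : 0 < r := lt_min hra (lt_min hrb hrc)
  set M : ℝ := ∑ j ∈ J, rM j with hM
  have hfam' : ∀ j ∈ J, GraftFam D.s0 D.δ j r ρ κ M (rLL j) (rUps j) := by
    intro j hj
    refine (hfam j hj).mono hrp ((min_le_left _ _).trans (hra' j hj)) hρ (hρ' j hj) hκ
      (hκ' j hj) ?_
    exact Finset.single_le_sum (f := rM) (fun i hi => hM0 i hi) hj
  have hJ1 : ∀ j ∈ J, ‖j‖ + r ≤ r1 := by
    intro j hj
    have h1 : rb ≤ r1 - ‖j‖ := hrb' j hj
    have h2 : r ≤ rb := (min_le_right _ _).trans (min_le_left _ _)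
    linarith
  have hJ2 : ∀ i ∈ J, ∀ j ∈ J, i ≠ j → 2 * r ≤ ‖i - j‖ := by
    intro i hi j hj hij
    have h1 : rc ≤ ‖i - j‖ / 2 := hrc' (i, j) (Finset.mem_offDiag.2 ⟨hi, hj, hij⟩)
    have h2 : r ≤ rc := (min_le_right _ _).trans (min_le_right _ _)
    linarith
  obtain ⟨S⟩ := solve16 hr1p D J hrp hρ hκ hJ1 hJ2 hfam' Rr hRr
  exact flexAt_of_graft hu hr1p D J hrp hJ1 hJ2 hfam' S

end Pool.Agent.W_4d259d_h44
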