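import Pool.Agent.W_4d259d_h44.Sec14
import Pool.Agent.W_4d259d_h44.Sec16

/-!
# MP_4d259d_ag, section 17: every point of a rationally connected manifold is flexible
-/

noncomputable section

set_option linter.unusedSectionVars false

namespace Pool.Agent.W_4d259d_h44

open Set Filter Topology Manifold Metric MeasureTheory TopologicalSpace
open scoped ContDiff OnePoint BoundedContinuousFunction
open Pool.Agent.W_4d259d_h46.Defs Pool.Agent.W_4d259d_h46

variable {E : Type} [NormedAddCommGroup E] [NormedSpace ℂ E] [FiniteDimensional ℂ E]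
variable {X : Type} [MetricSpace X] [ChartedSpace E X]
  [IsManifold (modelWithCornersSelf ℂ E) ω X]

/-- Section 17. -/
theorem allFlex [SecondCountableTopology X] (hC : CokLemma E) (hS : SprayThm ℂ E X) : AllFlex E X := by
  intro h x
  rcases subsingleton_or_nontrivial E with hE | hE
  · exact flexAt_of_subsingleton x
  · haveI : Nonempty X := ⟨x⟩
    obtain ⟨u0, ui, hu, r1, r2, h1, D, S0, Si, hS0, hSi, hg, h0, hi⟩ := exists_free hS h
    have hy : FlexAt E (u0 0) := flexAt_of_free hu h1 D hS0 hSi hg h0 hi
    by_cases hxy : u0 0 = x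
    · rw [← hxy]; exact hy
    · obtain ⟨v0, vi, hv, hv0, hvi⟩ := exists_pair_zero_inf h hxy
      have := flexAt_propagate hC hS hv (c := 0) (by rw [hv0]; exact hy)
      rwa [hvi] at this

end Pool.Agent.W_4d259d_h44
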