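import Pool.Agent.W_4d259d_h44.ApiB

/-!
# MP_4d259d_ag, module A: more API of the spaces `HB U F` of bounded holomorphic maps
-/

noncomputable section

set_option linter.unusedSectionVars false

namespace Pool.Agent.W_4d259d_h44

open Set Filter Topology Manifold Metric TopologicalSpace
open scoped ContDiff
open Pool.Agent.W_4d259d_h46.Defs Pool.Agent.W_4d259d_h46

variable {R : Type*} [TopologicalSpace R] [ChartedSpace ℂ R]
variable {F : Type*} [NormedAddCommGroup F] [NormedSpace ℂ F]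
variable {G : Type*} [NormedAddCommGroup G] [NormedSpace ℂ G]

theorem fn_sum {U : Opens R} {ι : Type*} (s : Finset ι) (f : ι → HB U F) (z : R) :
    (∑ i ∈ s, f i).fn z = ∑ i ∈ s, (f i).fn z := by
  classical
  induction s using Finset.induction_on with
  | empty => simp [HB.fn_zero]
  | insert a s ha ih => rw [Finset.sum_insert ha, Finset.sum_insert ha, HB.fn_add, ih]

/-- A convenient constructor of continuous linear maps into `HB V G`: a map on functions which
is linear pointwise on `V`, holomorphic and bounded. -/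
theorem exists_clm {Y : Type*} [NormedAddCommGroup Y] [NormedSpace ℂ Y] {V : Opens R}
    (T : Y → R → G) (hol : ∀ y, HolOn G (T y) V)
    (hadd : ∀ y y', ∀ z ∈ V, T (y + y') z = T y z + T y' z)
    (hsmul : ∀ (c : ℂ) y, ∀ z ∈ V, T (c • y) z = c • T y z)
    (C : ℝ) (hC : 0 ≤ C) (hb : ∀ y, ∀ z ∈ V, ‖T y z‖ ≤ C * ‖y‖) :
    ∃ S : Y →L[ℂ] HB V G, ‖S‖ ≤ C ∧ ∀ y, ∀ z ∈ V, (S y).fn z = T y z := by
  have hmk : ∀ y, ∀ z ∈ V, (HB.mk (T y) (hol y) (C * ‖y‖) (hb y)).fn z = T y z :=
    fun y z hz => HB.mk_fn _ _ _ _ hz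
  let S0 : Y →ₗ[ℂ] HB V G :=
    { toFun := fun y => HB.mk (T y) (hol y) (C * ‖y‖) (hb y)
      map_add' := by
        intro y y'
        refine HB.ext' fun z hz => ?_
        rw [HB.fn_add, hmk _ z hz, hmk _ z hz, hmk _ z hz, hadd y y' z hz]
      map_smul' := by
        intro c y
        refine HB.ext' fun z hz => ?_
        rw [RingHom.id_apply, HB.fn_smul, hmk _ z hz, hmk _ z hz, hsmul c y z hz] }
  refine ⟨S0.mkContinuous C fun y => ?_, LinearMap.mkContinuous_norm_le _ hC _, fun y z hz =>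
    hmk y z hz⟩
  refine HB.norm_le_of (by positivity) fun z hz => ?_
  have h1 : (S0 y).fn z = T y z := hmk y z hz
  rw [h1]
  exact hb y z hz

/-- Evaluation at a point. -/
def evL {U : Opens R} (z : R) : HB U F →L[ℂ] F :=
  LinearMap.mkContinuous
    { toFun := fun f => f.fn z
      map_add' := fun f g => HB.fn_add f g z
      map_smul' := fun c f => HB.fn_smul c f z } 1 (fun f => by simpa using HB.fn_le f z)

theorem evL_apply {U : Opens R} (z : R) (f : HB U F) : evL z f = f.fn z := rfl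

theorem norm_evL_le {U : Opens R} (z : R) : ‖(evL z : HB U F →L[ℂ] F)‖ ≤ 1 :=
  LinearMap.mkContinuous_norm_le _ zero_le_one _

/-- Restriction to a smaller set. -/
theorem exists_res {U V : Opens R} (h : U ≤ V) :
    ∃ S : HB V F →L[ℂ] HB U F, ‖S‖ ≤ 1 ∧ ∀ f, ∀ z ∈ U, (S f).fn z = f.fn z := by
  refine exists_clm (fun (f : HB V F) => f.fn) (fun f => f.fn_hol.mono h)
    (fun f g z _ => HB.fn_add f g z) (fun c f z _ => HB.fn_smul c f z) 1 zero_le_one
    (fun f z _ => by rw [one_mul]; exact f.fn_le z)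

/-- Composition with a continuous linear map. -/
theorem exists_comp {U : Opens R} (L : F →L[ℂ] G) :
    ∃ S : HB U F →L[ℂ] HB U G, ‖S‖ ≤ ‖L‖ ∧ ∀ f, ∀ z ∈ U, (S f).fn z = L (f.fn z) := by
  refine exists_clm (fun (f : HB U F) z => L (f.fn z))
    (fun f => MDifferentiableOn.comp (mdifferentiableOn_iff_differentiableOn.2
      (L.differentiable.differentiableOn (s := univ))) f.fn_hol (fun z _ => mem_univ _))
    (fun f g z _ => ?_) (fun c f z _ => ?_) ‖L‖ (norm_nonneg _)
    (fun f z _ => (L.le_opNorm _).trans (mul_le_mul_of_nonneg_left (f.fn_le z) (norm_nonneg _)))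
  · rw [HB.fn_add, map_add]
  · rw [HB.fn_smul, map_smul]

/-- Multiplication by a bounded holomorphic operator valued map. -/
theorem exists_mulOp {U : Opens R} (M : R → F →L[ℂ] G) (hM : HolOn (F →L[ℂ] G) M U) (C : ℝ)
    (hC : 0 ≤ C) (hb : ∀ z ∈ U, ‖M z‖ ≤ C) :
    ∃ S : HB U F →L[ℂ] HB U G, ‖S‖ ≤ C ∧ ∀ f, ∀ z ∈ U, (S f).fn z = M z (f.fn z) := by
  refine exists_clm (fun (f : HB U F) z => M z (f.fn z))
    (fun f => MDifferentiableOn.clm_apply hM f.fn_hol)
    (fun f g z _ => ?_) (fun c f z _ => ?_) C hC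
    (fun f z hz => ((M z).le_opNorm _).trans
      (mul_le_mul (hb z hz) (f.fn_le z) (norm_nonneg _) hC))
  · rw [HB.fn_add, map_add]
  · rw [HB.fn_smul, map_smul]

/-- Constants. -/
theorem exists_const {U : Opens R} :
    ∃ S : F →L[ℂ] HB U F, ‖S‖ ≤ 1 ∧ ∀ c, ∀ z ∈ U, (S c).fn z = c :=
  exists_clm (fun (c : F) _ => c) (fun c => holOn_const c _) (fun _ _ _ _ => rfl)
    (fun _ _ _ _ => rfl) 1 zero_le_one (fun c _ _ => by rw [one_mul])

/-- Local equicontinuity (Cauchy estimate in a chart): near each point `z0` of the open set `U`,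
`‖f z - f z0‖ ≤ w(z) ‖f‖` with `w → 0` at `z0`, `w` independent of `f`. -/
theorem equicont [CompleteSpace F] [IsManifold (modelWithCornersSelf ℂ ℂ) ω R] {U : Opens R}
    {z0 : R} (hz : z0 ∈ U) :
    ∃ w : R → ℝ, Tendsto w (𝓝 z0) (𝓝 0) ∧ ∀ f : HB U F, ∀ z ∈ U,
      ‖f.fn z - f.fn z0‖ ≤ w z * ‖f‖ := by
  classical
  set e := chartAt ℂ z0 with he
  have hz0 : z0 ∈ e.source := mem_chart_source ℂ z0
  have hop : IsOpen (e.target ∩ e.symm ⁻¹' (U : Set R)) := e.isOpen_inter_preimage_symm U.2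
  have hmem : e z0 ∈ e.target ∩ e.symm ⁻¹' (U : Set R) :=
    ⟨e.map_source hz0, by rw [mem_preimage, e.left_inv hz0]; exact hz⟩
  obtain ⟨r, hr, hrs⟩ := Metric.isOpen_iff.1 hop _ hmem
  let w : R → ℝ := fun z => if z ∈ e.source ∧ e z ∈ ball (e z0) r then
    3 / r * dist (e z) (e z0) else 2
  have h2 : ∀ f : HB U F, ∀ z, ‖f.fn z - f.fn z0‖ ≤ 2 * ‖f‖ := by
    intro f z
    have := norm_sub_le (f.fn z) (f.fn z0)
    have h3 := f.fn_le z
    have h4 := f.fn_le z0
    linarith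
  refine ⟨w, ?_, fun f z _ => ?_⟩
  · have h3 : Tendsto (fun z => 3 / r * dist (e z) (e z0)) (𝓝 z0) (𝓝 0) := by
      have h4 : ContinuousAt (fun z => 3 / r * dist (e z) (e z0)) z0 :=
        continuousAt_const.mul ((e.continuousAt hz0).dist continuousAt_const)
      have h5 := h4.tendsto
      simpa using h5
    refine h3.congr' ?_
    have h4 : ∀ᶠ z in 𝓝 z0, e z ∈ ball (e z0) r :=
      (e.continuousAt hz0).eventually_mem (ball_mem_nhds _ hr)
    filter_upwards [e.open_source.mem_nhds hz0, h4] with z hz1 hz2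
    simp only [w]
    rw [if_pos ⟨hz1, hz2⟩]
  · by_cases hzz : z ∈ e.source ∧ e z ∈ ball (e z0) r
    · simp only [w]
      rw [if_pos hzz]
      have hg : DifferentiableOn ℂ (f.fn ∘ e.symm) (ball (e z0) r) :=
        ((holOn_iff_chart.1 f.fn_hol).2 z0).mono hrs
      rcases (norm_nonneg f).eq_or_lt with h0 | h0
      · have h3 := h2 f z
        rw [← h0, mul_zero] at h3 ⊢
        exact h3
      · have hmaps : MapsTo (f.fn ∘ e.symm) (ball (e z0) r)
            (ball ((f.fn ∘ e.symm) (e z0)) (3 * ‖f‖)) := by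
          intro ζ _
          rw [mem_ball, dist_eq_norm]
          simp only [Function.comp_apply, e.left_inv hz0]
          have := h2 f (e.symm ζ)
          linarith
        have h3 := Complex.dist_le_div_mul_dist_of_mapsTo_ball hg (hmaps.mono_right ball_subset_closedBall) hzz.2
        rw [dist_eq_norm] at h3
        simp only [Function.comp_apply, e.left_inv hz0, e.left_inv hzz.1] at h3
        calc ‖f.fn z - f.fn z0‖ ≤ 3 * ‖f‖ / r * dist (e z) (e z0) := h3
          _ = 3 / r * dist (e z) (e z0) * ‖f‖ := by ring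
    · simp only [w]
      rw [if_neg hzz]
      exact h2 f z

/-- The splitting of a good surface for maps into a finite dimensional space `F` (choose a basis;
`exists_comp` and finite sums). -/
theorem split_fin [GoodSurface R] [FiniteDimensional ℂ F] {e : OpenPartialHomeomorph R ℂ}
    (he : e ∈ DChart R) (N1 N WA : Opens R) (h2 : closure (N1 : Set R) ⊆ N)
    (h4 : closure (N : Set R) ⊆ unitOf e) (h5 : IsCompact (closure (WA : Set R))) :
    ∃ (SA : HB (WA ⊓ N) F →L[ℂ] HB WA F) (SB : HB (WA ⊓ N) F →L[ℂ] HB (N1 ⊔ (WA ⊓ N)) F),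
      ∀ y : HB (WA ⊓ N) F, ∀ z ∈ WA ⊓ N, y.fn z = (SA y).fn z - (SB y).fn z := by
  obtain ⟨SA0, SB0, h0⟩ := GoodSurface.split e he N1 N WA h2 h4 h5
  let b := Module.finBasis ℂ F
  have hL : ∀ i, ∃ S : HB (WA ⊓ N) F →L[ℂ] HB (WA ⊓ N) ℂ, ∀ f, ∀ z ∈ WA ⊓ N,
      (S f).fn z = b.coord i (f.fn z) := by
    intro i
    obtain ⟨S, -, hS⟩ := exists_comp (U := WA ⊓ N) (LinearMap.toContinuousLinearMap (b.coord i))
    exact ⟨S, hS⟩
  choose L hL using hL
  have hEA : ∀ i, ∃ S : HB WA ℂ →L[ℂ] HB WA F, ∀ f, ∀ z ∈ WA, (S f).fn z = f.fn z • b i := by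
    intro i
    obtain ⟨S, -, hS⟩ := exists_comp (U := WA) (ContinuousLinearMap.toSpanSingleton ℂ (b i))
    refine ⟨S, fun f z hz => ?_⟩
    rw [hS f z hz, ContinuousLinearMap.toSpanSingleton_apply]
  choose EA hEA using hEA
  have hEB : ∀ i, ∃ S : HB (N1 ⊔ (WA ⊓ N)) ℂ →L[ℂ] HB (N1 ⊔ (WA ⊓ N)) F, ∀ f,
      ∀ z ∈ N1 ⊔ (WA ⊓ N), (S f).fn z = f.fn z • b i := by
    intro i
    obtain ⟨S, -, hS⟩ := exists_comp (U := N1 ⊔ (WA ⊓ N))
      (ContinuousLinearMap.toSpanSingleton ℂ (b i))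
    refine ⟨S, fun f z hz => ?_⟩
    rw [hS f z hz, ContinuousLinearMap.toSpanSingleton_apply]
  choose EB hEB using hEB
  refine ⟨∑ i, (EA i).comp (SA0.comp (L i)), ∑ i, (EB i).comp (SB0.comp (L i)),
    fun y z hz => ?_⟩
  have hzA : z ∈ WA := hz.1
  have hzB : z ∈ N1 ⊔ (WA ⊓ N) := Or.inr hz
  rw [ContinuousLinearMap.sum_apply, ContinuousLinearMap.sum_apply, fn_sum, fn_sum,
    ← Finset.sum_sub_distrib]
  simp only [ContinuousLinearMap.comp_apply]
  conv_lhs => rw [← b.sum_repr (y.fn z)]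
  refine Finset.sum_congr rfl fun i _ => ?_
  rw [hEA i _ z hzA, hEB i _ z hzB, ← sub_smul, ← h0 (L i y) z hz, hL i y z hz]
  rfl

/-- A holomorphic function vanishing at `l` is `O` of the coordinate. -/
theorem isBigO_of_zero [IsManifold (modelWithCornersSelf ℂ ℂ) ω R] {W : Set R} (hW : IsOpen W)
    {l : R} (hl : l ∈ W) {q : R → ℂ} (hq : HolOn ℂ q W) (h0 : q l = 0) :
    q =O[𝓝 l] fun z => ‖extChartAt (modelWithCornersSelf ℂ ℂ) l z
      - extChartAt (modelWithCornersSelf ℂ ℂ) l l‖ := by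
  set e := chartAt ℂ l with he
  have hls : l ∈ e.source := mem_chart_source ℂ l
  have hop : IsOpen (e.target ∩ e.symm ⁻¹' W) := e.isOpen_inter_preimage_symm hW
  have hmem : e l ∈ e.target ∩ e.symm ⁻¹' W :=
    ⟨e.map_source hls, by rw [mem_preimage, e.left_inv hls]; exact hl⟩
  have hd : DifferentiableAt ℂ (q ∘ e.symm) (e l) :=
    (((holOn_iff_chart.1 hq).2 l) _ hmem).differentiableAt (hop.mem_nhds hmem)
  have h1 := hd.hasFDerivAt.isBigO_sub
  have h2 : Tendsto e (𝓝 l) (𝓝 (e l)) := e.continuousAt hls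
  have h3 := h1.comp_tendsto h2
  have h4 : (fun z => (q ∘ e.symm) (e z) - (q ∘ e.symm) (e l)) =ᶠ[𝓝 l] q := by
    filter_upwards [e.open_source.mem_nhds hls] with z hz
    simp only [Function.comp_apply, e.left_inv hz, e.left_inv hls, h0, sub_zero]
  have h5 : q =O[𝓝 l] fun z => e z - e l := (h3.congr' h4 (Eventually.of_forall fun z => rfl))
  simpa using h5.norm_right

/-- The splitting with vanishing to order `k` at the points of a finite set `Λ` which does not
meet `closure N` (jets version): `y = SA y - SB y` on `O` and `(SA y) = q • (bounded holomorphic)`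
where `q` vanishes at the points of `Λ` to order `> k`.  Proof: `q` = product of the `(q_l)^(k+1)`,
`q_l` from `GoodSurface.zero` for the compact set `closure WA ∪ closure N ∪ Λ`;
`SA' y = q • SA (q⁻¹ • y)`. -/
theorem split_jets [IsManifold (modelWithCornersSelf ℂ ℂ) ω R] [GoodSurface R]
    [FiniteDimensional ℂ F] {e : OpenPartialHomeomorph R ℂ}
    (he : e ∈ DChart R) (N1 N WA : Opens R) (h2 : closure (N1 : Set R) ⊆ N)
    (h4 : closure (N : Set R) ⊆ unitOf e) (h5 : IsCompact (closure (WA : Set R))) {Λ : Set R} (hΛ : Λ.Finite)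
    (hΛN : Disjoint Λ (closure (N : Set R))) (k : ℕ) :
    ∃ (SA : HB (WA ⊓ N) F →L[ℂ] HB WA F) (SB : HB (WA ⊓ N) F →L[ℂ] HB (N1 ⊔ (WA ⊓ N)) F),
      (∀ y : HB (WA ⊓ N) F, ∀ z ∈ WA ⊓ N, y.fn z = (SA y).fn z - (SB y).fn z) ∧
      ∀ l ∈ Λ, l ∈ WA → ∀ y : HB (WA ⊓ N) F, (fun z => (SA y).fn z) =O[𝓝 l]
        fun z => ‖extChartAt (modelWithCornersSelf ℂ ℂ) l z
          - extChartAt (modelWithCornersSelf ℂ ℂ) l l‖ ^ (k + 1) := by
  classical
  obtain ⟨SA0, SB0, h0⟩ := split_fin (F := F) he N1 N WA h2 h4 h5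
  have hNc : IsCompact (closure (N : Set R)) := by
    have h6 : IsCompact (e.symm '' closedBall (0 : ℂ) 1) :=
      (isCompact_closedBall _ _).image_of_continuousOn
        (e.continuousOn_symm.mono ((closedBall_subset_closedBall (by norm_num)).trans he.2))
    exact h6.of_isClosed_subset isClosed_closure
      (h4.trans (image_mono ball_subset_closedBall))
  set K : Set R := closure (WA : Set R) ∪ closure (N : Set R) ∪ Λ with hK
  have hKc : IsCompact K := (h5.union hNc).union hΛ.isCompact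
  have hq : ∀ l : Λ, ∃ W : Opens R, K ⊆ W ∧ ∃ q : R → ℂ,
      HolOn ℂ q W ∧ (∀ z ∈ W, q z = 0 → z = l) ∧ SimpleZero q (l : R) :=
    fun l => GoodSurface.zero K hKc l (Or.inr l.2)
  choose W hKW q hqhol hq0 hqs using hq
  haveI : Fintype Λ := hΛ.fintype
  -- the product
  set Q : R → ℂ := fun z => ∏ l : Λ, (q l z) ^ (k + 1) with hQdef
  set V : Set R := ⋂ l : Λ, (W l : Set R) with hV
  have hVo : IsOpen V := isOpen_iInter_of_finite fun l => (W l).2
  have hKV : K ⊆ V := subset_iInter fun l => hKW l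
  have hQhol : HolOn ℂ Q V := by
    refine holOn_prod _ fun l _ => ?_
    have h6 : HolOn ℂ (q l) V := (hqhol l).mono (iInter_subset _ l)
    have h7 : DifferentiableOn ℂ (fun w : ℂ => w ^ (k + 1)) univ :=
      (differentiable_pow (k + 1)).differentiableOn
    exact holOn_comp h7 h6 (fun _ _ => mem_univ _)
  have hQK : ContinuousOn Q K := hQhol.continuousOn.mono hKV
  obtain ⟨C, hC⟩ := hKc.exists_bound_of_continuousOn hQK
  have hQne : ∀ z ∈ closure (N : Set R), Q z ≠ 0 := by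
    intro z hz hQz
    rw [hQdef] at hQz
    simp only [Finset.prod_eq_zero_iff, Finset.mem_univ, true_and] at hQz
    obtain ⟨l, hl⟩ := hQz
    have h6 : q l z = 0 := by
      by_contra hne
      exact pow_ne_zero _ hne hl
    have h7 : z = l := hq0 l z (hKW l (Or.inl (Or.inr hz))) h6
    exact Set.disjoint_left.1 hΛN l.2 (h7 ▸ hz)
  have hQi : ContinuousOn (fun z => (Q z)⁻¹) (closure (N : Set R)) :=
    (hQK.mono (fun z hz => Or.inl (Or.inr hz))).inv₀ hQne
  obtain ⟨C', hC'⟩ := hNc.exists_bound_of_continuousOn hQi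
  have hCp : 0 ≤ max C 0 := le_max_right _ _
  have hCp' : 0 ≤ max C' 0 := le_max_right _ _
  -- multiplication operators
  have hmul : ∀ (U : Opens R), (U : Set R) ⊆ K → ∃ S : HB U F →L[ℂ] HB U F,
      ∀ f, ∀ z ∈ U, (S f).fn z = Q z • f.fn z := by
    intro U hU
    obtain ⟨S, -, hS⟩ := exists_mulOp (U := U) (F := F) (G := F)
      (fun z => Q z • ContinuousLinearMap.id ℂ F)
      (holOn_smul (hQhol.mono (hU.trans hKV)) (holOn_const _ _)) (max C 0) hCp (fun z hz => by
        refine ((norm_smul_le (Q z) (ContinuousLinearMap.id ℂ F)).trans ?_)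
        refine (mul_le_mul (hC z (hU hz)) ContinuousLinearMap.norm_id_le (norm_nonneg _)
          ((norm_nonneg _).trans (hC z (hU hz)))).trans ?_
        rw [mul_one]
        exact le_max_left _ _)
    refine ⟨S, fun f z hz => ?_⟩
    rw [hS f z hz]
    rfl
  have hWAK : (WA : Set R) ⊆ K := fun z hz => Or.inl (Or.inl (subset_closure hz))
  have hNK : (N : Set R) ⊆ K := fun z hz => Or.inl (Or.inr (subset_closure hz))
  have hWBK : ((N1 ⊔ (WA ⊓ N) : Opens R) : Set R) ⊆ K := by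
    rintro z (hz | hz)
    · exact Or.inl (Or.inr (subset_closure (h2 (subset_closure hz))))
    · exact hNK hz.2
  obtain ⟨MA, hMA⟩ := hmul WA hWAK
  obtain ⟨MB, hMB⟩ := hmul (N1 ⊔ (WA ⊓ N)) hWBK
  have hOcl : ∀ z ∈ WA ⊓ N, z ∈ closure (N : Set R) := fun z hz => subset_closure hz.2
  obtain ⟨D, -, hD⟩ := exists_mulOp (U := WA ⊓ N) (F := F) (G := F)
    (fun z => (Q z)⁻¹ • ContinuousLinearMap.id ℂ F)
    (holOn_smul (holOn_inv (hQhol.mono fun z hz => hKV (hNK hz.2))
      fun z hz => hQne z (hOcl z hz)) (holOn_const _ _)) (max C' 0) hCp' (fun z hz => by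
        refine ((norm_smul_le (Q z)⁻¹ (ContinuousLinearMap.id ℂ F)).trans ?_)
        refine (mul_le_mul (hC' z (hOcl z hz)) ContinuousLinearMap.norm_id_le (norm_nonneg _)
          ((norm_nonneg _).trans (hC' z (hOcl z hz)))).trans ?_
        rw [mul_one]
        exact le_max_left _ _)
  refine ⟨MA.comp (SA0.comp D), MB.comp (SB0.comp D), fun y z hz => ?_, fun l hl hlA y => ?_⟩
  · simp only [ContinuousLinearMap.comp_apply]
    rw [hMA _ z hz.1, hMB _ z (Or.inr hz), ← smul_sub, ← h0 (D y) z hz, hD y z hz]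
    show y.fn z = Q z • (Q z)⁻¹ • y.fn z
    rw [smul_smul, mul_inv_cancel₀ (hQne z (hOcl z hz)), one_smul]
  · simp only [ContinuousLinearMap.comp_apply]
    set g := SA0 (D y) with hg
    have h6 : (fun z => (MA g).fn z) =ᶠ[𝓝 l] fun z => Q z • g.fn z := by
      filter_upwards [WA.2.mem_nhds hlA] with z hz
      exact hMA g z hz
    refine h6.trans_isBigO ?_
    -- the product is `O (‖.‖ ^ (k+1))`
    have hlV : l ∈ V := hKV (Or.inr hl)
    have h7 : Q =O[𝓝 l] fun z => ‖extChartAt (modelWithCornersSelf ℂ ℂ) l z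
        - extChartAt (modelWithCornersSelf ℂ ℂ) l l‖ ^ (k + 1) := by
      have h8 : Q = fun z => (q ⟨l, hl⟩ z) ^ (k + 1) *
          ∏ l' ∈ Finset.univ.erase (⟨l, hl⟩ : Λ), (q l' z) ^ (k + 1) := by
        funext z
        rw [hQdef]
        exact (Finset.mul_prod_erase Finset.univ (fun l' : Λ => (q l' z) ^ (k + 1))
          (Finset.mem_univ _)).symm
      have h9 : (fun z => (q ⟨l, hl⟩ z) ^ (k + 1)) =O[𝓝 l]
          fun z => ‖extChartAt (modelWithCornersSelf ℂ ℂ) l z
            - extChartAt (modelWithCornersSelf ℂ ℂ) l l‖ ^ (k + 1) :=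
        (isBigO_of_zero (W ⟨l, hl⟩).2 (hKW ⟨l, hl⟩ (Or.inr hl)) (hqhol ⟨l, hl⟩)
          (hqs ⟨l, hl⟩).1).pow (k + 1)
      have h10 : (fun z => ∏ l' ∈ Finset.univ.erase (⟨l, hl⟩ : Λ), (q l' z) ^ (k + 1))
          =O[𝓝 l] fun _ => (1 : ℝ) := by
        have h11 : ContinuousAt
            (fun z => ∏ l' ∈ Finset.univ.erase (⟨l, hl⟩ : Λ), (q l' z) ^ (k + 1)) l := by
          refine tendsto_finsetProd _ fun l' _ => ?_
          exact (((hqhol l').continuousOn.continuousAt
            ((W l').2.mem_nhds (hKW l' (Or.inr hl)))).pow (k + 1))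
        exact h11.tendsto.isBigO_one ℝ
      rw [h8]
      simpa using h9.mul h10
    have h12 : (fun z => g.fn z) =O[𝓝 l] fun _ => (1 : ℝ) :=
      Asymptotics.IsBigO.of_bound ‖g‖ (Eventually.of_forall fun z => by simpa using g.fn_le z)
    simpa using h7.smul h12

end Pool.Agent.W_4d259d_h44
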