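import Pool.Agent.W_4d259d_h46.HB

/-!
# MP_4d259d_ag: base definitions for the proof

Charts, good surfaces, sprays, flexible points, closed coordinate discs.
The spaces `HB U F` of bounded holomorphic maps are in `Pool.Agent.W_4d259d_h46.HB`.
-/

noncomputable section

set_option linter.unusedSectionVars false

namespace Pool.Agent.W_4d259d_h44

open Set Filter Topology Manifold Metric MeasureTheory TopologicalSpace
open scoped ContDiff OnePoint BoundedContinuousFunction
open Pool.Agent.W_4d259d_h46.Defs Pool.Agent.W_4d259d_h46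

/-- The charts of `R` (all charts of the maximal holomorphic atlas). -/
def RChart (R : Type*) [TopologicalSpace R] [ChartedSpace ℂ R] :
    Set (OpenPartialHomeomorph R ℂ) :=
  IsManifold.maximalAtlas (modelWithCornersSelf ℂ ℂ) ω R

/-- The charts of `X` (all charts of the maximal holomorphic atlas). -/
def XChart (E : Type*) [NormedAddCommGroup E] [NormedSpace ℂ E]
    (X : Type*) [TopologicalSpace X] [ChartedSpace E X] : Set (OpenPartialHomeomorph X E) :=
  IsManifold.maximalAtlas (modelWithCornersSelf ℂ E) ω X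

variable {R : Type*} [TopologicalSpace R] [ChartedSpace ℂ R]
variable {E : Type*} [NormedAddCommGroup E] [NormedSpace ℂ E]
variable {F : Type*} [NormedAddCommGroup F] [NormedSpace ℂ F]
variable {X : Type*} [TopologicalSpace X] [ChartedSpace E X]

/-! ### Holomorphic maps in two variables -/

/-- `s` is holomorphic on `U × V ⊆ R × E'`, with values in the manifold `X` modelled on `E`. -/
def HolOn2 {E' : Type*} [NormedAddCommGroup E'] [NormedSpace ℂ E']
    (E : Type*) [NormedAddCommGroup E] [NormedSpace ℂ E]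
    {X : Type*} [TopologicalSpace X] [ChartedSpace E X] (s : R → E' → X)
    (U : Set R) (V : Set E') : Prop :=
  MDifferentiableOn ((modelWithCornersSelf ℂ ℂ).prod (modelWithCornersSelf ℂ E'))
    (modelWithCornersSelf ℂ E) (fun q : R × E' => s q.1 q.2) (U ×ˢ V)

/-! ### Good surfaces -/

/-- `q` has a simple zero at `p` (derivative nonzero in every chart). -/
def SimpleZero (q : R → ℂ) (p : R) : Prop :=
  q p = 0 ∧ ∀ e ∈ RChart R, p ∈ e.source → deriv (fun ζ => q (e.symm ζ)) (e p) ≠ 0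

/-- The disc charts: charts of the maximal atlas whose target contains the closed disc of
radius `3`. -/
def DChart (R : Type*) [TopologicalSpace R] [ChartedSpace ℂ R] :
    Set (OpenPartialHomeomorph R ℂ) :=
  {e | e ∈ RChart R ∧ closedBall (0 : ℂ) 3 ⊆ e.target}

/-- The part of `R` over the open unit disc of a disc chart. -/
def unitOf (e : OpenPartialHomeomorph R ℂ) : Set R := e.symm '' ball (0 : ℂ) 1

/-- The part of `R` over the closed disc of radius `1/2` of a disc chart. -/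
def halfOf (e : OpenPartialHomeomorph R ℂ) : Set R := e.symm '' closedBall (0 : ℂ) (1 / 2)

/-- `R` is good: bounded additive splittings over bumps `N1 ⊂⊂ N ⊂⊂ unitOf e`, and functions with
exactly one zero, which is simple. -/
class GoodSurface (R : Type*) [TopologicalSpace R] [ChartedSpace ℂ R] : Prop where
  split : ∀ e ∈ DChart R, ∀ N1 N WA : Opens R,
    closure (N1 : Set R) ⊆ N → closure (N : Set R) ⊆ unitOf e → IsCompact (closure (WA : Set R)) →
    ∃ (SA : HB (WA ⊓ N) ℂ →L[ℂ] HB WA ℂ) (SB : HB (WA ⊓ N) ℂ →L[ℂ] HB (N1 ⊔ (WA ⊓ N)) ℂ),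
      ∀ y : HB (WA ⊓ N) ℂ, ∀ z ∈ WA ⊓ N, y.fn z = (SA y).fn z - (SB y).fn z
  zero : ∀ K : Set R, IsCompact K → ∀ p ∈ K, ∃ W : Opens R, K ⊆ W ∧ ∃ q : R → ℂ,
    HolOn ℂ q W ∧ (∀ z ∈ W, q z = 0 → z = p) ∧ SimpleZero q p

/-! ### Sprays -/

/-- `s` is a spray over the open set `W ⊆ R` along `f : W → X`, of radius `δ`: holomorphic on
`W × B(0,δ)`, `s(z,0) = f(z)`, and `∂_w s(z,0)` is invertible. -/
structure IsSpray (W : Opens R) (f : R → X) (δ : ℝ) (s : R → E → X) : Prop where
  pos : 0 < δ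
  hol : HolOn2 E s W (ball (0 : E) δ)
  zero : ∀ z ∈ W, s z 0 = f z
  inv : ∀ z ∈ W, ∃ φ ∈ XChart E X, f z ∈ φ.source ∧ IsUnit (fderiv ℂ (fun w => φ (s z w)) 0)

/-! ### Flexible points -/

/-- The data of flexibility in the chart `φ` near the point `x` of `E`: rational curves
`η ↦ Lam η p a` (`η ∈ ℂ ∪ {∞}`) with value `p` and first jet `a` (both in the chart `φ`) at
`η = ∞`, holomorphic in all variables, `|p - x| < δ`, `|a| < δ`. -/
structure FlexData (φ : OpenPartialHomeomorph X E) (x : E) (δ ρ M : ℝ)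
    (Lam : ℂ → E → E → X) (Psi : ℂ → E → E → E) : Prop where
  dpos : 0 < δ
  rpos : 0 < ρ
  hol : MDifferentiableOn (modelWithCornersSelf ℂ (ℂ × E × E)) (modelWithCornersSelf ℂ E)
    (fun q : ℂ × E × E => Lam q.1 q.2.1 q.2.2) (univ ×ˢ (ball x δ ×ˢ ball 0 δ))
  holPsi : DifferentiableOn ℂ (fun q : ℂ × E × E => Psi q.1 q.2.1 q.2.2)
    (ball 0 ρ ×ˢ (ball x δ ×ˢ ball 0 δ))
  bound : ∀ ζ ∈ ball (0 : ℂ) ρ, ∀ p ∈ ball x δ, ∀ a ∈ ball (0 : E) δ, ‖Psi ζ p a‖ ≤ M
  eq : ∀ ζ ∈ ball (0 : ℂ) ρ, ζ ≠ 0 → ∀ p ∈ ball x δ, ∀ a ∈ ball (0 : E) δ,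
    Lam ζ⁻¹ p a ∈ φ.source ∧ φ (Lam ζ⁻¹ p a) = p + ζ • a + ζ ^ 2 • Psi ζ p a

/-- The point `x` of `X` is flexible. -/
def FlexAt (E : Type*) [NormedAddCommGroup E] [NormedSpace ℂ E]
    {X : Type*} [TopologicalSpace X] [ChartedSpace E X] (x : X) : Prop :=
  ∃ φ ∈ XChart E X, x ∈ φ.source ∧ ∃ (δ ρ M : ℝ) (Lam : ℂ → E → E → X) (Psi : ℂ → E → E → E),
    FlexData φ (φ x) δ ρ M Lam Psi

/-! ### Closed coordinate discs, null sets -/

/-- `B` is a closed coordinate disc. -/
def IsCDisc (B : Set R) : Prop :=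
  ∃ e ∈ RChart R, ∃ (c : ℂ) (r : ℝ), 0 < r ∧ closedBall c r ⊆ e.target ∧
    B = e.symm '' closedBall c r

/-- `S` has measure zero in every chart. -/
def NullSet (S : Set R) : Prop := ∀ e ∈ RChart R, volume (e '' (S ∩ e.source)) = 0

/-- A finite family of pairwise disjoint closed coordinate discs. -/
def DiscFam (s : Set (Set R)) : Prop :=
  s.Finite ∧ (∀ D ∈ s, IsCDisc D) ∧ s.PairwiseDisjoint id

end Pool.Agent.W_4d259d_h44
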