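import Pool.Agent.W_4d259d_h46.Defs

/-!
# MP_4d259d_ag: the notion of Oka-1 manifold used in the final statement
-/

noncomputable section

namespace Pool.Agent.W_4d259d_h44

open Set Filter Topology Manifold
open scoped ContDiff
open Pool.Agent.W_4d259d_h46.Defs

/-- `X` (modelled on `E`, with its metric) is Oka-1.  Source: an open Riemann surface `R` (connected,
Hausdorff, second countable, noncompact complex manifold of dimension one); `K` compact Runge; a
closed discrete family of points `a i` in `R` over any index type `ι` (every compact set contains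
`a i` for finitely many `i` only; `ι = ℕ` for sequences, `ι` finite or empty allowed) with orders
`k i`; a continuous `f : R → X` which is holomorphic on an open set containing `K` and all `a i`;
`ε > 0`.  There is a holomorphic `F : R → X`, homotopic to `f`, with `d(F,f) < ε` on `K`, which
agrees with `f` to order `k i` at every `a i`. -/
def IsOkaOneMan (E : Type*) [NormedAddCommGroup E] [NormedSpace ℂ E]
    (X : Type*) [MetricSpace X] [ChartedSpace E X] : Prop :=
  ∀ (R : Type) [TopologicalSpace R] [T2Space R] [ConnectedSpace R] [NoncompactSpace R]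
    [SecondCountableTopology R] [ChartedSpace ℂ R] [IsManifold (modelWithCornersSelf ℂ ℂ) ω R]
    (K : Set R), IsCompact K → IsRunge K →
    ∀ (ι : Type) (a : ι → R), Tendsto a cofinite (cocompact R) → ∀ k : ι → ℕ,
    ∀ (f : C(R, X)) (U : Set R), IsOpen U → K ⊆ U → (∀ i, a i ∈ U) → HolOn E f U →
    ∀ ε : ℝ, 0 < ε →
      ∃ F : C(R, X), HolOn E F univ ∧ F.Homotopic f ∧ (∀ p ∈ K, dist (F p) (f p) < ε) ∧
        ∀ i, JetEq E (k i) F f (a i)

/-- The version with sequences follows. -/
theorem IsOkaOneMan.isOkaOne {E : Type*} [NormedAddCommGroup E] [NormedSpace ℂ E]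
    {X : Type*} [MetricSpace X] [ChartedSpace E X] (h : IsOkaOneMan E X) : IsOkaOne E X := by
  intro R _ _ _ _ _ _ _ K hK hKR a ha k f U hU hKU haU hf ε hε
  exact h R K hK hKR ℕ a ha k f U hU hKU haU hf ε hε

end Pool.Agent.W_4d259d_h44
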