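import Pool.Agent.W_4d259d_h80.Blend

/-!
# MP_4d259d_ag, BLOCK HO (section 19): filling the holes
-/

noncomputable section

set_option linter.unusedSectionVars false

namespace Pool.Agent.W_4d259d_h44

open Set Filter Topology Manifold Metric TopologicalSpace
open scoped ContDiff unitInterval
open Pool.Agent.W_4d259d_h46.Defs Pool.Agent.W_4d259d_h46

variable {R : Type} [TopologicalSpace R] [T2Space R] [ChartedSpace ℂ R]
  [IsManifold (modelWithCornersSelf ℂ ℂ) ω R]

variable {E : Type} [NormedAddCommGroup E] [NormedSpace ℂ E] [FiniteDimensional ℂ E]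
variable {X : Type} [MetricSpace X] [ChartedSpace E X] [IsManifold (modelWithCornersSelf ℂ E) ω X]

/-- Uniform charts over a compact subset of `X`. -/
theorem uniform_chart {C : Set X} (hC : IsCompact C) {ε : ℝ} (hε : 0 < ε) :
    ∃ ε1 > 0, ∀ x ∈ C, ∃ (φ : OpenPartialHomeomorph X E) (δ : ℝ), 0 < δ ∧
      ball (φ x) δ ⊆ φ.target ∧ (∀ p ∈ ball (φ x) δ, dist (φ.symm p) x < ε) ∧
      ball x ε1 ⊆ φ.source ∧ ∀ y ∈ ball x ε1, φ y ∈ ball (φ x) δ := by
  have : ProperSpace E := FiniteDimensional.proper ℂ E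
  have : LocallyCompactSpace X := ChartedSpace.locallyCompactSpace E X
  refine hC.induction_on (p := fun S : Set X => ∃ ε1 > 0, ∀ x ∈ S,
    ∃ (φ : OpenPartialHomeomorph X E) (δ : ℝ), 0 < δ ∧
      ball (φ x) δ ⊆ φ.target ∧ (∀ p ∈ ball (φ x) δ, dist (φ.symm p) x < ε) ∧
      ball x ε1 ⊆ φ.source ∧ ∀ y ∈ ball x ε1, φ y ∈ ball (φ x) δ) ?_ ?_ ?_ ?_
  · exact ⟨1, one_pos, fun x hx => absurd hx (notMem_empty x)⟩
  · rintro S T hST ⟨ε1, hε1, h⟩
    exact ⟨ε1, hε1, fun x hx => h x (hST hx)⟩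
  · rintro S T ⟨ε1, hε1, h1⟩ ⟨ε2, hε2, h2⟩
    refine ⟨min ε1 ε2, lt_min hε1 hε2, ?_⟩
    rintro x (hx | hx)
    · obtain ⟨φ, δ, hδ, ha, hb, hc, hd⟩ := h1 x hx
      exact ⟨φ, δ, hδ, ha, hb, (ball_subset_ball (min_le_left _ _)).trans hc,
        fun y hy => hd y (ball_subset_ball (min_le_left _ _) hy)⟩
    · obtain ⟨φ, δ, hδ, ha, hb, hc, hd⟩ := h2 x hx
      exact ⟨φ, δ, hδ, ha, hb, (ball_subset_ball (min_le_right _ _)).trans hc,
        fun y hy => hd y (ball_subset_ball (min_le_right _ _) hy)⟩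
  · intro x _
    obtain ⟨N, hN, hNs, hNc⟩ := LocallyCompactSpace.local_compact_nhds x (chartAt E x).source
      ((chartAt E x).open_source.mem_nhds (mem_chart_source E x))
    obtain ⟨δ, hδ, ε1, hε1, h1, h2⟩ := Pool.Agent.W_4d259d_h80.chart_control hNc hNs hε
    refine ⟨N, mem_nhdsWithin_of_mem_nhds hN, ε1, hε1, fun y hy => ?_⟩
    exact ⟨chartAt E x, δ, hδ, fun p hp => (h1 y hy p hp).1, fun p hp => (h1 y hy p hp).2,
      fun w hw => (h2 y hy w hw).1, fun w hw => (h2 y hy w hw).2⟩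

/-- FILL ONE DISC.  `g` maps the boundary circle of the closed disc `D` into a small coordinate ball;
then `g` can be changed on `D` only, with values on `D` in the image of the coordinate ball:
`g' z = φ.symm ((1 - |u|/r) φ x + (|u|/r) φ (g (e.symm (c + r u/|u|))))`, `u = e z - c`. -/
theorem fill_disc (g : C(R, X)) {e : OpenPartialHomeomorph R ℂ} (he : e ∈ RChart R) {c : ℂ}
    {r : ℝ} (hr : 0 < r) (hsub : closedBall c r ⊆ e.target) {φ : OpenPartialHomeomorph X E}
    {x : X} {δ : ℝ} (hδ : 0 < δ) (hxs : x ∈ φ.source) (hb : ball (φ x) δ ⊆ φ.target)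
    (hg : ∀ ζ ∈ sphere c r, g (e.symm ζ) ∈ φ.source ∧ φ (g (e.symm ζ)) ∈ ball (φ x) δ) :
    ∃ g' : C(R, X), (∀ z ∉ e.symm '' closedBall c r, g' z = g z) ∧
      ∀ z ∈ e.symm '' closedBall c r, ∃ p ∈ ball (φ x) δ, g' z = φ.symm p := by
  classical
  have hcont : ContinuousOn (fun ζ => φ (g (e.symm ζ)) - φ x) (sphere c r) := by
    intro ζ hζ
    have hζt : ζ ∈ e.target := hsub (sphere_subset_closedBall hζ)
    have h1 : ContinuousAt e.symm ζ := e.continuousAt_symm hζt
    have h2 : ContinuousAt (fun ζ => g (e.symm ζ)) ζ :=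
      ContinuousAt.comp (g := g) g.continuous.continuousAt h1
    have h3 : ContinuousAt (fun ζ => φ (g (e.symm ζ))) ζ :=
      ContinuousAt.comp (g := φ) (f := fun ζ => g (e.symm ζ)) (φ.continuousAt (hg ζ hζ).1) h2
    exact (h3.sub continuousAt_const).continuousWithinAt
  let h : C(↥(sphere c r), E) := ⟨fun ζ => φ (g (e.symm ζ)) - φ x,
    continuousOn_iff_continuous_domRestrict.1 hcont⟩
  have hT : TietzeExtension.{0, 0} ↥(ball (0 : E) δ) :=
    Metric.instTietzeExtensionBall (𝕜 := ℂ) hδ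
  obtain ⟨k, hk, hkr⟩ := h.exists_forall_mem_restrict_eq (t := ball (0 : E) δ)
    (isClosed_sphere (x := c) (ε := r)) (fun ζ => by
      have h1 := (hg ζ ζ.2).2
      rw [mem_ball, dist_eq_norm] at h1
      exact mem_ball_zero_iff.2 h1)
  have hkS : ∀ ζ ∈ sphere c r, k ζ = φ (g (e.symm ζ)) - φ x := by
    intro ζ hζ
    exact congrArg (fun q : C(↥(sphere c r), E) => q ⟨ζ, hζ⟩) hkr
  have hpb : ∀ ζ : ℂ, φ x + k ζ ∈ ball (φ x) δ := by
    intro ζ
    have h1 := mem_ball_zero_iff.1 (hk ζ)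
    rw [mem_ball, dist_eq_norm, add_sub_cancel_left]
    exact h1
  have hDc : IsCompact (e.symm '' closedBall c r) :=
    (isCompact_closedBall c r).image_of_continuousOn (e.symm.continuousOn.mono hsub)
  have hOo : IsOpen (e.symm '' ball c r) :=
    e.symm.isOpen_image_of_subset_source isOpen_ball (ball_subset_closedBall.trans hsub)
  let g0 : R → X := fun z => if z ∈ e.symm '' closedBall c r then φ.symm (φ x + k (e z)) else g z
  have hin : ∀ z ∈ e.symm '' closedBall c r, g0 z = φ.symm (φ x + k (e z)) := fun z hz => if_pos hz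
  have hoff : ∀ z ∉ e.symm '' closedBall c r, g0 z = g z := fun z hz => if_neg hz
  have hoff2 : ∀ z ∈ (e.symm '' ball c r)ᶜ, g0 z = g z := by
    intro z hz
    by_cases hzD : z ∈ e.symm '' closedBall c r
    · rw [hin z hzD]
      obtain ⟨ζ, hζ, rfl⟩ := hzD
      have hζs : ζ ∈ sphere c r := by
        rw [mem_sphere]
        refine le_antisymm (mem_closedBall.1 hζ) ?_
        by_contra hcon
        exact hz (mem_image_of_mem _ (mem_ball.2 (not_le.1 hcon)))
      rw [e.right_inv (hsub hζ), hkS ζ hζs, add_sub_cancel, φ.left_inv (hg ζ hζs).1]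
    · exact hoff z hzD
  have hc1 : ContinuousOn g0 (e.symm '' closedBall c r) := by
    refine ContinuousOn.congr ?_ hin
    intro z hz
    have hzs : z ∈ e.source := by
      obtain ⟨ζ, hζ, rfl⟩ := hz
      exact e.map_target (hsub hζ)
    have h1 : ContinuousAt (fun z => φ x + k (e z)) z :=
      continuousAt_const.add (ContinuousAt.comp (g := k) k.continuous.continuousAt
        (e.continuousAt hzs))
    exact (ContinuousAt.comp (g := φ.symm) (f := fun z => φ x + k (e z))
      (φ.continuousAt_symm (hb (hpb _))) h1).continuousWithinAt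
  have hc2 : ContinuousOn g0 (e.symm '' ball c r)ᶜ :=
    ContinuousOn.congr g.continuous.continuousOn hoff2
  have hcont0 : Continuous g0 := by
    rw [← continuousOn_univ]
    have h1 := hc1.union_of_isClosed hc2 hDc.isClosed hOo.isClosed_compl
    refine h1.mono ?_
    intro z _
    by_cases hz : z ∈ e.symm '' ball c r
    · exact Or.inl (image_mono ball_subset_closedBall hz)
    · exact Or.inr hz
  refine ⟨⟨g0, hcont0⟩, hoff, fun z hz => ⟨φ x + k (e z), hpb _, hin z hz⟩⟩

/-- Points of the boundary circle are limits of points off the disc. -/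
theorem ho7_sphere_mem {e : OpenPartialHomeomorph R ℂ} {c : ℂ} {r : ℝ} (hr : 0 < r)
    (hsub : closedBall c r ⊆ e.target) {ζ : ℂ} (hζ : ζ ∈ sphere c r) :
    e.symm ζ ∈ closure (e.symm '' closedBall c r)ᶜ := by
  have hζt : ζ ∈ e.target := hsub (sphere_subset_closedBall hζ)
  rw [closure_compl, mem_compl_iff]
  intro hcon
  have h1 : ∀ᶠ w in 𝓝 ζ, w ∈ closedBall c r := by
    have h2 : ∀ᶠ w in 𝓝 ζ, e.symm w ∈ interior (e.symm '' closedBall c r) :=
      (e.continuousAt_symm hζt).eventually (isOpen_interior.mem_nhds hcon)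
    filter_upwards [h2, e.open_target.mem_nhds hζt] with w hw hwt
    obtain ⟨w', hw', hww⟩ := interior_subset hw
    have : w' = w := e.symm.injOn (hsub hw') hwt hww
    rw [← this]
    exact hw'
  have h3 : ζ ∈ interior (closedBall c r) := mem_interior_iff_mem_nhds.2 h1
  rw [interior_closedBall c hr.ne'] at h3
  rw [mem_ball, mem_sphere.1 hζ] at h3
  exact lt_irrefl _ h3

include E in
/-- FILL ALL HOLES: for every `ε` there is `ε1` such that a map `g` which is `ε1`-close to `f` off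
small closed discs contained in the compact set `C` can be changed on the discs only to a map which
is `ε`-close to `f` everywhere. -/
theorem fill_holes (f : C(R, X)) {C : Set R} (hC : IsCompact C) {ε : ℝ} (hε : 0 < ε) :
    ∃ ε1 > 0, ∀ (g : C(R, X)) (s : Set (Set R)), DiscFam s →
      (∀ D ∈ s, D ⊆ C ∧ ∀ z ∈ D, ∀ z' ∈ D, dist (f z) (f z') < ε1) →
      (∀ z ∉ ⋃₀ s, dist (g z) (f z) < ε1) →
      ∃ f' : C(R, X), (∀ z ∉ ⋃₀ s, f' z = g z) ∧ ∀ z, dist (f' z) (f z) < ε := by
  obtain ⟨ε2, hε2, huc⟩ := uniform_chart (E := E) (hC.image f.continuous) (half_pos hε)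
  have hε1 : 0 < min (ε2 / 2) (ε / 2) := lt_min (half_pos hε2) (half_pos hε)
  refine ⟨min (ε2 / 2) (ε / 2), hε1, ?_⟩
  set ε1 := min (ε2 / 2) (ε / 2) with hε1def
  -- the induction
  have key : ∀ s : Set (Set R), s.Finite → (∀ D ∈ s, IsCDisc D) → s.PairwiseDisjoint id →
      (∀ D ∈ s, D ⊆ C ∧ ∀ z ∈ D, ∀ z' ∈ D, dist (f z) (f z') < ε1) → ∀ g : C(R, X),
      (∀ D ∈ s, ∀ z ∈ D, z ∈ closure Dᶜ → dist (g z) (f z) ≤ ε1) →
      ∃ f' : C(R, X), (∀ z ∉ ⋃₀ s, f' z = g z) ∧ ∀ z ∈ ⋃₀ s, dist (f' z) (f z) < ε := by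
    intro s hs
    induction s, hs using Set.Finite.induction_on with
    | empty =>
      intro _ _ _ g _
      exact ⟨g, fun _ _ => rfl, fun z hz => by simp at hz⟩
    | @insert D s hDs hsf ih =>
      intro hcd hpd hosc g hbd
      obtain ⟨e, he, c, r, hr, hsub, hD⟩ := hcd D (mem_insert _ _)
      obtain ⟨hDC, hDosc⟩ := hosc D (mem_insert _ _)
      have hz0 : e.symm c ∈ D := by
        rw [hD]
        exact mem_image_of_mem _ (mem_closedBall_self hr.le)
      obtain ⟨φ, δ, hδ, hb1, hb2, hb3, hb4⟩ := huc (f (e.symm c)) (mem_image_of_mem _ (hDC hz0))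
      have hxs : f (e.symm c) ∈ φ.source := hb3 (mem_ball_self hε2)
      obtain ⟨g1, hg1, hg1D⟩ := fill_disc g he hr hsub hδ hxs hb1 (by
        intro ζ hζ
        have hζD : e.symm ζ ∈ D := by
          rw [hD]
          exact mem_image_of_mem _ (sphere_subset_closedBall hζ)
        have h1 := hbd D (mem_insert _ _) _ hζD (by
          rw [hD]
          exact ho7_sphere_mem hr hsub hζ)
        have h2 := hDosc _ hζD _ hz0
        have h3 : dist (g (e.symm ζ)) (f (e.symm c)) < ε2 := by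
          calc dist (g (e.symm ζ)) (f (e.symm c)) ≤ dist (g (e.symm ζ)) (f (e.symm ζ)) +
                dist (f (e.symm ζ)) (f (e.symm c)) := dist_triangle _ _ _
            _ < ε1 + ε1 := add_lt_add_of_le_of_lt h1 h2
            _ ≤ ε2 := by
              have := min_le_left (ε2 / 2) (ε / 2)
              linarith
        exact ⟨hb3 h3, hb4 _ h3⟩)
      rw [← hD] at hg1 hg1D
      have hdisj : ∀ D' ∈ s, Disjoint D D' := fun D' hD' =>
        hpd (mem_insert _ _) (mem_insert_of_mem _ hD') (by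
          rintro rfl
          exact hDs hD')
      obtain ⟨f', hf'1, hf'2⟩ := ih (fun D' hD' => hcd D' (mem_insert_of_mem _ hD'))
        (hpd.subset (subset_insert _ _)) (fun D' hD' => hosc D' (mem_insert_of_mem _ hD')) g1 (by
          intro D' hD' z hz hzc
          rw [hg1 z fun h => disjoint_left.1 (hdisj D' hD') h hz]
          exact hbd D' (mem_insert_of_mem _ hD') z hz hzc)
      refine ⟨f', ?_, ?_⟩
      · intro z hz
        rw [sUnion_insert, mem_union, not_or] at hz
        rw [hf'1 z hz.2, hg1 z hz.1]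
      · intro z hz
        by_cases hzs : z ∈ ⋃₀ s
        · exact hf'2 z hzs
        · rw [sUnion_insert] at hz
          have hzD : z ∈ D := hz.resolve_right hzs
          rw [hf'1 z hzs]
          obtain ⟨p, hp, hgp⟩ := hg1D z hzD
          rw [hgp]
          calc dist (φ.symm p) (f z) ≤ dist (φ.symm p) (f (e.symm c)) +
                dist (f (e.symm c)) (f z) := dist_triangle _ _ _
            _ < ε / 2 + ε1 := add_lt_add (hb2 p hp) (hDosc _ hz0 _ hzD)
            _ ≤ ε := by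
              have := min_le_right (ε2 / 2) (ε / 2)
              linarith
  intro g s hs hsC hgf
  have hclosed : ∀ D ∈ s, IsClosed D := by
    intro D hD
    obtain ⟨e, he, c, r, hr, hsub, rfl⟩ := hs.2.1 D hD
    exact ((isCompact_closedBall c r).image_of_continuousOn
      (e.symm.continuousOn.mono hsub)).isClosed
  obtain ⟨f', h1, h2⟩ := key s hs.1 hs.2.1 hs.2.2 hsC g (by
    intro D hD z hz hzc
    have hT : IsClosed (⋃₀ (s \ {D})) := by
      rw [sUnion_eq_biUnion]
      exact (hs.1.subset sdiff_subset).isClosed_biUnion fun D' hD' => hclosed D' hD'.1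
    have hzT : z ∈ (⋃₀ (s \ {D}))ᶜ := by
      rintro ⟨D', hD', hzD'⟩
      have hne : D ≠ D' := fun h => hD'.2 h.symm
      exact disjoint_left.1 (hs.2.2 hD hD'.1 hne) hz hzD'
    have h3 : z ∈ closure ((⋃₀ (s \ {D}))ᶜ ∩ Dᶜ) := hT.isOpen_compl.inter_closure ⟨hzT, hzc⟩
    have h4 : (⋃₀ (s \ {D}))ᶜ ∩ Dᶜ ⊆ {w | dist (g w) (f w) ≤ ε1} := by
      rintro w ⟨hw1, hw2⟩
      refine (hgf w ?_).le
      rintro ⟨D', hD', hwD'⟩
      by_cases hDD : D' = D
      · exact hw2 (hDD ▸ hwD')
      · exact hw1 ⟨D', ⟨hD', hDD⟩, hwD'⟩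
    have h5 : IsClosed {w | dist (g w) (f w) ≤ ε1} :=
      isClosed_le (g.continuous.dist f.continuous) continuous_const
    exact closure_minimal h4 h5 h3)
  refine ⟨f', h1, fun z => ?_⟩
  by_cases hz : z ∈ ⋃₀ s
  · exact h2 z hz
  · rw [h1 z hz]
    refine (hgf z hz).trans_le ?_
    have := min_le_right (ε2 / 2) (ε / 2)
    linarith

end Pool.Agent.W_4d259d_h44
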