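import Pool.Agent.W_4d259d_h80.Blend

/-!
# MP_4d259d_ag, BLOCK HO (section 19): close maps are homotopic by small homotopies
-/

noncomputable section

set_option linter.unusedSectionVars false

namespace Pool.Agent.W_4d259d_h44

open Set Filter Topology Manifold Metric TopologicalSpace
open scoped ContDiff unitInterval
open Pool.Agent.W_4d259d_h46.Defs Pool.Agent.W_4d259d_h46

variable {R : Type} [TopologicalSpace R] [T2Space R] [ChartedSpace ℂ R]
  [IsManifold (modelWithCornersSelf ℂ ℂ) ω R]

variable {E : Type} [NormedAddCommGroup E] [NormedSpace ℂ E] [FiniteDimensional ℂ E]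
variable {X : Type} [MetricSpace X] [ChartedSpace E X] [IsManifold (modelWithCornersSelf ℂ E) ω X]

variable (E) in
include E in
/-- Induction step data: a patch of the source on which `f` is chart valued. -/
theorem exists_patch (f : C(R, X)) (x : R) : ∃ (O P : Set R), IsOpen O ∧ IsCompact (closure O) ∧
    (∀ z ∈ closure O, f z ∈ (chartAt E (f x)).source) ∧ IsCompact P ∧ P ⊆ O ∧ P ∈ 𝓝 x := by
  haveI : LocallyCompactSpace R := ChartedSpace.locallyCompactSpace ℂ R
  have hV : IsOpen (f ⁻¹' (chartAt E (f x)).source) :=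
    (chartAt E (f x)).open_source.preimage f.continuous
  obtain ⟨K, hK, hxK, hKV⟩ := exists_compact_subset hV (mem_chart_source E (f x))
  obtain ⟨P, hP, hxP, hPK⟩ := exists_compact_subset (isOpen_interior (s := K)) hxK
  have hcl : closure (interior K) ⊆ K := closure_minimal interior_subset hK.isClosed
  exact ⟨interior K, P, isOpen_interior, hK.of_isClosed_subset isClosed_closure hcl,
    fun z hz => hKV (hcl hz), hP, hPK, mem_interior_iff_mem_nhds.1 hxP⟩

variable (E) in
include E in
/-- CLOSE MAPS: `f`, `C` compact; for every `ε` there is `ε1` such that every map `f'` which is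
`ε1`-close to `f` and equal to `f` off `C` is homotopic to `f` by a homotopy `ε`-close to `f`.
Proof: finitely many patches `P_a ⊆ O_a` (compact, open, relatively compact, `f` chart valued on
`closure O_a`) with `C ⊆ ⋃ P_a`, fixed; `blend` for `a = 1, 2, ...` with `V = univ`, `F' = f'`. -/
theorem close_homotopic (f : C(R, X)) {C : Set R} (hC : IsCompact C) {ε : ℝ} (hε : 0 < ε) :
    ∃ ε1 > 0, ∀ f' : C(R, X), (∀ z, dist (f' z) (f z) < ε1) → (∀ z ∉ C, f' z = f z) →
      ∃ H : ContinuousMap.Homotopy f f', ∀ t z, dist (H (t, z)) (f z) < ε := by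
  classical
  haveI : LocallyCompactSpace R := ChartedSpace.locallyCompactSpace ℂ R
  choose O P hO hOc hφ hP hPO hPn using fun x => exists_patch E f x
  obtain ⟨t, -, htC⟩ := hC.elim_nhds_subcover P (fun x _ => hPn x)
  have key : ∀ t : Finset R, ∀ ε : ℝ, 0 < ε → ∃ ε1 > 0, ∀ G f' : C(R, X),
      (∀ z, dist (G z) (f z) < ε1) → (∀ z, dist (f' z) (f z) < ε1) →
      ∃ (G' : C(R, X)) (H : ContinuousMap.Homotopy G G'), (∀ t z, dist (H (t, z)) (f z) < ε) ∧
        (∀ x ∈ t, ∀ z ∈ P x, G' z = f' z) ∧ ∀ z, G z = f' z → G' z = f' z := by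
    intro t
    induction t using Finset.induction_on with
    | empty =>
      intro ε hε
      refine ⟨ε, hε, fun G f' hG _ => ⟨G, ContinuousMap.Homotopy.refl G, fun _ z => hG z, ?_,
        fun _ h => h⟩⟩
      intro x hx
      exact absurd hx (Finset.notMem_empty x)
    | insert a t _ ih =>
      intro ε hε
      obtain ⟨ε1, hε1, hb⟩ := Pool.Agent.W_4d259d_h80.blend f (hO a) (hOc a) (hφ a) hε
      obtain ⟨ε2, hε2, hi⟩ := ih (min ε ε1) (lt_min hε hε1)
      refine ⟨min ε1 ε2, lt_min hε1 hε2, ?_⟩
      intro G f' hG hf'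
      obtain ⟨G1, H1, hH1, hP1, hE1⟩ := hi G f' (fun z => (hG z).trans_le (min_le_right _ _))
        (fun z => (hf' z).trans_le (min_le_right _ _))
      have hG1 : ∀ z, dist (G1 z) (f z) < min ε ε1 := by
        intro z
        have := hH1 1 z
        rwa [ContinuousMap.Homotopy.apply_one] at this
      obtain ⟨G2, H2, Q, P', hQ, hQO, hQc, hH2, hP'o, hP', -, hG2, hE2⟩ := hb G1
        (fun z _ => (hG1 z).trans_le (min_le_right _ _)) univ isOpen_univ f'
        f'.continuous.continuousOn (fun z _ => (hf' z).trans_le (min_le_left _ _)) (P a) (hP a)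
        (by rw [inter_univ]; exact hPO a)
      have hH2' : ∀ t z, dist (H2 (t, z)) (f z) < ε := by
        intro t z
        by_cases hz : z ∈ O a
        · exact hH2 t z hz
        · rw [hQc z (fun h => hz (hQO h).1) t]
          exact (hG1 z).trans_le (min_le_left _ _)
      refine ⟨G2, H1.trans H2, ?_, ?_, ?_⟩
      · intro t z
        rw [ContinuousMap.Homotopy.trans_apply]
        split_ifs with ht
        · exact (hH1 _ z).trans_le (min_le_left _ _)
        · exact hH2' _ z
      · intro x hx z hz
        rcases Finset.mem_insert.1 hx with rfl | hx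
        · exact hG2 z (hP' hz)
        · exact hE2 z (mem_univ z) (hP1 x hx z hz)
      · intro z hz
        exact hE2 z (mem_univ z) (hE1 z hz)
  obtain ⟨ε1, hε1, hk⟩ := key t ε hε
  refine ⟨ε1, hε1, fun f' hf' hoff => ?_⟩
  obtain ⟨G', H, hH, hPt, hE⟩ := hk f f' (fun z => by rw [dist_self]; exact hε1) hf'
  have hG' : G' = f' := by
    ext z
    by_cases hz : z ∈ C
    · obtain ⟨x, hx, hzx⟩ := mem_iUnion₂.1 (htC hz)
      exact hPt x hx z hzx
    · exact hE z (hoff z hz).symm
  subst hG'
  exact ⟨H, hH⟩

end Pool.Agent.W_4d259d_h44
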