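import Pool.Agent.W_4d259d_h44.Ho6
import Pool.Agent.W_4d259d_h44.Ho7
import Pool.Agent.W_4d259d_h44.Ho8

/-!
# MP_4d259d_ag, BLOCK HO (section 19): the small homotopy theorem
-/

noncomputable section

set_option linter.unusedSectionVars false

namespace Pool.Agent.W_4d259d_h44

open Set Filter Topology Manifold Metric TopologicalSpace
open scoped ContDiff unitInterval
open Pool.Agent.W_4d259d_h46.Defs Pool.Agent.W_4d259d_h46

variable {R : Type} [TopologicalSpace R] [T2Space R] [ConnectedSpace R] [NoncompactSpace R]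
  [SecondCountableTopology R] [ChartedSpace ℂ R] [IsManifold (modelWithCornersSelf ℂ ℂ) ω R]




/-- SMALL HOMOTOPY THEOREM: `fill_holes`, `close_homotopic` (`f ~ f'`), `homotopy_of_eq_off`
(`f' ~ g`, constant on `K`); concatenate. -/
theorem smallHom (E : Type) [NormedAddCommGroup E] [NormedSpace ℂ E] [FiniteDimensional ℂ E]
    (X : Type) [MetricSpace X] [ChartedSpace E X] [IsManifold (modelWithCornersSelf ℂ E) ω X] :
    SmallHom R X := by
  intro f K C hK hR hC ε hε
  obtain ⟨ε', hε', hclose⟩ := close_homotopic (E := E) f hC hε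
  obtain ⟨ε1, hε1, hfill⟩ := fill_holes (E := E) f hC (lt_min hε' hε)
  refine ⟨ε1, hε1, fun g s hgC hs hD hoff => ?_⟩
  obtain ⟨f', hf'1, hf'2⟩ := hfill g s hs (fun D hDs => ⟨(hD D hDs).1, (hD D hDs).2.2⟩) hoff
  obtain ⟨H1, hH1⟩ := hclose f' (fun z => (hf'2 z).trans_le (min_le_left _ _)) (by
    intro z hz
    have h1 : z ∉ ⋃₀ s := by
      rintro ⟨D, hDs, hzD⟩
      exact hz ((hD D hDs).1 hzD)
    rw [hf'1 z h1, hgC z hz])
  obtain ⟨H2, hH2⟩ := homotopy_of_eq_off hK hR hs (fun D hDs => (hD D hDs).2.1) f' g hf'1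
  refine ⟨H1.trans H2, fun t z hz => ?_⟩
  rw [ContinuousMap.Homotopy.trans_apply]
  split_ifs with h
  · exact hH1 _ _
  · rw [hH2 _ z hz]
    exact (hf'2 z).trans_le (min_le_right _ _)

end Pool.Agent.W_4d259d_h44
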