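import Pool.Agent.W_4d259d_h41.SpThm
import Pool.Agent.W_4d259d_h44.AllFlexP
import Pool.Agent.W_4d259d_h53.Cok2
import Pool.Agent.W_4d259d_h80.Fin
import Pool.Agent.W_4d259d_h86.Main
import Pool.Agent.W_4d259d_h46.PlGood

/-!
# MP_4d259d_ag: assembly from the outputs of the blocks
-/

noncomputable section

namespace Pool.Agent.W_4d259d_h44

open Set Filter Topology Manifold Metric MeasureTheory TopologicalSpace
open scoped ContDiff OnePoint BoundedContinuousFunction
open Pool.Agent.W_4d259d_h46.Defs Pool.Agent.W_4d259d_h46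

theorem cokLemma (E : Type) [NormedAddCommGroup E] [NormedSpace ℂ E] [FiniteDimensional ℂ E] :
    CokLemma E := by
  intro q1 r1 r2 q2 h1 h2 h3 h4 G hG hu c0 r0 hr0 hsub
  obtain ⟨J, hJ, Rr, hRr⟩ := Pool.Agent.W_4d259d_h53.cok (g := G)
    ⟨h1, h2, h3, h4, hG, hu⟩ (Dl := ball c0 r0) isOpen_ball ⟨c0, mem_ball_self hr0⟩
    (ball_subset_closedBall.trans hsub)
  exact ⟨J, Rr, fun j hj => hJ hj, hRr⟩

/-- Section 17 with all inputs discharged. -/
theorem allFlex' (E : Type) [NormedAddCommGroup E] [NormedSpace ℂ E] [FiniteDimensional ℂ E]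
    (X : Type) [MetricSpace X] [SecondCountableTopology X] [ChartedSpace E X]
    [IsManifold (modelWithCornersSelf ℂ E) ω X] (h : RatConn E X) (x : X) : FlexAt E x :=
  allFlex (cokLemma E) (Pool.Agent.W_4d259d_h41.spray_thm ℂ E X) h x

/-- The bump theorem for a good surface and a rationally connected target. -/
theorem bump' (R : Type) [TopologicalSpace R] [T2Space R] [ChartedSpace ℂ R]
    [IsManifold (modelWithCornersSelf ℂ ℂ) ω R] [GoodSurface R]
    (E : Type) [NormedAddCommGroup E] [NormedSpace ℂ E] [FiniteDimensional ℂ E]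
    (X : Type) [MetricSpace X] [SecondCountableTopology X] [ChartedSpace E X]
    [IsManifold (modelWithCornersSelf ℂ E) ω X] (h : RatConn E X) : BumpThm R E X :=
  Pool.Agent.W_4d259d_h86.bump_thm (Pool.Agent.W_4d259d_h41.trans_thm R E X) flexUnif
    (allFlex' E X h)

/-- MILESTONE 1: Oka-1 for the source `ℂ`. -/
theorem okaOneOn_plane (E : Type) [NormedAddCommGroup E] [NormedSpace ℂ E]
    [FiniteDimensional ℂ E] (X : Type) [MetricSpace X] [CompleteSpace X]
    [SecondCountableTopology X] [ConnectedSpace X] [ChartedSpace E X]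
    [IsManifold (modelWithCornersSelf ℂ E) ω X] (h : RatConn E X) : OkaOneOn ℂ E X := by
  letI : NormedSpace ℝ E := NormedSpace.restrictScalars ℝ ℂ E
  have hE : LocallyPathConnectedSpace E := LocallyConvexSpace.toLocallyPathConnectedSpace E
  have hX : LocallyPathConnectedSpace X := ChartedSpace.locallyPathConnectedSpace E X
  have hP : PathConnectedSpace X := pathConnectedSpace_iff_connectedSpace.mpr inferInstance
  exact Pool.Agent.W_4d259d_h80.okaOneOn_plane E X (bump' ℂ E X h)

/-- MILESTONE 2, the general source, from the outputs of the blocks G18 and HO. -/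
theorem okaOneOn_general (R : Type) [TopologicalSpace R] [T2Space R] [SecondCountableTopology R]
    [ChartedSpace ℂ R] [IsManifold (modelWithCornersSelf ℂ ℂ) ω R] [GoodSurface R]
    (E : Type) [NormedAddCommGroup E] [NormedSpace ℂ E] [FiniteDimensional ℂ E]
    (X : Type) [MetricSpace X] [CompleteSpace X] [SecondCountableTopology X]
    [ChartedSpace E X] [IsManifold (modelWithCornersSelf ℂ E) ω X] (h : RatConn E X)
    (hS : SmallHom R X) (hR : RungeExh R) : OkaOneOn R E X :=
  Pool.Agent.W_4d259d_h80.okaOneOn_of R E X (bump' R E X h) hS hR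

/-- The final target from the three remaining block outputs. -/
theorem target_of (hG : AllGood)
    (hS : ∀ (R : Type) [TopologicalSpace R] [T2Space R] [ConnectedSpace R] [NoncompactSpace R]
      [SecondCountableTopology R] [ChartedSpace ℂ R]
      [IsManifold (modelWithCornersSelf ℂ ℂ) ω R] (E : Type) [NormedAddCommGroup E]
      [NormedSpace ℂ E] [FiniteDimensional ℂ E] (X : Type) [MetricSpace X]
      [ChartedSpace E X] [IsManifold (modelWithCornersSelf ℂ E) ω X], SmallHom R X)
    (hR : ∀ (R : Type) [TopologicalSpace R] [T2Space R] [ConnectedSpace R] [NoncompactSpace R]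
      [SecondCountableTopology R] [ChartedSpace ℂ R]
      [IsManifold (modelWithCornersSelf ℂ ℂ) ω R], RungeExh R) : Target := by
  intro E _ _ _ X _ _ _ _ _ _ h R _ _ _ _ _ _ _
  have : GoodSurface R := hG R
  exact okaOneOn_general R E X h (hS R E X) (hR R)

end Pool.Agent.W_4d259d_h44
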