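import Pool.Agent.W_4d259d_h44.FinDefs
import Pool.Agent.W_4d259d_h44.MainC
import Pool.Agent.W_4d259d_h44.Ho9
import Pool.Agent.W_4d259d_h6.All18

/-!
# MP_4d259d_ag: final assembly, every open Riemann surface
-/

noncomputable section

set_option linter.unusedSectionVars false

namespace Pool.Agent.W_4d259d_h44

open Set Filter Topology Manifold Metric MeasureTheory TopologicalSpace
open scoped ContDiff
open Pool.Agent.W_4d259d_h46.Defs Pool.Agent.W_4d259d_h46 Pool.Agent.W_4d259d_h80

theorem range_finite' {R : Type*} [TopologicalSpace R] {ι : Type*} {a : ι → R}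
    (ha : Tendsto a cofinite (cocompact R)) (k : ι → ℕ) :
    (∀ L : Set R, IsCompact L → (range a ∩ L).Finite) ∧
      ∃ kk : R → ℕ, ∀ i, k i ≤ kk (a i) := by
  have h1 : ∀ L : Set R, IsCompact L → (a ⁻¹' L).Finite := fun L hL =>
    (tendsto_cofinite_cocompact_iff.mp ha) L hL
  refine ⟨fun L hL => ?_, fun l => sSup (k '' (a ⁻¹' {l})), fun i => ?_⟩
  · refine ((h1 L hL).image a).subset ?_
    rintro _ ⟨⟨i, rfl⟩, hi⟩
    exact mem_image_of_mem a hi
  · exact le_csSup ((h1 {a i} isCompact_singleton).image k).bddAbove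
      (mem_image_of_mem k (mem_preimage.2 (mem_singleton _)))

variable (R : Type) [TopologicalSpace R] [T2Space R] [SecondCountableTopology R] [ChartedSpace ℂ R]
  [IsManifold (modelWithCornersSelf ℂ ℂ) ω R]
variable (E : Type) [NormedAddCommGroup E] [NormedSpace ℂ E] [FiniteDimensional ℂ E]
variable (X : Type) [MetricSpace X] [CompleteSpace X] [ChartedSpace E X]
  [IsManifold (modelWithCornersSelf ℂ E) ω X]

/-- Oka-1 data can be solved on `R`, with homotopy; interpolation points over any index type. -/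
theorem oka_of (hB : BumpThm R E X) (hS : SmallHom R X) (hR : RungeExh R) (K : Set R)
    (hK : IsCompact K) (hKR : IsRunge K) {ι : Type} (a : ι → R)
    (ha : Tendsto a cofinite (cocompact R)) (k : ι → ℕ) (f : C(R, X)) (U : Set R)
    (hU : IsOpen U) (hKU : K ⊆ U) (haU : ∀ i, a i ∈ U) (hf : HolOn E f U) (ε : ℝ)
    (hε : 0 < ε) :
    ∃ F : C(R, X), HolOn E F univ ∧ F.Homotopic f ∧ (∀ p ∈ K, dist (F p) (f p) < ε) ∧
      ∀ i, JetEq E (k i) F f (a i) := by
  have hExt := extThm_of R E X hB
  obtain ⟨hΛ, kk, hkk⟩ := range_finite' ha k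
  obtain ⟨L, hL0, hLc, hLR, hLi, hLu⟩ := hR K hK hKR
  obtain ⟨g, V, hg0, hLV, hgV, hjet, hd, hQ⟩ := exists_seq hExt f ⟨U, hU⟩ hf L hLc
    (fun j => (hLi j).trans interior_subset) (Λ := range a)
    (by
      rw [hL0]
      refine union_subset hKU ?_
      rintro _ ⟨i, rfl⟩
      exact haU i)
    hΛ kk hε
    (fun j g g' => ∃ H : ContinuousMap.Homotopy g g',
      ∀ t, ∀ z ∈ L j, dist (H (t, z)) (g z) < ε / 2 ^ (j + 2))
    (fun j g C hC => hS g (L j) C (hLc j) (hLR j) hC _ (by positivity))
  obtain ⟨F, hFd, hFl⟩ := exists_limit hLi hLu hε g hd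
  obtain ⟨hFh, hFj⟩ := limit_hol (E := E) hLi hLu g V (fun j => subset_union_left.trans (hLV j))
    hgV hFl
  refine ⟨F, hFh, ?_, ?_, ?_⟩
  · rw [← hg0]
    exact homotopic_limit hLi hLu hε g hQ F hFd
  · intro p hp
    have h1 := hFd 0 p (by rw [hL0]; exact hp)
    rw [hg0] at h1
    refine h1.trans_lt ?_
    rw [zero_add, pow_one]
    linarith
  · intro i
    have h1 := hFj (a i) (kk (a i)) fun j => hjet j _ ⟨i, rfl⟩
    rw [hg0] at h1
    exact jetEq_mono (hkk i) h1

/-- THE MAIN THEOREM: every connected complex manifold with a complete metric in which any two points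
lie on one rational curve is Oka-1. -/
theorem isOkaOneMan_of_ratConn (E : Type) [NormedAddCommGroup E] [NormedSpace ℂ E]
    [FiniteDimensional ℂ E] (X : Type) [MetricSpace X] [CompleteSpace X]
    [SecondCountableTopology X] [ChartedSpace E X] [IsManifold (modelWithCornersSelf ℂ E) ω X]
    (h : RatConn E X) : IsOkaOneMan E X := by
  intro R _ _ _ _ _ _ _ K hK hKR ι a ha k f U hU hKU haU hf ε hε
  have : GoodSurface R := Pool.Agent.W_4d259d_h6.allGood R
  exact oka_of R E X (bump' R E X h) (smallHom E X) rungeExh K hK hKR a ha k f U hU hKU haU hf ε hε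

end Pool.Agent.W_4d259d_h44
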