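import Pool.Agent.W_4d259d_h44.FlexA

/-!
# MP_4d259d_ag, BLOCK FL: flexible points, file B (openness, uniform constants)
-/

noncomputable section

set_option linter.unusedSectionVars false

namespace Pool.Agent.W_4d259d_h44

open Set Filter Topology Manifold Metric MeasureTheory TopologicalSpace
open scoped ContDiff OnePoint BoundedContinuousFunction
open Pool.Agent.W_4d259d_h46.Defs Pool.Agent.W_4d259d_h46

variable {E : Type*} [NormedAddCommGroup E] [NormedSpace ℂ E] [FiniteDimensional ℂ E]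
variable {X : Type*} [TopologicalSpace X] [ChartedSpace E X]
  [IsManifold (modelWithCornersSelf ℂ E) ω X]

/-- The base point may be moved. -/
theorem FlexData.shift {φ : OpenPartialHomeomorph X E} {x x' : E} {δ ρ M : ℝ}
    {Lam : ℂ → E → E → X} {Psi : ℂ → E → E → E} (h : FlexData φ x δ ρ M Lam Psi)
    (hx : ‖x' - x‖ < δ / 2) : FlexData φ x' (δ / 2) ρ M Lam Psi := by
  have h1 : ball x' (δ / 2) ⊆ ball x δ := by
    refine ball_subset_ball' ?_
    rw [dist_eq_norm]
    linarith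
  have h2 : ball (0 : E) (δ / 2) ⊆ ball 0 δ := ball_subset_ball (by linarith [h.dpos])
  exact
    { dpos := by linarith [h.dpos]
      rpos := h.rpos
      hol := h.hol.mono (prod_mono_right (prod_mono h1 h2))
      holPsi := h.holPsi.mono (prod_mono_right (prod_mono h1 h2))
      bound := fun ζ hζ p hp a ha => h.bound ζ hζ p (h1 hp) a (h2 ha)
      eq := fun ζ hζ h0 p hp a ha => h.eq ζ hζ h0 p (h1 hp) a (h2 ha) }

/-- Smaller constants. -/
theorem FlexData.mono {φ : OpenPartialHomeomorph X E} {x : E} {δ ρ M δ' ρ' M' : ℝ}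
    {Lam : ℂ → E → E → X} {Psi : ℂ → E → E → E} (h : FlexData φ x δ ρ M Lam Psi)
    (hδ : δ' ≤ δ) (hδ0 : 0 < δ') (hρ : ρ' ≤ ρ) (hρ0 : 0 < ρ') (hM : M ≤ M') :
    FlexData φ x δ' ρ' M' Lam Psi := by
  have h1 : ball x δ' ⊆ ball x δ := ball_subset_ball hδ
  have h2 : ball (0 : E) δ' ⊆ ball 0 δ := ball_subset_ball hδ
  have h3 : ball (0 : ℂ) ρ' ⊆ ball 0 ρ := ball_subset_ball hρ
  exact
    { dpos := hδ0
      rpos := hρ0
      hol := h.hol.mono (prod_mono_right (prod_mono h1 h2))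
      holPsi := h.holPsi.mono (prod_mono h3 (prod_mono h1 h2))
      bound := fun ζ hζ p hp a ha => (h.bound ζ (h3 hζ) p (h1 hp) a (h2 ha)).trans hM
      eq := fun ζ hζ h0 p hp a ha => h.eq ζ (h3 hζ) h0 p (h1 hp) a (h2 ha) }

/-- The set of flexible points is open. -/
theorem isOpen_flex : IsOpen {x : X | FlexAt E x} := by
  rw [isOpen_iff_mem_nhds]
  rintro x ⟨φ, hφ, hx, δ, ρ, M, Lam, Psi, h⟩
  have h1 : φ.source ∈ 𝓝 x := φ.open_source.mem_nhds hx
  have h2 : φ ⁻¹' ball (φ x) (δ / 2) ∈ 𝓝 x :=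
    (φ.continuousAt hx).preimage_mem_nhds (ball_mem_nhds _ (by linarith [h.dpos]))
  filter_upwards [h1, h2] with y hy1 hy2
  refine ⟨φ, hφ, hy1, δ / 2, ρ, M, Lam, Psi, h.shift ?_⟩
  rw [← dist_eq_norm]
  exact hy2

/-- In dimension zero every point is flexible. -/
theorem flexAt_of_subsingleton [Subsingleton E] (x : X) : FlexAt E x := by
  refine ⟨chartAt E x, IsManifold.chart_mem_maximalAtlas x, mem_chart_source E x, 1, 1, 0,
    fun _ _ _ => x, fun _ _ _ => 0, ?_⟩
  exact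
    { dpos := one_pos
      rpos := one_pos
      hol := mdifferentiableOn_const
      holPsi := differentiableOn_const 0
      bound := fun ζ _ p _ a _ => by simp
      eq := fun ζ _ _ p _ a _ => ⟨mem_chart_source E x, Subsingleton.elim _ _⟩ }

end Pool.Agent.W_4d259d_h44

namespace Pool.Agent.W_4d259d_h44

open Set Filter Topology Manifold Metric MeasureTheory TopologicalSpace
open scoped ContDiff OnePoint BoundedContinuousFunction
open Pool.Agent.W_4d259d_h46.Defs Pool.Agent.W_4d259d_h46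

variable {E : Type} [NormedAddCommGroup E] [NormedSpace ℂ E] [FiniteDimensional ℂ E]
variable {X : Type} [MetricSpace X] [ChartedSpace E X]
  [IsManifold (modelWithCornersSelf ℂ E) ω X]

/-- Uniform constants over compact sets. -/
theorem flexUnif : FlexUnif E X := by
  intro φ hφ C hC hCt hflex
  refine hC.induction_on (p := fun s : Set E => ∃ (δ ρ M : ℝ), 0 < δ ∧ 0 < ρ ∧ 0 ≤ M ∧ ∀ c ∈ s,
    ∃ (Lam : ℂ → E → E → X) (Psi : ℂ → E → E → E), FlexData φ c δ ρ M Lam Psi) ?_ ?_ ?_ ?_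
  · exact ⟨1, 1, 0, one_pos, one_pos, le_refl 0, fun c hc => absurd hc (notMem_empty c)⟩
  · rintro s t hst ⟨δ, ρ, M, hδ, hρ, hM, h⟩
    exact ⟨δ, ρ, M, hδ, hρ, hM, fun c hc => h c (hst hc)⟩
  · rintro s t ⟨δ, ρ, M, hδ, hρ, hM, h⟩ ⟨δ', ρ', M', hδ', hρ', hM', h'⟩
    refine ⟨min δ δ', min ρ ρ', max M M', lt_min hδ hδ', lt_min hρ hρ', le_max_of_le_left hM, ?_⟩
    rintro c (hc | hc)
    · obtain ⟨Lam, Psi, hd⟩ := h c hc
      exact ⟨Lam, Psi, hd.mono (min_le_left _ _) (lt_min hδ hδ') (min_le_left _ _)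
        (lt_min hρ hρ') (le_max_left _ _)⟩
    · obtain ⟨Lam, Psi, hd⟩ := h' c hc
      exact ⟨Lam, Psi, hd.mono (min_le_right _ _) (lt_min hδ hδ') (min_le_right _ _)
        (lt_min hρ hρ') (le_max_right _ _)⟩
  · intro c hc
    have hct : c ∈ φ.target := hCt hc
    obtain ⟨δ, ρ, M, Lam, Psi, h⟩ := flexAt_chart (hflex c hc) hφ (φ.map_target hct)
    rw [φ.right_inv hct] at h
    refine ⟨ball c (δ / 2), mem_nhdsWithin_of_mem_nhds (ball_mem_nhds _ (by linarith [h.dpos])),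
      δ / 2, ρ, max M 0, by linarith [h.dpos], h.rpos, le_max_right _ _, fun c' hc' => ?_⟩
    refine ⟨Lam, Psi, ?_⟩
    have h1 : FlexData φ c' (δ / 2) ρ M Lam Psi := h.shift (by rw [← dist_eq_norm]; exact hc')
    exact h1.mono (le_refl _) h1.dpos (le_refl _) h1.rpos (le_max_left _ _)

end Pool.Agent.W_4d259d_h44
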