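import Pool.Agent.W_4d259d_h44.ApiA
import Pool.Agent.W_4d259d_h44.ApiB

/-!
# MP_4d259d_ag, BLOCK FR: multiplicative Cousin problem near the identity (section 8)
-/

noncomputable section

set_option linter.unusedSectionVars false

namespace Pool.Agent.W_4d259d_h44

open Set Filter Topology Manifold Metric MeasureTheory TopologicalSpace
open scoped ContDiff OnePoint BoundedContinuousFunction
open Pool.Agent.W_4d259d_h46.Defs Pool.Agent.W_4d259d_h46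

variable {R : Type} [TopologicalSpace R] [T2Space R] [ChartedSpace ℂ R]
  [IsManifold (modelWithCornersSelf ℂ ℂ) ω R]
variable {E : Type} [NormedAddCommGroup E] [NormedSpace ℂ E] [FiniteDimensional ℂ E]

/-- Left multiplication by `h`, as a bounded operator. -/
theorem exists_leftMul {U V : Opens R} (hUV : U ≤ V) (h : HB U (E →L[ℂ] E)) :
    ∃ S : HB V (E →L[ℂ] E) →L[ℂ] HB U (E →L[ℂ] E), ‖S‖ ≤ ‖h‖ ∧
      ∀ a, ∀ z ∈ U, (S a).fn z = h.fn z * a.fn z := by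
  obtain ⟨S1, hS1, hS1'⟩ := exists_res (F := E →L[ℂ] E) hUV
  let M : R → (E →L[ℂ] E) →L[ℂ] (E →L[ℂ] E) := fun z => ContinuousLinearMap.mul ℂ _ (h.fn z)
  have hM : HolOn ((E →L[ℂ] E) →L[ℂ] (E →L[ℂ] E)) M U := by
    exact holOn_comp (V := Set.univ) (ContinuousLinearMap.mul ℂ (E →L[ℂ] E)).differentiable.differentiableOn
      h.fn_hol (fun z _ => mem_univ _)
  have hb : ∀ z ∈ U, ‖M z‖ ≤ ‖h‖ := fun z _ =>
    (ContinuousLinearMap.opNorm_mul_apply_le ℂ (E →L[ℂ] E) (h.fn z)).trans (h.fn_le z)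
  obtain ⟨S2, hS2, hS2'⟩ := exists_mulOp M hM ‖h‖ (norm_nonneg _) hb
  refine ⟨S2.comp S1, ?_, ?_⟩
  · calc ‖S2.comp S1‖ ≤ ‖S2‖ * ‖S1‖ := ContinuousLinearMap.opNorm_comp_le _ _
      _ ≤ ‖h‖ * 1 := mul_le_mul hS2 hS1 (ContinuousLinearMap.opNorm_nonneg _) (norm_nonneg _)
      _ = ‖h‖ := mul_one _
  · intro a z hz
    rw [ContinuousLinearMap.comp_apply, hS2' _ z hz, hS1' a z hz]
    rfl

/-- Operators near the identity: for `h` small on `O = WA ⊓ N` there are `a`, `b` of norm `≤ 1/2`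
with `(1 + h)(1 + a) = 1 + b` on `O`.
Proof: with `SA, SB` of `split_fin` (for `F = E →L[ℂ] E`) solve `a = -SA (h (1 + a))` (contraction on
the closed ball of radius `1/2` of `HB WA (E →L[ℂ] E)`), `b = -SB (h (1 + a))`; then
`b - a = h (1 + a)` on `O`. -/
theorem cousin_near_one [GoodSurface R] {e : OpenPartialHomeomorph R ℂ} (he : e ∈ DChart R)
    (N1 N WA : Opens R) (h2 : closure (N1 : Set R) ⊆ N) (h4 : closure (N : Set R) ⊆ unitOf e)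
    (h5 : IsCompact (closure (WA : Set R))) :
    ∃ τ > 0, ∀ h : HB (WA ⊓ N) (E →L[ℂ] E), ‖h‖ ≤ τ →
      ∃ (a : HB WA (E →L[ℂ] E)) (b : HB (N1 ⊔ (WA ⊓ N)) (E →L[ℂ] E)), ‖a‖ ≤ 1 / 2 ∧ ‖b‖ ≤ 1 / 2 ∧
        ∀ z ∈ WA ⊓ N, (1 + h.fn z) * (1 + a.fn z) = 1 + b.fn z := by
  have _ : CompleteSpace E := FiniteDimensional.complete ℂ E
  obtain ⟨SA, SB, hS⟩ := split_fin (F := E →L[ℂ] E) he N1 N WA h2 h4 h5
  set m : ℝ := ‖SA‖ + ‖SB‖ + 1 with hm
  have nSA : 0 ≤ ‖SA‖ := ContinuousLinearMap.opNorm_nonneg _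
  have nSB : 0 ≤ ‖SB‖ := ContinuousLinearMap.opNorm_nonneg _
  have hm1 : 1 ≤ m := by linarith
  refine ⟨1 / (4 * m), by positivity, fun h hh => ?_⟩
  have hh' : ‖h‖ * m ≤ 1 / 4 := by
    have := mul_le_mul_of_nonneg_right hh (by linarith : 0 ≤ m)
    calc ‖h‖ * m ≤ 1 / (4 * m) * m := this
      _ = 1 / 4 := by field_simp
  have hA : ‖SA‖ * ‖h‖ ≤ 1 / 4 := by
    calc ‖SA‖ * ‖h‖ ≤ m * ‖h‖ :=
          mul_le_mul_of_nonneg_right (by linarith) (norm_nonneg _)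
      _ ≤ 1 / 4 := by rw [mul_comm]; exact hh'
  have hB : ‖SB‖ * ‖h‖ ≤ 1 / 4 := by
    calc ‖SB‖ * ‖h‖ ≤ m * ‖h‖ :=
          mul_le_mul_of_nonneg_right (by linarith) (norm_nonneg _)
      _ ≤ 1 / 4 := by rw [mul_comm]; exact hh'
  obtain ⟨S, hSn, hSf⟩ := exists_leftMul (inf_le_left : WA ⊓ N ≤ WA) h
  let L : HB WA (E →L[ℂ] E) →L[ℂ] HB WA (E →L[ℂ] E) := SA.comp S
  have hL : ‖L‖ ≤ 1 / 4 := by
    calc ‖L‖ ≤ ‖SA‖ * ‖S‖ := ContinuousLinearMap.opNorm_comp_le _ _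
      _ ≤ ‖SA‖ * ‖h‖ := mul_le_mul_of_nonneg_left hSn nSA
      _ ≤ 1 / 4 := hA
  have hcon : ContractingWith (1 / 4) (fun a : HB WA (E →L[ℂ] E) => -(SA h) - L a) := by
    refine ⟨by rw [div_lt_one] <;> norm_num, LipschitzWith.of_dist_le_mul fun x y => ?_⟩
    rw [dist_eq_norm, dist_eq_norm]
    have h1 : -(SA h) - L x - (-(SA h) - L y) = -(L (x - y)) := by
      rw [map_sub]
      abel
    rw [h1, norm_neg]
    refine (L.le_opNorm _).trans ?_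
    refine mul_le_mul_of_nonneg_right (hL.trans ?_) (norm_nonneg _)
    simp
  obtain ⟨a, haf⟩ : ∃ a : HB WA (E →L[ℂ] E), -(SA h) - L a = a :=
    ⟨hcon.fixedPoint _, hcon.fixedPoint_isFixedPt⟩
  have ha : a + L a = -(SA h) := (sub_eq_iff_eq_add.1 haf).symm
  have hSAh : ‖SA h‖ ≤ 1 / 4 := (SA.le_opNorm h).trans hA
  have hLa : ‖L a‖ ≤ 1 / 4 * ‖a‖ :=
    (L.le_opNorm a).trans (mul_le_mul_of_nonneg_right hL (norm_nonneg _))
  have han : ‖a‖ ≤ 1 / 2 := by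
    have h1 : a = -(SA h) - L a := by rw [← ha, add_sub_cancel_right]
    have h2 : ‖a‖ ≤ ‖SA h‖ + ‖L a‖ := by
      calc ‖a‖ = ‖-(SA h) - L a‖ := by rw [← h1]
        _ ≤ ‖-(SA h)‖ + ‖L a‖ := norm_sub_le _ _
        _ = ‖SA h‖ + ‖L a‖ := by rw [norm_neg]
    linarith
  have hSa : ‖S a‖ ≤ ‖h‖ * ‖a‖ :=
    (S.le_opNorm a).trans (mul_le_mul_of_nonneg_right hSn (norm_nonneg _))
  obtain ⟨y, hyd⟩ : ∃ y : HB (WA ⊓ N) (E →L[ℂ] E), y = h + S a := ⟨_, rfl⟩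
  have hy : ‖y‖ ≤ 3 / 2 * ‖h‖ := by
    have h1 : ‖y‖ ≤ ‖h‖ + ‖S a‖ := by
      rw [hyd]
      exact norm_add_le h (S a)
    have h2 : ‖h‖ * ‖a‖ ≤ ‖h‖ * (1 / 2) := mul_le_mul_of_nonneg_left han (norm_nonneg _)
    refine h1.trans ((add_le_add le_rfl (hSa.trans h2)).trans (le_of_eq ?_))
    ring
  refine ⟨a, -(SB y), han, ?_, ?_⟩
  · rw [norm_neg]
    calc ‖SB y‖ ≤ ‖SB‖ * ‖y‖ := SB.le_opNorm y
      _ ≤ ‖SB‖ * (3 / 2 * ‖h‖) := mul_le_mul_of_nonneg_left hy nSB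
      _ = 3 / 2 * (‖SB‖ * ‖h‖) := by ring
      _ ≤ 3 / 2 * (1 / 4) := mul_le_mul_of_nonneg_left hB (by norm_num)
      _ ≤ 1 / 2 := by norm_num
  · intro z hz
    have h1 : a = -(SA y) := by
      have : SA y = SA h + L a := by
        rw [hyd, map_add]
        rfl
      rw [this]
      have h3 : a = -(SA h) - L a := by rw [← ha, add_sub_cancel_right]
      rw [neg_add, ← sub_eq_add_neg]
      exact h3
    have h3 := hS y z hz
    have h4 : a.fn z = -(SA y).fn z := by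
      conv_lhs => rw [h1]
      rw [HB.fn_neg]
    have h5 : (-(SB y)).fn z = -(SB y).fn z := HB.fn_neg _ _
    have h6 : y.fn z = h.fn z + h.fn z * a.fn z := by
      rw [hyd, HB.fn_add, hSf a z hz]
    have h7 : a.fn z + y.fn z = -(SB y).fn z := by
      rw [h4, h3]
      abel
    rw [h5, ← h7, h6]
    noncomm_ring

end Pool.Agent.W_4d259d_h44
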