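import Pool.Agent.W_4d259d_h44.ApiB

/-!
# MP_4d259d_ag, BLOCK FR: functions with one simple zero compared with a chart (section 8)
-/

noncomputable section

set_option linter.unusedSectionVars false

namespace Pool.Agent.W_4d259d_h44

open Set Filter Topology Manifold Metric MeasureTheory TopologicalSpace
open scoped ContDiff OnePoint BoundedContinuousFunction
open Pool.Agent.W_4d259d_h46.Defs Pool.Agent.W_4d259d_h46

variable {R : Type} [TopologicalSpace R] [T2Space R] [ChartedSpace ℂ R]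
  [IsManifold (modelWithCornersSelf ℂ ℂ) ω R]
variable {E : Type} [NormedAddCommGroup E] [NormedSpace ℂ E] [FiniteDimensional ℂ E]

/-- For a compact set `K` there is an open `W ⊇ K` and a family `q p` (`p ∈ K`) of functions
holomorphic on `W` with exactly one zero `p`, simple... the open set may depend on `p`, so it is
part of the family: `W p ⊇ K`. -/
theorem exists_qfam [GoodSurface R] (K : Set R) (hK : IsCompact K) :
    ∃ (W : R → Opens R) (q : R → R → ℂ), ∀ p ∈ K, K ⊆ W p ∧ HolOn ℂ (q p) (W p) ∧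
      (∀ z ∈ W p, q p z = 0 ↔ z = p) ∧ SimpleZero (q p) p := by
  have h1 : ∀ p : R, ∃ (W : Opens R) (q : R → ℂ), p ∈ K → (K ⊆ W ∧ HolOn ℂ q W ∧
      (∀ z ∈ W, q z = 0 ↔ z = p) ∧ SimpleZero q p) := by
    intro p
    by_cases hp : p ∈ K
    · obtain ⟨W, hKW, q, hq, hz, hs⟩ := GoodSurface.zero K hK p hp
      refine ⟨W, q, fun _ => ⟨hKW, hq, fun z hzW => ⟨hz z hzW, ?_⟩, hs⟩⟩
      rintro rfl
      exact hs.1
    · exact ⟨⊤, fun _ => 0, fun h => absurd h hp⟩
  choose W q h using h1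
  exact ⟨W, q, h⟩

/-- `q p z = κ z * (e z - e p)` on `W ⊓ e.source`, with `κ` holomorphic and without zeros.
(Two applications of `exists_div`.) -/
theorem exists_quot {e : OpenPartialHomeomorph R ℂ} (he : e ∈ RChart R) {W : Opens R} {p : R}
    (hp : p ∈ W) (hpe : p ∈ e.source) {q : R → ℂ} (hq : HolOn ℂ q W)
    (h0 : ∀ z ∈ W, q z = 0 ↔ z = p) (hs : SimpleZero q p) :
    ∃ κ : R → ℂ, HolOn ℂ κ ((W : Set R) ∩ e.source) ∧
      ∀ z ∈ (W : Set R) ∩ e.source, κ z ≠ 0 ∧ q z = κ z * (e z - e p) := by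
  set V : Set R := (W : Set R) ∩ e.source with hV
  have hVo : IsOpen V := W.isOpen.inter e.open_source
  have hpV : p ∈ V := ⟨hp, hpe⟩
  have himg : e '' V ∈ 𝓝 (e p) := by
    have : IsOpen (e '' V) := e.isOpen_image_of_subset_source hVo inter_subset_right
    exact this.mem_nhds (mem_image_of_mem _ hpV)
  set qe : ℂ → ℂ := fun ζ => q (e.symm ζ) with hqe
  have hqd : DifferentiableOn ℂ qe (e '' V) :=
    (holOn_iff_inChart he hVo inter_subset_right).1 (hq.mono inter_subset_left)
  have hqd' : DifferentiableOn ℂ (dslope qe (e p)) (e '' V) :=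
    (Complex.differentiableOn_dslope himg).2 hqd
  have hqp : qe (e p) = 0 := by
    rw [hqe]
    show q (e.symm (e p)) = 0
    rw [e.left_inv hpe]
    exact hs.1
  have hqw : ∀ w ∈ V, w ≠ p → dslope qe (e p) (e w) = (e w - e p)⁻¹ * q w := by
    intro w hw hne
    have hne' : e w ≠ e p := fun hc => hne (e.injOn hw.2 hpe hc)
    rw [dslope_of_ne _ hne', slope_def_module, hqp, sub_zero, hqe]
    show (e w - e p)⁻¹ • q (e.symm (e w)) = _
    rw [e.left_inv hw.2, smul_eq_mul]
  refine ⟨fun z => dslope qe (e p) (e z), ?_, ?_⟩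
  · exact holOn_comp hqd' ((chart_hol he).mono inter_subset_right)
      (fun z hz => mem_image_of_mem _ hz)
  · intro z hz
    by_cases hzp : z = p
    · subst hzp
      refine ⟨?_, ?_⟩
      · show dslope qe (e z) (e z) ≠ 0
        rw [dslope_same]
        exact hs.2 e he hpe
      · rw [hs.1, sub_self, mul_zero]
    · have hne' : e z - e p ≠ 0 := sub_ne_zero.2 fun hc => hzp (e.injOn hz.2 hpe hc)
      have hqz : q z ≠ 0 := fun hc => hzp ((h0 z hz.1).1 hc)
      refine ⟨?_, ?_⟩
      · show dslope qe (e p) (e z) ≠ 0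
        rw [hqw z hz hzp]
        exact mul_ne_zero (inv_ne_zero hne') hqz
      · show q z = dslope qe (e p) (e z) * (e z - e p)
        rw [hqw z hz hzp]
        field_simp

/-- A function holomorphic near a compact set without zeros on it is bounded above and below. -/
theorem bounds_on_compact {K : Set R} (hK : IsCompact K) {V : Opens R} (hKV : K ⊆ V) {q : R → ℂ}
    (hq : HolOn ℂ q V) (h0 : ∀ z ∈ K, q z ≠ 0) :
    ∃ c > 0, ∃ C > 0, ∀ z ∈ K, c ≤ ‖q z‖ ∧ ‖q z‖ ≤ C := by
  have hc : ContinuousOn q K := hq.continuousOn.mono hKV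
  obtain ⟨C0, hC0⟩ := hK.exists_bound_of_continuousOn hc
  obtain ⟨C1, hC1⟩ := hK.exists_bound_of_continuousOn (hc.inv₀ h0)
  refine ⟨1 / max C1 1, by positivity, max C0 1, by positivity, fun z hz => ⟨?_, ?_⟩⟩
  · have h1 := hC1 z hz
    rw [Pi.inv_apply, norm_inv] at h1
    have h2 : 0 < ‖q z‖ := norm_pos_iff.2 (h0 z hz)
    rw [div_le_iff₀ (by positivity)]
    have h3 : ‖q z‖⁻¹ ≤ max C1 1 := h1.trans (le_max_left _ _)
    calc (1 : ℝ) = ‖q z‖ * ‖q z‖⁻¹ := by field_simp
      _ ≤ ‖q z‖ * max C1 1 := mul_le_mul_of_nonneg_left h3 h2.le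
  · exact (hC0 z hz).trans (le_max_left _ _)

end Pool.Agent.W_4d259d_h44
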