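import Pool.Agent.W_4d259d_h44.Base

/-!
# MP_4d259d_ag, BLOCK FR: zeros of entire functions on compact sets, determinants (section 8)
-/

noncomputable section

set_option linter.unusedSectionVars false

namespace Pool.Agent.W_4d259d_h44

open Set Filter Topology Manifold Metric MeasureTheory TopologicalSpace
open scoped ContDiff OnePoint BoundedContinuousFunction
open Pool.Agent.W_4d259d_h46.Defs Pool.Agent.W_4d259d_h46


/-- The number of linear factors which can be split off is bounded. -/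
theorem FrD_bound {d : ℂ → ℂ} (hd : Differentiable ℂ d) {ζ0 : ℂ} (h0 : d ζ0 ≠ 0) {C : Set ℂ}
    (hC : IsCompact C) :
    ∃ n0 : ℕ, ∀ (T : List ℂ) (p : ℂ → ℂ), Differentiable ℂ p → (∀ t ∈ T, t ∈ C) →
      (∀ ζ, d ζ = (T.map fun t => ζ - t).prod * p ζ) → T.length ≤ n0 := by
  obtain ⟨r0, hr0⟩ := hC.isBounded.exists_norm_le
  set r : ℝ := max r0 0 with hr
  have hr0' : 0 ≤ r := le_max_right _ _
  have hCr : ∀ t ∈ C, ‖t‖ ≤ r := fun t ht => (hr0 t ht).trans (le_max_left _ _)
  set a : ℝ := r + ‖ζ0‖ + 1 with ha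
  have ha0 : 0 < a := by positivity
  set R : ℝ := r + 2 * a with hR
  have hRpos : 0 < R := by positivity
  obtain ⟨M, hM⟩ : ∃ M : ℝ, ∀ ζ ∈ closedBall (0 : ℂ) R, ‖d ζ‖ ≤ M :=
    (isCompact_closedBall (0 : ℂ) R).exists_bound_of_continuousOn hd.continuous.continuousOn
  have hd0 : 0 < ‖d ζ0‖ := norm_pos_iff.2 h0
  -- choose n0 with `M / 2^n0 < |d ζ0|`
  obtain ⟨n0, hn0⟩ := exists_pow_lt_of_lt_one (x := ‖d ζ0‖ / (|M| + 1)) (y := (1 / 2 : ℝ))
    (by positivity) (by norm_num)
  refine ⟨n0, fun T p hp hT hdp => ?_⟩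
  by_contra hlt
  push Not at hlt
  have hprod_upper : ‖(T.map fun t => ζ0 - t).prod‖ ≤ a ^ T.length := by
    clear hdp hlt
    induction T with
    | nil => simp
    | cons t T ih =>
      rw [List.map_cons, List.prod_cons, norm_mul, List.length_cons, pow_succ, mul_comm]
      refine mul_le_mul (ih fun u hu => hT u (List.mem_cons_of_mem _ hu)) ?_ (norm_nonneg _)
        (by positivity)
      have h1 := norm_sub_le ζ0 t
      have h2 := hCr t (hT t List.mem_cons_self)
      linarith
  have hprod_lower : ∀ ζ : ℂ, ‖ζ‖ = R → (2 * a) ^ T.length ≤ ‖(T.map fun t => ζ - t).prod‖ := by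
    clear hdp hlt hprod_upper
    intro ζ hζ
    induction T with
    | nil => simp
    | cons t T ih =>
      rw [List.map_cons, List.prod_cons, norm_mul, List.length_cons, pow_succ, mul_comm]
      refine mul_le_mul ?_ (ih fun u hu => hT u (List.mem_cons_of_mem _ hu)) (by positivity)
        (norm_nonneg _)
      have h1 := norm_sub_norm_le ζ t
      have h2 := hCr t (hT t List.mem_cons_self)
      linarith
  have hpR : ∀ ζ : ℂ, ‖ζ‖ = R → ‖p ζ‖ ≤ M / (2 * a) ^ T.length := by
    intro ζ hζ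
    rw [le_div_iff₀ (by positivity)]
    have h1 := hprod_lower ζ hζ
    have h2 := hM ζ (by rw [mem_closedBall_zero_iff]; exact hζ.le)
    rw [hdp ζ, norm_mul] at h2
    have h3 : (2 * a) ^ T.length * ‖p ζ‖ ≤ ‖(T.map fun t => ζ - t).prod‖ * ‖p ζ‖ :=
      mul_le_mul_of_nonneg_right h1 (norm_nonneg _)
    linarith
  have hζ0 : ζ0 ∈ closure (ball (0 : ℂ) R) := by
    apply subset_closure
    rw [mem_ball_zero_iff]
    have := norm_nonneg ζ0
    rw [hR, ha]
    linarith
  have hmax : ‖p ζ0‖ ≤ M / (2 * a) ^ T.length := by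
    refine Complex.norm_le_of_forall_mem_frontier_norm_le isBounded_ball
      (hp.diffContOnCl) ?_ hζ0
    intro ζ hζ
    rw [frontier_ball _ hRpos.ne', mem_sphere_zero_iff_norm] at hζ
    exact hpR ζ hζ
  have hfin : ‖d ζ0‖ ≤ M * (1 / 2) ^ T.length := by
    rw [hdp ζ0, norm_mul]
    have hM0 : 0 ≤ M / (2 * a) ^ T.length := (norm_nonneg _).trans hmax
    calc ‖(T.map fun t => ζ0 - t).prod‖ * ‖p ζ0‖ ≤ a ^ T.length * (M / (2 * a) ^ T.length) :=
          mul_le_mul hprod_upper hmax (norm_nonneg _) (by positivity)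
      _ = M * (1 / 2) ^ T.length := by
          rw [mul_pow, one_div, inv_pow]
          field_simp
  have h5 : (1 / 2 : ℝ) ^ T.length ≤ (1 / 2) ^ n0 :=
    pow_le_pow_of_le_one (by norm_num) (by norm_num) hlt.le
  have h6 : M * (1 / 2) ^ T.length ≤ (|M| + 1) * (1 / 2) ^ n0 := by
    refine mul_le_mul ?_ h5 (by positivity) (by positivity)
    have := le_abs_self M
    linarith
  have h7 : (|M| + 1) * (1 / 2) ^ n0 < ‖d ζ0‖ := by
    rw [lt_div_iff₀ (by positivity)] at hn0
    linarith
  linarith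

/-- An entire function which is not identically zero has finitely many zeros on a compact set;
with multiplicities: `d ζ = ∏_{t ∈ T} (ζ - t) * p ζ` with a list `T` of points of `C` and `p`
entire without zeros on `C`.
Proof: induction on the sum of the orders (`AnalyticAt.order`, isolated zeros), or strong induction
on the number of zeros in `C` with multiplicity; divide by `dslope`. -/
theorem exists_factor {d : ℂ → ℂ} (hd : Differentiable ℂ d) {ζ0 : ℂ} (h0 : d ζ0 ≠ 0) {C : Set ℂ}
    (hC : IsCompact C) :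
    ∃ (T : List ℂ) (p : ℂ → ℂ), Differentiable ℂ p ∧ (∀ t ∈ T, t ∈ C) ∧ (∀ ζ ∈ C, p ζ ≠ 0) ∧
      ∀ ζ, d ζ = (T.map fun t => ζ - t).prod * p ζ := by
  obtain ⟨n0, hn0⟩ := FrD_bound hd h0 hC
  -- a factorisation of maximal length
  have hex : ∃ n : ℕ, n ≤ n0 ∧ ∃ (T : List ℂ) (p : ℂ → ℂ), Differentiable ℂ p ∧
      (∀ t ∈ T, t ∈ C) ∧ (∀ ζ, d ζ = (T.map fun t => ζ - t).prod * p ζ) ∧ n0 - T.length = n :=
    ⟨n0, le_rfl, [], d, hd, by simp, by simp, by simp⟩
  classical
  obtain ⟨hle, T, p, hp, hT, hdp, hlen⟩ := Nat.find_spec hex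
  refine ⟨T, p, hp, hT, ?_, hdp⟩
  intro ζ hζ hz
  have hp' : Differentiable ℂ (dslope p ζ) := by
    rw [← differentiableOn_univ]
    exact (Complex.differentiableOn_dslope Filter.univ_mem).2 hp.differentiableOn
  have hdp' : ∀ w, d w = (((ζ :: T).map fun t => w - t).prod) * dslope p ζ w := by
    intro w
    have h1 := sub_smul_dslope p ζ w
    rw [hz, sub_zero, smul_eq_mul] at h1
    rw [List.map_cons, List.prod_cons, hdp w, ← h1]
    ring
  have hT' : ∀ t ∈ ζ :: T, t ∈ C := by
    intro t ht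
    rcases List.mem_cons.1 ht with rfl | ht
    · exact hζ
    · exact hT t ht
  have hl := hn0 (ζ :: T) (dslope p ζ) hp' hT' hdp'
  rw [List.length_cons] at hl
  have hlt : n0 - (T.length + 1) < Nat.find hex := by omega
  exact Nat.find_min hex hlt ⟨by omega, ζ :: T, dslope p ζ, hp', hT', hdp', by
    rw [List.length_cons]⟩

/-- Bounded operators with determinant bounded below have bounded inverses. -/
theorem inverse_bound {E : Type*} [NormedAddCommGroup E] [NormedSpace ℂ E] [FiniteDimensional ℂ E]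
    {C c : ℝ} (hc : 0 < c) :
    ∃ C' : ℝ, ∀ M : E →L[ℂ] E, ‖M‖ ≤ C → c ≤ ‖M.det‖ → IsUnit M ∧ ‖Ring.inverse M‖ ≤ C' := by
  have hcomp : CompleteSpace E := FiniteDimensional.complete ℂ E
  have hprop : ProperSpace (E →L[ℂ] E) := FiniteDimensional.proper ℂ _
  set S : Set (E →L[ℂ] E) := {M | ‖M‖ ≤ C ∧ c ≤ ‖M.det‖} with hS
  have hunit : ∀ M ∈ S, IsUnit M := by
    intro M hM
    have hdet : LinearMap.det (M : E →ₗ[ℂ] E) ≠ 0 := by
      intro h
      have h1 : M.det = 0 := h
      have h2 := hM.2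
      rw [h1, norm_zero] at h2
      linarith
    rw [ContinuousLinearMap.isUnit_iff_bijective]
    have h3 : IsUnit (M : E →ₗ[ℂ] E) := by
      rw [LinearMap.isUnit_iff_isUnit_det]
      exact isUnit_iff_ne_zero.2 hdet
    exact (Module.End.isUnit_iff _).1 h3
  have hSc : IsCompact S := by
    have h1 : IsClosed S := by
      rw [hS]
      exact (isClosed_le continuous_norm continuous_const).inter
        (isClosed_le continuous_const ContinuousLinearMap.continuous_det.norm)
    refine (isCompact_closedBall (0 : E →L[ℂ] E) C).of_isClosed_subset h1 ?_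
    intro M hM
    rw [mem_closedBall_zero_iff]
    exact hM.1
  have hcont : ContinuousOn (fun M : E →L[ℂ] E => Ring.inverse M) S := by
    intro M hM
    obtain ⟨u, hu⟩ := hunit M hM
    rw [← hu]
    exact (NormedRing.inverse_continuousAt u).continuousWithinAt
  obtain ⟨C', hC'⟩ := hSc.exists_bound_of_continuousOn hcont
  exact ⟨C', fun M h1 h2 => ⟨hunit M ⟨h1, h2⟩, hC' M ⟨h1, h2⟩⟩⟩

/-- The determinant of `1 + (t - 1) π` for a projection `π` onto the line `ℂ v` is `t`. -/
theorem det_elementary {E : Type*} [NormedAddCommGroup E] [NormedSpace ℂ E]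
    [FiniteDimensional ℂ E] (l : E →L[ℂ] ℂ) (v : E) (hv : l v = 1) (t : ℂ) :
    (1 + (t - 1) • l.smulRight v : E →L[ℂ] E).det = t := by
  have h1 : ((1 + (t - 1) • l.smulRight v : E →L[ℂ] E) : E →ₗ[ℂ] E) =
      LinearMap.transvection ((t - 1) • (l : E →ₗ[ℂ] ℂ)) v := by
    ext x
    simp [LinearMap.transvection, mul_smul]
  show LinearMap.det ((1 + (t - 1) • l.smulRight v : E →L[ℂ] E) : E →ₗ[ℂ] E) = t
  rw [h1, LinearMap.transvection.det]
  simp [hv]

theorem exists_kernel {E : Type*} [NormedAddCommGroup E] [NormedSpace ℂ E]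
    [FiniteDimensional ℂ E] {M : E →L[ℂ] E} (hM : M.det = 0) :
    ∃ (l : E →L[ℂ] ℂ) (v : E), l v = 1 ∧ M v = 0 := by
  have h1 : LinearMap.det (M : E →ₗ[ℂ] E) = 0 := hM
  have h2 := LinearMap.bot_lt_ker_of_det_eq_zero h1
  obtain ⟨v, hv, hv0⟩ := (Submodule.ne_bot_iff _).1 h2.ne'
  obtain ⟨l, hl⟩ := SeparatingDual.exists_eq_one (R := ℂ) hv0
  exact ⟨l, v, hl, hv⟩

/-- `det` of a holomorphic operator valued map is holomorphic (entire version). -/
theorem differentiable_det {E : Type*} [NormedAddCommGroup E] [NormedSpace ℂ E]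
    [FiniteDimensional ℂ E] {P : ℂ → E →L[ℂ] E} (hP : Differentiable ℂ P) :
    Differentiable ℂ fun ζ => (P ζ).det := by
  classical
  set b := Module.finBasis ℂ E with hb
  have h1 : (fun ζ => (P ζ).det) = fun ζ =>
      ∑ σ : Equiv.Perm (Fin (Module.finrank ℂ E)), Equiv.Perm.sign σ •
        ∏ i, b.repr (P ζ (b i)) (σ i) := by
    funext ζ
    show LinearMap.det (P ζ : E →ₗ[ℂ] E) = _
    rw [← LinearMap.det_toMatrix b, Matrix.det_apply]
    refine Finset.sum_congr rfl fun σ _ => ?_
    congr 1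
    refine Finset.prod_congr rfl fun i _ => ?_
    rw [LinearMap.toMatrix_apply]
    rfl
  rw [h1]
  have h2 : ∀ i j, Differentiable ℂ fun ζ => b.repr (P ζ (b i)) j := by
    intro i j
    have h3 : Differentiable ℂ fun ζ => P ζ (b i) := hP.clm_apply (differentiable_const _)
    have h4 : Differentiable ℂ fun x : E => b.repr x j := by
      have h5 : (fun x : E => b.repr x j) =
          fun x => (LinearMap.toContinuousLinearMap (b.coord j)) x := by
        funext x
        rfl
      rw [h5]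
      exact ContinuousLinearMap.differentiable _
    exact h4.comp h3
  refine Differentiable.fun_sum fun σ _ => ?_
  refine Differentiable.const_smul ?_ _
  exact Differentiable.fun_finsetProd fun i _ => h2 i (σ i)

end Pool.Agent.W_4d259d_h44
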