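import Pool.Agent.W_4d259d_h44.FrC
import Pool.Agent.W_4d259d_h44.FrD

/-!
# MP_4d259d_ag, BLOCK FR: removing the zeros of the determinant by elementary modifications (section 8)
-/

noncomputable section
set_option linter.unusedSectionVars false
namespace Pool.Agent.W_4d259d_h44

open Set Filter Topology Manifold Metric MeasureTheory TopologicalSpace
open scoped ContDiff OnePoint BoundedContinuousFunction
open Pool.Agent.W_4d259d_h46.Defs Pool.Agent.W_4d259d_h46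

variable {R : Type} [TopologicalSpace R] [T2Space R] [ChartedSpace ℂ R]
  [IsManifold (modelWithCornersSelf ℂ ℂ) ω R]
variable {E : Type} [NormedAddCommGroup E] [NormedSpace ℂ E] [FiniteDimensional ℂ E]

/-- `D = 1 + (t - 1) π` and its inverse. -/
private theorem FrE_mul (l : E →L[ℂ] ℂ) (v : E) (hv : l v = 1) {s t : ℂ} (hst : s * t = 1) :
    (1 + (s - 1) • l.smulRight v : E →L[ℂ] E) * (1 + (t - 1) • l.smulRight v) = 1 := by
  have hp : l.smulRight v * l.smulRight v = (l.smulRight v : E →L[ℂ] E) := by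
    ext x
    simp [hv]
  have h1 : (1 + (s - 1) • l.smulRight v : E →L[ℂ] E) * (1 + (t - 1) • l.smulRight v) =
      1 + (s * t - 1) • l.smulRight v := by
    rw [mul_add, add_mul, add_mul, smul_mul_smul_comm, hp, mul_one, mul_one, one_mul]
    module
  rw [h1, hst, sub_self, zero_smul, add_zero]

private theorem FrE_norm (l : E →L[ℂ] ℂ) (v : E) (t : ℂ) {C : ℝ} (ht : ‖t‖ ≤ C) :
    ‖(1 + (t - 1) • l.smulRight v : E →L[ℂ] E)‖ ≤ 1 + (C + 1) * ‖(l.smulRight v : E →L[ℂ] E)‖ := by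
  have h1 : ‖(1 : E →L[ℂ] E)‖ ≤ 1 := ContinuousLinearMap.norm_id_le
  have h2 : ‖t - 1‖ ≤ C + 1 := by
    have := norm_sub_le t 1
    rw [norm_one] at this
    linarith
  refine (norm_add_le _ _).trans (add_le_add h1 ?_)
  rw [norm_smul]
  exact mul_le_mul_of_nonneg_right h2 (norm_nonneg _)

private theorem FrE_inv {M D D' : E →L[ℂ] E} (hM : IsUnit M) (h1 : D * D' = 1)
    (h2 : D' * D = 1) : IsUnit (M * D) ∧ Ring.inverse (M * D) = D' * Ring.inverse M := by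
  obtain ⟨u, rfl⟩ := hM
  set w : (E →L[ℂ] E)ˣ := ⟨D, D', h1, h2⟩ with hw
  have h3 : (u : E →L[ℂ] E) * D = ((u * w : (E →L[ℂ] E)ˣ) : E →L[ℂ] E) := rfl
  refine ⟨⟨u * w, rfl⟩, ?_⟩
  rw [h3, Ring.inverse_unit, Ring.inverse_unit, mul_inv_rev]
  rfl

private theorem FrE_neBot (p : R) : (𝓝[≠] p).NeBot := by
  by_contra h
  rw [neBot_iff, not_not] at h
  have hopen : IsOpen ({p} : Set R) := by
    rw [isOpen_singleton_iff_punctured_nhds]
    exact h
  set e := chartAt ℂ p with he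
  have hpe : p ∈ e.source := mem_chart_source ℂ p
  have h1 : IsOpen (e '' {p}) :=
    e.isOpen_image_of_subset_source hopen (by simpa using hpe)
  rw [image_singleton, isOpen_singleton_iff_punctured_nhds] at h1
  have h2 : (𝓝[≠] (e p)).NeBot := inferInstance
  exact h2.ne h1

private theorem FrE_holD (l : E →L[ℂ] ℂ) (v : E) {U : Set R} {q : R → ℂ} (hq : HolOn ℂ q U) :
    HolOn (E →L[ℂ] E) (fun z => 1 + (q z - 1) • (l.smulRight v : E →L[ℂ] E)) U :=
  holOn_add (holOn_const _ _) (holOn_smul (holOn_sub hq (holOn_const _ _)) (holOn_const _ _))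

/-- ONE STEP.  `WB'` open, `V ≤ WB'` open with `closure V ⊆ K` compact; `q` holomorphic on
`W ⊇ K` with exactly one zero `p`, simple, `p ∈ WB'`, `p ∉ closure WA`; `MA` on `WA`, `MB` on `WB'`;
`det MB = q u` on `WB'`.  The modified pair `MA D⁻¹`, `MB D⁻¹`, `D = 1 + (q - 1) π`,
`MB p v = 0`, `π = l ⊗ v`, has `det = u` on `WB'` and the same properties. -/
theorem elementary_step {K : Set R} (hK : IsCompact K) {WA WB' V W : Opens R}
    (hWAK : closure (WA : Set R) ⊆ K) (hVK : closure (V : Set R) ⊆ K) (hVW : V ≤ WB')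
    (hKW : K ⊆ W) {q : R → ℂ} (hq : HolOn ℂ q W) {p : R} (hp : p ∈ WB') (hpK : p ∈ K)
    (h0 : ∀ z ∈ W, q z = 0 ↔ z = p) (hs : SimpleZero q p) (hpA : p ∉ closure (WA : Set R))
    (hWB : (WB' : Set R) ⊆ W)
    {MA MB : R → E →L[ℂ] E} (hMA : HolOn (E →L[ℂ] E) MA WA) (hMB : HolOn (E →L[ℂ] E) MB WB')
    {CA CB : ℝ} (hA : ∀ z ∈ WA, ‖MA z‖ ≤ CA ∧ IsUnit (MA z) ∧ ‖Ring.inverse (MA z)‖ ≤ CA)
    (hB : ∀ z ∈ V, ‖MB z‖ ≤ CB) {u : R → ℂ} (hu : HolOn ℂ u WB')
    (hdet : ∀ z ∈ WB', (MB z).det = q z * u z) :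
    ∃ (D : R → E →L[ℂ] E) (MB' : R → E →L[ℂ] E) (CA' CB' : ℝ),
      (∀ z ∈ W, z ≠ p → IsUnit (D z)) ∧
      HolOn (E →L[ℂ] E) (fun z => MA z * D z) WA ∧
      (∀ z ∈ WA, ‖MA z * D z‖ ≤ CA' ∧ IsUnit (MA z * D z) ∧
        ‖Ring.inverse (MA z * D z)‖ ≤ CA') ∧
      HolOn (E →L[ℂ] E) MB' WB' ∧ (∀ z ∈ WB', z ≠ p → MB' z = MB z * D z) ∧
      (∀ z ∈ V, ‖MB' z‖ ≤ CB') ∧ ∀ z ∈ WB', (MB' z).det = u z := by
  haveI : CompleteSpace E := FiniteDimensional.complete ℂ E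
  have hpW : p ∈ W := hKW hpK
  have hqp : q p = 0 := (h0 p hpW).2 rfl
  obtain ⟨l, v, hlv, hMv⟩ := exists_kernel (M := MB p) (by rw [hdet p hp, hqp, zero_mul])
  set P : E →L[ℂ] E := l.smulRight v with hP
  -- division
  have hh : HolOn E (fun z => MB z v) WB' := holOn_clm_apply hMB (holOn_const v _)
  obtain ⟨g, hg, hgq⟩ := exists_div WB'.2 (hq.mono hWB) (fun z hz h => (h0 z (hWB hz)).1 h) hs hh
    (fun _ => hMv)
  -- `q ≠ 0` on `closure WA`
  have hclA : IsCompact (closure (WA : Set R)) := hK.of_isClosed_subset isClosed_closure hWAK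
  have hqA : ∀ z ∈ closure (WA : Set R), q z ≠ 0 := fun z hz h =>
    hpA (((h0 z (hKW (hWAK hz))).1 h) ▸ hz)
  obtain ⟨c, hc, C, hC, hcC⟩ := bounds_on_compact hclA (hWAK.trans hKW) hq hqA
  set D : R → E →L[ℂ] E := fun z => 1 + ((q z)⁻¹ - 1) • P with hD
  set D' : R → E →L[ℂ] E := fun z => 1 + (q z - 1) • P with hD'
  have hDD' : ∀ z ∈ W, z ≠ p → D z * D' z = 1 ∧ D' z * D z = 1 := by
    intro z hz hzp
    have hq0 : q z ≠ 0 := fun h => hzp ((h0 z hz).1 h)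
    exact ⟨FrE_mul l v hlv (inv_mul_cancel₀ hq0), FrE_mul l v hlv (mul_inv_cancel₀ hq0)⟩
  have hWAp : ∀ z ∈ WA, z ∈ W ∧ z ≠ p := fun z hz =>
    ⟨hKW (hWAK (subset_closure hz)), fun h => hpA (h ▸ subset_closure hz)⟩
  -- bound of `MB'`
  obtain ⟨O, hO, hpO, CO, hCO⟩ : ∃ O : Set R, IsOpen O ∧ p ∈ O ∧ ∃ CO : ℝ,
      ∀ z ∈ O, z ∈ WB' → ‖g z‖ ≤ CO := by
    have h1 : ContinuousAt g p := hg.continuousOn.continuousAt (WB'.2.mem_nhds hp)
    have h2 : ∀ᶠ z in 𝓝 p, ‖g z‖ < ‖g p‖ + 1 :=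
      h1.norm.eventually (gt_mem_nhds (by linarith))
    obtain ⟨O, hO1, hO2, hO3⟩ := eventually_nhds_iff.1 h2
    exact ⟨O, hO2, hO3, ‖g p‖ + 1, fun z hz _ => (hO1 z hz).le⟩
  have hKO : IsCompact (K \ O) := hK.diff hO
  obtain ⟨c2, hc2, C2, hC2, hcC2⟩ := bounds_on_compact hKO (diff_subset.trans hKW) hq
    (fun z hz h => hz.2 (((h0 z (hKW hz.1)).1 h) ▸ hpO))
  set MB' : R → E →L[ℂ] E := fun z => MB z + l.smulRight (g z - MB z v) with hMB'
  have hMB'D : ∀ z ∈ WB', z ≠ p → MB' z = MB z * D z := by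
    intro z hz hzp
    have hq0 : q z ≠ 0 := fun h => hzp ((h0 z (hWB hz)).1 h)
    have h1 : (q z)⁻¹ • MB z v = g z := by
      rw [hgq z hz, smul_smul, inv_mul_cancel₀ hq0, one_smul]
    ext x
    simp only [hMB', hD, hP, ContinuousLinearMap.add_apply, ContinuousLinearMap.mul_apply,
      ContinuousLinearMap.smulRight_apply, ContinuousLinearMap.one_apply,
      ContinuousLinearMap.smul_apply, map_add, map_smul]
    rw [← h1]
    module
  have hcontD : ∀ z ∈ W, z ≠ p → (D z).det = (q z)⁻¹ := fun z _ _ =>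
    det_elementary l v hlv _
  have hMB'hol : HolOn (E →L[ℂ] E) MB' WB' := by
    refine holOn_op_of_apply fun x => ?_
    have h1 : HolOn E (fun z => MB z x + l x • (g z - MB z v)) WB' :=
      holOn_add (holOn_clm_apply hMB (holOn_const x _)) (holOn_const_smul _ (holOn_sub hg hh))
    exact HolOn.congr' h1 fun z _ => rfl
  have hdet1 : ∀ z ∈ WB', z ≠ p → (MB' z).det = u z := by
    intro z hz hzp
    have hq0 : q z ≠ 0 := fun h => hzp ((h0 z (hWB hz)).1 h)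
    have h2 : (MB z * D z).det = (MB z).det * (D z).det := by
      show LinearMap.det ((MB z * D z : E →L[ℂ] E) : E →ₗ[ℂ] E) = _
      exact LinearMap.det_comp _ _
    rw [hMB'D z hz hzp, h2, hdet z hz, hcontD z (hWB hz) hzp]
    field_simp
  refine ⟨D, MB', (CA * (1 + (1 / c + 1) * ‖P‖)) ⊔ ((1 + (C + 1) * ‖P‖) * CA),
    CB + ‖l‖ * ((CO ⊔ (CB * ‖v‖ / c2)) + CB * ‖v‖), ?_, ?_, ?_, hMB'hol, hMB'D, ?_, ?_⟩
  · intro z hz hzp
    exact ⟨⟨D z, D' z, (hDD' z hz hzp).1, (hDD' z hz hzp).2⟩, rfl⟩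
  · refine holOn_opMul hMA (FrE_holD l v (holOn_inv (hq.mono fun z hz => (hWAp z hz).1) ?_))
    exact fun z hz => hqA z (subset_closure hz)
  · intro z hz
    obtain ⟨hA1, hA2, hA3⟩ := hA z hz
    obtain ⟨hzW, hzp⟩ := hWAp z hz
    obtain ⟨h1, h2⟩ := hDD' z hzW hzp
    obtain ⟨h3, h4⟩ := FrE_inv hA2 h1 h2
    have hCA : 0 ≤ CA := (norm_nonneg _).trans hA1
    have hcz := hcC z (subset_closure hz)
    have hinv : ‖(q z)⁻¹‖ ≤ 1 / c := by
      rw [norm_inv, ← one_div]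
      exact one_div_le_one_div_of_le hc hcz.1
    have hDn : ‖D z‖ ≤ 1 + (1 / c + 1) * ‖P‖ := FrE_norm l v _ hinv
    have hDn' : ‖D' z‖ ≤ 1 + (C + 1) * ‖P‖ := FrE_norm l v _ hcz.2
    refine ⟨?_, h3, ?_⟩
    · refine le_trans ?_ (le_max_left _ _)
      exact (norm_mul_le _ _).trans (mul_le_mul hA1 hDn (norm_nonneg _) hCA)
    · refine le_trans ?_ (le_max_right _ _)
      rw [h4]
      exact (norm_mul_le _ _).trans (mul_le_mul hDn' hA3 (norm_nonneg _) (by positivity))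
  · intro z hz
    have hzB : z ∈ WB' := hVW hz
    have hzK : z ∈ K := hVK (subset_closure hz)
    have hBz := hB z hz
    have hCB : 0 ≤ CB := (norm_nonneg _).trans hBz
    have hMv1 : ‖MB z v‖ ≤ CB * ‖v‖ :=
      ((MB z).le_opNorm v).trans (mul_le_mul_of_nonneg_right hBz (norm_nonneg _))
    have hgz : ‖g z‖ ≤ CO ⊔ (CB * ‖v‖ / c2) := by
      by_cases hzO : z ∈ O
      · exact (hCO z hzO hzB).trans (le_max_left _ _)
      · refine le_trans ?_ (le_max_right _ _)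
        have h1 := (hcC2 z ⟨hzK, hzO⟩).1
        have h2 : ‖q z‖ * ‖g z‖ = ‖MB z v‖ := by rw [← norm_smul, ← hgq z hzB]
        rw [le_div_iff₀ hc2]
        calc ‖g z‖ * c2 ≤ ‖g z‖ * ‖q z‖ := mul_le_mul_of_nonneg_left h1 (norm_nonneg _)
          _ = ‖MB z v‖ := by rw [mul_comm, h2]
          _ ≤ _ := hMv1
    refine (norm_add_le _ _).trans (add_le_add hBz ?_)
    rw [ContinuousLinearMap.norm_smulRight_apply]
    refine mul_le_mul_of_nonneg_left ?_ (norm_nonneg _)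
    exact (norm_sub_le _ _).trans (add_le_add hgz hMv1)
  · intro z hz
    by_cases hzp : z = p
    · subst hzp
      haveI := FrE_neBot z
      have h1 : ContinuousAt (fun z => (MB' z).det) z :=
        (ContinuousLinearMap.continuous_det.continuousAt).comp
          (hMB'hol.continuousOn.continuousAt (WB'.2.mem_nhds hz))
      have h2 : ContinuousAt u z := hu.continuousOn.continuousAt (WB'.2.mem_nhds hz)
      have h3 : ∀ᶠ w in 𝓝[≠] z, (MB' w).det = u w := by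
        have h4 : ∀ᶠ w in 𝓝[≠] z, w ∈ WB' :=
          mem_nhdsWithin_of_mem_nhds (WB'.2.mem_nhds hz)
        filter_upwards [h4, self_mem_nhdsWithin] with w hw1 hw2
        exact hdet1 w hw1 hw2
      exact tendsto_nhds_unique_of_eventuallyEq (h1.mono_left nhdsWithin_le_nhds)
        (h2.mono_left nhdsWithin_le_nhds) h3
    · exact hdet1 z hz hzp

/-- ALL ZEROS, by induction on the list `T` of zeros (with multiplicity).  The relation
`g z * MA z = MB z` on `O` is preserved because no zero lies in `O`. -/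
theorem elementary_all {K : Set R} (hK : IsCompact K) {WA WB' V O : Opens R}
    (hWAK : closure (WA : Set R) ⊆ K) (hVK : closure (V : Set R) ⊆ K) (hVW : V ≤ WB')
    (hOA : O ≤ WA) (hOB : O ≤ WB') (T : List R)
    (q : R → R → ℂ) (W : R → Opens R)
    (hq : ∀ p ∈ T, K ⊆ W p ∧ (WB' : Set R) ⊆ W p ∧ HolOn ℂ (q p) (W p) ∧
      (∀ z ∈ W p, q p z = 0 ↔ z = p) ∧ SimpleZero (q p) p)
    (hT : ∀ p ∈ T, p ∈ WB' ∧ p ∈ K ∧ p ∉ closure (WA : Set R))
    {g MA MB : R → E →L[ℂ] E} (hMA : HolOn (E →L[ℂ] E) MA WA) (hMB : HolOn (E →L[ℂ] E) MB WB')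
    {CA CB : ℝ} (hA : ∀ z ∈ WA, ‖MA z‖ ≤ CA ∧ IsUnit (MA z) ∧ ‖Ring.inverse (MA z)‖ ≤ CA)
    (hB : ∀ z ∈ V, ‖MB z‖ ≤ CB) {u : R → ℂ} (hu : HolOn ℂ u WB')
    (hdet : ∀ z ∈ WB', (MB z).det = (T.map fun p => q p z).prod * u z)
    (hg : ∀ z ∈ O, g z * MA z = MB z) :
    ∃ (MA' MB' : R → E →L[ℂ] E) (CA' CB' : ℝ),
      HolOn (E →L[ℂ] E) MA' WA ∧ HolOn (E →L[ℂ] E) MB' WB' ∧
      (∀ z ∈ WA, ‖MA' z‖ ≤ CA' ∧ IsUnit (MA' z) ∧ ‖Ring.inverse (MA' z)‖ ≤ CA') ∧
      (∀ z ∈ V, ‖MB' z‖ ≤ CB') ∧ (∀ z ∈ WB', (MB' z).det = u z) ∧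
      ∀ z ∈ O, g z * MA' z = MB' z := by
  induction T generalizing MA MB CA CB with
  | nil =>
    refine ⟨MA, MB, CA, CB, hMA, hMB, hA, hB, fun z hz => ?_, hg⟩
    have := hdet z hz
    simpa using this
  | cons p T ih =>
    obtain ⟨hq1, hq2, hq3, hq4, hq5⟩ := hq p List.mem_cons_self
    obtain ⟨hp1, hp2, hp3⟩ := hT p List.mem_cons_self
    have hu1 : ∀ T' : List R, (∀ p' ∈ T', HolOn ℂ (q p') WB') →
        HolOn ℂ (fun z => (T'.map fun p => q p z).prod * u z) WB' := by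
      intro T'
      induction T' with
      | nil => intro _; simpa using hu
      | cons a T' ih' =>
        intro h
        have h1 := holOn_mul (h a List.mem_cons_self)
          (ih' fun p' hp' => h p' (List.mem_cons_of_mem _ hp'))
        refine HolOn.congr' h1 fun z _ => ?_
        rw [List.map_cons, List.prod_cons, mul_assoc]
    have hu2 := hu1 T fun p' hp' => (hq p' (List.mem_cons_of_mem _ hp')).2.2.1.mono
      (hq p' (List.mem_cons_of_mem _ hp')).2.1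
    obtain ⟨D, MB', CA', CB', hD1, hD2, hD3, hD4, hD5, hD6, hD7⟩ :=
      elementary_step hK hWAK hVK hVW hq1 hq3 hp1 hp2 hq4 hq5 hp3 hq2 hMA hMB hA hB hu2
        (fun z hz => by rw [hdet z hz, List.map_cons, List.prod_cons, mul_assoc])
    refine ih (fun p' hp' => hq p' (List.mem_cons_of_mem _ hp'))
      (fun p' hp' => hT p' (List.mem_cons_of_mem _ hp')) hD2 hD4 hD3 hD6 hD7 ?_
    intro z hz
    have hzp : z ≠ p := fun h => hp3 (h ▸ subset_closure (hOA hz))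
    rw [hD5 z (hOB hz) hzp, ← hg z hz, mul_assoc]

end Pool.Agent.W_4d259d_h44
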