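import Pool.Agent.W_4d259d_h44.GrDefs
import Pool.Agent.W_4d259d_h44.FlexB
import Pool.Agent.W_4d259d_h44.ApiC

/-!
# MP_4d259d_ag, BLOCK GR (section 16): the flexible family in spray coordinates
-/

noncomputable section

set_option linter.unusedSectionVars false

namespace Pool.Agent.W_4d259d_h44

open Set Filter Topology Manifold Metric MeasureTheory TopologicalSpace
open scoped ContDiff OnePoint BoundedContinuousFunction
open Pool.Agent.W_4d259d_h46.Defs Pool.Agent.W_4d259d_h46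

variable {E : Type} [NormedAddCommGroup E] [NormedSpace ℂ E] [FiniteDimensional ℂ E]
variable {X : Type} [MetricSpace X] [ChartedSpace E X] [IsManifold (modelWithCornersSelf ℂ E) ω X]

/-- the two models on a product of vector spaces -/
private theorem GrA_prod_iff {P Q : Type} [NormedAddCommGroup P] [NormedSpace ℂ P]
    [NormedAddCommGroup Q] [NormedSpace ℂ Q] {g : P × Q → X} {S : Set (P × Q)} :
    MDifferentiableOn ((modelWithCornersSelf ℂ P).prod (modelWithCornersSelf ℂ Q))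
      (modelWithCornersSelf ℂ E) g S ↔
    MDifferentiableOn (modelWithCornersSelf ℂ (P × Q)) (modelWithCornersSelf ℂ E) g S := by
  rw [modelWithCornersSelf_prod, ← chartedSpaceSelf_prod]

/-- the fibre coordinate `p(z,w) = φ (s z w)` -/
private theorem GrA_p {v : ℂ → X} {q δ : ℝ} {s : ℂ → E → X}
    (hs : IsSpray (disc q) v δ s) {φ : OpenPartialHomeomorph X E} (hφ : φ ∈ XChart E X) :
    IsOpen {t : ℂ × E | t ∈ (disc q : Set ℂ) ×ˢ ball (0 : E) δ ∧ s t.1 t.2 ∈ φ.source} ∧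
      DifferentiableOn ℂ (fun t : ℂ × E => φ (s t.1 t.2))
        {t : ℂ × E | t ∈ (disc q : Set ℂ) ×ˢ ball (0 : E) δ ∧ s t.1 t.2 ∈ φ.source} := by
  have h1 : MDifferentiableOn (modelWithCornersSelf ℂ (ℂ × E)) (modelWithCornersSelf ℂ E)
      (fun t : ℂ × E => s t.1 t.2) ((disc q : Set ℂ) ×ˢ ball (0 : E) δ) :=
    GrA_prod_iff.1 hs.hol
  constructor
  · exact h1.continuousOn.isOpen_inter_preimage ((disc q).2.prod isOpen_ball) φ.open_source
  · exact diffOn_chart_comp hφ (h1.mono fun t ht => ht.1) fun t ht => ht.2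

/-- the local inverse in the chart -/
private theorem GrA_L {v : ℂ → X} {q δ δ' κ : ℝ} {s : ℂ → E → X} {l : ℂ → X → E}
    (hv : HolOn E v (disc q)) (hl : IsLocInv (disc q) v δ s δ' κ l)
    {φ : OpenPartialHomeomorph X E} (hφ : φ ∈ XChart E X) :
    IsOpen {t : ℂ × E | t ∈ (disc q : Set ℂ) ×ˢ φ.target ∧ dist (φ.symm t.2) (v t.1) < κ} ∧
      DifferentiableOn ℂ (fun t : ℂ × E => l t.1 (φ.symm t.2))
        {t : ℂ × E | t ∈ (disc q : Set ℂ) ×ˢ φ.target ∧ dist (φ.symm t.2) (v t.1) < κ} := by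
  have ho : IsOpen ((disc q : Set ℂ) ×ˢ φ.target) := (disc q).2.prod φ.open_target
  have hc1 : ContinuousOn (fun t : ℂ × E => φ.symm t.2) ((disc q : Set ℂ) ×ˢ φ.target) :=
    φ.continuousOn_symm.comp continuousOn_snd fun t ht => ht.2
  have hc2 : ContinuousOn (fun t : ℂ × E => v t.1) ((disc q : Set ℂ) ×ˢ φ.target) :=
    hv.continuousOn.comp continuousOn_fst fun t ht => ht.1
  have ho2 : IsOpen {t : ℂ × E | t ∈ (disc q : Set ℂ) ×ˢ φ.target ∧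
      dist (φ.symm t.2) (v t.1) < κ} := by
    have hc3 : ContinuousOn (fun t : ℂ × E => dist (φ.symm t.2) (v t.1))
        ((disc q : Set ℂ) ×ˢ φ.target) :=
      continuous_dist.comp_continuousOn (hc1.prodMk hc2)
    exact hc3.isOpen_inter_preimage ho isOpen_Iio
  refine ⟨ho2, ?_⟩
  rw [← mdifferentiableOn_iff_differentiableOn]
  have h1 : MDifferentiableOn (modelWithCornersSelf ℂ (ℂ × E))
      ((modelWithCornersSelf ℂ ℂ).prod (modelWithCornersSelf ℂ E))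
      (fun t : ℂ × E => (t.1, φ.symm t.2))
      {t : ℂ × E | t ∈ (disc q : Set ℂ) ×ˢ φ.target ∧ dist (φ.symm t.2) (v t.1) < κ} := by
    refine MDifferentiableOn.prodMk ?_ ?_
    · rw [mdifferentiableOn_iff_differentiableOn]
      exact differentiableOn_fst
    · refine (mdiffOn_chart_symm hφ).comp ?_ fun t ht => ht.1.2
      rw [mdifferentiableOn_iff_differentiableOn]
      exact differentiableOn_snd
  exact hl.hol.comp h1 fun t ht => ⟨ht.1.1, ht.2⟩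

/-- Near a point `c` with `v c` flexible there is a `GraftFam`.
Proof: `FlexData` at `v c` in a chart `φ` (`Lam`, `Psi`, constants `δ1, ρ1, M1`);
`p(z,w) = φ (s z w)`, `L_z(p) = l z (φ.symm p)` (so `L_z (p(z,w)) = w`),
`a(z,w,b) = (D L_z(p))⁻¹ b`; `LL η z w b = Lam η (p(z,w)) (a(z,w,b))`;
`f ζ (z,w,b) = L_z(p + ζ a + ζ² Psi ζ p a) - w - ζ b` has vanishing first jet in `ζ` at `0`:
`exists_div_sq` gives `Ups`.  Shrink so that everything is defined and bounded. -/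
theorem exists_graftFam {v : ℂ → X} {q δ δ' κ : ℝ} {s : ℂ → E → X} {l : ℂ → X → E}
    (hv : HolOn E v (disc q)) (hs : IsSpray (disc q) v δ s)
    (hl : IsLocInv (disc q) v δ s δ' κ l) {c : ℂ} (hc : c ∈ disc q) (hf : FlexAt E (v c)) :
    ∃ (r ρ κ1 M : ℝ) (LL : ℂ → ℂ → E → E → X) (Ups : ℂ → ℂ → E → E → E), 0 ≤ M ∧
      GraftFam s δ c r ρ κ1 M LL Ups := by
  have : CompleteSpace E := FiniteDimensional.complete ℂ E
  obtain ⟨φ, hφ, hvc, δ1, ρ1, M1, Lam, Psi, hF⟩ := hf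
  obtain ⟨hW1o, hpd⟩ := GrA_p hs hφ
  obtain ⟨hW2o, hLd⟩ := GrA_L hv hl hφ
  obtain ⟨W1, hW1⟩ : ∃ W1 : Set (ℂ × E), W1 =
    {t : ℂ × E | t ∈ (disc q : Set ℂ) ×ˢ ball (0 : E) δ ∧ s t.1 t.2 ∈ φ.source} := ⟨_, rfl⟩
  obtain ⟨W2, hW2⟩ : ∃ W2 : Set (ℂ × E), W2 =
    {t : ℂ × E | t ∈ (disc q : Set ℂ) ×ˢ φ.target ∧ dist (φ.symm t.2) (v t.1) < κ} := ⟨_, rfl⟩
  obtain ⟨p, hp⟩ : ∃ p : ℂ × E → E, p = fun t : ℂ × E => φ (s t.1 t.2) := ⟨_, rfl⟩
  obtain ⟨L, hL⟩ : ∃ L : ℂ × E → E, L = fun t : ℂ × E => l t.1 (φ.symm t.2) := ⟨_, rfl⟩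
  rw [← hW1] at hW1o hpd
  rw [← hW2] at hW2o hLd
  rw [← hp] at hpd
  rw [← hL] at hLd
  obtain ⟨A, hA⟩ : ∃ A : ℂ × E → E → E, A = fun t b => fderiv ℂ p t (0, b) := ⟨_, rfl⟩
  have hW1m : ∀ t : ℂ × E, t ∈ W1 ↔ t.1 ∈ disc q ∧ ‖t.2‖ < δ ∧ s t.1 t.2 ∈ φ.source := by
    intro t
    rw [hW1]
    simp only [Set.mem_ofPred_eq, mem_prod, mem_ball_zero_iff, SetLike.mem_coe, and_assoc]
  have hW2m : ∀ t : ℂ × E, t ∈ W2 ↔ t.1 ∈ disc q ∧ t.2 ∈ φ.target ∧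
      dist (φ.symm t.2) (v t.1) < κ := by
    intro t
    rw [hW2]
    simp only [Set.mem_ofPred_eq, mem_prod, SetLike.mem_coe, and_assoc]
  have hpt : ∀ t ∈ W1, p t ∈ φ.target := by
    intro t ht
    rw [hp]
    exact φ.map_source ((hW1m t).1 ht).2.2
  have hps : ∀ t ∈ W1, φ.symm (p t) = s t.1 t.2 := by
    intro t ht
    rw [hp]
    exact φ.left_inv ((hW1m t).1 ht).2.2
  -- the identity `L_z(p(z,w)) = w`
  have hid : ∀ t ∈ W1, ‖t.2‖ < δ' → (t.1, p t) ∈ W2 ∧ L (t.1, p t) = t.2 := by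
    intro t ht hδ
    have h1 := (hW1m t).1 ht
    have h2 := hl.left t.1 h1.1 t.2 hδ
    constructor
    · rw [hW2m]
      refine ⟨h1.1, hpt t ht, ?_⟩
      show dist (φ.symm (p t)) (v t.1) < κ
      rw [hps t ht]
      exact h2.1
    · rw [hL]
      show l t.1 (φ.symm (p t)) = t.2
      rw [hps t ht]
      exact h2.2
  -- derivative of the identity
  have hder : ∀ t ∈ W1, ‖t.2‖ < δ' → ∀ b : E,
      fderiv ℂ L (t.1, p t) (0, A t b) = b := by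
    intro t ht hδ b
    have hpD : HasFDerivAt p (fderiv ℂ p t) t :=
      (hpd.differentiableAt (hW1o.mem_nhds ht)).hasFDerivAt
    have hLD : HasFDerivAt L (fderiv ℂ L (t.1, p t)) (t.1, p t) :=
      (hLd.differentiableAt (hW2o.mem_nhds (hid t ht hδ).1)).hasFDerivAt
    have hline : HasDerivAt (fun ζ : ℂ => ((t.1, t.2 + ζ • b) : ℂ × E)) ((0 : ℂ), b) 0 := by
      have h1 : HasDerivAt (fun ζ : ℂ => t.2 + ζ • b) b 0 := by
        have := ((hasDerivAt_id (0 : ℂ)).smul_const b).const_add t.2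
        simpa using this
      exact (hasDerivAt_const (0 : ℂ) t.1).prodMk h1
    have hline0 : ((t.1, t.2 + (0 : ℂ) • b) : ℂ × E) = t := by simp
    have h2 : HasDerivAt (fun ζ : ℂ => p (t.1, t.2 + ζ • b)) (A t b) 0 := by
      have h3 : HasFDerivAt p (fderiv ℂ p t) ((t.1, t.2 + (0 : ℂ) • b) : ℂ × E) := by
        rw [hline0]
        exact hpD
      rw [hA]
      exact h3.comp_hasDerivAt (0 : ℂ) hline
    have h4 : HasDerivAt (fun ζ : ℂ => ((t.1, p (t.1, t.2 + ζ • b)) : ℂ × E))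
        ((0 : ℂ), A t b) 0 := (hasDerivAt_const (0 : ℂ) t.1).prodMk h2
    have h5 : HasDerivAt (fun ζ : ℂ => L (t.1, p (t.1, t.2 + ζ • b)))
        (fderiv ℂ L (t.1, p t) (0, A t b)) 0 := by
      have h6 : HasFDerivAt L (fderiv ℂ L (t.1, p t))
          ((t.1, p (t.1, t.2 + (0 : ℂ) • b)) : ℂ × E) := by
        rw [hline0]
        exact hLD
      exact h6.comp_hasDerivAt (0 : ℂ) h4
    have h7 : HasDerivAt (fun ζ : ℂ => t.2 + ζ • b) b 0 := by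
      have := ((hasDerivAt_id (0 : ℂ)).smul_const b).const_add t.2
      simpa using this
    have hev : ∀ᶠ ζ : ℂ in 𝓝 0, ((t.1, t.2 + ζ • b) : ℂ × E) ∈ W1 ∧ ‖t.2 + ζ • b‖ < δ' := by
      have hc1 : ContinuousAt (fun ζ : ℂ => ((t.1, t.2 + ζ • b) : ℂ × E)) 0 := hline.continuousAt
      have hc2 : ContinuousAt (fun ζ : ℂ => ‖t.2 + ζ • b‖) 0 := h7.continuousAt.norm
      refine (hc1.eventually_mem ?_).and (hc2.eventually_lt_const ?_)
      · rw [hline0]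
        exact hW1o.mem_nhds ht
      · simpa using hδ
    have h8 : (fun ζ : ℂ => L (t.1, p (t.1, t.2 + ζ • b))) =ᶠ[𝓝 0] fun ζ : ℂ => t.2 + ζ • b := by
      filter_upwards [hev] with ζ hζ
      exact (hid _ hζ.1 hζ.2).2
    exact (h5.congr_of_eventuallyEq h8.symm).unique h7
  -- the maps on the product
  obtain ⟨T, hT⟩ : ∃ T : ℂ × (ℂ × E × E) → ℂ × E, T = fun m => (m.2.1, m.2.2.1) := ⟨_, rfl⟩
  have hTd : Differentiable ℂ T := by
    rw [hT]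
    fun_prop
  obtain ⟨O1, hO1⟩ : ∃ O1 : Set (ℂ × (ℂ × E × E)), O1 = T ⁻¹' W1 := ⟨_, rfl⟩
  have hO1o : IsOpen O1 := by
    rw [hO1]
    exact hW1o.preimage hTd.continuous
  have hO1m : ∀ m ∈ O1, T m ∈ W1 := by
    intro m hm
    rw [hO1] at hm
    exact hm
  obtain ⟨G, hG⟩ : ∃ G : ℂ × (ℂ × E × E) → ℂ × E × E,
    G = fun m => (m.1, p (T m), A (T m) m.2.2.2) := ⟨_, rfl⟩
  have hPd : DifferentiableOn ℂ (fun m => p (T m)) O1 :=
    hpd.comp hTd.differentiableOn hO1m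
  have hAd : DifferentiableOn ℂ (fun m : ℂ × (ℂ × E × E) => A (T m) m.2.2.2) O1 := by
    rw [hA]
    have h1 : DifferentiableOn ℂ (fun m => fderiv ℂ p (T m)) O1 :=
      (ApiC.differentiableOn_fderiv hW1o hpd).comp hTd.differentiableOn hO1m
    refine h1.clm_apply ?_
    have h2 : Differentiable ℂ fun m : ℂ × (ℂ × E × E) => ((0 : ℂ), m.2.2.2) := by fun_prop
    exact h2.differentiableOn
  have hGd : DifferentiableOn ℂ G O1 := by
    rw [hG]
    exact differentiableOn_fst.prodMk (hPd.prodMk hAd)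
  obtain ⟨O2, hO2⟩ : ∃ O2 : Set (ℂ × (ℂ × E × E)), O2 =
    O1 ∩ G ⁻¹' (ball (0 : ℂ) ρ1 ×ˢ (ball (φ (v c)) δ1 ×ˢ ball (0 : E) δ1)) := ⟨_, rfl⟩
  have hO2o : IsOpen O2 := by
    rw [hO2]
    exact hGd.continuousOn.isOpen_inter_preimage hO1o (isOpen_ball.prod (isOpen_ball.prod isOpen_ball))
  have hO21 : O2 ⊆ O1 := by
    rw [hO2]
    exact inter_subset_left
  have hO2G : ∀ m ∈ O2, G m ∈ ball (0 : ℂ) ρ1 ×ˢ (ball (φ (v c)) δ1 ×ˢ ball (0 : E) δ1) := by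
    intro m hm
    rw [hO2] at hm
    exact hm.2
  obtain ⟨Y, hY⟩ : ∃ Y : ℂ × (ℂ × E × E) → E, Y = fun m => p (T m) + m.1 • A (T m) m.2.2.2 +
    m.1 ^ 2 • Psi m.1 (p (T m)) (A (T m) m.2.2.2) := ⟨_, rfl⟩
  have hYd : DifferentiableOn ℂ Y O2 := by
    rw [hY]
    refine ((hPd.mono hO21).add (differentiableOn_fst.smul (hAd.mono hO21))).add
      ((differentiableOn_fst.pow 2).smul ?_)
    have h1 := hF.holPsi.comp (hGd.mono hO21) hO2G
    rw [hG] at h1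
    exact h1
  obtain ⟨O3, hO3⟩ : ∃ O3 : Set (ℂ × (ℂ × E × E)), O3 =
    O2 ∩ (fun m : ℂ × (ℂ × E × E) => (m.2.1, Y m)) ⁻¹' W2 := ⟨_, rfl⟩
  have hHd : DifferentiableOn ℂ (fun m : ℂ × (ℂ × E × E) => (m.2.1, Y m)) O2 := by
    have h1 : Differentiable ℂ fun m : ℂ × (ℂ × E × E) => m.2.1 := by fun_prop
    exact h1.differentiableOn.prodMk hYd
  have hO3o : IsOpen O3 := by
    rw [hO3]
    exact hHd.continuousOn.isOpen_inter_preimage hO2o hW2o
  have hO4o : IsOpen (O3 ∩ {m : ℂ × (ℂ × E × E) | ‖m.2.2.1‖ < δ'}) := by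
    refine hO3o.inter (isOpen_lt ?_ continuous_const)
    fun_prop
  have hc0 : ((c, 0) : ℂ × E) ∈ W1 := by
    rw [hW1m]
    refine ⟨hc, ?_, ?_⟩
    · rw [norm_zero]
      exact hs.pos
    · show s c 0 ∈ φ.source
      rw [hs.zero c hc]
      exact hvc
  have hpc : p (c, 0) = φ (v c) := by
    rw [hp]
    show φ (s c 0) = φ (v c)
    rw [hs.zero c hc]
  have hm0 : ((0, (c, 0, 0)) : ℂ × (ℂ × E × E)) ∈ O3 ∩ {m : ℂ × (ℂ × E × E) | ‖m.2.2.1‖ < δ'} := by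
    have hT0 : T (0, (c, 0, 0)) = (c, 0) := by rw [hT]
    have hA0 : A (c, 0) (0 : E) = 0 := by
      rw [hA]
      show fderiv ℂ p (c, 0) (0, 0) = 0
      exact map_zero _
    have hY0 : Y (0, (c, 0, 0)) = φ (v c) := by
      rw [hY]
      show p (T (0, (c, 0, 0))) + (0 : ℂ) • _ + (0 : ℂ) ^ 2 • _ = φ (v c)
      rw [hT0, hpc, zero_smul, zero_pow two_ne_zero, zero_smul, add_zero, add_zero]
    refine ⟨?_, ?_⟩
    · rw [hO3]
      refine ⟨?_, ?_⟩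
      · rw [hO2]
        refine ⟨?_, ?_⟩
        · rw [hO1]
          show T (0, (c, 0, 0)) ∈ W1
          rw [hT0]
          exact hc0
        · rw [hG]
          show ((0 : ℂ), p (T (0, (c, 0, 0))), A (T (0, (c, 0, 0))) 0) ∈
            ball (0 : ℂ) ρ1 ×ˢ (ball (φ (v c)) δ1 ×ˢ ball (0 : E) δ1)
          rw [hT0, hpc, hA0]
          exact ⟨mem_ball_self hF.rpos, mem_ball_self hF.dpos, mem_ball_self hF.dpos⟩
      · show (c, Y (0, (c, 0, 0))) ∈ W2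
        rw [hY0, hW2m]
        refine ⟨hc, φ.map_source hvc, ?_⟩
        show dist (φ.symm (φ (v c))) (v c) < κ
        rw [φ.left_inv hvc, dist_self]
        exact hl.kpos
    · show ‖(0 : E)‖ < δ'
      rw [norm_zero]
      exact hl.dpos
  obtain ⟨η, hη0, hη⟩ := Metric.isOpen_iff.1 hO4o _ hm0
  have hin : ∀ m ∈ ball (0 : ℂ) η ×ˢ (ball c η ×ˢ (ball (0 : E) η ×ˢ ball (0 : E) η)),
      m ∈ O3 ∩ {m : ℂ × (ℂ × E × E) | ‖m.2.2.1‖ < δ'} := by
    intro m hm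
    apply hη
    rw [← ball_prod_same, ← ball_prod_same, ← ball_prod_same]
    exact hm
  have hin2 : ∀ m ∈ ball (0 : ℂ) η ×ˢ (ball c η ×ˢ (ball (0 : E) η ×ˢ ball (0 : E) η)),
      m ∈ O2 := by
    intro m hm
    have h1 := (hin m hm).1
    rw [hO3] at h1
    exact h1.1
  have hin3 : ∀ m ∈ ball (0 : ℂ) η ×ˢ (ball c η ×ˢ (ball (0 : E) η ×ˢ ball (0 : E) η)),
      (m.2.1, Y m) ∈ W2 := by
    intro m hm
    have h1 := (hin m hm).1
    rw [hO3] at h1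
    exact h1.2
  have hPo : IsOpen (ball c η ×ˢ (ball (0 : E) η ×ˢ ball (0 : E) η)) :=
    isOpen_ball.prod (isOpen_ball.prod isOpen_ball)
  -- the function to be divided
  obtain ⟨f, hf⟩ : ∃ f : ℂ → (ℂ × E × E) → E,
    f = fun ζ n => L (n.1, Y (ζ, n)) - n.2.1 - ζ • n.2.2 := ⟨_, rfl⟩
  have hfd : DifferentiableOn ℂ (fun m : ℂ × (ℂ × E × E) => f m.1 m.2)
      (ball (0 : ℂ) η ×ˢ (ball c η ×ˢ (ball (0 : E) η ×ˢ ball (0 : E) η))) := by
    rw [hf]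
    have h1 : DifferentiableOn ℂ (fun m : ℂ × (ℂ × E × E) => L (m.2.1, Y m))
        (ball (0 : ℂ) η ×ˢ (ball c η ×ˢ (ball (0 : E) η ×ˢ ball (0 : E) η))) :=
      hLd.comp (hHd.mono hin2) hin3
    have h2 : Differentiable ℂ fun m : ℂ × (ℂ × E × E) => m.2.2.1 := by fun_prop
    have h3 : Differentiable ℂ fun m : ℂ × (ℂ × E × E) => m.1 • m.2.2.2 := by fun_prop
    exact (h1.sub h2.differentiableOn).sub h3.differentiableOn
  have hLb : ∀ t ∈ W2, ‖L t‖ < δ ∧ s t.1 (L t) = φ.symm t.2 := by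
    intro t ht
    have h1 := (hW2m t).1 ht
    have h2 := hl.right t.1 h1.1 (φ.symm t.2) h1.2.2
    rw [hL]
    exact h2
  have hfM : ∀ ζ ∈ ball (0 : ℂ) η, ∀ n ∈ ball c η ×ˢ (ball (0 : E) η ×ˢ ball (0 : E) η),
      ‖f ζ n‖ ≤ δ + η + η * η := by
    intro ζ hζ n hn
    have h1 := (hLb _ (hin3 (ζ, n) ⟨hζ, hn⟩)).1
    have h2 : ‖n.2.1‖ < η := mem_ball_zero_iff.1 hn.2.1
    have h3 : ‖n.2.2‖ < η := mem_ball_zero_iff.1 hn.2.2
    have h4 : ‖ζ‖ < η := mem_ball_zero_iff.1 hζ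
    have h5 : ‖ζ • n.2.2‖ ≤ η * η := by
      rw [norm_smul]
      exact mul_le_mul h4.le h3.le (norm_nonneg _) hη0.le
    have h6 : ‖f ζ n‖ ≤ ‖L (n.1, Y (ζ, n))‖ + ‖n.2.1‖ + ‖ζ • n.2.2‖ := by
      rw [hf]
      exact (norm_sub_le _ _).trans (by gcongr; exact norm_sub_le _ _)
    have h7 : ‖L (n.1, Y (ζ, n))‖ < δ := h1
    linarith
  have hY00 : ∀ n : ℂ × E × E, Y (0, n) = p (T (0, n)) := by
    intro n
    rw [hY]
    show p (T (0, n)) + (0 : ℂ) • _ + (0 : ℂ) ^ 2 • _ = _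
    rw [zero_smul, zero_pow two_ne_zero, zero_smul, add_zero, add_zero]
  have hWn : ∀ n ∈ ball c η ×ˢ (ball (0 : E) η ×ˢ ball (0 : E) η),
      ((n.1, n.2.1) : ℂ × E) ∈ W1 ∧ ‖n.2.1‖ < δ' := by
    intro n hn
    have hm : ((0 : ℂ), n) ∈ ball (0 : ℂ) η ×ˢ (ball c η ×ˢ (ball (0 : E) η ×ˢ ball (0 : E) η)) :=
      ⟨mem_ball_self hη0, hn⟩
    have h1 := hO1m _ (hO21 (hin2 _ hm))
    rw [hT] at h1
    exact ⟨h1, (hin _ hm).2⟩
  have hTn : ∀ (ζ : ℂ) (n : ℂ × E × E), T (ζ, n) = (n.1, n.2.1) := by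
    intro ζ n
    rw [hT]
  have hf0 : ∀ n ∈ ball c η ×ˢ (ball (0 : E) η ×ˢ ball (0 : E) η), f 0 n = 0 := by
    intro n hn
    obtain ⟨h1, h2⟩ := hWn n hn
    have h3 := (hid _ h1 h2).2
    rw [hf]
    show L (n.1, Y (0, n)) - n.2.1 - (0 : ℂ) • n.2.2 = 0
    rw [hY00, hTn]
    rw [zero_smul, sub_zero]
    exact sub_eq_zero.2 h3
  have hf1 : ∀ n ∈ ball c η ×ˢ (ball (0 : E) η ×ˢ ball (0 : E) η),
      deriv (fun ζ => f ζ n) 0 = 0 := by
    intro n hn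
    obtain ⟨h1, h2⟩ := hWn n hn
    have hm : ((0 : ℂ), n) ∈ ball (0 : ℂ) η ×ˢ (ball c η ×ˢ (ball (0 : E) η ×ˢ ball (0 : E) η)) :=
      ⟨mem_ball_self hη0, hn⟩
    have hGm := hO2G _ (hin2 _ hm)
    rw [hG] at hGm
    have hPsid : DifferentiableAt ℂ (fun ζ : ℂ => Psi ζ (p (T (0, n))) (A (T (0, n)) n.2.2)) 0 := by
      have e1 : DifferentiableAt ℂ (fun q : ℂ × E × E => Psi q.1 q.2.1 q.2.2)
          ((0 : ℂ), p (T (0, n)), A (T (0, n)) n.2.2) :=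
        hF.holPsi.differentiableAt ((isOpen_ball.prod (isOpen_ball.prod isOpen_ball)).mem_nhds hGm)
      have e2 : DifferentiableAt ℂ (fun ζ : ℂ => (ζ, p (T (0, n)), A (T (0, n)) n.2.2)) 0 := by
        fun_prop
      exact e1.comp (0 : ℂ) e2
    have hYder : HasDerivAt (fun ζ : ℂ => Y (ζ, n)) (A (n.1, n.2.1) n.2.2) 0 := by
      have e1 : HasDerivAt (fun ζ : ℂ => p (n.1, n.2.1) + ζ • A (n.1, n.2.1) n.2.2)
          (A (n.1, n.2.1) n.2.2) 0 := by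
        have := ((hasDerivAt_id (0 : ℂ)).smul_const (A (n.1, n.2.1) n.2.2)).const_add
          (p (n.1, n.2.1))
        simpa using this
      have e2 : HasDerivAt (fun ζ : ℂ => ζ ^ 2 • Psi ζ (p (T (0, n))) (A (T (0, n)) n.2.2))
          0 0 := by
        have e3 : HasDerivAt
            (fun ζ : ℂ => ζ ^ 2 • Psi ζ (p (T (0, n))) (A (T (0, n)) n.2.2)) _ 0 :=
          (hasDerivAt_pow 2 (0 : ℂ)).smul hPsid.hasDerivAt
        refine e3.congr_deriv ?_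
        simp
      have e4 := e1.add e2
      rw [add_zero] at e4
      rw [hTn] at e4
      refine e4.congr_of_eventuallyEq (Eventually.of_forall fun ζ => ?_)
      rw [hY]
      show p (T (ζ, n)) + ζ • A (T (ζ, n)) n.2.2 + ζ ^ 2 • Psi ζ (p (T (ζ, n))) (A (T (ζ, n)) n.2.2) = _
      rw [hTn]
      rfl
    have hline : HasDerivAt (fun ζ : ℂ => ((n.1, Y (ζ, n)) : ℂ × E)) ((0 : ℂ), A (n.1, n.2.1) n.2.2)
        0 := (hasDerivAt_const (0 : ℂ) n.1).prodMk hYder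
    have hYn : Y (0, n) = p (n.1, n.2.1) := by rw [hY00, hTn]
    have hLD : HasFDerivAt L (fderiv ℂ L (n.1, p (n.1, n.2.1))) (n.1, Y (0, n)) := by
      rw [hYn]
      exact (hLd.differentiableAt (hW2o.mem_nhds (hid _ h1 h2).1)).hasFDerivAt
    have h5 : HasDerivAt (fun ζ : ℂ => L (n.1, Y (ζ, n))) n.2.2 0 := by
      have h6 := hLD.comp_hasDerivAt (0 : ℂ) hline
      have h7 := hder _ h1 h2 n.2.2
      rw [h7] at h6
      exact h6
    have h8 : HasDerivAt (fun ζ : ℂ => ζ • n.2.2) n.2.2 0 := by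
      have := (hasDerivAt_id (0 : ℂ)).smul_const n.2.2
      simpa using this
    have h9 : HasDerivAt (fun ζ : ℂ => f ζ n) 0 0 := by
      rw [hf]
      have := (h5.sub_const n.2.1).sub h8
      rw [sub_self] at this
      exact this
    exact h9.deriv
  obtain ⟨Ups, hU1, hU2, hU3⟩ := ApiC.exists_div_sq hη0 hPo hfd hfM hf0 hf1
  refine ⟨η, η, η, (δ + η + η * η) / η ^ 2,
    fun e z w b => Lam e (p (z, w)) (A (z, w) b), fun ζ z w b => Ups ζ (z, w, b), ?_, ?_⟩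
  · have := hs.pos
    positivity
  · refine ⟨hη0, hη0, hη0, ?_, hU1, fun ζ hζ z hz w hw b hb => hU2 ζ hζ _ ⟨hz, hw, hb⟩, ?_⟩
    · have h1 : DifferentiableOn ℂ (fun q : ℂ × ℂ × E × E => (q.1, p (q.2.1, q.2.2.1),
          A (q.2.1, q.2.2.1) q.2.2.2))
          (univ ×ˢ (ball c η ×ˢ (ball (0 : E) η ×ˢ ball (0 : E) η))) := by
        have h2 : DifferentiableOn ℂ G {m : ℂ × (ℂ × E × E) | T m ∈ W1} := by
          rw [hO1] at hGd
          exact hGd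
        rw [hG, hT] at h2
        refine h2.mono fun m hm => ?_
        exact (hWn m.2 hm.2).1
      refine hF.hol.comp ((mdifferentiableOn_iff_differentiableOn).2 h1) fun m hm => ?_
      have h3 := hO2G _ (hin2 ((0 : ℂ), m.2) ⟨mem_ball_self hη0, hm.2⟩)
      rw [hG] at h3
      have h4 : (p (T ((0 : ℂ), m.2)), A (T ((0 : ℂ), m.2)) m.2.2.2) ∈
          ball (φ (v c)) δ1 ×ˢ ball (0 : E) δ1 := h3.2
      rw [hTn] at h4
      exact ⟨mem_univ _, h4⟩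
    · intro ζ hζ hζ0 z hz w hw b hb
      have hm : (ζ, (z, w, b)) ∈ ball (0 : ℂ) η ×ˢ (ball c η ×ˢ (ball (0 : E) η ×ˢ ball (0 : E) η)) :=
        ⟨hζ, hz, hw, hb⟩
      have h1 := hLb _ (hin3 _ hm)
      have h2 := hU3 ζ hζ (z, w, b) ⟨hz, hw, hb⟩
      have h3 : w + ζ • b + ζ ^ 2 • Ups ζ (z, w, b) = L (z, Y (ζ, (z, w, b))) := by
        rw [← h2, hf]
        show w + ζ • b + (L (z, Y (ζ, (z, w, b))) - w - ζ • b) = _
        abel
      have hGm := hO2G _ (hin2 _ hm)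
      rw [hG] at hGm
      have h4 := hF.eq ζ hGm.1 hζ0 (p (T (ζ, (z, w, b)))) hGm.2.1 (A (T (ζ, (z, w, b))) b) hGm.2.2
      have h5 : φ (Lam ζ⁻¹ (p (T (ζ, (z, w, b)))) (A (T (ζ, (z, w, b))) b)) = Y (ζ, (z, w, b)) := by
        rw [h4.2, hY]
      have h6 : φ.symm (Y (ζ, (z, w, b))) =
          Lam ζ⁻¹ (p (T (ζ, (z, w, b)))) (A (T (ζ, (z, w, b))) b) := by
        rw [← h5]
        exact φ.left_inv h4.1
      rw [h3]
      refine ⟨h1.1, ?_⟩
      have h7 : s z (L (z, Y (ζ, (z, w, b)))) = φ.symm (Y (ζ, (z, w, b))) := h1.2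
      rw [h7, h6, hTn]

end Pool.Agent.W_4d259d_h44
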