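import Pool.Agent.W_4d259d_h44.GrDefs
import Pool.Agent.W_4d259d_h44.ApiA
import Pool.Agent.W_4d259d_h44.ApiB
import Pool.Agent.W_4d259d_h46.PlAnnB

/-!
# MP_4d259d_ag, BLOCK GR (section 16): the annulus lemma as operators
-/

noncomputable section

set_option linter.unusedSectionVars false

namespace Pool.Agent.W_4d259d_h44

open Set Filter Topology Manifold Metric MeasureTheory TopologicalSpace
open scoped ContDiff OnePoint BoundedContinuousFunction
open Pool.Agent.W_4d259d_h46.Defs Pool.Agent.W_4d259d_h46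

variable {E : Type} [NormedAddCommGroup E] [NormedSpace ℂ E] [FiniteDimensional ℂ E]

theorem annHyp29 (c : ℂ) {r : ℝ} (hr : 0 < r) (y : HB (annAt c (r / 4) r) E) :
    Pl.AnnHyp c r ‖y‖ y.fn :=
  ⟨hr, holOn_iff_plane.1 y.fn_hol, fun z _ => y.fn_le z⟩

theorem am_smul29 (c : ℂ) (r : ℝ) (a : ℂ) (y : ℂ → E) (z : ℂ) :
    Pl.am c r (fun w => a • y w) z = a • Pl.am c r y z := by
  unfold Pl.am
  have : (fun w => (w - z)⁻¹ • a • y w) = fun w => a • ((w - z)⁻¹ • y w) := by
    funext w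
    rw [smul_comm]
  rw [this, circleIntegral.integral_smul, smul_neg, smul_comm]

theorem ap_smul29 (c : ℂ) (r : ℝ) (a : ℂ) (y : ℂ → E) (z : ℂ) :
    Pl.ap c r (fun w => a • y w) z = a • Pl.ap c r y z := by
  unfold Pl.ap
  split_ifs
  · have : (fun w => (w - z)⁻¹ • a • y w) = fun w => a • ((w - z)⁻¹ • y w) := by
      funext w
      rw [smul_comm]
    rw [this, circleIntegral.integral_smul, smul_comm]
  · rw [am_smul29, smul_sub]

/-- The annulus lemma as bounded operators between `HB` spaces (from `am`, `ap` of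
W_4d259d_h46/PlAnn, PlAnnB and `exists_clm`; on `3r/8 < |z-c| < r` the outer part is bounded by
`‖y - y⁺‖ ≤ 6 ‖y‖`, farther out by `ann_am_le`). -/
theorem ann_ops (c : ℂ) {r : ℝ} (hr : 0 < r) :
    ∃ (Pp : HB (annAt c (r / 4) r) E →L[ℂ] HB (discAt c r) E)
      (Pm : HB (annAt c (r / 4) r) E →L[ℂ] HB (extAt c (3 * r / 8)) E), ‖Pp‖ ≤ 5 ∧ ‖Pm‖ ≤ 6 ∧
      ∀ y : HB (annAt c (r / 4) r) E, ∀ z ∈ annAt c (3 * r / 8) r,
        y.fn z = (Pp y).fn z + (Pm y).fn z := by
  have hadd : ∀ y y' : HB (annAt c (r / 4) r) E, ∀ z ∈ Pl.ann c r,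
      y.fn z = (fun w => (y + y').fn w - y'.fn w) z := by
    intro y y' z _
    simp only [HB.fn_add]
    rw [add_sub_cancel_right]
  have hsm : ∀ (a : ℂ) (y : HB (annAt c (r / 4) r) E), (a • y).fn = fun w => a • y.fn w := by
    intro a y
    funext w
    rw [HB.fn_smul]
  obtain ⟨Pp, hPp, hPp'⟩ := exists_clm (V := discAt c r)
    (fun (y : HB (annAt c (r / 4) r) E) => Pl.ap c r y.fn)
    (fun y => holOn_iff_plane.2 (Pl.ann_ap_hol (annHyp29 c hr y)))
    (fun y y' z hz => by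
      have h1 := Pl.ann_ap_congr hr (hadd y y') hz
      rw [Pl.ann_ap_sub (annHyp29 c hr (y + y')) (annHyp29 c hr y') hz] at h1
      rw [h1, sub_add_cancel])
    (fun a y z _ => by
      rw [hsm, ap_smul29])
    5 (by norm_num) (fun y z hz => Pl.ann_ap_le (annHyp29 c hr y) hz)
  obtain ⟨Pm, hPm, hPm'⟩ := exists_clm (V := extAt c (3 * r / 8))
    (fun (y : HB (annAt c (r / 4) r) E) => Pl.am c r y.fn)
    (fun y => holOn_iff_plane.2 (Pl.ann_am_hol (annHyp29 c hr y)))
    (fun y y' z hz => by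
      have h1 := Pl.ann_am_congr hr (hadd y y') z
      rw [Pl.ann_am_sub (annHyp29 c hr (y + y')) (annHyp29 c hr y') hz] at h1
      rw [h1, sub_add_cancel])
    (fun a y z _ => by
      rw [hsm, am_smul29])
    6 (by norm_num) (fun y z hz => by
      have hz' : 3 * r / 8 < ‖z - c‖ := hz
      have hA := annHyp29 c hr y
      rcases lt_or_ge ‖z - c‖ r with h1 | h1
      · have h2 := Pl.ann_split hA hz' h1
        have h3 : Pl.am c r y.fn z = y.fn z - Pl.ap c r y.fn z := by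
          rw [h2, add_sub_cancel_left]
        have h4 : ‖Pl.ap c r y.fn z‖ ≤ 5 * ‖y‖ :=
          Pl.ann_ap_le hA (by rw [mem_ball, dist_eq_norm]; exact h1)
        rw [h3]
        refine (norm_sub_le _ _).trans ?_
        have := y.fn_le z
        linarith
      · refine (Pl.ann_am_le hA (by linarith)).trans ?_
        rw [div_le_iff₀ (hr.trans_le h1)]
        have h5 := norm_nonneg y
        have h6 : ‖y‖ * r ≤ ‖y‖ * ‖z - c‖ := mul_le_mul_of_nonneg_left h1 h5
        nlinarith [mul_nonneg h5 (norm_nonneg (z - c))])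
  refine ⟨Pp, Pm, hPp, hPm, fun y z hz => ?_⟩
  have hz' : 3 * r / 8 < ‖z - c‖ ∧ ‖z - c‖ < r := hz
  rw [hPp' y z (by show z ∈ ball c r; rw [mem_ball, dist_eq_norm]; exact hz'.2), hPm' y z hz'.1]
  exact Pl.ann_split (annHyp29 c hr y) hz'.1 hz'.2

end Pool.Agent.W_4d259d_h44
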