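import Pool.Agent.W_4d259d_h44.GrDefs
import Pool.Agent.W_4d259d_h44.ApiD

/-!
# MP_4d259d_ag, BLOCK GR (section 16): the graft operator
-/

noncomputable section

set_option linter.unusedSectionVars false

namespace Pool.Agent.W_4d259d_h44

open Set Filter Topology Manifold Metric MeasureTheory TopologicalSpace
open scoped ContDiff OnePoint BoundedContinuousFunction
open Pool.Agent.W_4d259d_h46.Defs Pool.Agent.W_4d259d_h46

variable {E : Type} [NormedAddCommGroup E] [NormedSpace ℂ E] [FiniteDimensional ℂ E]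
variable {X : Type} [MetricSpace X] [ChartedSpace E X] [IsManifold (modelWithCornersSelf ℂ E) ω X]

/-- the map `ξ` of the graft is holomorphic on `U × B`. -/
theorem graft_hol2 {s : ℂ → E → X} {δ : ℝ} {c : ℂ} {r ρ κ M : ℝ} {LL : ℂ → ℂ → E → E → X}
    {Ups : ℂ → ℂ → E → E → E} (h : GraftFam s δ c r ρ κ M LL Ups) {ε : ℝ} (hε : 0 < ε)
    (hερ : 4 * ε / r < ρ) :
    HolOn2 E (fun (z : ℂ) (x : E × E) =>
      ((ε : ℂ) / (z - c)) ^ 2 • Ups ((ε : ℂ) / (z - c)) z x.1 x.2)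
      (annAt c (r / 4) r : Set ℂ) (ball (0 : E × E) κ) := by
  have hr := h.rpos
  have hG : MDifferentiableOn (modelWithCornersSelf ℂ (ℂ × ℂ × E × E)) (modelWithCornersSelf ℂ E)
      (fun q : ℂ × ℂ × E × E => q.1 ^ 2 • Ups q.1 q.2.1 q.2.2.1 q.2.2.2)
      (ball 0 ρ ×ˢ (ball c r ×ˢ (ball 0 κ ×ˢ ball 0 κ))) := by
    rw [mdifferentiableOn_iff_differentiableOn]
    exact ((differentiable_fst.pow 2).differentiableOn).smul h.holU
  have h1 : MDifferentiableOn ((modelWithCornersSelf ℂ ℂ).prod (modelWithCornersSelf ℂ (E × E)))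
      (modelWithCornersSelf ℂ ℂ) (fun q : ℂ × (E × E) => (ε : ℂ) / (q.1 - c))
      ((annAt c (r / 4) r : Set ℂ) ×ˢ ball (0 : E × E) κ) := by
    have g2 : MDifferentiableOn (modelWithCornersSelf ℂ ℂ) (modelWithCornersSelf ℂ ℂ)
        (fun z : ℂ => (ε : ℂ) / (z - c)) (annAt c (r / 4) r : Set ℂ) := by
      rw [mdifferentiableOn_iff_differentiableOn]
      intro z hz
      have hz' : r / 4 < ‖z - c‖ ∧ ‖z - c‖ < r := hz
      have hz0 : z - c ≠ 0 := norm_pos_iff.1 ((by positivity : 0 < r / 4).trans hz'.1)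
      exact ((differentiableAt_const _).div (differentiableAt_id.sub_const c)
        hz0).differentiableWithinAt
    exact g2.comp mdifferentiable_fst.mdifferentiableOn (fun q hq => hq.1)
  have h2 : MDifferentiableOn ((modelWithCornersSelf ℂ ℂ).prod (modelWithCornersSelf ℂ (E × E)))
      (modelWithCornersSelf ℂ ℂ) (fun q : ℂ × (E × E) => q.1)
      ((annAt c (r / 4) r : Set ℂ) ×ˢ ball (0 : E × E) κ) :=
    mdifferentiable_fst.mdifferentiableOn
  have h3 : MDifferentiableOn ((modelWithCornersSelf ℂ ℂ).prod (modelWithCornersSelf ℂ (E × E)))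
      (modelWithCornersSelf ℂ (E × E)) (fun q : ℂ × (E × E) => q.2)
      ((annAt c (r / 4) r : Set ℂ) ×ˢ ball (0 : E × E) κ) :=
    mdifferentiable_snd.mdifferentiableOn
  have h4 := h1.prodMk_space (h2.prodMk_space h3)
  have hmaps : MapsTo (fun q : ℂ × (E × E) => (((ε : ℂ) / (q.1 - c), q.1, q.2) : ℂ × ℂ × E × E))
      ((annAt c (r / 4) r : Set ℂ) ×ˢ ball (0 : E × E) κ)
      (ball 0 ρ ×ˢ (ball c r ×ˢ (ball 0 κ ×ˢ ball 0 κ))) := by
    rintro ⟨z, x⟩ ⟨hz, hx⟩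
    have hz' : r / 4 < ‖z - c‖ ∧ ‖z - c‖ < r := hz
    have hx' : ‖x‖ < κ := mem_ball_zero_iff.1 hx
    rw [Prod.norm_def, max_lt_iff] at hx'
    refine ⟨?_, ?_, mem_ball_zero_iff.2 hx'.1, mem_ball_zero_iff.2 hx'.2⟩
    · rw [mem_ball_zero_iff, norm_div, Complex.norm_real, Real.norm_of_nonneg hε.le]
      refine lt_trans ?_ hερ
      have hz0 : 0 < ‖z - c‖ := (by positivity : 0 < r / 4).trans hz'.1
      rw [div_lt_div_iff₀ hz0 hr]
      nlinarith [hz'.1]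
    · show z ∈ ball c r
      rw [mem_ball, dist_eq_norm]
      exact hz'.2
  exact hG.comp h4 hmaps

/-- The operator `(om, β) ↦ (ε/(z-c))² Ups (ε/(z-c)) z (om z) (β/ε)` on the annulus
`r/4 < |z-c| < r`: complex differentiable, of size `C ε²`, Lipschitz with constant `C ε`, with `C`
independent of `ε`.
Proof: `ApiD.nem` on `U = annAt c (r/4) r` for the map `ξ z (w,β) = ...` of `E × E` (so that the
argument is the `HB` map `z ↦ (om z, β)`), after the bounded linear map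
`HB (discAt c r) E × E → HB (annAt c (r/4) r) (E × E)`; bounds: `|ε/(z-c)| ≤ 4ε/r`; Lipschitz:
Cauchy estimate for `Ups` on the half balls (`ApiC.lip_of_bound`). -/
theorem graft_op {s : ℂ → E → X} {δ : ℝ} {c : ℂ} {r ρ κ M : ℝ} {LL : ℂ → ℂ → E → E → X}
    {Ups : ℂ → ℂ → E → E → E} (h : GraftFam s δ c r ρ κ M LL Ups) :
    ∃ C > 0, ∀ ε : ℝ, 0 < ε → 4 * ε / r < ρ →
      ∃ Fop : HB (discAt c r) E × E → HB (annAt c (r / 4) r) E,
        (∀ om : HB (discAt c r) E, ∀ β : E, ‖om‖ < κ / 2 → ‖β‖ < κ * ε / 2 →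
          ∀ z ∈ annAt c (r / 4) r, (Fop (om, β)).fn z =
            ((ε : ℂ) / (z - c)) ^ 2 • Ups ((ε : ℂ) / (z - c)) z (om.fn z) ((ε : ℂ)⁻¹ • β)) ∧
        DifferentiableOn ℂ Fop (ball 0 (κ / 2) ×ˢ ball 0 (κ * ε / 2)) ∧
        (∀ om : HB (discAt c r) E, ∀ β : E, ‖om‖ < κ / 2 → ‖β‖ < κ * ε / 2 →
          ‖Fop (om, β)‖ ≤ C * ε ^ 2) ∧
        (∀ om om' : HB (discAt c r) E, ∀ β β' : E, ‖om‖ < κ / 2 → ‖β‖ < κ * ε / 2 →
          ‖om'‖ < κ / 2 → ‖β'‖ < κ * ε / 2 →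
          ‖Fop (om, β) - Fop (om', β')‖ ≤ C * ε ^ 2 * ‖om - om'‖ + C * ε * ‖β - β'‖) := by
  have hr := h.rpos
  have hκ := h.kpos
  have hM : 0 ≤ M := (norm_nonneg _).trans (h.bound 0 (mem_ball_self h.rhopos) c
    (mem_ball_self hr) 0 (mem_ball_self hκ) 0 (mem_ball_self hκ))
  set C : ℝ := 16 * M / r ^ 2 + 32 * M / (r ^ 2 * κ) + 1 with hC
  have hC1 : 16 * M / r ^ 2 ≤ C := by
    have : 0 ≤ 32 * M / (r ^ 2 * κ) := by positivity
    rw [hC]; linarith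
  have hC2 : 32 * M / (r ^ 2 * κ) ≤ C := by
    have : 0 ≤ 16 * M / r ^ 2 := by positivity
    rw [hC]; linarith
  refine ⟨C, by positivity, ?_⟩
  intro ε hε hερ
  set ξ : ℂ → E × E → E := fun (z : ℂ) (x : E × E) =>
    ((ε : ℂ) / (z - c)) ^ 2 • Ups ((ε : ℂ) / (z - c)) z x.1 x.2 with hξdef
  have hξ : HolOn2 E ξ (annAt c (r / 4) r : Set ℂ) (ball (0 : E × E) κ) := graft_hol2 h hε hερ
  set m : ℝ := (4 * ε / r) ^ 2 * M with hm
  have hm0 : 0 ≤ m := by positivity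
  have hbd : ∀ z ∈ annAt c (r / 4) r, ∀ x ∈ ball (0 : E × E) κ, ‖ξ z x‖ ≤ m := by
    intro z hz x hx
    have hz' : r / 4 < ‖z - c‖ ∧ ‖z - c‖ < r := hz
    have hx' : ‖x‖ < κ := mem_ball_zero_iff.1 hx
    rw [Prod.norm_def, max_lt_iff] at hx'
    have hz0 : 0 < ‖z - c‖ := (by positivity : 0 < r / 4).trans hz'.1
    have hle : ‖(ε : ℂ) / (z - c)‖ ≤ 4 * ε / r := by
      rw [norm_div, Complex.norm_real, Real.norm_of_nonneg hε.le, div_le_div_iff₀ hz0 hr]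
      nlinarith [hz'.1]
    have h5 := h.bound ((ε : ℂ) / (z - c)) (mem_ball_zero_iff.2 (hle.trans_lt hερ)) z
      (by rw [mem_ball, dist_eq_norm]; exact hz'.2) x.1 (mem_ball_zero_iff.2 hx'.1) x.2
      (mem_ball_zero_iff.2 hx'.2)
    rw [hξdef]
    simp only
    rw [norm_smul, norm_pow, hm]
    exact mul_le_mul (pow_le_pow_left₀ (norm_nonneg _) hle 2) h5 (norm_nonneg _) (by positivity)
  obtain ⟨Nop, hN1, hN2, -⟩ := nem (U := annAt c (r / 4) r) (δ := κ) (δ' := κ / 2) (M := m)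
    (by linarith) hξ hbd
  -- the linear map
  set T : HB (discAt c r) E × E → ℂ → E × E := fun y z => (y.1.fn z, (ε : ℂ)⁻¹ • y.2) with hT
  have hann : (annAt c (r / 4) r : Set ℂ) ⊆ discAt c r := by
    intro z hz
    have hz' : r / 4 < ‖z - c‖ ∧ ‖z - c‖ < r := hz
    show z ∈ ball c r
    rw [mem_ball, dist_eq_norm]
    exact hz'.2
  have hεn : ‖(ε : ℂ)⁻¹‖ = ε⁻¹ := by
    rw [norm_inv, Complex.norm_real, Real.norm_of_nonneg hε.le]
  obtain ⟨L, -, hL⟩ := exists_clm (V := annAt c (r / 4) r) T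
    (fun y => holOn_prodMk (holOn_mono y.1.fn_hol hann) (holOn_const _ _))
    (fun y y' z _ => by
      simp only [hT, Prod.mk_add_mk, Prod.fst_add, Prod.snd_add, HB.fn_add, smul_add])
    (fun a y z _ => by
      simp only [hT, Prod.smul_mk, Prod.smul_fst, Prod.smul_snd, HB.fn_smul]
      rw [smul_comm])
    (1 + ε⁻¹) (by positivity)
    (fun y z _ => by
      simp only [hT]
      rw [Prod.norm_def]
      refine max_le ?_ ?_
      · refine (y.1.fn_le z).trans ((norm_fst_le y).trans ?_)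
        have : 0 ≤ ε⁻¹ * ‖y‖ := by positivity
        linarith
      · rw [norm_smul, hεn]
        have h6 := norm_snd_le y
        have : ε⁻¹ * ‖y.2‖ ≤ ε⁻¹ * ‖y‖ := by gcongr
        have := norm_nonneg y
        linarith)
  have hLn : ∀ y : HB (discAt c r) E × E, ‖L y‖ ≤ max ‖y.1‖ (ε⁻¹ * ‖y.2‖) := by
    intro y
    refine HB.norm_le_of (le_max_of_le_left (norm_nonneg _)) fun z hz => ?_
    rw [hL y z hz, Prod.norm_def]
    simp only [hT]
    refine max_le_max (y.1.fn_le z) ?_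
    rw [norm_smul, hεn]
  have hLlt : ∀ om : HB (discAt c r) E, ∀ β : E, ‖om‖ < κ / 2 → ‖β‖ < κ * ε / 2 →
      ‖L (om, β)‖ < κ / 2 := by
    intro om β h7 h8
    refine (hLn _).trans_lt (max_lt h7 ?_)
    simp only
    rw [inv_mul_lt_iff₀ hε]
    linarith
  have hFfn : ∀ om : HB (discAt c r) E, ∀ β : E, ‖om‖ < κ / 2 → ‖β‖ < κ * ε / 2 →
      ∀ z ∈ annAt c (r / 4) r, (Nop (L (om, β))).fn z = ξ z (om.fn z, (ε : ℂ)⁻¹ • β) := by
    intro om β h7 h8 z hz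
    rw [hN1 _ (hLlt om β h7 h8) z hz, hL _ z hz]
  have hmem : ∀ om : HB (discAt c r) E, ∀ β : E, ‖om‖ < κ / 2 → ‖β‖ < κ * ε / 2 → ∀ z : ℂ,
      (om.fn z, (ε : ℂ)⁻¹ • β) ∈ ball (0 : E × E) (κ / 2) := by
    intro om β h7 h8 z
    rw [mem_ball_zero_iff, Prod.norm_def]
    refine max_lt ((om.fn_le z).trans_lt h7) ?_
    simp only
    rw [norm_smul, hεn, inv_mul_lt_iff₀ hε]
    linarith
  refine ⟨fun y => Nop (L y), ?_, ?_, ?_, ?_⟩
  · intro om β h7 h8 z hz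
    rw [hFfn om β h7 h8 z hz]
  · refine hN2.comp L.differentiable.differentiableOn ?_
    rintro ⟨om, β⟩ ⟨h7, h8⟩
    rw [mem_ball_zero_iff] at h7 h8 ⊢
    exact hLlt om β h7 h8
  · intro om β h7 h8
    refine HB.norm_le_of (by positivity) fun z hz => ?_
    rw [hFfn om β h7 h8 z hz]
    refine (hbd z hz _ (ball_subset_ball (by linarith) (hmem om β h7 h8 z))).trans ?_
    rw [hm]
    calc (4 * ε / r) ^ 2 * M = (16 * M / r ^ 2) * ε ^ 2 := by field_simp; ring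
      _ ≤ C * ε ^ 2 := by gcongr
  · intro om om' β β' h7 h8 h7' h8'
    refine HB.norm_le_of (by positivity) fun z hz => ?_
    rw [HB.fn_sub, hFfn om β h7 h8 z hz, hFfn om' β' h7' h8' z hz]
    have h9 := ApiC.lip_of_bound (r' := κ / 2) (by linarith) (hol2_slice hξ hz) (hbd z hz)
      (hmem om β h7 h8 z) (hmem om' β' h7' h8' z)
    refine h9.trans ?_
    have h10 : ‖(om.fn z, (ε : ℂ)⁻¹ • β) - (om'.fn z, (ε : ℂ)⁻¹ • β')‖ ≤
        ‖om - om'‖ + ε⁻¹ * ‖β - β'‖ := by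
      rw [Prod.mk_sub_mk, Prod.norm_def]
      have h11 : ‖om.fn z - om'.fn z‖ ≤ ‖om - om'‖ := by
        rw [← HB.fn_sub]; exact HB.fn_le _ z
      have h12 : ‖(ε : ℂ)⁻¹ • β - (ε : ℂ)⁻¹ • β'‖ = ε⁻¹ * ‖β - β'‖ := by
        rw [← smul_sub, norm_smul, hεn]
      simp only
      rw [h12]
      refine max_le (h11.trans ?_) ?_
      · have : 0 ≤ ε⁻¹ * ‖β - β'‖ := by positivity
        linarith
      · have := norm_nonneg (om - om')
        linarith
    have h13 : m / (κ - κ / 2) = (32 * M / (r ^ 2 * κ)) * ε ^ 2 := by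
      rw [hm]; field_simp; ring
    calc m / (κ - κ / 2) * ‖(om.fn z, (ε : ℂ)⁻¹ • β) - (om'.fn z, (ε : ℂ)⁻¹ • β')‖
        ≤ m / (κ - κ / 2) * (‖om - om'‖ + ε⁻¹ * ‖β - β'‖) := by
          refine mul_le_mul_of_nonneg_left h10 ?_
          rw [h13]; positivity
      _ ≤ (C * ε ^ 2) * (‖om - om'‖ + ε⁻¹ * ‖β - β'‖) := by
          rw [h13]
          gcongr
      _ = C * ε ^ 2 * ‖om - om'‖ + C * ε * ‖β - β'‖ := by
          field_simp

end Pool.Agent.W_4d259d_h44
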