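import Pool.Agent.W_4d259d_h44.GrB
import Pool.Agent.W_4d259d_h44.GrC
import Pool.Agent.W_4d259d_h44.ApiD

/-!
# MP_4d259d_ag, BLOCK GR (section 16): solution of the grafting problem
-/

noncomputable section

set_option linter.unusedSectionVars false

namespace Pool.Agent.W_4d259d_h44

open Set Filter Topology Manifold Metric MeasureTheory TopologicalSpace
open scoped ContDiff OnePoint BoundedContinuousFunction
open Pool.Agent.W_4d259d_h46.Defs Pool.Agent.W_4d259d_h46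

variable {E : Type} [NormedAddCommGroup E] [NormedSpace ℂ E] [FiniteDimensional ℂ E]
variable {X : Type} [MetricSpace X] [ChartedSpace E X] [IsManifold (modelWithCornersSelf ℂ E) ω X]

/-- The solution data of the grafting problem (see `solve16`). -/
structure GraftSol {v0 vi : ℂ → X} {r1 r2 : ℝ} (D : TwoDisc E v0 vi r1 r2) (J : Finset ℂ)
    (r ρ κ : ℝ) (Ups : ℂ → ℂ → ℂ → E → E → E) where
  ε : ℝ
  d : ℝ
  εpos : 0 < ε
  dpos : 0 < d
  small : 4 * ε / r < ρ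
  V0 : E × E → HB (disc r2) E
  β : E × E → J → E
  Vi : E × E → HB (disc r1⁻¹) E
  om : E × E → (j : J) → HB (discAt (j : ℂ) r) E
  yp : E × E → (j : J) → HB (discAt (j : ℂ) r) E
  ym : E × E → (j : J) → HB (extAt (j : ℂ) (3 * r / 8)) E
  diffV0 : DifferentiableOn ℂ V0 (ball 0 d)
  diffβ : DifferentiableOn ℂ β (ball 0 d)
  diffVi : DifferentiableOn ℂ Vi (ball 0 d)
  diffom : ∀ j, DifferentiableOn ℂ (fun t => om t j) (ball 0 d)
  diffym : ∀ j, DifferentiableOn ℂ (fun t => ym t j) (ball 0 d)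
  omlt : ∀ t ∈ ball (0 : E × E) d, ∀ j : J, ∀ z ∈ discAt (j : ℂ) r, ‖(om t j).fn z‖ < κ
  βlt : ∀ t ∈ ball (0 : E × E) d, ∀ j : J, ‖(ε : ℂ)⁻¹ • β t j‖ < κ
  w0lt : ∀ t ∈ ball (0 : E × E) d, ∀ z ∈ disc r2, (∀ j ∈ J, 3 * r / 8 < ‖z - j‖) →
    ‖(V0 t).fn z + ∑ j : J, ((z - (j : ℂ))⁻¹ • β t j + (ym t j).fn z)‖ < D.d
  wilt : ∀ t ∈ ball (0 : E × E) d, ∀ η ∈ disc r1⁻¹,
    ‖t.1 + η • t.2 + η ^ 2 • (Vi t).fn η‖ < D.δ
  /-- (i) -/
  split : ∀ t ∈ ball (0 : E × E) d, ∀ j : J, ∀ z ∈ annAt (j : ℂ) (3 * r / 8) r,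
    (yp t j).fn z + (ym t j).fn z = ((ε : ℂ) / (z - (j : ℂ))) ^ 2 •
      Ups j ((ε : ℂ) / (z - (j : ℂ))) z ((om t j).fn z) ((ε : ℂ)⁻¹ • β t j)
  /-- (ii) -/
  reg : ∀ t ∈ ball (0 : E × E) d, ∀ j : J, ∀ z ∈ discAt (j : ℂ) r,
    (om t j).fn z + (yp t j).fn z = (V0 t).fn z +
      ∑ i ∈ Finset.univ.erase j, ((z - (i : ℂ))⁻¹ • β t i + (ym t i).fn z)
  /-- (iii) -/
  trans : ∀ t ∈ ball (0 : E × E) d, ∀ z ∈ annu r1 r2,
    D.θ z ((V0 t).fn z + ∑ j : J, ((z - (j : ℂ))⁻¹ • β t j + (ym t j).fn z)) =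
      t.1 + z⁻¹ • t.2 + (z⁻¹) ^ 2 • (Vi t).fn z⁻¹

/-- The quantities appearing in the contraction: abstract fixed point lemma. -/
private theorem graft_fix {P A Kp Sp : Type*} [NormedAddCommGroup P] [NormedSpace ℂ P]
    [NormedAddCommGroup A] [NormedSpace ℂ A] [CompleteSpace A]
    [NormedAddCommGroup Kp] [NormedSpace ℂ Kp] [CompleteSpace Kp]
    [NormedAddCommGroup Sp] [NormedSpace ℂ Sp]
    (L0 GM : A →L[ℂ] A) (K0 : P →L[ℂ] A) (QA : Sp →L[ℂ] A) (QK : Sp →L[ℂ] Kp)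
    {Nop : A → A} {δ CN : ℝ} (hδ : 0 < δ) (hCN : 0 ≤ CN)
    (hNd : DifferentiableOn ℂ Nop (ball 0 δ)) (hN0 : Nop 0 = 0)
    (hNl : ∀ w w', ‖w‖ < δ → ‖w'‖ < δ → ‖Nop w - Nop w'‖ ≤ CN * (‖w‖ + ‖w'‖) * ‖w - w'‖)
    {ε0 c1 C : ℝ} (hε0 : 0 < ε0) (hc1 : 0 < c1) (hC : 0 ≤ C)
    (Fo : ℝ → A × Kp → Sp)
    (hFd : ∀ ε, 0 < ε → ε < ε0 → DifferentiableOn ℂ (Fo ε) (ball 0 (c1 * ε)))
    (hFb : ∀ ε, 0 < ε → ε < ε0 → ∀ y, ‖y‖ < c1 * ε → ‖Fo ε y‖ ≤ C * ε ^ 2)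
    (hFl : ∀ ε, 0 < ε → ε < ε0 → ∀ y y', ‖y‖ < c1 * ε → ‖y'‖ < c1 * ε →
      ‖Fo ε y - Fo ε y'‖ ≤ C * ε * ‖y - y'‖) {η : ℝ} (hη : 0 < η) :
    ∃ ε d : ℝ, 0 < ε ∧ ε < ε0 ∧ 0 < d ∧ d ≤ η ∧ ε ≤ η ∧
      ∃ y : P → A × Kp, DifferentiableOn ℂ y (ball 0 d) ∧
      ∀ t ∈ ball (0 : P) d, ‖y t‖ < c1 * ε ∧ ‖y t‖ ≤ η ∧
        (y t).1 = - K0 t + Nop (L0 (y t).1 + QA (Fo ε (y t))) + GM (QA (Fo ε (y t))) ∧
        ‖L0 (y t).1 + QA (Fo ε (y t))‖ < δ ∧ (y t).2 = QK (Fo ε (y t)) := by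
  set B : ℝ := ‖L0‖ * c1 + ‖QA‖ * C * ε0 with hB
  set B' : ℝ := ‖L0‖ + ‖QA‖ * C * ε0 with hB'
  have hB0 : 0 ≤ B := by positivity
  have hB'0 : 0 ≤ B' := by positivity
  set C4 : ℝ := 2 * CN * B * B' + ‖GM‖ * ‖QA‖ * C + ‖QK‖ * C + CN * B ^ 2 with hC4
  have hC40 : 0 ≤ C4 := by positivity
  set c : ℝ := c1 / (4 * (‖K0‖ + 1)) with hc
  have hc0 : 0 < c := by positivity
  have key : ∀ a b : ℝ, 0 < b → ∀ᶠ ε in 𝓝[>] (0 : ℝ), ε * a < b := by
    intro a b hb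
    have h1 : Tendsto (fun ε : ℝ => ε * a) (𝓝[>] 0) (𝓝 0) := by
      have : Tendsto (fun ε : ℝ => ε * a) (𝓝 0) (𝓝 (0 * a)) :=
        (continuous_id.mul continuous_const).tendsto 0
      rw [zero_mul] at this
      exact this.mono_left nhdsWithin_le_nhds
    exact h1.eventually_lt_const hb
  have k0 : ∀ᶠ ε in 𝓝[>] (0 : ℝ), 0 < ε := self_mem_nhdsWithin
  obtain ⟨ε, ⟨⟨⟨⟨⟨⟨⟨hε, h1⟩, h2⟩, h3⟩, h4⟩, h5⟩, h6⟩, h7⟩⟩ :=
    (((((((k0.and (key 1 ε0 hε0)).and (key B δ hδ)).and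
      (key C4 (1 / 2) (by norm_num))).and (key C4 (c1 / 4) (by positivity))).and (key 1 η hη)).and
      (key c1 η hη)).and (key c η hη)).exists
  rw [mul_one] at h1 h5
  set F := Fo ε with hF
  set w : A × Kp → A := fun y => L0 y.1 + QA (F y) with hw
  have hεε : ε ^ 2 ≤ ε0 * ε := by nlinarith
  have hFn : ∀ y, ‖y‖ < c1 * ε → ‖F y‖ ≤ C * ε ^ 2 := fun y hy => hFb ε hε h1 y hy
  have hFln : ∀ y y', ‖y‖ < c1 * ε → ‖y'‖ < c1 * ε → ‖F y - F y'‖ ≤ C * ε * ‖y - y'‖ :=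
    fun y y' hy hy' => hFl ε hε h1 y y' hy hy'
  have hwn : ∀ y, ‖y‖ < c1 * ε → ‖w y‖ ≤ B * ε := by
    intro y hy
    have a1 : ‖L0 y.1‖ ≤ ‖L0‖ * (c1 * ε) :=
      (L0.le_opNorm _).trans (mul_le_mul_of_nonneg_left ((norm_fst_le y).trans hy.le) (norm_nonneg _))
    have a2 : ‖QA (F y)‖ ≤ ‖QA‖ * (C * ε ^ 2) :=
      (QA.le_opNorm _).trans (mul_le_mul_of_nonneg_left (hFn y hy) (norm_nonneg _))
    have a3 : ‖QA‖ * (C * ε ^ 2) ≤ ‖QA‖ * (C * (ε0 * ε)) := by gcongr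
    calc ‖w y‖ ≤ ‖L0 y.1‖ + ‖QA (F y)‖ := norm_add_le _ _
      _ ≤ ‖L0‖ * (c1 * ε) + ‖QA‖ * (C * (ε0 * ε)) := by linarith
      _ = B * ε := by rw [hB]; ring
  have hwl : ∀ y y', ‖y‖ < c1 * ε → ‖y'‖ < c1 * ε → ‖w y - w y'‖ ≤ B' * ‖y - y'‖ := by
    intro y y' hy hy'
    have a1 : ‖L0 (y - y').1‖ ≤ ‖L0‖ * ‖y - y'‖ :=
      (L0.le_opNorm _).trans (mul_le_mul_of_nonneg_left (norm_fst_le _) (norm_nonneg _))
    have a2 : ‖QA (F y - F y')‖ ≤ ‖QA‖ * (C * ε * ‖y - y'‖) :=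
      (QA.le_opNorm _).trans (mul_le_mul_of_nonneg_left (hFln y y' hy hy') (norm_nonneg _))
    have a3 : ‖QA‖ * (C * ε * ‖y - y'‖) ≤ ‖QA‖ * (C * ε0 * ‖y - y'‖) := by gcongr
    have a4 : w y - w y' = L0 (y - y').1 + QA (F y - F y') := by
      simp only [hw, Prod.fst_sub, map_sub]
      abel
    rw [a4]
    calc ‖L0 (y - y').1 + QA (F y - F y')‖ ≤ ‖L0 (y - y').1‖ + ‖QA (F y - F y')‖ := norm_add_le _ _
      _ ≤ ‖L0‖ * ‖y - y'‖ + ‖QA‖ * (C * ε0 * ‖y - y'‖) := by linarith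
      _ = B' * ‖y - y'‖ := by rw [hB']; ring
  have hwδ : ∀ y, ‖y‖ < c1 * ε → ‖w y‖ < δ := by
    intro y hy
    refine (hwn y hy).trans_lt ?_
    rw [mul_comm]; exact h2
  set Φ : P → A × Kp → A × Kp := fun t y => (- K0 t + Nop (w y) + GM (QA (F y)), QK (F y)) with hΦ
  have hmaps : ∀ t ∈ ball (0 : P) (c * ε), ∀ y : A × Kp, ‖y‖ ≤ c1 * ε / 2 → ‖Φ t y‖ ≤ c1 * ε / 2 := by
    intro t ht y hy
    rw [mem_ball_zero_iff] at ht
    have hy' : ‖y‖ < c1 * ε := by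
      have : 0 < c1 * ε := by positivity
      linarith
    have b1 : ‖K0 t‖ ≤ c1 * ε / 4 := by
      have e1 : ‖K0 t‖ ≤ ‖K0‖ * (c * ε) :=
        (K0.le_opNorm _).trans (mul_le_mul_of_nonneg_left ht.le (norm_nonneg _))
      have e2 : ‖K0‖ * (c * ε) ≤ (‖K0‖ + 1) * (c * ε) := by
        have : 0 ≤ c * ε := by positivity
        nlinarith
      have e3 : (‖K0‖ + 1) * (c * ε) = c1 * ε / 4 := by
        rw [hc]
        have : ‖K0‖ + 1 ≠ 0 := by positivity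
        field_simp
      linarith
    have b2 : ‖Nop (w y)‖ ≤ CN * B ^ 2 * ε ^ 2 := by
      have e1 := hNl (w y) 0 (hwδ y hy') (by simpa using hδ)
      rw [hN0, sub_zero, norm_zero, add_zero, sub_zero] at e1
      have e2 := hwn y hy'
      calc ‖Nop (w y)‖ ≤ CN * ‖w y‖ * ‖w y‖ := e1
        _ ≤ CN * (B * ε) * (B * ε) := by gcongr
        _ = CN * B ^ 2 * ε ^ 2 := by ring
    have b3 : ‖GM (QA (F y))‖ ≤ ‖GM‖ * ‖QA‖ * C * ε ^ 2 := by
      calc ‖GM (QA (F y))‖ ≤ ‖GM‖ * (‖QA‖ * (C * ε ^ 2)) := by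
            refine (GM.le_opNorm _).trans (mul_le_mul_of_nonneg_left ?_ (norm_nonneg _))
            exact (QA.le_opNorm _).trans (mul_le_mul_of_nonneg_left (hFn y hy') (norm_nonneg _))
        _ = ‖GM‖ * ‖QA‖ * C * ε ^ 2 := by ring
    have b4 : ‖QK (F y)‖ ≤ ‖QK‖ * C * ε ^ 2 := by
      calc ‖QK (F y)‖ ≤ ‖QK‖ * (C * ε ^ 2) :=
            (QK.le_opNorm _).trans (mul_le_mul_of_nonneg_left (hFn y hy') (norm_nonneg _))
        _ = ‖QK‖ * C * ε ^ 2 := by ring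
    have b5 : C4 * ε ^ 2 ≤ c1 * ε / 4 := by
      have : C4 * ε ^ 2 = (ε * C4) * ε := by ring
      rw [this]
      have e3 : (ε * C4) * ε ≤ (c1 / 4) * ε := by gcongr
      linarith
    have p1 : 0 ≤ 2 * CN * B * B' * ε ^ 2 := by positivity
    have p2 : 0 ≤ ‖GM‖ * ‖QA‖ * C * ε ^ 2 := by positivity
    have p3 : 0 ≤ ‖QK‖ * C * ε ^ 2 := by positivity
    have p4 : 0 ≤ CN * B ^ 2 * ε ^ 2 := by positivity
    have e4 : C4 * ε ^ 2 = 2 * CN * B * B' * ε ^ 2 + ‖GM‖ * ‖QA‖ * C * ε ^ 2 + ‖QK‖ * C * ε ^ 2 +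
        CN * B ^ 2 * ε ^ 2 := by rw [hC4]; ring
    have p5 : 0 < c1 * ε := by positivity
    rw [hΦ]
    refine max_le ?_ ?_
    · calc ‖- K0 t + Nop (w y) + GM (QA (F y))‖ ≤ ‖- K0 t + Nop (w y)‖ + ‖GM (QA (F y))‖ :=
            norm_add_le _ _
        _ ≤ ‖- K0 t‖ + ‖Nop (w y)‖ + ‖GM (QA (F y))‖ := by gcongr; exact norm_add_le _ _
        _ ≤ c1 * ε / 2 := by rw [norm_neg]; linarith
    · change ‖QK (F y)‖ ≤ _
      linarith
  have hlip : ∀ t ∈ ball (0 : P) (c * ε), ∀ y y' : A × Kp, ‖y‖ < c1 * ε → ‖y'‖ < c1 * ε →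
      ‖Φ t y - Φ t y'‖ ≤ 1 / 2 * ‖y - y'‖ := by
    intro t _ y y' hy hy'
    have b2 : ‖Nop (w y) - Nop (w y')‖ ≤ 2 * CN * B * B' * ε * ‖y - y'‖ := by
      have e1 := hNl (w y) (w y') (hwδ y hy) (hwδ y' hy')
      have e2 := hwn y hy
      have e3 := hwn y' hy'
      have e4 := hwl y y' hy hy'
      calc ‖Nop (w y) - Nop (w y')‖ ≤ CN * (‖w y‖ + ‖w y'‖) * ‖w y - w y'‖ := e1
        _ ≤ CN * (B * ε + B * ε) * (B' * ‖y - y'‖) := by gcongr
        _ = 2 * CN * B * B' * ε * ‖y - y'‖ := by ring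
    have b3 : ‖GM (QA (F y)) - GM (QA (F y'))‖ ≤ ‖GM‖ * ‖QA‖ * C * ε * ‖y - y'‖ := by
      rw [← map_sub, ← map_sub]
      calc ‖GM (QA (F y - F y'))‖ ≤ ‖GM‖ * (‖QA‖ * (C * ε * ‖y - y'‖)) := by
            refine (GM.le_opNorm _).trans (mul_le_mul_of_nonneg_left ?_ (norm_nonneg _))
            exact (QA.le_opNorm _).trans (mul_le_mul_of_nonneg_left (hFln y y' hy hy')
              (norm_nonneg _))
        _ = ‖GM‖ * ‖QA‖ * C * ε * ‖y - y'‖ := by ring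
    have b4 : ‖QK (F y) - QK (F y')‖ ≤ ‖QK‖ * C * ε * ‖y - y'‖ := by
      rw [← map_sub]
      calc ‖QK (F y - F y')‖ ≤ ‖QK‖ * (C * ε * ‖y - y'‖) :=
            (QK.le_opNorm _).trans (mul_le_mul_of_nonneg_left (hFln y y' hy hy') (norm_nonneg _))
        _ = ‖QK‖ * C * ε * ‖y - y'‖ := by ring
    set N := ‖y - y'‖ with hN
    have hNn : 0 ≤ N := norm_nonneg _
    have p1 : 0 ≤ 2 * CN * B * B' * ε * N := by positivity
    have p2 : 0 ≤ ‖GM‖ * ‖QA‖ * C * ε * N := by positivity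
    have p3 : 0 ≤ ‖QK‖ * C * ε * N := by positivity
    have p4 : 0 ≤ CN * B ^ 2 * ε * N := by positivity
    have e4 : ε * C4 * N = 2 * CN * B * B' * ε * N + ‖GM‖ * ‖QA‖ * C * ε * N + ‖QK‖ * C * ε * N +
        CN * B ^ 2 * ε * N := by rw [hC4]; ring
    have e5 : ε * C4 * N ≤ 1 / 2 * N := by gcongr
    have e6 : Φ t y - Φ t y' = ((Nop (w y) - Nop (w y')) + (GM (QA (F y)) - GM (QA (F y'))),
        QK (F y) - QK (F y')) := by
      rw [hΦ]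
      ext1
      · simp only [Prod.fst_sub]; abel
      · simp only [Prod.snd_sub]
    rw [e6]
    refine max_le ?_ ?_
    · calc ‖(Nop (w y) - Nop (w y')) + (GM (QA (F y)) - GM (QA (F y')))‖
          ≤ ‖Nop (w y) - Nop (w y')‖ + ‖GM (QA (F y)) - GM (QA (F y'))‖ := norm_add_le _ _
        _ ≤ 1 / 2 * N := by linarith
    · change ‖QK (F y) - QK (F y')‖ ≤ _
      linarith
  have hFdd : DifferentiableOn ℂ F (ball 0 (c1 * ε)) := hFd ε hε h1
  have hdiff : DifferentiableOn ℂ (fun q : P × (A × Kp) => Φ q.1 q.2)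
      (ball (0 : P) (c * ε) ×ˢ ball 0 (c1 * ε)) := by
    have hs : MapsTo (fun q : P × (A × Kp) => q.2) (ball (0 : P) (c * ε) ×ˢ ball 0 (c1 * ε))
        (ball 0 (c1 * ε)) := fun q hq => hq.2
    have f1 : DifferentiableOn ℂ (fun q : P × (A × Kp) => F q.2)
        (ball (0 : P) (c * ε) ×ˢ ball 0 (c1 * ε)) :=
      hFdd.comp differentiable_snd.differentiableOn hs
    have f2 : DifferentiableOn ℂ (fun q : P × (A × Kp) => QA (F q.2))
        (ball (0 : P) (c * ε) ×ˢ ball 0 (c1 * ε)) := QA.differentiable.comp_differentiableOn f1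
    have f3 : DifferentiableOn ℂ (fun q : P × (A × Kp) => w q.2)
        (ball (0 : P) (c * ε) ×ˢ ball 0 (c1 * ε)) := by
      have g1 : DifferentiableOn ℂ (fun q : P × (A × Kp) => L0 q.2.1)
        (ball (0 : P) (c * ε) ×ˢ ball 0 (c1 * ε)) :=
        (L0.differentiable.comp (differentiable_fst.comp differentiable_snd)).differentiableOn
      exact g1.add f2
    have f4 : DifferentiableOn ℂ (fun q : P × (A × Kp) => Nop (w q.2))
        (ball (0 : P) (c * ε) ×ˢ ball 0 (c1 * ε)) := by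
      refine hNd.comp f3 ?_
      intro q hq
      rw [mem_ball_zero_iff]
      exact hwδ _ (by simpa using hq.2)
    have f5 : DifferentiableOn ℂ (fun q : P × (A × Kp) => GM (QA (F q.2)))
        (ball (0 : P) (c * ε) ×ˢ ball 0 (c1 * ε)) := GM.differentiable.comp_differentiableOn f2
    have f6 : DifferentiableOn ℂ (fun q : P × (A × Kp) => QK (F q.2))
        (ball (0 : P) (c * ε) ×ˢ ball 0 (c1 * ε)) := QK.differentiable.comp_differentiableOn f1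
    have f7 : DifferentiableOn ℂ (fun q : P × (A × Kp) => - K0 q.1)
        (ball (0 : P) (c * ε) ×ˢ ball 0 (c1 * ε)) :=
      ((K0.differentiable.comp differentiable_fst).neg).differentiableOn
    exact ((f7.add f4).add f5).prodMk f6
  obtain ⟨y, hy1, hy2, -⟩ := par (T := ball (0 : P) (c * ε)) (isOpen_ball (x := (0 : P)) (ε := c * ε)) (ρ := c1 * ε / 2)
    (ρ' := c1 * ε) (by positivity) (by have : 0 < c1 * ε := by positivity
                                       linarith) hmaps hlip hdiff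
  refine ⟨ε, c * ε, hε, h1, by positivity, by rw [mul_comm]; exact h7.le, h5.le, y, hy2, ?_⟩
  intro t ht
  obtain ⟨q1, q2⟩ := hy1 t ht
  have hp : 0 < c1 * ε := by positivity
  have q3 : ‖y t‖ < c1 * ε := by linarith
  refine ⟨q3, ?_, ?_, hwδ _ q3, ?_⟩
  · refine q3.le.trans ?_
    rw [mul_comm]; exact h6.le
  · have := congrArg Prod.fst q2
    exact this.symm
  · have := congrArg Prod.snd q2
    exact this.symm

/-- In the plane `HolOn2` is `DifferentiableOn`. -/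
private theorem hol2_plane {s : ℂ → E → E} {U : Set ℂ} {V : Set E} :
    HolOn2 E s U V ↔ DifferentiableOn ℂ (fun q : ℂ × E => s q.1 q.2) (U ×ˢ V) := by
  rw [← mdifferentiableOn_iff_differentiableOn, HolOn2, ← modelWithCornersSelf_prod,
    ← chartedSpaceSelf_prod]

/-- The partial derivative at `w = 0` of a holomorphic map. -/
private theorem hol_partial {θ : ℂ → E → E} {U : Set ℂ} (hU : IsOpen U) {d : ℝ} (hd : 0 < d)
    (hθ : HolOn2 E θ U (ball (0 : E) d)) :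
    DifferentiableOn ℂ (fun z => fderiv ℂ (θ z) 0) U := by
  have h1 := hol2_plane.1 hθ
  have hO : IsOpen (U ×ˢ ball (0 : E) d) := hU.prod isOpen_ball
  have h2 := ApiC.differentiableOn_fderiv hO h1
  have h3 : ∀ z ∈ U, fderiv ℂ (θ z) 0 =
      (fderiv ℂ (fun q : ℂ × E => θ q.1 q.2) (z, 0)).comp (ContinuousLinearMap.inr ℂ ℂ E) := by
    intro z hz
    have hm : (z, (0 : E)) ∈ U ×ˢ ball (0 : E) d := ⟨hz, mem_ball_self hd⟩
    have e1 : HasFDerivAt (fun q : ℂ × E => θ q.1 q.2)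
        (fderiv ℂ (fun q : ℂ × E => θ q.1 q.2) (z, 0)) (z, 0) :=
      ((h1 _ hm).differentiableAt (hO.mem_nhds hm)).hasFDerivAt
    have e2 : HasFDerivAt (fun w : E => (z, w)) (ContinuousLinearMap.inr ℂ ℂ E) 0 :=
      hasFDerivAt_prodMk_right z 0
    exact (e1.comp (0 : E) e2).fderiv
  have h4 : DifferentiableOn ℂ (fun z : ℂ => (fderiv ℂ (fun q : ℂ × E => θ q.1 q.2) (z, 0)).comp
      (ContinuousLinearMap.inr ℂ ℂ E)) U := by
    have e1 : DifferentiableOn ℂ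
        (fun z : ℂ => fderiv ℂ (fun q : ℂ × E => θ q.1 q.2) (z, (0 : E))) U :=
      h2.comp (f := fun z : ℂ => (z, (0 : E))) (by fun_prop)
        (fun z hz => ⟨hz, mem_ball_self hd⟩)
    exact e1.clm_comp (differentiableOn_const _)
  exact h4.congr h3

/-- The linear operator `y ↦ V0 + Σ_{i ∈ s} β i / (z - i)`. -/
private theorem exists_polar {r1 r2 : ℝ} {J : Finset ℂ} {r : ℝ} (hr : 0 < r)
    (Rr : HB (annu r1 r2) E →L[ℂ] HB (disc r2) E × (J → E) × HB (disc r1⁻¹) E)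
    {U : Opens ℂ} (hU : U ≤ disc r2) (s : Finset J)
    (hs : ∀ i ∈ s, ∀ z ∈ U, r ≤ ‖z - (i : ℂ)‖) :
    ∃ L : HB (annu r1 r2) E →L[ℂ] HB U E, ∀ y, ∀ z ∈ U,
      (L y).fn z = (Rr y).1.fn z + ∑ i ∈ s, (z - (i : ℂ))⁻¹ • (Rr y).2.1 i := by
  refine (exists_clm (Y := HB (annu r1 r2) E) (V := U)
    (fun y z => (Rr y).1.fn z + ∑ i ∈ s, (z - (i : ℂ))⁻¹ • (Rr y).2.1 i) ?_ ?_ ?_
    (‖Rr‖ + s.card * (r⁻¹ * ‖Rr‖)) (by positivity) ?_).imp fun S hS => hS.2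
  · intro y
    refine holOn_add (holOn_mono (Rr y).1.fn_hol hU) (holOn_sum s fun i hi => ?_)
    refine holOn_smul ?_ (holOn_const _ _)
    rw [holOn_iff]
    intro z hz
    have h0 : z - (i : ℂ) ≠ 0 := by
      rw [← norm_pos_iff]
      exact hr.trans_le (hs i hi z hz)
    have h2 : DifferentiableAt ℂ (fun z : ℂ => z - (i : ℂ)) z :=
      differentiableAt_id.sub (differentiableAt_const _)
    exact (h2.inv h0).differentiableWithinAt
  · intro y y' z _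
    rw [map_add, Prod.fst_add, HB.fn_add, Prod.snd_add, Prod.fst_add]
    simp only [Pi.add_apply, smul_add, Finset.sum_add_distrib]
    abel
  · intro c y z _
    rw [map_smul, Prod.smul_fst, HB.fn_smul, Prod.smul_snd, Prod.smul_fst, smul_add,
      Finset.smul_sum]
    congr 1
    refine Finset.sum_congr rfl fun i _ => ?_
    rw [Pi.smul_apply, smul_comm]
  · intro y z hz
    have h1 : ‖(Rr y).1.fn z‖ ≤ ‖Rr‖ * ‖y‖ :=
      (HB.fn_le _ z).trans ((norm_fst_le _).trans (Rr.le_opNorm y))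
    have h2 : ∀ i ∈ s, ‖(z - (i : ℂ))⁻¹ • (Rr y).2.1 i‖ ≤ r⁻¹ * ‖Rr‖ * ‖y‖ := by
      intro i hi
      rw [norm_smul, norm_inv]
      have a1 : ‖z - (i : ℂ)‖⁻¹ ≤ r⁻¹ := inv_anti₀ hr (hs i hi z hz)
      have a2 : ‖(Rr y).2.1 i‖ ≤ ‖Rr‖ * ‖y‖ :=
        (norm_le_pi_norm _ i).trans ((norm_fst_le _).trans ((norm_snd_le _).trans
          (Rr.le_opNorm y)))
      calc ‖z - (i : ℂ)‖⁻¹ * ‖(Rr y).2.1 i‖ ≤ r⁻¹ * (‖Rr‖ * ‖y‖) :=
            mul_le_mul a1 a2 (norm_nonneg _) (by positivity)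
        _ = r⁻¹ * ‖Rr‖ * ‖y‖ := by ring
    calc ‖(Rr y).1.fn z + ∑ i ∈ s, (z - (i : ℂ))⁻¹ • (Rr y).2.1 i‖
        ≤ ‖(Rr y).1.fn z‖ + ‖∑ i ∈ s, (z - (i : ℂ))⁻¹ • (Rr y).2.1 i‖ := norm_add_le _ _
      _ ≤ ‖Rr‖ * ‖y‖ + ∑ i ∈ s, (r⁻¹ * ‖Rr‖ * ‖y‖) := by
          refine add_le_add h1 ((norm_sum_le _ _).trans (Finset.sum_le_sum h2))
      _ = (‖Rr‖ + s.card * (r⁻¹ * ‖Rr‖)) * ‖y‖ := by
          rw [Finset.sum_const, nsmul_eq_mul]; ring

/-- The linear operator `t ↦ t.1 + z⁻¹ t.2`. -/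
private theorem exists_jetOp {r1 r2 : ℝ} (h1 : 0 < r1) :
    ∃ K : E × E →L[ℂ] HB (annu r1 r2) E, ∀ t : E × E, ∀ z ∈ annu r1 r2,
      (K t).fn z = t.1 + z⁻¹ • t.2 := by
  refine (exists_clm (Y := E × E) (V := annu r1 r2)
    (fun t z => t.1 + z⁻¹ • t.2) ?_ ?_ ?_ (1 + r1⁻¹) (by positivity) ?_).imp fun S hS => hS.2
  · intro t
    refine holOn_add (holOn_const _ _) (holOn_smul ?_ (holOn_const _ _))
    rw [holOn_iff]
    intro z hz
    have h0 : z ≠ 0 := by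
      rw [← norm_pos_iff]
      exact h1.trans hz.1
    exact (differentiableAt_inv h0).differentiableWithinAt
  · intro t t' z _
    simp only [Prod.fst_add, Prod.snd_add, smul_add]
    abel
  · intro c t z _
    simp only [Prod.smul_fst, Prod.smul_snd, smul_add]
    rw [smul_comm]
  · intro t z hz
    have hz1 : r1 < ‖z‖ := hz.1
    have a1 : ‖z‖⁻¹ ≤ r1⁻¹ := inv_anti₀ h1 hz1.le
    calc ‖t.1 + z⁻¹ • t.2‖ ≤ ‖t.1‖ + ‖z⁻¹ • t.2‖ := norm_add_le _ _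
      _ = ‖t.1‖ + ‖z‖⁻¹ * ‖t.2‖ := by rw [norm_smul, norm_inv]
      _ ≤ ‖t‖ + r1⁻¹ * ‖t‖ := by
          refine add_le_add (norm_fst_le _) (mul_le_mul a1 (norm_snd_le _) (norm_nonneg _)
            (by positivity))
      _ = (1 + r1⁻¹) * ‖t‖ := by ring

/-- The Nemytskii operator `w ↦ θ(z,w) - G(z) w`. -/
private theorem exists_Nop {v0 vi : ℂ → X} {r1 r2 : ℝ} (D : TwoDisc E v0 vi r1 r2) :
    ∃ (Nop : HB (annu r1 r2) E → HB (annu r1 r2) E) (CN : ℝ), 0 ≤ CN ∧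
      DifferentiableOn ℂ Nop (ball 0 (D.d / 2)) ∧ Nop 0 = 0 ∧
      (∀ w w' : HB (annu r1 r2) E, ‖w‖ < D.d / 2 → ‖w'‖ < D.d / 2 →
        ‖Nop w - Nop w'‖ ≤ CN * (‖w‖ + ‖w'‖) * ‖w - w'‖) ∧
      ∀ w : HB (annu r1 r2) E, ‖w‖ < D.d / 2 → ∀ z ∈ annu r1 r2,
        (Nop w).fn z = D.θ z (w.fn z) - fderiv ℂ (D.θ z) 0 (w.fn z) := by
  have : CompleteSpace E := FiniteDimensional.complete ℂ E
  have hsub : annu r1 r2 ≤ annu D.q1 D.q2 := fun z hz => ⟨D.hqr1.trans hz.1, hz.2.trans D.hqr2⟩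
  have hd := D.hd
  have hG := hol_partial (annu D.q1 D.q2).2 D.hd D.θhol
  have hGb : ∀ z ∈ annu D.q1 D.q2, ‖fderiv ℂ (D.θ z) 0‖ ≤ D.δ / D.d := by
    intro z hz
    have := ApiC.norm_fderiv_le (hol2_slice D.θhol hz) (fun w hw => (D.θlt z hz w hw).le)
      (mem_ball_self D.hd)
    simpa using this
  set ξ : ℂ → E → E := fun z w => D.θ z w - fderiv ℂ (D.θ z) 0 w with hξ
  have hξhol : HolOn2 E ξ (annu r1 r2 : Set ℂ) (ball (0 : E) D.d) := by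
    rw [hol2_plane]
    have e1 := (hol2_plane.1 D.θhol).mono
      (show (annu r1 r2 : Set ℂ) ×ˢ ball (0 : E) D.d ⊆ (annu D.q1 D.q2 : Set ℂ) ×ˢ ball (0 : E) D.d
        from prod_mono hsub subset_rfl)
    have e2 : DifferentiableOn ℂ (fun q : ℂ × E => fderiv ℂ (D.θ q.1) 0)
        ((annu r1 r2 : Set ℂ) ×ˢ ball (0 : E) D.d) :=
      hG.comp (f := fun q : ℂ × E => q.1) differentiable_fst.differentiableOn
        (fun q hq => hsub hq.1)
    exact e1.sub (e2.clm_apply differentiable_snd.differentiableOn)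
  have hξb : ∀ z ∈ annu r1 r2, ∀ w ∈ ball (0 : E) D.d, ‖ξ z w‖ ≤ D.δ + D.δ / D.d * D.d := by
    intro z hz w hw
    have e1 := (D.θlt z (hsub hz) w hw).le
    have e2 : ‖fderiv ℂ (D.θ z) 0 w‖ ≤ D.δ / D.d * D.d := by
      refine ((fderiv ℂ (D.θ z) 0).le_opNorm w).trans ?_
      rw [mem_ball_zero_iff] at hw
      have := hGb z (hsub hz)
      exact mul_le_mul this hw.le (norm_nonneg _) ((norm_nonneg _).trans this)
    calc ‖ξ z w‖ ≤ ‖D.θ z w‖ + ‖fderiv ℂ (D.θ z) 0 w‖ := norm_sub_le _ _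
      _ ≤ _ := add_le_add e1 e2
  have hξ0 : ∀ z ∈ annu r1 r2, ξ z 0 = 0 := by
    intro z hz
    simp only [hξ, D.θzero z (hsub hz), map_zero, sub_zero]
  have hξ1 : ∀ z ∈ annu r1 r2, fderiv ℂ (ξ z) 0 = 0 := by
    intro z hz
    have e1 : DifferentiableAt ℂ (D.θ z) 0 :=
      ((hol2_slice D.θhol (hsub hz)) 0 (mem_ball_self D.hd)).differentiableAt
        (isOpen_ball.mem_nhds (mem_ball_self D.hd))
    have e2 : HasFDerivAt (ξ z) (fderiv ℂ (D.θ z) 0 - fderiv ℂ (D.θ z) 0) 0 :=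
      e1.hasFDerivAt.sub (fderiv ℂ (D.θ z) 0).hasFDerivAt
    rw [e2.fderiv, sub_self]
  obtain ⟨Nop, hN1, hN2, -⟩ := nem (δ' := D.d / 2) (by linarith [D.hd]) hξhol hξb
  have hMpos : 0 ≤ D.δ + D.δ / D.d * D.d := by
    have := D.hd.le.trans D.hdδ
    positivity
  refine ⟨Nop, 4 * (D.δ + D.δ / D.d * D.d) / D.d ^ 2, by positivity, hN2, ?_, ?_, ?_⟩
  · refine HB.ext' fun z hz => ?_
    rw [hN1 0 (by rw [norm_zero]; linarith [D.hd]) z hz, HB.fn_zero, hξ0 z hz]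
  · intro w w' hw hw'
    refine HB.norm_le_of (by positivity) fun z hz => ?_
    rw [HB.fn_sub, hN1 w hw z hz, hN1 w' hw' z hz]
    have a1 := nem_lip hξhol hξb hξ0 hξ1 z hz (w.fn z) (w'.fn z) ((HB.fn_le _ _).trans_lt hw)
      ((HB.fn_le _ _).trans_lt hw')
    refine a1.trans ?_
    have a2 : ‖w.fn z - w'.fn z‖ ≤ ‖w - w'‖ := by
      rw [← HB.fn_sub]; exact HB.fn_le _ _
    have a3 := HB.fn_le w z
    have a4 := HB.fn_le w' z
    gcongr
  · intro w hw z hz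
    exact hN1 w hw z hz

/-- SOLUTION.  Unknowns `Y ∈ HB (annu r1 r2) E`, `k j ∈ HB (discAt j r) E`; with
`(V0, β, Vi) = Rr Y`, `om j = V0 + Σ_{i≠j} β i/(z-i) + k j`, `y j = Fop j (om j, β j)`
(`graft_op`), `yp j, ym j = Pp (y j), Pm (y j)` (`ann_ops`), `w0 = V0 + Σ (β j/(z-j) + ym j)`:
`Y = -(p + a/z) + (θ(z,w0) - G w0) + G Σ ym j`, `k j = - yp j + Σ_{i≠j} ym i`.
Constants: first `c` small, then `ε` much smaller than `c`; `‖p‖, ‖a‖ ≤ c ε`; ball of radius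
`C1 c ε` for `(Y, k)`; all Lipschitz constants are `O(c) + O(ε)`, the value at `0` is
`≤ C c ε + C ε²`.  `ApiD.par`. -/
theorem solve16 {v0 vi : ℂ → X} {r1 r2 : ℝ} (h1 : 0 < r1) (D : TwoDisc E v0 vi r1 r2)
    (J : Finset ℂ) {r ρ κ M : ℝ} (hr : 0 < r) (hρ : 0 < ρ) (hκ : 0 < κ) (hJ : ∀ j ∈ J, ‖j‖ + r ≤ r1)
    (hJ2 : ∀ i ∈ J, ∀ j ∈ J, i ≠ j → 2 * r ≤ ‖i - j‖)
    {LL : ℂ → ℂ → ℂ → E → E → X} {Ups : ℂ → ℂ → ℂ → E → E → E}
    (hfam : ∀ j ∈ J, GraftFam D.s0 D.δ j r ρ κ M (LL j) (Ups j))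
    (Rr : HB (annu r1 r2) E →L[ℂ] HB (disc r2) E × (J → E) × HB (disc r1⁻¹) E)
    (hRr : ∀ y : HB (annu r1 r2) E, ∀ z ∈ annu r1 r2,
      (z⁻¹) ^ 2 • (Rr y).2.2.fn z⁻¹ - fderiv ℂ (D.θ z) 0
        ((Rr y).1.fn z + ∑ j : J, (z - (j : ℂ))⁻¹ • (Rr y).2.1 j) = y.fn z) :
    Nonempty (GraftSol D J r ρ κ Ups) := by
  classical
  have hEc : CompleteSpace E := FiniteDimensional.complete ℂ E
  have h12 := D.hr
  have hDd := D.hd
  have hDδ : 0 < D.δ := D.hd.trans_le D.hdδ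
  -- geometry
  have hdisc : ∀ j : J, discAt (j : ℂ) r ≤ disc r2 := by
    intro j z hz
    have hz' : ‖z - (j : ℂ)‖ < r := mem_ball_iff_norm.1 hz
    have h2 := hJ j j.2
    have h3 : ‖z‖ ≤ ‖z - (j : ℂ)‖ + ‖(j : ℂ)‖ := by
      have := norm_add_le (z - (j : ℂ)) (j : ℂ)
      simpa using this
    exact mem_ball_zero_iff.2 (by linarith)
  have hannd : annu r1 r2 ≤ disc r2 := fun z hz => mem_ball_zero_iff.2 hz.2
  have hannj : ∀ j : J, ∀ z ∈ annu r1 r2, r ≤ ‖z - (j : ℂ)‖ := by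
    intro j z hz
    have hz1 : r1 < ‖z‖ := hz.1
    have h2 := hJ j j.2
    have h3 : ‖z‖ ≤ ‖z - (j : ℂ)‖ + ‖(j : ℂ)‖ := by
      have := norm_add_le (z - (j : ℂ)) (j : ℂ)
      simpa using this
    linarith
  have hdd : ∀ j i : J, i ≠ j → ∀ z ∈ discAt (j : ℂ) r, r ≤ ‖z - (i : ℂ)‖ := by
    intro j i hij z hz
    have hz' : ‖z - (j : ℂ)‖ < r := mem_ball_iff_norm.1 hz
    have h2 := hJ2 i i.2 j j.2 (fun h => hij (Subtype.ext h))
    have h3 : ‖(i : ℂ) - j‖ ≤ ‖z - (j : ℂ)‖ + ‖z - (i : ℂ)‖ := by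
      have := norm_sub_le (z - (j : ℂ)) (z - (i : ℂ))
      have e : z - (j : ℂ) - (z - (i : ℂ)) = (i : ℂ) - j := by ring
      rwa [e] at this
    linarith
  have hannE : ∀ j : J, annu r1 r2 ≤ extAt (j : ℂ) (3 * r / 8) := by
    intro j z hz
    have := hannj j z hz
    change 3 * r / 8 < ‖z - (j : ℂ)‖
    linarith
  have hdE : ∀ j i : J, i ≠ j → discAt (j : ℂ) r ≤ extAt (i : ℂ) (3 * r / 8) := by
    intro j i hij z hz
    have := hdd j i hij z hz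
    change 3 * r / 8 < ‖z - (i : ℂ)‖
    linarith
  -- operators
  have hops := fun j : J => ann_ops (E := E) (j : ℂ) hr
  choose Pp Pm hPp hPm hops using hops
  have hRa := fun j : J => exists_res (F := E) (hannE j)
  choose Ra hRan hRa using hRa
  have hRk : ∀ j i : J, ∃ S : HB (extAt (i : ℂ) (3 * r / 8)) E →L[ℂ] HB (discAt (j : ℂ) r) E,
      i ≠ j → ∀ f, ∀ z ∈ discAt (j : ℂ) r, (S f).fn z = f.fn z := by
    intro j i
    by_cases hij : i = j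
    · exact ⟨0, fun h => absurd hij h⟩
    · obtain ⟨S, -, hS⟩ := exists_res (F := E) (hdE j i hij)
      exact ⟨S, fun _ => hS⟩
  choose Rk hRk using hRk
  have hLj : ∀ j : J, ∃ L : HB (annu r1 r2) E →L[ℂ] HB (discAt (j : ℂ) r) E,
      ∀ y, ∀ z ∈ discAt (j : ℂ) r, (L y).fn z = (Rr y).1.fn z +
        ∑ i ∈ Finset.univ.erase j, (z - (i : ℂ))⁻¹ • (Rr y).2.1 i := by
    intro j
    exact exists_polar hr Rr (hdisc j) (Finset.univ.erase j)
      (fun i hi => hdd j i (Finset.ne_of_mem_erase hi))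
  choose Lj hLj using hLj
  obtain ⟨L0, hL0⟩ := exists_polar hr Rr hannd Finset.univ (fun i _ => hannj i)
  obtain ⟨K0, hK0⟩ := exists_jetOp (E := E) (r2 := r2) h1
  obtain ⟨Nop, CN, hCN, hNd, hN0, hNl, hNf⟩ := exists_Nop D
  have hsub : annu r1 r2 ≤ annu D.q1 D.q2 := fun z hz => ⟨D.hqr1.trans hz.1, hz.2.trans D.hqr2⟩
  have hGhol : HolOn (E →L[ℂ] E) (fun z => fderiv ℂ (D.θ z) 0) (annu r1 r2 : Set ℂ) :=
    holOn_iff.2 ((hol_partial (annu D.q1 D.q2).2 D.hd D.θhol).mono hsub)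
  have hGb : ∀ z ∈ annu r1 r2, ‖fderiv ℂ (D.θ z) 0‖ ≤ D.δ / D.d := by
    intro z hz
    have := ApiC.norm_fderiv_le (hol2_slice D.θhol (hsub hz))
      (fun w hw => (D.θlt z (hsub hz) w hw).le) (mem_ball_self D.hd)
    simpa using this
  obtain ⟨GM, -, hGM⟩ := exists_mulOp (fun z => fderiv ℂ (D.θ z) 0) hGhol (D.δ / D.d)
    (by positivity) hGb
  let bj : ∀ j : J, HB (annu r1 r2) E →L[ℂ] E := fun j =>
    (ContinuousLinearMap.proj (R := ℂ) (φ := fun _ : J => E) j).comp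
      ((ContinuousLinearMap.fst ℂ (J → E) (HB (disc r1⁻¹) E)).comp
        ((ContinuousLinearMap.snd ℂ (HB (disc r2) E) ((J → E) × HB (disc r1⁻¹) E)).comp Rr))
  have hbj : ∀ j y, bj j y = (Rr y).2.1 j := fun j y => rfl
  let QA : ((j : J) → HB (annAt (j : ℂ) (r / 4) r) E) →L[ℂ] HB (annu r1 r2) E :=
    ∑ j : J, ((Ra j).comp (Pm j)).comp (ContinuousLinearMap.proj (R := ℂ)
      (φ := fun j : J => HB (annAt (j : ℂ) (r / 4) r) E) j)
  have hQA : ∀ F, QA F = ∑ j : J, Ra j (Pm j (F j)) := by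
    intro F
    simp only [QA, sum_apply]
    rfl
  let QK : ((j : J) → HB (annAt (j : ℂ) (r / 4) r) E) →L[ℂ] ((j : J) → HB (discAt (j : ℂ) r) E) :=
    ContinuousLinearMap.pi fun j =>
      - (Pp j).comp (ContinuousLinearMap.proj (R := ℂ)
        (φ := fun j : J => HB (annAt (j : ℂ) (r / 4) r) E) j) +
      ∑ i ∈ Finset.univ.erase j, ((Rk j i).comp (Pm i)).comp (ContinuousLinearMap.proj (R := ℂ)
        (φ := fun j : J => HB (annAt (j : ℂ) (r / 4) r) E) i)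
  have hQK : ∀ F j, QK F j = - Pp j (F j) + ∑ i ∈ Finset.univ.erase j, Rk j i (Pm i (F i)) := by
    intro F j
    simp only [QK, ContinuousLinearMap.pi_apply, add_apply,
      sum_apply]
    rfl
  -- the grafting operators
  have hgr := fun j : J => graft_op (hfam j j.2)
  choose CF hCF hF using hgr
  have hF' : ∀ (ε : ℝ) (j : J), ∃ Fop : HB (discAt (j : ℂ) r) E × E →
      HB (annAt (j : ℂ) (r / 4) r) E, 0 < ε → 4 * ε / r < ρ →
        (∀ om : HB (discAt (j : ℂ) r) E, ∀ β : E, ‖om‖ < κ / 2 → ‖β‖ < κ * ε / 2 →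
          ∀ z ∈ annAt (j : ℂ) (r / 4) r, (Fop (om, β)).fn z =
            ((ε : ℂ) / (z - j)) ^ 2 • Ups j ((ε : ℂ) / (z - j)) z (om.fn z) ((ε : ℂ)⁻¹ • β)) ∧
        DifferentiableOn ℂ Fop (ball 0 (κ / 2) ×ˢ ball 0 (κ * ε / 2)) ∧
        (∀ om : HB (discAt (j : ℂ) r) E, ∀ β : E, ‖om‖ < κ / 2 → ‖β‖ < κ * ε / 2 →
          ‖Fop (om, β)‖ ≤ CF j * ε ^ 2) ∧
        (∀ om om' : HB (discAt (j : ℂ) r) E, ∀ β β' : E, ‖om‖ < κ / 2 → ‖β‖ < κ * ε / 2 →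
          ‖om'‖ < κ / 2 → ‖β'‖ < κ * ε / 2 →
          ‖Fop (om, β) - Fop (om', β')‖ ≤ CF j * ε ^ 2 * ‖om - om'‖ + CF j * ε * ‖β - β'‖) := by
    intro ε j
    by_cases hε : 0 < ε ∧ 4 * ε / r < ρ
    · obtain ⟨Fop, h⟩ := hF j ε hε.1 hε.2
      exact ⟨Fop, fun _ _ => h⟩
    · exact ⟨fun _ => 0, fun h1 h2 => absurd ⟨h1, h2⟩ hε⟩
  choose Fop hFop using hF'
  -- constants
  set SL : ℝ := ∑ j : J, ‖Lj j‖ with hSL
  set Sb : ℝ := ∑ j : J, ‖bj j‖ with hSb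
  set SC : ℝ := ∑ j : J, CF j with hSC
  have hSL0 : 0 ≤ SL := Finset.sum_nonneg fun j _ => norm_nonneg (Lj j)
  have hSb0 : 0 ≤ Sb := Finset.sum_nonneg fun j _ => norm_nonneg (bj j)
  have hSC0 : 0 ≤ SC := Finset.sum_nonneg fun j _ => (hCF j).le
  have hLjS : ∀ j, ‖Lj j‖ ≤ SL := fun j =>
    Finset.single_le_sum (f := fun j => ‖Lj j‖) (fun j _ => norm_nonneg (Lj j))
      (Finset.mem_univ j)
  have hbjS : ∀ j, ‖bj j‖ ≤ Sb := fun j =>
    Finset.single_le_sum (f := fun j => ‖bj j‖) (fun j _ => norm_nonneg (bj j))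
      (Finset.mem_univ j)
  have hCFS : ∀ j, CF j ≤ SC := fun j =>
    Finset.single_le_sum (f := fun j => CF j) (fun j _ => (hCF j).le) (Finset.mem_univ j)
  set c1 : ℝ := κ / (4 * (Sb + 1)) with hc1
  have hc10 : 0 < c1 := by positivity
  have hc1b : Sb * c1 < κ / 2 := by
    have e : (Sb + 1) * c1 = κ / 4 := by
      rw [hc1]
      have : Sb + 1 ≠ 0 := by positivity
      field_simp
    nlinarith
  set ε0 : ℝ := min (ρ * r / 4) (κ / (2 * (c1 * (SL + 1)))) with hε0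
  have hε00 : 0 < ε0 := by rw [hε0]; positivity
  have hε1 : ∀ ε, 0 < ε → ε < ε0 → 4 * ε / r < ρ := by
    intro ε _ h
    have := h.trans_le (min_le_left _ _)
    rw [div_lt_iff₀ hr]
    linarith
  have hε2 : ∀ ε, 0 < ε → ε < ε0 → (SL + 1) * (c1 * ε) < κ / 2 := by
    intro ε _ h
    have h2 := h.trans_le (min_le_right _ _)
    have h3 : 0 < 2 * (c1 * (SL + 1)) := by positivity
    rw [lt_div_iff₀ h3] at h2
    linarith
  -- arguments of the grafting operators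
  have hom : ∀ ε, 0 < ε → ε < ε0 → ∀ (y : HB (annu r1 r2) E × ((j : J) → HB (discAt (j : ℂ) r) E)),
      ‖y‖ < c1 * ε → ∀ j, ‖Lj j y.1 + y.2 j‖ < κ / 2 := by
    intro ε h0 hε y hy j
    have a1 : ‖Lj j y.1‖ ≤ SL * (c1 * ε) := by
      refine ((Lj j).le_opNorm _).trans ?_
      exact mul_le_mul (hLjS j) ((norm_fst_le y).trans hy.le) (norm_nonneg _) hSL0
    have a2 : ‖y.2 j‖ ≤ c1 * ε := (norm_le_pi_norm _ j).trans ((norm_snd_le y).trans hy.le)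
    calc ‖Lj j y.1 + y.2 j‖ ≤ ‖Lj j y.1‖ + ‖y.2 j‖ := norm_add_le _ _
      _ ≤ (SL + 1) * (c1 * ε) := by linarith
      _ < κ / 2 := hε2 ε h0 hε
  have hbe : ∀ ε, 0 < ε → ∀ (y : HB (annu r1 r2) E × ((j : J) → HB (discAt (j : ℂ) r) E)),
      ‖y‖ < c1 * ε → ∀ j, ‖bj j y.1‖ < κ * ε / 2 := by
    intro ε h0 y hy j
    have a1 : ‖bj j y.1‖ ≤ Sb * (c1 * ε) := by
      refine ((bj j).le_opNorm _).trans ?_
      exact mul_le_mul (hbjS j) ((norm_fst_le y).trans hy.le) (norm_nonneg _) hSb0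
    have a2 : Sb * c1 * ε < κ / 2 * ε := mul_lt_mul_of_pos_right hc1b h0
    linarith
  let Fo : ℝ → HB (annu r1 r2) E × ((j : J) → HB (discAt (j : ℂ) r) E) →
      ((j : J) → HB (annAt (j : ℂ) (r / 4) r) E) :=
    fun ε y j => Fop ε j (Lj j y.1 + y.2 j, bj j y.1)
  set C : ℝ := SC * (ε0 * (SL + 1) + Sb + 1) with hC
  have hC0 : 0 ≤ C := by positivity
  have hFd : ∀ ε, 0 < ε → ε < ε0 → DifferentiableOn ℂ (Fo ε) (ball 0 (c1 * ε)) := by
    intro ε h0 hε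
    rw [differentiableOn_pi]
    intro j
    refine (hFop ε j h0 (hε1 ε h0 hε)).2.1.comp ?_ ?_
    · refine DifferentiableOn.prodMk ?_ ?_
      · refine DifferentiableOn.add ?_ ?_
        · exact ((Lj j).differentiable.comp differentiable_fst).differentiableOn
        · exact ((ContinuousLinearMap.proj (R := ℂ)
            (φ := fun j : J => HB (discAt (j : ℂ) r) E) j).differentiable.comp
            differentiable_snd).differentiableOn
      · exact ((bj j).differentiable.comp differentiable_fst).differentiableOn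
    · intro y hy
      rw [mem_ball_zero_iff] at hy
      exact ⟨mem_ball_zero_iff.2 (hom ε h0 hε y hy j), mem_ball_zero_iff.2 (hbe ε h0 y hy j)⟩
  have hFb : ∀ ε, 0 < ε → ε < ε0 → ∀ y, ‖y‖ < c1 * ε → ‖Fo ε y‖ ≤ C * ε ^ 2 := by
    intro ε h0 hε y hy
    refine (pi_norm_le_iff_of_nonneg (by positivity)).2 fun j => ?_
    refine ((hFop ε j h0 (hε1 ε h0 hε)).2.2.1 _ _ (hom ε h0 hε y hy j)
      (hbe ε h0 y hy j)).trans ?_
    have e1 := hCFS j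
    have e2 : SC ≤ C := by
      rw [hC]
      have : 0 ≤ SC * (ε0 * (SL + 1) + Sb) := by positivity
      nlinarith
    have e3 : 0 ≤ ε ^ 2 := by positivity
    nlinarith
  have hFl : ∀ ε, 0 < ε → ε < ε0 → ∀ y y', ‖y‖ < c1 * ε → ‖y'‖ < c1 * ε →
      ‖Fo ε y - Fo ε y'‖ ≤ C * ε * ‖y - y'‖ := by
    intro ε h0 hε y y' hy hy'
    refine (pi_norm_le_iff_of_nonneg (by positivity)).2 fun j => ?_
    have e0 := (hFop ε j h0 (hε1 ε h0 hε)).2.2.2 _ _ _ _ (hom ε h0 hε y hy j)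
      (hbe ε h0 y hy j) (hom ε h0 hε y' hy' j) (hbe ε h0 y' hy' j)
    change ‖Fop ε j (Lj j y.1 + y.2 j, bj j y.1) - Fop ε j (Lj j y'.1 + y'.2 j, bj j y'.1)‖ ≤ _
    refine e0.trans ?_
    have e1 := hCFS j
    have e2 : ‖Lj j y.1 + y.2 j - (Lj j y'.1 + y'.2 j)‖ ≤ (SL + 1) * ‖y - y'‖ := by
      have q1 : Lj j y.1 + y.2 j - (Lj j y'.1 + y'.2 j) = Lj j (y - y').1 + (y - y').2 j := by
        rw [Prod.fst_sub, Prod.snd_sub, map_sub, Pi.sub_apply]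
        abel
      rw [q1]
      have a1 : ‖Lj j (y - y').1‖ ≤ SL * ‖y - y'‖ := by
        refine ((Lj j).le_opNorm _).trans ?_
        exact mul_le_mul (hLjS j) (norm_fst_le _) (norm_nonneg _) hSL0
      have a2 : ‖(y - y').2 j‖ ≤ ‖y - y'‖ := (norm_le_pi_norm _ j).trans (norm_snd_le _)
      calc ‖Lj j (y - y').1 + (y - y').2 j‖ ≤ ‖Lj j (y - y').1‖ + ‖(y - y').2 j‖ :=
            norm_add_le _ _
        _ ≤ (SL + 1) * ‖y - y'‖ := by linarith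
    have e3 : ‖bj j y.1 - bj j y'.1‖ ≤ Sb * ‖y - y'‖ := by
      rw [← map_sub, ← Prod.fst_sub]
      refine ((bj j).le_opNorm _).trans ?_
      exact mul_le_mul (hbjS j) (norm_fst_le _) (norm_nonneg _) hSb0
    have hcf := (hCF j).le
    have e4 : ε ^ 2 ≤ ε0 * ε := by nlinarith
    set N := ‖y - y'‖ with hN
    have hN' : 0 ≤ N := norm_nonneg _
    calc CF j * ε ^ 2 * ‖Lj j y.1 + y.2 j - (Lj j y'.1 + y'.2 j)‖ +
          CF j * ε * ‖bj j y.1 - bj j y'.1‖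
        ≤ SC * (ε0 * ε) * ((SL + 1) * N) + SC * ε * (Sb * N) := by gcongr
      _ = SC * (ε0 * (SL + 1) + Sb) * ε * N := by ring
      _ ≤ C * ε * N := by
          rw [hC]
          have e5 : ε0 * (SL + 1) + Sb ≤ ε0 * (SL + 1) + Sb + 1 := by linarith
          exact mul_le_mul_of_nonneg_right (mul_le_mul_of_nonneg_right
            (mul_le_mul_of_nonneg_left e5 hSC0) h0.le) hN'
  -- the size of the remaining quantities
  set W : ℝ := ‖Rr‖ + (Fintype.card J : ℝ) * (8 / (3 * r) * ‖Rr‖ + 6 * (C * ε0)) with hW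
  have hW0 : 0 ≤ W := by positivity
  set W2 : ℝ := 1 + r1⁻¹ + (r1⁻¹) ^ 2 * ‖Rr‖ with hW2
  have hW20 : 0 ≤ W2 := by positivity
  set η : ℝ := min (D.d / (W + 1)) (D.δ / (W2 + 1)) with hη
  have hη0 : 0 < η := by rw [hη]; positivity
  have hηW : W * η < D.d := by
    have e1 : η ≤ D.d / (W + 1) := min_le_left _ _
    rw [le_div_iff₀ (by positivity)] at e1
    nlinarith
  have hηW2 : W2 * η < D.δ := by
    have e1 : η ≤ D.δ / (W2 + 1) := min_le_right _ _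
    rw [le_div_iff₀ (by positivity)] at e1
    nlinarith
  obtain ⟨ε, d, hεp, hεε0, hdp, hdη, hεη, y, hyd, hy⟩ := graft_fix L0 GM K0 QA QK
    (half_pos D.hd) hCN hNd hN0 hNl hε00 hc10 hC0 Fo hFd hFb hFl hη0
  have hom' := fun t ht => hom ε hεp hεε0 (y t) (hy t ht).1
  have hbe' := fun t ht => hbe ε hεp (y t) (hy t ht).1
  have hFη : ∀ t ∈ ball (0 : E × E) d, ∀ j, ‖Fop ε j (Lj j (y t).1 + (y t).2 j, bj j (y t).1)‖ ≤
      C * ε0 * η := by
    intro t ht j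
    have e1 := (norm_le_pi_norm (Fo ε (y t)) j).trans (hFb ε hεp hεε0 (y t) (hy t ht).1)
    refine e1.trans ?_
    have e2 : ε ^ 2 ≤ ε0 * η := by nlinarith
    calc C * ε ^ 2 ≤ C * (ε0 * η) := by gcongr
      _ = C * ε0 * η := by ring
  have hRη : ∀ t ∈ ball (0 : E × E) d, ‖Rr (y t).1‖ ≤ ‖Rr‖ * η := by
    intro t ht
    refine (Rr.le_opNorm _).trans ?_
    exact mul_le_mul_of_nonneg_left ((norm_fst_le _).trans (hy t ht).2.1) (norm_nonneg _)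
  have hy1 : DifferentiableOn ℂ (fun t => (y t).1) (ball 0 d) :=
    differentiable_fst.comp_differentiableOn hyd
  have hy2 : ∀ j, DifferentiableOn ℂ (fun t => (y t).2 j) (ball 0 d) := by
    intro j
    exact ((ContinuousLinearMap.proj (R := ℂ)
      (φ := fun j : J => HB (discAt (j : ℂ) r) E) j).differentiable.comp
      differentiable_snd).comp_differentiableOn hyd
  have hRd : DifferentiableOn ℂ (fun t => Rr (y t).1) (ball 0 d) :=
    Rr.differentiable.comp_differentiableOn hy1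
  have homd : ∀ j, DifferentiableOn ℂ (fun t => Lj j (y t).1 + (y t).2 j) (ball 0 d) := fun j =>
    ((Lj j).differentiable.comp_differentiableOn hy1).add (hy2 j)
  have hbd : ∀ j, DifferentiableOn ℂ (fun t => bj j (y t).1) (ball 0 d) := fun j =>
    (bj j).differentiable.comp_differentiableOn hy1
  have hFod : ∀ j, DifferentiableOn ℂ
      (fun t => Fop ε j (Lj j (y t).1 + (y t).2 j, bj j (y t).1)) (ball 0 d) := by
    intro j
    refine (hFop ε j hεp (hε1 ε hεp hεε0)).2.1.comp ((homd j).prodMk (hbd j)) ?_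
    intro t ht
    exact ⟨mem_ball_zero_iff.2 (hom' t ht j), mem_ball_zero_iff.2 (hbe' t ht j)⟩
  refine ⟨{ ε := ε, d := d, εpos := hεp, dpos := hdp, small := hε1 ε hεp hεε0
            V0 := fun t => (Rr (y t).1).1
            β := fun t => (Rr (y t).1).2.1
            Vi := fun t => (Rr (y t).1).2.2
            om := fun t j => Lj j (y t).1 + (y t).2 j
            yp := fun t j => Pp j (Fop ε j (Lj j (y t).1 + (y t).2 j, bj j (y t).1))
            ym := fun t j => Pm j (Fop ε j (Lj j (y t).1 + (y t).2 j, bj j (y t).1))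
            diffV0 := ?_, diffβ := ?_, diffVi := ?_, diffom := homd, diffym := ?_, omlt := ?_
            βlt := ?_, w0lt := ?_, wilt := ?_, split := ?_, reg := ?_, trans := ?_ }⟩
  · exact differentiable_fst.comp_differentiableOn hRd
  · exact (differentiable_fst.comp differentiable_snd).comp_differentiableOn hRd
  · exact (differentiable_snd.comp differentiable_snd).comp_differentiableOn hRd
  · intro j
    exact (Pm j).differentiable.comp_differentiableOn (hFod j)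
  · intro t ht j z _
    have e1 := (HB.fn_le (Lj j (y t).1 + (y t).2 j) z).trans_lt (hom' t ht j)
    linarith
  · intro t ht j
    have e1 := hbe' t ht j
    rw [hbj] at e1
    rw [norm_smul, norm_inv, Complex.norm_real, Real.norm_of_nonneg hεp.le]
    rw [inv_mul_lt_iff₀ hεp]
    nlinarith
  · intro t ht z _ hzJ
    have hRt := hRη t ht
    have a1 : ‖(Rr (y t).1).1.fn z‖ ≤ ‖Rr‖ * η :=
      (HB.fn_le _ z).trans ((norm_fst_le _).trans hRt)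
    have a2 : ∀ j : J, ‖(z - (j : ℂ))⁻¹ • (Rr (y t).1).2.1 j +
        (Pm j (Fop ε j (Lj j (y t).1 + (y t).2 j, bj j (y t).1))).fn z‖ ≤
        8 / (3 * r) * (‖Rr‖ * η) + 6 * (C * ε0 * η) := by
      intro j
      have b1 : ‖z - (j : ℂ)‖⁻¹ ≤ 8 / (3 * r) := by
        have := (hzJ j j.2).le
        have h3 : 0 < 3 * r / 8 := by positivity
        have := inv_anti₀ h3 this
        refine this.trans (le_of_eq ?_)
        rw [inv_div]
      have b2 : ‖(Rr (y t).1).2.1 j‖ ≤ ‖Rr‖ * η :=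
        (norm_le_pi_norm _ j).trans ((norm_fst_le _).trans ((norm_snd_le _).trans hRt))
      have b3 : ‖(Pm j (Fop ε j (Lj j (y t).1 + (y t).2 j, bj j (y t).1))).fn z‖ ≤
          6 * (C * ε0 * η) := by
        refine (HB.fn_le _ z).trans (((Pm j).le_opNorm _).trans ?_)
        exact mul_le_mul (hPm j) (hFη t ht j) (norm_nonneg _) (by norm_num)
      refine (norm_add_le _ _).trans (add_le_add ?_ b3)
      rw [norm_smul, norm_inv]
      exact mul_le_mul b1 b2 (norm_nonneg _) (by positivity)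
    calc ‖(Rr (y t).1).1.fn z + ∑ j : J, ((z - (j : ℂ))⁻¹ • (Rr (y t).1).2.1 j +
          (Pm j (Fop ε j (Lj j (y t).1 + (y t).2 j, bj j (y t).1))).fn z)‖
        ≤ ‖(Rr (y t).1).1.fn z‖ + ‖∑ j : J, ((z - (j : ℂ))⁻¹ • (Rr (y t).1).2.1 j +
          (Pm j (Fop ε j (Lj j (y t).1 + (y t).2 j, bj j (y t).1))).fn z)‖ := norm_add_le _ _
      _ ≤ ‖Rr‖ * η + ∑ j : J, (8 / (3 * r) * (‖Rr‖ * η) + 6 * (C * ε0 * η)) := by
          refine add_le_add a1 ((norm_sum_le _ _).trans (Finset.sum_le_sum fun j _ => a2 j))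
      _ = W * η := by
          rw [Finset.sum_const, nsmul_eq_mul, Finset.card_univ, hW]; ring
      _ < D.d := hηW
  · intro t ht x hx
    have hRt := hRη t ht
    have htd : ‖t‖ ≤ η := (mem_ball_zero_iff.1 ht).le.trans hdη
    have hx' : ‖x‖ ≤ r1⁻¹ := (mem_ball_zero_iff.1 hx).le
    have a1 : ‖(Rr (y t).1).2.2.fn x‖ ≤ ‖Rr‖ * η :=
      (HB.fn_le _ x).trans ((norm_snd_le _).trans ((norm_snd_le _).trans hRt))
    have a2 : ‖x • t.2‖ ≤ r1⁻¹ * η := by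
      rw [norm_smul]
      exact mul_le_mul hx' ((norm_snd_le _).trans htd) (norm_nonneg _) (by positivity)
    have a3 : ‖x ^ 2 • (Rr (y t).1).2.2.fn x‖ ≤ (r1⁻¹) ^ 2 * (‖Rr‖ * η) := by
      rw [norm_smul, norm_pow]
      exact mul_le_mul (pow_le_pow_left₀ (norm_nonneg _) hx' 2) a1 (norm_nonneg _)
        (by positivity)
    have a4 : ‖t.1‖ ≤ η := (norm_fst_le _).trans htd
    calc ‖t.1 + x • t.2 + x ^ 2 • (Rr (y t).1).2.2.fn x‖
        ≤ ‖t.1‖ + ‖x • t.2‖ + ‖x ^ 2 • (Rr (y t).1).2.2.fn x‖ := norm_add₃_le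
      _ ≤ η + r1⁻¹ * η + (r1⁻¹) ^ 2 * (‖Rr‖ * η) := by gcongr
      _ = W2 * η := by rw [hW2]; ring
      _ < D.δ := hηW2
  · intro t ht j z hz
    have hz' : z ∈ annAt (j : ℂ) (r / 4) r := by
      have h3 : 3 * r / 8 < ‖z - (j : ℂ)‖ := hz.1
      exact ⟨by linarith, hz.2⟩
    rw [← hops j _ z hz]
    exact (hFop ε j hεp (hε1 ε hεp hεε0)).1 _ _ (hom' t ht j) (hbe' t ht j) z hz'
  · intro t ht j z hz
    have e1 := congrFun (hy t ht).2.2.2.2 j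
    rw [hQK] at e1
    have e2 : (y t).2 j = - Pp j (Fop ε j (Lj j (y t).1 + (y t).2 j, bj j (y t).1)) +
      ∑ i ∈ Finset.univ.erase j, Rk j i (Pm i (Fop ε i (Lj i (y t).1 + (y t).2 i,
        bj i (y t).1))) := e1
    have e3 := congrArg (fun f => HB.fn f z) e2
    simp only [HB.fn_add, HB.fn_neg, fn_sum] at e3
    rw [HB.fn_add, hLj j _ z hz, e3, Finset.sum_add_distrib]
    have e4 : ∑ i ∈ Finset.univ.erase j, (Rk j i (Pm i (Fop ε i (Lj i (y t).1 + (y t).2 i,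
        bj i (y t).1)))).fn z = ∑ i ∈ Finset.univ.erase j, (Pm i (Fop ε i (Lj i (y t).1 +
        (y t).2 i, bj i (y t).1))).fn z :=
      Finset.sum_congr rfl fun i hi => hRk j i (Finset.ne_of_mem_erase hi) _ z hz
    rw [e4]
    abel
  · intro t ht z hz
    obtain ⟨-, -, e1, e2, -⟩ := hy t ht
    have e3 := congrArg (fun f => HB.fn f z) e1
    simp only [HB.fn_add, HB.fn_neg] at e3
    rw [hNf _ e2 z hz, hGM _ z hz, hK0 t z hz] at e3
    have e4 : (QA (Fo ε (y t))).fn z = ∑ j : J, (Pm j (Fop ε j (Lj j (y t).1 + (y t).2 j,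
        bj j (y t).1))).fn z := by
      rw [hQA, fn_sum]
      exact Finset.sum_congr rfl fun j _ => hRa j _ z hz
    have e5 : (L0 (y t).1 + QA (Fo ε (y t))).fn z = (Rr (y t).1).1.fn z +
        ∑ j : J, ((z - (j : ℂ))⁻¹ • (Rr (y t).1).2.1 j + (Pm j (Fop ε j (Lj j (y t).1 +
        (y t).2 j, bj j (y t).1))).fn z) := by
      rw [HB.fn_add, hL0 _ z hz, e4, Finset.sum_add_distrib, add_assoc]
    have e6 := hRr (y t).1 z hz
    rw [← e5]
    have e7 : (L0 (y t).1 + QA (Fo ε (y t))).fn z = ((Rr (y t).1).1.fn z +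
        ∑ j : J, (z - (j : ℂ))⁻¹ • (Rr (y t).1).2.1 j) + (QA (Fo ε (y t))).fn z := by
      rw [HB.fn_add, hL0 _ z hz]
    set w := (L0 (y t).1 + QA (Fo ε (y t))).fn z with hw
    have e8 : fderiv ℂ (D.θ z) 0 w = fderiv ℂ (D.θ z) 0 ((Rr (y t).1).1.fn z +
        ∑ j : J, (z - (j : ℂ))⁻¹ • (Rr (y t).1).2.1 j) +
        fderiv ℂ (D.θ z) 0 ((QA (Fo ε (y t))).fn z) := by rw [e7, map_add]
    rw [e8, ← e6] at e3
    set a := fderiv ℂ (D.θ z) 0 ((Rr (y t).1).1.fn z +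
        ∑ j : J, (z - (j : ℂ))⁻¹ • (Rr (y t).1).2.1 j)
    set b := fderiv ℂ (D.θ z) 0 ((QA (Fo ε (y t))).fn z)
    have e9 : D.θ z w = t.1 + z⁻¹ • t.2 + ((z⁻¹) ^ 2 • (Rr (y t).1).2.2.fn z⁻¹ - a) + a := by
      rw [e3]; abel
    rw [e9]; abel

end Pool.Agent.W_4d259d_h44
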