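import Pool.Agent.W_4d259d_h44.TwoDisc

/-!
# MP_4d259d_ag, BLOCK GR (section 16): definitions
-/

noncomputable section

set_option linter.unusedSectionVars false

namespace Pool.Agent.W_4d259d_h44

open Set Filter Topology Manifold Metric MeasureTheory TopologicalSpace
open scoped ContDiff OnePoint BoundedContinuousFunction
open Pool.Agent.W_4d259d_h46.Defs Pool.Agent.W_4d259d_h46

variable {E : Type} [NormedAddCommGroup E] [NormedSpace ℂ E] [FiniteDimensional ℂ E]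
variable {X : Type} [MetricSpace X] [ChartedSpace E X] [IsManifold (modelWithCornersSelf ℂ E) ω X]

/-- The open disc of centre `c`. -/
def discAt (c : ℂ) (r : ℝ) : Opens ℂ := ⟨ball c r, isOpen_ball⟩

/-- The outside `r < |z - c|` of a closed disc. -/
def extAt (c : ℂ) (r : ℝ) : Opens ℂ :=
  ⟨{z | r < ‖z - c‖}, isOpen_lt continuous_const (continuous_id.sub continuous_const).norm⟩

/-- The annulus `a < |z - c| < b`. -/
def annAt (c : ℂ) (a b : ℝ) : Opens ℂ :=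
  ⟨{z | a < ‖z - c‖ ∧ ‖z - c‖ < b},
    (isOpen_lt continuous_const (continuous_id.sub continuous_const).norm).inter
      (isOpen_lt (continuous_id.sub continuous_const).norm continuous_const)⟩

/-- A flexible family in the fibre coordinate of a spray `s` (radius `δ`) near `c`: for
`ζ ∈ ball 0 ρ ∖ {0}`, `z ∈ ball c r`, `w, b ∈ ball 0 κ`:
`LL ζ⁻¹ z w b = s z (w + ζ b + ζ² Ups ζ z w b)`. -/
structure GraftFam (s : ℂ → E → X) (δ : ℝ) (c : ℂ) (r ρ κ M : ℝ) (LL : ℂ → ℂ → E → E → X)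
    (Ups : ℂ → ℂ → E → E → E) : Prop where
  rpos : 0 < r
  rhopos : 0 < ρ
  kpos : 0 < κ
  hol : MDifferentiableOn (modelWithCornersSelf ℂ (ℂ × ℂ × E × E)) (modelWithCornersSelf ℂ E)
    (fun q : ℂ × ℂ × E × E => LL q.1 q.2.1 q.2.2.1 q.2.2.2)
    (univ ×ˢ (ball c r ×ˢ (ball 0 κ ×ˢ ball 0 κ)))
  holU : DifferentiableOn ℂ (fun q : ℂ × ℂ × E × E => Ups q.1 q.2.1 q.2.2.1 q.2.2.2)
    (ball 0 ρ ×ˢ (ball c r ×ˢ (ball 0 κ ×ˢ ball 0 κ)))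
  bound : ∀ ζ ∈ ball (0 : ℂ) ρ, ∀ z ∈ ball c r, ∀ w ∈ ball (0 : E) κ, ∀ b ∈ ball (0 : E) κ,
    ‖Ups ζ z w b‖ ≤ M
  eq : ∀ ζ ∈ ball (0 : ℂ) ρ, ζ ≠ 0 → ∀ z ∈ ball c r, ∀ w ∈ ball (0 : E) κ,
    ∀ b ∈ ball (0 : E) κ, ‖w + ζ • b + ζ ^ 2 • Ups ζ z w b‖ < δ ∧
      LL ζ⁻¹ z w b = s z (w + ζ • b + ζ ^ 2 • Ups ζ z w b)

/-- Smaller constants. -/
theorem GraftFam.mono {s : ℂ → E → X} {δ : ℝ} {c : ℂ} {r ρ κ M r' ρ' κ' M' : ℝ}
    {LL : ℂ → ℂ → E → E → X} {Ups : ℂ → ℂ → E → E → E} (h : GraftFam s δ c r ρ κ M LL Ups)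
    (hr : 0 < r') (hr' : r' ≤ r) (hρ : 0 < ρ') (hρ' : ρ' ≤ ρ) (hκ : 0 < κ') (hκ' : κ' ≤ κ)
    (hM : M ≤ M') : GraftFam s δ c r' ρ' κ' M' LL Ups := by
  have hb : ball (0 : ℂ) ρ' ⊆ ball 0 ρ := ball_subset_ball hρ'
  have hc : ball c r' ⊆ ball c r := ball_subset_ball hr'
  have hk : ball (0 : E) κ' ⊆ ball 0 κ := ball_subset_ball hκ'
  refine ⟨hr, hρ, hκ, h.hol.mono ?_, h.holU.mono ?_, ?_, ?_⟩
  · exact prod_mono subset_rfl (prod_mono hc (prod_mono hk hk))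
  · exact prod_mono hb (prod_mono hc (prod_mono hk hk))
  · intro ζ hζ z hz w hw b hb'
    exact (h.bound ζ (hb hζ) z (hc hz) w (hk hw) b (hk hb')).trans hM
  · intro ζ hζ h0 z hz w hw b hb'
    exact h.eq ζ (hb hζ) h0 z (hc hz) w (hk hw) b (hk hb')

end Pool.Agent.W_4d259d_h44
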