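import Pool.Agent.W_4d259d_h44.Iface

/-!
# MP_4d259d_ag, BLOCK HO (section 19): Runge hulls and Runge exhaustion
-/

noncomputable section

set_option linter.unusedSectionVars false

namespace Pool.Agent.W_4d259d_h44

open Set Filter Topology Manifold Metric TopologicalSpace
open scoped ContDiff unitInterval
open Pool.Agent.W_4d259d_h46.Defs Pool.Agent.W_4d259d_h46

variable {R : Type} [TopologicalSpace R] [T2Space R] [ConnectedSpace R] [NoncompactSpace R]
  [SecondCountableTopology R] [ChartedSpace ℂ R] [IsManifold (modelWithCornersSelf ℂ ℂ) ω R]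

/-- RUNGE HULL.  `L` compact: `L' = L ∪` (the relatively compact components of `Lᶜ`).
Proof: if `L` is empty take `L' = ∅` (`Lᶜ = R` is connected and not compact).  Otherwise let `N` be a
compact neighbourhood of `L`.  Components of `Lᶜ` are open (`R` is locally connected).  The compact
`frontier N ⊆ Lᶜ` is covered by finitely many components `C1..Cn`.  Any other component `C` does not
meet `frontier N`, so `C ⊆ interior N` or `C ∩ N = ∅`; in the second case `C` is closed (its closure
misses `L`, and a component of `Lᶜ` is closed in `Lᶜ`), open and nonempty, so `C = R`: impossible.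
So `L' ⊆ N ∪` finitely many relatively compact `closure Ci`; `L'ᶜ` is a union of components, open, so
`L'` is compact; the components of `L'ᶜ` are components of `Lᶜ` which are not relatively compact. -/
theorem exists_hull {L : Set R} (hL : IsCompact L) :
    ∃ L' : Set R, IsCompact L' ∧ IsRunge L' ∧ L ⊆ L' := by
  classical
  haveI : LocallyCompactSpace R := ChartedSpace.locallyCompactSpace ℂ R
  haveI : LocallyConnectedSpace R := ChartedSpace.locallyConnectedSpace ℂ R
  have hLo : IsOpen Lᶜ := hL.isClosed.isOpen_compl
  set U : Set R := {x | x ∈ Lᶜ ∧ ¬ IsCompact (closure (connectedComponentIn Lᶜ x))} with hU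
  have hUo : IsOpen U := by
    rw [isOpen_iff_mem_nhds]
    rintro x ⟨hx, hxc⟩
    refine mem_of_superset (hLo.connectedComponentIn.mem_nhds (mem_connectedComponentIn hx)) ?_
    intro y hy
    refine ⟨connectedComponentIn_subset _ _ hy, ?_⟩
    rw [← connectedComponentIn_eq hy]
    exact hxc
  refine ⟨Uᶜ, ?_, ?_, ?_⟩
  · obtain ⟨N, hN, hLN⟩ := exists_compact_superset hL
    have hfr : IsCompact (frontier N) := hN.of_isClosed_subset isClosed_frontier
      (by rw [hN.isClosed.frontier_eq]; exact sdiff_subset)
    have hfrL : frontier N ⊆ Lᶜ := by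
      intro x hx hxL
      exact hx.2 (hLN hxL)
    obtain ⟨t, ht, htc⟩ := hfr.elim_nhds_subcover (fun x => connectedComponentIn Lᶜ x)
      (fun x hx => hLo.connectedComponentIn.mem_nhds (mem_connectedComponentIn (hfrL hx)))
    set t' := t.filter fun x => IsCompact (closure (connectedComponentIn Lᶜ x)) with ht'
    have hbig : IsCompact (N ∪ ⋃ x ∈ t', closure (connectedComponentIn Lᶜ x)) := by
      refine hN.union (t'.isCompact_biUnion fun x hx => ?_)
      exact (Finset.mem_filter.1 hx).2
    refine hbig.of_isClosed_subset hUo.isClosed_compl ?_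
    intro y hyU
    by_cases hyN : y ∈ N
    · exact Or.inl hyN
    · right
      have hyL : y ∈ Lᶜ := fun h => hyN (interior_subset (hLN h))
      have hyc : IsCompact (closure (connectedComponentIn Lᶜ y)) := by
        by_contra h
        exact hyU ⟨hyL, h⟩
      by_cases hmeet : (connectedComponentIn Lᶜ y ∩ frontier N).Nonempty
      · obtain ⟨p, hp1, hp2⟩ := hmeet
        obtain ⟨x, hx, hpx⟩ := mem_iUnion₂.1 (htc hp2)
        have e1 : connectedComponentIn Lᶜ y = connectedComponentIn Lᶜ x := by
          rw [connectedComponentIn_eq hp1, connectedComponentIn_eq hpx]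
        rw [mem_iUnion₂]
        refine ⟨x, ?_, ?_⟩
        · rw [ht', Finset.mem_filter, ← e1]
          exact ⟨hx, hyc⟩
        · rw [← e1]
          exact subset_closure (mem_connectedComponentIn hyL)
      · exfalso
        have hsub : connectedComponentIn Lᶜ y ⊆ Nᶜ := by
          refine IsPreconnected.subset_left_of_subset_union hN.isClosed.isOpen_compl
            (isOpen_interior (s := N)) ?_ ?_ ⟨y, mem_connectedComponentIn hyL, hyN⟩
            isPreconnected_connectedComponentIn
          · rw [Set.disjoint_left]
            exact fun x hx hx' => hx (interior_subset hx')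
          · intro x hx
            by_cases hxN : x ∈ N
            · right
              by_contra hxi
              exact hmeet ⟨x, hx, subset_closure hxN, hxi⟩
            · exact Or.inl hxN
        have hclosed : IsClosed (connectedComponentIn Lᶜ y) := by
          rw [← closure_subset_iff_isClosed]
          intro p hp
          have hp1 : p ∈ closure Nᶜ := closure_mono hsub hp
          rw [closure_compl] at hp1
          have hpL : p ∈ Lᶜ := fun h => hp1 (hLN h)
          obtain ⟨q, hq1, hq2⟩ := mem_closure_iff.1 hp _ (hLo.connectedComponentIn (x := p))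
            (mem_connectedComponentIn hpL)
          rw [connectedComponentIn_eq hq2, ← connectedComponentIn_eq hq1]
          exact mem_connectedComponentIn hpL
        have huniv : connectedComponentIn Lᶜ y = univ :=
          IsClopen.eq_univ ⟨hclosed, hLo.connectedComponentIn⟩ ⟨y, mem_connectedComponentIn hyL⟩
        rw [huniv, closure_univ] at hyc
        exact noncompact_univ R hyc
  · intro x hx hcomp
    rw [compl_compl] at hx hcomp
    have hsub : connectedComponentIn Lᶜ x ⊆ U := by
      intro y hy
      refine ⟨connectedComponentIn_subset _ _ hy, ?_⟩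
      rw [← connectedComponentIn_eq hy]
      exact hx.2
    have hsub2 : connectedComponentIn Lᶜ x ⊆ connectedComponentIn U x :=
      isPreconnected_connectedComponentIn.subset_connectedComponentIn
        (mem_connectedComponentIn hx.1) hsub
    exact hx.2 (hcomp.of_isClosed_subset isClosed_closure (closure_mono hsub2))
  · intro x hx hxU
    exact hxU.1 hx

/-- RUNGE EXHAUSTION: `L (j+1)` = hull of a compact neighbourhood of `L j` united with the `j`-th set
of a compact exhaustion (`CompactExhaustion.choice`). -/
theorem rungeExh : RungeExh R := by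
  classical
  haveI : LocallyCompactSpace R := ChartedSpace.locallyCompactSpace ℂ R
  haveI : SigmaCompactSpace R := inferInstance
  intro K hK hKR
  let Ex : CompactExhaustion R := CompactExhaustion.choice R
  have hstep : ∀ (A : {A : Set R // IsCompact A ∧ IsRunge A}) (j : ℕ),
      ∃ B : {A : Set R // IsCompact A ∧ IsRunge A}, A.1 ⊆ interior B.1 ∧ Ex j ⊆ B.1 := by
    intro A j
    obtain ⟨N, hN, hAN⟩ := exists_compact_superset (A.2.1.union (Ex.isCompact j))
    obtain ⟨B, hB1, hB2, hB3⟩ := exists_hull hN
    refine ⟨⟨B, hB1, hB2⟩, ?_, ?_⟩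
    · exact (subset_union_left.trans hAN).trans (interior_mono hB3)
    · exact (subset_union_right.trans hAN).trans (interior_subset.trans hB3)
  choose st hst1 hst2 using hstep
  let L : ℕ → {A : Set R // IsCompact A ∧ IsRunge A} := fun n =>
    Nat.rec ⟨K, hK, hKR⟩ (fun j A => st A j) n
  have hL1 : ∀ j, L (j + 1) = st (L j) j := fun j => rfl
  refine ⟨fun n => (L n).1, rfl, fun j => (L j).2.1, fun j => (L j).2.2, ?_, ?_⟩
  · intro j
    change (L j).1 ⊆ interior (L (j + 1)).1
    rw [hL1]
    exact hst1 _ _
  · refine eq_univ_of_forall fun x => ?_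
    obtain ⟨j, hj⟩ : ∃ j, x ∈ Ex j := by
      have : x ∈ ⋃ j, Ex j := by rw [Ex.iUnion_eq]; trivial
      exact mem_iUnion.1 this
    rw [mem_iUnion]
    refine ⟨j + 1, ?_⟩
    change x ∈ (L (j + 1)).1
    rw [hL1]
    exact hst2 _ _ hj

end Pool.Agent.W_4d259d_h44
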