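import Pool.Agent.W_4d259d_h44.Iface

/-!
# MP_4d259d_ag, BLOCK HO (section 19): a local move inside a closed coordinate disc
-/

noncomputable section

set_option linter.unusedSectionVars false

namespace Pool.Agent.W_4d259d_h44

open Set Filter Topology Manifold Metric TopologicalSpace
open scoped ContDiff unitInterval
open Pool.Agent.W_4d259d_h46.Defs Pool.Agent.W_4d259d_h46

variable {R : Type} [TopologicalSpace R] [T2Space R] [ChartedSpace ℂ R]
  [IsManifold (modelWithCornersSelf ℂ ℂ) ω R]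

/-- The planar isotopy of `local_move`. -/
def pmove (c : ℂ) (r : ℝ) (p0 : ℂ) (t : ℝ) (z : ℂ) : ℂ :=
  z + ((t * max 0 (1 - ‖z - c‖ / r) : ℝ) : ℂ) * (p0 - c)

theorem pmove_cont (c : ℂ) (r : ℝ) (p0 : ℂ) :
    Continuous fun q : ℝ × ℂ => pmove c r p0 q.1 q.2 := by
  unfold pmove
  fun_prop

theorem pmove_off {c : ℂ} {r : ℝ} (hr : 0 < r) (p0 : ℂ) (t : ℝ) {z : ℂ}
    (hz : z ∉ ball c r) : pmove c r p0 t z = z := by
  rw [mem_ball, dist_eq_norm, not_lt] at hz
  have h1 : max 0 (1 - ‖z - c‖ / r) = 0 := by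
    refine max_eq_left ?_
    rw [sub_nonpos, le_div_iff₀ hr, one_mul]
    exact hz
  unfold pmove
  rw [h1, mul_zero, Complex.ofReal_zero, zero_mul, add_zero]

theorem pmove_mem {c : ℂ} {r : ℝ} (hr : 0 < r) {p0 : ℂ} (hp : p0 ∈ ball c r) {t : ℝ}
    (ht : t ∈ Icc (0 : ℝ) 1) {z : ℂ} (hz : z ∈ closedBall c r) :
    pmove c r p0 t z ∈ closedBall c r := by
  rw [mem_closedBall, dist_eq_norm] at hz ⊢
  rw [mem_ball, dist_eq_norm] at hp
  have h0 : 0 ≤ 1 - ‖z - c‖ / r := by
    rw [sub_nonneg, div_le_iff₀ hr, one_mul]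
    exact hz
  unfold pmove
  rw [max_eq_right h0]
  have h1 : z + ((t * (1 - ‖z - c‖ / r) : ℝ) : ℂ) * (p0 - c) - c =
      (z - c) + ((t * (1 - ‖z - c‖ / r) : ℝ) : ℂ) * (p0 - c) := by ring
  rw [h1]
  refine (norm_add_le _ _).trans ?_
  rw [norm_mul, Complex.norm_real, Real.norm_of_nonneg (mul_nonneg ht.1 h0)]
  have h2 : t * (1 - ‖z - c‖ / r) * ‖p0 - c‖ ≤ (1 - ‖z - c‖ / r) * r := by
    have h3 : t * (1 - ‖z - c‖ / r) ≤ 1 - ‖z - c‖ / r := mul_le_of_le_one_left h0 ht.2
    exact mul_le_mul h3 hp.le (norm_nonneg _) h0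
  have h4 : (1 - ‖z - c‖ / r) * r = r - ‖z - c‖ := by field_simp
  linarith

theorem pmove_inj {c : ℂ} {r : ℝ} (hr : 0 < r) {p0 : ℂ} (hp : p0 ∈ ball c r) {t : ℝ}
    (ht : t ∈ Icc (0 : ℝ) 1) : Function.Injective (pmove c r p0 t) := by
  intro z w h
  by_contra hne
  rw [mem_ball, dist_eq_norm] at hp
  have hd : 0 < ‖z - w‖ := norm_pos_iff.2 (sub_ne_zero.2 hne)
  unfold pmove at h
  have h1 : z - w = ((t * (max 0 (1 - ‖w - c‖ / r) - max 0 (1 - ‖z - c‖ / r)) : ℝ) : ℂ) *
      (p0 - c) := by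
    push_cast
    push_cast at h
    linear_combination h
  have h2 : |max 0 (1 - ‖w - c‖ / r) - max 0 (1 - ‖z - c‖ / r)| ≤ ‖z - w‖ / r := by
    refine (abs_max_sub_max_le_abs _ _ 0 |>.trans ?_ : |max (1 - ‖w - c‖ / r) 0 -
      max (1 - ‖z - c‖ / r) 0| ≤ ‖z - w‖ / r) |> fun h => by simpa only [max_comm] using h
    have h3 : 1 - ‖w - c‖ / r - (1 - ‖z - c‖ / r) = (‖z - c‖ - ‖w - c‖) / r := by ring
    rw [h3, abs_div, abs_of_pos hr]
    refine div_le_div_of_nonneg_right ?_ hr.le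
    have := abs_norm_sub_norm_le (z - c) (w - c)
    rwa [sub_sub_sub_cancel_right] at this
  have h4 : ‖z - w‖ ≤ ‖z - w‖ / r * ‖p0 - c‖ := by
    calc ‖z - w‖ = ‖((t * (max 0 (1 - ‖w - c‖ / r) - max 0 (1 - ‖z - c‖ / r)) : ℝ) : ℂ) *
        (p0 - c)‖ := by rw [← h1]
      _ = t * |max 0 (1 - ‖w - c‖ / r) - max 0 (1 - ‖z - c‖ / r)| * ‖p0 - c‖ := by
          rw [norm_mul, Complex.norm_real, Real.norm_eq_abs, abs_mul, abs_of_nonneg ht.1]
      _ ≤ ‖z - w‖ / r * ‖p0 - c‖ := by
          refine mul_le_mul_of_nonneg_right ?_ (norm_nonneg _)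
          exact (mul_le_of_le_one_left (abs_nonneg _) ht.2).trans h2
  have h5 : ‖z - w‖ / r * ‖p0 - c‖ < ‖z - w‖ := by
    rw [div_mul_eq_mul_div, div_lt_iff₀ hr]
    exact mul_lt_mul_of_pos_left hp hd
  linarith

/-- LOCAL MOVE.  In the coordinate disc `D = e.symm '' closedBall c r` the isotopy
`ψ_t(z) = z + t (1 - |z - c|/r) (p0 - c)` (in the coordinate `z`), extended by the identity: it is
injective because `| |z-c| - |w-c| | / r * |p0 - c| < |z - w|` for `z ≠ w`, it is the identity on the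
boundary circle, and moves the centre to `p0`.  Continuity: closed pieces `D` and `(interior part)ᶜ`. -/
theorem local_move {e : OpenPartialHomeomorph R ℂ} (he : e ∈ RChart R) {c : ℂ} {r : ℝ}
    (hr : 0 < r) (hsub : closedBall c r ⊆ e.target) {p0 : ℂ} (hp : p0 ∈ ball c r) :
    ∃ ψ : C(I × R, R), (∀ x, ψ (0, x) = x) ∧ (∀ t, Function.Injective fun x => ψ (t, x)) ∧
      (∀ t, ∀ x ∉ e.symm '' closedBall c r, ψ (t, x) = x) ∧
      ψ (1, e.symm c) = e.symm p0 := by
  classical
  have hD : IsClosed (e.symm '' closedBall c r) :=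
    ((isCompact_closedBall c r).image_of_continuousOn (e.symm.continuousOn.mono hsub)).isClosed
  have hmem : ∀ (t : I) (z : ℂ), z ∈ e.target → pmove c r p0 t z ∈ e.target := by
    intro t z hz
    by_cases h : z ∈ closedBall c r
    · exact hsub (pmove_mem hr hp t.2 h)
    · rw [pmove_off hr p0 t (fun h' => h (ball_subset_closedBall h'))]
      exact hz
  let f : I × R → R := fun q => if q.2 ∈ e.source then e.symm (pmove c r p0 q.1 (e q.2)) else q.2
  have hf1 : ∀ (t : I) (x : R), x ∈ e.source → f (t, x) = e.symm (pmove c r p0 t (e x)) :=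
    fun t x hx => if_pos hx
  have hf2 : ∀ (t : I) (x : R), x ∉ e.source → f (t, x) = x := fun t x hx => if_neg hx
  have hoff : ∀ (t : I), ∀ x ∉ e.symm '' closedBall c r, f (t, x) = x := by
    intro t x hx
    by_cases h : x ∈ e.source
    · rw [hf1 t x h, pmove_off hr, e.left_inv h]
      intro h'
      exact hx ⟨e x, ball_subset_closedBall h', e.left_inv h⟩
    · exact hf2 t x h
  have hcont : Continuous f := by
    rw [continuous_iff_continuousAt]
    rintro ⟨t, x⟩
    by_cases h : x ∈ e.source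
    · have h1 : ContinuousAt (fun q : I × R => e.symm (pmove c r p0 q.1 (e q.2))) (t, x) := by
        have h2 : ContinuousAt (fun q : I × R => pmove c r p0 q.1 (e q.2)) (t, x) := by
          have h3 : ContinuousAt (fun q : I × R => ((q.1 : ℝ), e q.2)) (t, x) :=
            (continuous_subtype_val.continuousAt.comp continuousAt_fst).prodMk
              ((e.continuousAt h).comp (x := (t, x)) continuousAt_snd)
          exact (pmove_cont c r p0).continuousAt.comp h3
        exact (e.continuousAt_symm (hmem t _ (e.map_source h))).comp (x := (t, x)) h2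
      refine h1.congr ?_
      have h4 : (univ : Set I) ×ˢ e.source ∈ 𝓝 (t, x) :=
        (isOpen_univ.prod e.open_source).mem_nhds ⟨mem_univ _, h⟩
      filter_upwards [h4] with q hq
      exact (hf1 q.1 q.2 hq.2).symm
    · have hx : x ∉ e.symm '' closedBall c r := by
        rintro ⟨z, hz, rfl⟩
        exact h (e.map_target (hsub hz))
      refine continuousAt_snd.congr ?_
      have h4 : (univ : Set I) ×ˢ (e.symm '' closedBall c r)ᶜ ∈ 𝓝 (t, x) :=
        (isOpen_univ.prod hD.isOpen_compl).mem_nhds ⟨mem_univ _, hx⟩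
      filter_upwards [h4] with q hq
      exact (hoff q.1 q.2 hq.2).symm
  refine ⟨⟨f, hcont⟩, ?_, ?_, hoff, ?_⟩
  · intro x
    show f (0, x) = x
    by_cases h : x ∈ e.source
    · rw [hf1 0 x h]
      have : pmove c r p0 ((0 : I) : ℝ) (e x) = e x := by
        unfold pmove
        simp
      rw [this, e.left_inv h]
    · exact hf2 0 x h
  · intro t x y hxy
    have hxy' : f (t, x) = f (t, y) := hxy
    by_cases hx : x ∈ e.source <;> by_cases hy : y ∈ e.source
    · rw [hf1 t x hx, hf1 t y hy] at hxy'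
      have h1 := e.symm.injOn (hmem t _ (e.map_source hx)) (hmem t _ (e.map_source hy)) hxy'
      exact e.injOn hx hy (pmove_inj hr hp t.2 h1)
    · rw [hf1 t x hx, hf2 t y hy] at hxy'
      exact absurd (hxy' ▸ e.map_target (hmem t _ (e.map_source hx))) hy
    · rw [hf2 t x hx, hf1 t y hy] at hxy'
      exact absurd (hxy'.symm ▸ e.map_target (hmem t _ (e.map_source hy))) hx
    · rwa [hf2 t x hx, hf2 t y hy] at hxy'
  · show f (1, e.symm c) = e.symm p0
    have hc : c ∈ e.target := hsub (mem_closedBall_self hr.le)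
    rw [hf1 1 _ (e.map_target hc), e.right_inv hc]
    congr 1
    unfold pmove
    simp

end Pool.Agent.W_4d259d_h44
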