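import Pool.Agent.W_4d259d_h44.Ho2
import Pool.Agent.W_4d259d_h87.DCh

/-!
# MP_4d259d_ag, BLOCK HO (section 19): composite moves inside a connected open set
-/

noncomputable section

set_option linter.unusedSectionVars false

namespace Pool.Agent.W_4d259d_h44

open Set Filter Topology Manifold Metric TopologicalSpace
open scoped ContDiff unitInterval
open Pool.Agent.W_4d259d_h46.Defs Pool.Agent.W_4d259d_h46

variable {R : Type} [TopologicalSpace R] [T2Space R] [ChartedSpace ℂ R]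
  [IsManifold (modelWithCornersSelf ℂ ℂ) ω R]

/-- `q` can be moved to `p` inside the open set `V`: there is an isotopy of injective maps, the
identity off a compact subset of `V`, whose final map sends `q` to `p`. -/
def Move (V : Set R) (p q : R) : Prop :=
  ∃ ψ : C(I × R, R), (∀ x, ψ (0, x) = x) ∧ (∀ t, Function.Injective fun x => ψ (t, x)) ∧
    (∃ S : Set R, IsCompact S ∧ S ⊆ V ∧ ∀ t, ∀ x ∉ S, ψ (t, x) = x) ∧ ψ (1, q) = p

theorem Move.refl (V : Set R) (p : R) : Move V p p := by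
  exact ⟨⟨Prod.snd, continuous_snd⟩, fun _ => rfl, fun _ _ _ h => h,
    ⟨∅, isCompact_empty, empty_subset _, fun _ _ _ => rfl⟩, rfl⟩

/-- Composition `ψ_t ∘ ψ'_t`. -/
theorem Move.trans {V : Set R} {p q m : R} (h : Move V p q) (h' : Move V q m) : Move V p m := by
  obtain ⟨ψ, h0, hinj, ⟨S, hS, hSV, hoff⟩, h1⟩ := h
  obtain ⟨ψ', h0', hinj', ⟨S', hS', hSV', hoff'⟩, h1'⟩ := h'
  refine ⟨⟨fun q => ψ (q.1, ψ' q), by fun_prop⟩, fun x => ?_, fun t x y hxy => ?_,
    ⟨S ∪ S', hS.union hS', union_subset hSV hSV', fun t x hx => ?_⟩, ?_⟩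
  · show ψ (0, ψ' (0, x)) = x
    rw [h0', h0]
  · exact hinj' t (hinj t hxy)
  · show ψ (t, ψ' (t, x)) = x
    rw [hoff' t x (fun h => hx (Or.inr h)), hoff t x (fun h => hx (Or.inl h))]
  · show ψ (1, ψ' (1, m)) = p
    rw [h1', h1]

/-- Nearby points can be moved into each other, in both directions: for `z ∈ V` there is a
neighbourhood `N` such that `Move V p q` for all `p, q ∈ N` (`e.symm '' ball c (r/3)`, a closed disc
of radius between `2r/3` and `r` around `q` contains `p` in its open disc). -/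
theorem Move.local {V : Set R} (hV : IsOpen V) {z : R} (hz : z ∈ V) :
    ∃ N ∈ 𝓝 z, ∀ p ∈ N, ∀ q ∈ N, Move V p q := by
  obtain ⟨e, he, hs, hze, hz0⟩ := W_4d259d_h87.exists_dchart0 (hV.mem_nhds hz)
  refine ⟨e.source ∩ e ⁻¹' ball 0 1,
    (e.isOpen_inter_preimage isOpen_ball).mem_nhds ⟨hze, by
      show e z ∈ ball (0 : ℂ) 1
      rw [hz0]
      exact mem_ball_self one_pos⟩, ?_⟩
  rintro p ⟨hp, hp1⟩ q ⟨hq, hq1⟩
  have hp1' : ‖e p‖ < 1 := mem_ball_zero_iff.1 hp1
  have hq1' : ‖e q‖ < 1 := mem_ball_zero_iff.1 hq1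
  have hsub : closedBall (e q) 2 ⊆ e.target := by
    refine Subset.trans ?_ he.2
    intro w hw
    rw [mem_closedBall, dist_eq_norm] at hw
    rw [mem_closedBall_zero_iff]
    have h1 : ‖w‖ ≤ ‖w - e q‖ + ‖e q‖ := by
      have := norm_add_le (w - e q) (e q)
      rwa [sub_add_cancel] at this
    linarith
  have hpb : e p ∈ ball (e q) 2 := by
    rw [mem_ball, dist_eq_norm]
    have := norm_sub_le (e p) (e q)
    linarith
  obtain ⟨ψ, h0, hinj, hoff, h1⟩ := local_move he.1 two_pos hsub hpb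
  refine ⟨ψ, h0, hinj, ⟨e.symm '' closedBall (e q) 2, W_4d259d_h87.symm_isCompact hsub, ?_, hoff⟩,
    ?_⟩
  · rintro _ ⟨w, hw, rfl⟩
    exact hs (e.map_target (hsub hw))
  · rw [e.left_inv hq, e.left_inv hp] at h1
    exact h1

/-- Points of the same component of `V` can be moved into each other. -/
theorem Move.of_component {V : Set R} (hV : IsOpen V) {p q : R} (hp : p ∈ V)
    (hq : q ∈ connectedComponentIn V p) : Move V p q := by
  have hlocal := fun z (hz : z ∈ V) => Move.local hV hz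
  have hU : IsOpen {q : R | q ∈ V ∧ Move V p q} := by
    rw [isOpen_iff_mem_nhds]
    rintro z ⟨hzV, hz⟩
    obtain ⟨N, hN, h⟩ := hlocal z hzV
    filter_upwards [hN, hV.mem_nhds hzV] with w hw hwV
    exact ⟨hwV, hz.trans (h z (mem_of_mem_nhds hN) w hw)⟩
  have hW : IsOpen {q : R | q ∈ V ∧ ¬ Move V p q} := by
    rw [isOpen_iff_mem_nhds]
    rintro z ⟨hzV, hz⟩
    obtain ⟨N, hN, h⟩ := hlocal z hzV
    filter_upwards [hN, hV.mem_nhds hzV] with w hw hwV
    exact ⟨hwV, fun h' => hz (h'.trans (h w hw z (mem_of_mem_nhds hN)))⟩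
  by_contra hcon
  have hqV : q ∈ V := connectedComponentIn_subset V p hq
  obtain ⟨w, -, ⟨_, h1⟩, ⟨_, h2⟩⟩ := isPreconnected_connectedComponentIn (x := p) (F := V)
    {q : R | q ∈ V ∧ Move V p q} {q : R | q ∈ V ∧ ¬ Move V p q} hU hW
    (fun w hw => by
      have hwV := connectedComponentIn_subset V p hw
      by_cases h : Move V p w
      · exact Or.inl ⟨hwV, h⟩
      · exact Or.inr ⟨hwV, h⟩)
    ⟨p, mem_connectedComponentIn hp, hp, Move.refl V p⟩ ⟨q, hq, hqV, hcon⟩
  exact h2 h1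

end Pool.Agent.W_4d259d_h44
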