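import Pool.Agent.W_4d259d_h44.Ho1
import Pool.Agent.W_4d259d_h44.Ho3

/-!
# MP_4d259d_ag, BLOCK HO (section 19): a map homotopic to the identity avoiding one point
-/

noncomputable section

set_option linter.unusedSectionVars false

namespace Pool.Agent.W_4d259d_h44

open Set Filter Topology Manifold Metric TopologicalSpace
open scoped ContDiff unitInterval
open Pool.Agent.W_4d259d_h46.Defs Pool.Agent.W_4d259d_h46

variable {R : Type} [TopologicalSpace R] [T2Space R] [ConnectedSpace R] [NoncompactSpace R]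
  [SecondCountableTopology R] [ChartedSpace ℂ R] [IsManifold (modelWithCornersSelf ℂ ℂ) ω R]

/-- finite composition of isotopies -/
def Ho4_comp {R : Type} [TopologicalSpace R] (Ψ : ℕ → C(I × R, R)) : ℕ → C(I × R, R)
  | 0 => ⟨fun p => p.2, continuous_snd⟩
  | n + 1 => ⟨fun p => Ho4_comp Ψ n (p.1, Ψ n (p.1, p.2)),
      (Ho4_comp Ψ n).continuous.comp
        (continuous_fst.prodMk ((Ψ n).continuous.comp (continuous_fst.prodMk continuous_snd)))⟩

theorem Ho4_comp_zero {R : Type} [TopologicalSpace R] (Ψ : ℕ → C(I × R, R)) (t : I) (x : R) :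
    Ho4_comp Ψ 0 (t, x) = x := rfl

theorem Ho4_comp_succ {R : Type} [TopologicalSpace R] (Ψ : ℕ → C(I × R, R)) (n : ℕ) (t : I)
    (x : R) : Ho4_comp Ψ (n + 1) (t, x) = Ho4_comp Ψ n (t, Ψ n (t, x)) := rfl

/-- AVOID ONE POINT.  `K` compact Runge, `p ∉ K`.  Runge exhaustion `L 0 = K`; points `q 0 = p`,
`q k ∉ L k`, `q (k+1) ∈ connectedComponentIn (L k)ᶜ (q k)`, `q (k+1) ∉ L (k+1)` (the component is not
relatively compact, so it is not contained in `L (k+1)`); moves `Ψ k` inside `(L k)ᶜ` with
`Ψ k (1, q (k+1)) = q k`.  `G (t,x) = Ψ 0 (t, Ψ 1 (t, ... Ψ n (t, x)))` for `x ∈ L (n+1)` (all later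
moves are the identity on `L (n+1)`); `h = G (1, ·)`.  If `h x = p`, `x ∈ L n`, then by injectivity
`Ψ n (1, x) = q n`, i.e. `x = q n ∉ L n`: contradiction. -/
theorem avoid_point {K : Set R} (hK : IsCompact K) (hR : IsRunge K) {p : R} (hp : p ∉ K) :
    ∃ (h : C(R, R)) (G : ContinuousMap.Homotopy (ContinuousMap.id R) h),
      Function.Injective h ∧ (∀ x, h x ≠ p) ∧ ∀ t, ∀ x ∈ K, G (t, x) = x := by
  obtain ⟨L, hL0, hLc, hLR, hLi, hLu⟩ := rungeExh K hK hR
  have hmono1 : ∀ j, L j ⊆ L (j + 1) := fun j => (hLi j).trans interior_subset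
  have hmono : ∀ {m n : ℕ}, m ≤ n → L m ⊆ L n := by
    intro m n hmn
    induction hmn with
    | refl => exact subset_rfl
    | step _ ih => exact ih.trans (hmono1 _)
  -- next point
  have step : ∀ k, ∀ x, x ∉ L k → ∃ y, y ∉ L (k + 1) ∧ y ∈ connectedComponentIn (L k)ᶜ x := by
    intro k x hx
    by_contra hc
    push Not at hc
    have h1 : connectedComponentIn (L k)ᶜ x ⊆ L (k + 1) := by
      intro y hy
      by_contra h2
      exact hc y h2 hy
    have h2 : closure (connectedComponentIn (L k)ᶜ x) ⊆ L (k + 1) :=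
      closure_minimal h1 (hLc (k + 1)).isClosed
    exact hLR k x hx ((hLc (k + 1)).of_isClosed_subset isClosed_closure h2)
  choose nxt hn1 hn2 using step
  let qs : (k : ℕ) → {x : R // x ∉ L k} := fun k =>
    Nat.rec (motive := fun k => {x : R // x ∉ L k}) ⟨p, by rw [hL0]; exact hp⟩
      (fun k s => ⟨nxt k s.1 s.2, hn1 k s.1 s.2⟩) k
  have hq0 : (qs 0).1 = p := rfl
  have hqs : ∀ k, (qs (k + 1)).1 ∈ connectedComponentIn (L k)ᶜ (qs k).1 := fun k =>
    hn2 k (qs k).1 (qs k).2
  have hmove : ∀ k, Move (L k)ᶜ (qs k).1 (qs (k + 1)).1 := fun k =>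
    Move.of_component (hLc k).isClosed.isOpen_compl (qs k).2 (hqs k)
  choose Ψ hΨ0 hΨi hΨS hΨ1 using hmove
  have hΨid : ∀ k, ∀ t, ∀ x ∈ L k, Ψ k (t, x) = x := by
    intro k t x hx
    obtain ⟨S, -, hSV, hSid⟩ := hΨS k
    exact hSid t x fun h => hSV h hx
  set G : ℕ → C(I × R, R) := Ho4_comp Ψ with hG
  have hGinj : ∀ n t, Function.Injective fun x => G n (t, x) := by
    intro n
    induction n with
    | zero => intro t x y hxy; exact hxy
    | succ n ih =>
      intro t x y hxy
      simp only [hG, Ho4_comp_succ] at hxy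
      exact hΨi n t (ih t hxy)
  have hG0 : ∀ n x, G n (0, x) = x := by
    intro n
    induction n with
    | zero => intro x; rfl
    | succ n ih =>
      intro x
      simp only [hG, Ho4_comp_succ, hΨ0]
      exact ih x
  have hGstab : ∀ {m n : ℕ}, m ≤ n → ∀ t, ∀ x ∈ L m, G n (t, x) = G m (t, x) := by
    intro m n hmn
    induction hmn with
    | refl => intro t x _; rfl
    | @step n hmn ih =>
      intro t x hx
      have h1 := hΨid n t x (hmono hmn hx)
      rw [← ih t x hx]
      simp only [hG, Nat.succ_eq_add_one, Ho4_comp_succ, h1]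
  have hex : ∀ x : R, ∃ n, x ∈ L n := by
    intro x
    have : x ∈ ⋃ j, L j := by rw [hLu]; exact mem_univ x
    exact mem_iUnion.1 this
  choose N hN using hex
  set F : I × R → R := fun p => G (N p.2) p with hF
  have hFeq : ∀ n t, ∀ x ∈ L n, F (t, x) = G n (t, x) := by
    intro n t x hx
    simp only [hF]
    rcases le_total n (N x) with h | h
    · exact hGstab h t x hx
    · exact (hGstab h t x (hN x)).symm
  have hFc : Continuous F := by
    rw [continuous_iff_continuousAt]
    rintro ⟨t, x⟩
    have hx : x ∈ interior (L (N x + 1)) := hLi _ (hN x)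
    have h1 : ∀ᶠ p : I × R in 𝓝 (t, x), p.2 ∈ interior (L (N x + 1)) :=
      continuous_snd.continuousAt.eventually (isOpen_interior.mem_nhds hx)
    refine ((G (N x + 1)).continuous.continuousAt).congr ?_
    filter_upwards [h1] with p hp
    exact (hFeq _ p.1 p.2 (interior_subset hp)).symm
  have hGq : ∀ n, G n (1, (qs n).1) = p := by
    intro n
    induction n with
    | zero => rfl
    | succ n ih =>
      rw [← ih]
      show G n (1, Ψ n (1, (qs (n + 1)).1)) = _
      rw [hΨ1 n]
  refine ⟨⟨fun x => F (1, x), hFc.comp (continuous_const.prodMk continuous_id)⟩,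
    { toFun := F
      continuous_toFun := hFc
      map_zero_left := fun x => ?_
      map_one_left := fun x => rfl }, ?_, ?_, ?_⟩
  · show F (0, x) = x
    rw [hFeq (N x) 0 x (hN x)]
    exact hG0 _ x
  · intro x y hxy
    have hxy' : F (1, x) = F (1, y) := hxy
    have hx : x ∈ L (max (N x) (N y)) := hmono (le_max_left _ _) (hN x)
    have hy : y ∈ L (max (N x) (N y)) := hmono (le_max_right _ _) (hN y)
    rw [hFeq _ 1 x hx, hFeq _ 1 y hy] at hxy'
    exact hGinj _ 1 hxy'
  · intro x hx
    have hx' : F (1, x) = p := hx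
    rw [hFeq (N x) 1 x (hN x), ← hGq (N x)] at hx'
    have h1 : x = (qs (N x)).1 := hGinj _ 1 hx'
    have h2 := (qs (N x)).2
    rw [← h1] at h2
    exact h2 (hN x)
  · intro t x hx
    show F (t, x) = x
    rw [hFeq 0 t x (by rw [hL0]; exact hx)]
    rfl

/-- AVOID A FINITE SET: `h = h1 ∘ h2 ∘ ...`; given `h` for `P` and a new point `p`, choose `h'`
avoiding the (at most one) point of `h ⁻¹' {p}` (not in `K`, since `h = id` on `K`), take `h ∘ h'`. -/
theorem avoid_finite {K : Set R} (hK : IsCompact K) (hR : IsRunge K) {P : Set R} (hP : P.Finite)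
    (hPK : Disjoint P K) :
    ∃ (h : C(R, R)) (G : ContinuousMap.Homotopy (ContinuousMap.id R) h),
      Function.Injective h ∧ (∀ x, h x ∉ P) ∧ ∀ t, ∀ x ∈ K, G (t, x) = x := by
  induction P, hP using Set.Finite.induction_on with
  | empty =>
    exact ⟨ContinuousMap.id R, ContinuousMap.Homotopy.refl _, fun _ _ h => h,
      fun x => notMem_empty x, fun t x _ => rfl⟩
  | @insert p P hpP hPfin ih =>
    rw [disjoint_insert_left] at hPK
    obtain ⟨h, G, hi, ha, hGK⟩ := ih hPK.2
    by_cases hr : ∃ p', h p' = p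
    · obtain ⟨p', hp'⟩ := hr
      have hp'K : p' ∉ K := by
        intro h1
        have h2 : G (1, p') = h p' := G.map_one_left p'
        rw [hGK 1 p' h1, hp'] at h2
        rw [h2] at h1
        exact hPK.1 h1
      obtain ⟨h', G', hi', ha', hGK'⟩ := avoid_point hK hR hp'K
      refine ⟨h.comp h',
        { toFun := fun q => G (q.1, G' q)
          continuous_toFun := G.continuous.comp (continuous_fst.prodMk G'.continuous)
          map_zero_left := fun x => ?_
          map_one_left := fun x => ?_ }, hi.comp hi', fun x hx => ?_, fun t x hx => ?_⟩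
      · show G (0, G' (0, x)) = x
        rw [G'.apply_zero, G.apply_zero]
        rfl
      · show G (1, G' (1, x)) = h (h' x)
        rw [G'.apply_one, G.apply_one]
      · have hx' : h (h' x) ∈ insert p P := hx
        rcases hx' with h1 | h1
        · rw [← hp'] at h1
          exact ha' x (hi h1)
        · exact ha _ h1
      · show G (t, G' (t, x)) = x
        rw [hGK' t x hx, hGK t x hx]
    · refine ⟨h, G, hi, fun x hx => ?_, hGK⟩
      rcases hx with h1 | h1
      · exact hr ⟨x, h1⟩
      · exact ha x h1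

end Pool.Agent.W_4d259d_h44
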