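import Pool.Agent.W_4d259d_h44.Iface

/-!
# MP_4d259d_ag, BLOCK HO (section 19): radial push off closed discs
-/

noncomputable section

set_option linter.unusedSectionVars false

namespace Pool.Agent.W_4d259d_h44

open Set Filter Topology Manifold Metric TopologicalSpace
open scoped ContDiff unitInterval
open Pool.Agent.W_4d259d_h46.Defs Pool.Agent.W_4d259d_h46

/-- the push in the plane -/
def ho5g (c : ℂ) (r r' : ℝ) (t : ℝ) (z : ℂ) : ℂ :=
  c + (((1 - t) + t * (r / min ‖z - c‖ r' + (r' - r) / r') : ℝ) : ℂ) * (z - c)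

theorem ho5g_zero (c : ℂ) (r r' : ℝ) (z : ℂ) : ho5g c r r' 0 z = z := by
  simp [ho5g]

theorem ho5g_far {c : ℂ} {r r' : ℝ} (hr' : 0 < r') (t : ℝ) {z : ℂ} (h : r' ≤ ‖z - c‖) :
    ho5g c r r' t z = z := by
  have h1 : (1 - t) + t * (r / min ‖z - c‖ r' + (r' - r) / r') = 1 := by
    rw [min_eq_right h, ← add_div, add_sub_cancel, div_self hr'.ne']
    ring
  rw [ho5g, h1]
  simp

theorem ho5g_norm {c : ℂ} {r r' : ℝ} (hr : 0 < r) (hrr : r < r') {t : ℝ} (h0 : 0 ≤ t)
    (h1 : t ≤ 1) {z : ℂ} (hz : z ≠ c) (h : ‖z - c‖ ≤ r') :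
    ‖ho5g c r r' t z - c‖ = (1 - t) * ‖z - c‖ + t * (r + (r' - r) / r' * ‖z - c‖) := by
  have hr' : 0 < r' := hr.trans hrr
  have hpos : 0 < ‖z - c‖ := norm_pos_iff.2 (sub_ne_zero.2 hz)
  have h2 : 0 ≤ (1 - t) + t * (r / ‖z - c‖ + (r' - r) / r') := by
    have h3 : 0 ≤ r / ‖z - c‖ := div_nonneg hr.le hpos.le
    have h4 : 0 ≤ (r' - r) / r' := div_nonneg (by linarith) hr'.le
    have h5 : 0 ≤ t * (r / ‖z - c‖ + (r' - r) / r') := mul_nonneg h0 (by linarith)
    linarith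
  rw [ho5g, min_eq_left h, add_sub_cancel_left, norm_mul, Complex.norm_real, Real.norm_eq_abs,
    abs_of_nonneg h2]
  field_simp

theorem ho5g_mem {c : ℂ} {r r' : ℝ} (hr : 0 < r) (hrr : r < r') {t : ℝ} (h0 : 0 ≤ t)
    (h1 : t ≤ 1) {z : ℂ} (h : z ∈ closedBall c r') : ho5g c r r' t z ∈ closedBall c r' := by
  have hr' : 0 < r' := hr.trans hrr
  rw [mem_closedBall_iff_norm] at *
  by_cases hz : z = c
  · rw [hz, ho5g]
    simp [hr'.le]
  · rw [ho5g_norm hr hrr h0 h1 hz h]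
    have h2 : r + (r' - r) / r' * ‖z - c‖ ≤ r' := by
      have h3 : (r' - r) / r' * ‖z - c‖ ≤ (r' - r) / r' * r' :=
        mul_le_mul_of_nonneg_left h (div_nonneg (by linarith) hr'.le)
      rw [div_mul_cancel₀ _ hr'.ne'] at h3
      linarith
    nlinarith [mul_le_mul_of_nonneg_left h2 h0, mul_le_mul_of_nonneg_left h (sub_nonneg.2 h1)]

theorem ho5g_one {c : ℂ} {r r' : ℝ} (hr : 0 < r) (hrr : r < r') {z : ℂ} (hz : z ≠ c)
    (h : z ∈ closedBall c r') : ho5g c r r' 1 z ∉ closedBall c r := by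
  have hr' : 0 < r' := hr.trans hrr
  rw [mem_closedBall_iff_norm] at *
  rw [ho5g_norm hr hrr zero_le_one le_rfl hz h]
  have hpos : 0 < ‖z - c‖ := norm_pos_iff.2 (sub_ne_zero.2 hz)
  have h4 : 0 < (r' - r) / r' * ‖z - c‖ := mul_pos (div_pos (by linarith) hr') hpos
  intro h5
  linarith

theorem ho5g_cont {c : ℂ} {r r' : ℝ} (hr' : 0 < r') (t : ℝ) {z : ℂ} (hz : z ≠ c) :
    ContinuousAt (fun q : ℝ × ℂ => ho5g c r r' q.1 q.2) (t, z) := by
  have hpos : 0 < ‖z - c‖ := norm_pos_iff.2 (sub_ne_zero.2 hz)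
  have h1 : ContinuousAt (fun q : ℝ × ℂ => min ‖q.2 - c‖ r') (t, z) := by fun_prop
  have h2 : ContinuousAt (fun q : ℝ × ℂ => r / min ‖q.2 - c‖ r') (t, z) :=
    continuousAt_const.div h1 (lt_min hpos hr').ne'
  have h3 : ContinuousAt (fun q : ℝ × ℂ =>
      (1 - q.1) + q.1 * (r / min ‖q.2 - c‖ r' + (r' - r) / r')) (t, z) := by
    exact (continuousAt_const.sub continuousAt_fst).add
      (continuousAt_fst.mul (h2.add continuousAt_const))
  have h4 : ContinuousAt (fun q : ℝ × ℂ =>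
      (((1 - q.1) + q.1 * (r / min ‖q.2 - c‖ r' + (r' - r) / r') : ℝ) : ℂ)) (t, z) :=
    Complex.continuous_ofReal.continuousAt.comp h3
  exact continuousAt_const.add (h4.mul (continuousAt_snd.sub continuousAt_const))

variable {R : Type} [TopologicalSpace R] [T2Space R] [ChartedSpace ℂ R]
  [IsManifold (modelWithCornersSelf ℂ ℂ) ω R]

theorem ho5_one {K : Set R} (hK : IsClosed K) {D : Set R} (hD : IsCDisc D)
    (hDK : Disjoint D K) :
    ∃ (p : R) (D' : Set R) (ρ : I × R → R), p ∈ D' ∧ IsCompact D' ∧ Disjoint D' K ∧ D ⊆ D' ∧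
      ContinuousOn ρ (univ ×ˢ {p}ᶜ) ∧ (∀ x, ρ (0, x) = x) ∧ (∀ t, ∀ x ∉ D', ρ (t, x) = x) ∧
      (∀ t, ∀ x ∈ D', ρ (t, x) ∈ D') ∧ ∀ x ∈ D', x ≠ p → ρ (1, x) ∉ D := by
  classical
  obtain ⟨e, he, c, r, hr, ht, rfl⟩ := hD
  have hO : IsOpen (e.target ∩ e.symm ⁻¹' Kᶜ) :=
    e.symm.isOpen_inter_preimage hK.isOpen_compl
  have hsub : closedBall c r ⊆ e.target ∩ e.symm ⁻¹' Kᶜ := by
    intro z hz
    exact ⟨ht hz, fun hzK => Set.disjoint_left.1 hDK (mem_image_of_mem _ hz) hzK⟩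
  obtain ⟨δ, hδ, hthick⟩ := (isCompact_closedBall c r).exists_cthickening_subset_open hO hsub
  rw [cthickening_closedBall hδ.le hr.le] at hthick
  obtain ⟨r', hrr, hr'⟩ : ∃ r' : ℝ, r < r' ∧ closedBall c r' ⊆ e.target ∩ e.symm ⁻¹' Kᶜ :=
    ⟨δ + r, by linarith, hthick⟩
  have hr0 : 0 < r' := hr.trans hrr
  have hD'c : IsCompact (e.symm '' closedBall c r') :=
    (isCompact_closedBall c r').image_of_continuousOn
      (e.symm.continuousOn.mono fun z hz => (hr' hz).1)
  have hsrc : e.symm '' closedBall c r' ⊆ e.source := by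
    rintro _ ⟨z, hz, rfl⟩
    exact e.map_target (hr' hz).1
  have hmem : ∀ x ∈ e.source, x ∈ e.symm '' closedBall c r' ↔ e x ∈ closedBall c r' := by
    intro x hx
    constructor
    · rintro ⟨z, hz, rfl⟩
      rwa [e.right_inv (hr' hz).1]
    · intro h
      exact ⟨e x, h, e.left_inv hx⟩
  let ρ : I × R → R := fun q =>
    if q.2 ∈ e.source then e.symm (ho5g c r r' (q.1 : ℝ) (e q.2)) else q.2
  have hρ1 : ∀ t x, x ∈ e.source → ρ (t, x) = e.symm (ho5g c r r' (t : ℝ) (e x)) :=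
    fun t x hx => if_pos hx
  have hρ2 : ∀ t, ∀ x ∉ e.symm '' closedBall c r', ρ (t, x) = x := by
    intro t x hx
    by_cases hxs : x ∈ e.source
    · rw [hρ1 t x hxs]
      have h1 : r' ≤ ‖e x - c‖ := by
        by_contra hcon
        apply hx
        rw [hmem x hxs, mem_closedBall_iff_norm]
        exact (not_le.1 hcon).le
      rw [ho5g_far hr0 _ h1, e.left_inv hxs]
    · exact if_neg hxs
  refine ⟨e.symm c, e.symm '' closedBall c r', ρ, mem_image_of_mem _ (mem_closedBall_self hr0.le),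
    hD'c, ?_, image_mono (closedBall_subset_closedBall hrr.le), ?_, ?_, hρ2, ?_, ?_⟩
  · rw [Set.disjoint_left]
    rintro _ ⟨z, hz, rfl⟩
    exact (hr' hz).2
  · rintro ⟨t, x⟩ ⟨-, hx⟩
    have hxp : x ≠ e.symm c := hx
    apply ContinuousAt.continuousWithinAt
    by_cases hxs : x ∈ e.source
    · have hev : ∀ᶠ q : I × R in 𝓝 (t, x), ρ q = e.symm (ho5g c r r' (q.1 : ℝ) (e q.2)) := by
        have h1 : ∀ᶠ q : I × R in 𝓝 (t, x), q.2 ∈ e.source :=
          continuousAt_snd.eventually (e.open_source.mem_nhds hxs)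
        filter_upwards [h1] with q hq
        exact if_pos hq
      refine ContinuousAt.congr ?_ (hev.mono fun q hq => hq.symm)
      have hne : e x ≠ c := fun h => hxp (by rw [← h, e.left_inv hxs])
      have htar : ho5g c r r' (t : ℝ) (e x) ∈ e.target := by
        by_cases h : e x ∈ closedBall c r'
        · exact (hr' (ho5g_mem hr hrr t.2.1 t.2.2 h)).1
        · rw [mem_closedBall_iff_norm, not_le] at h
          rw [ho5g_far hr0 _ h.le]
          exact e.map_source hxs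
      have h2 : ContinuousAt (fun q : I × R => ((q.1 : ℝ), e q.2)) (t, x) := by
        refine ContinuousAt.prodMk ?_ ?_
        · exact (continuous_subtype_val.comp continuous_fst).continuousAt
        · exact ContinuousAt.comp (g := e) (f := fun q : I × R => q.2) (x := (t, x))
            (e.continuousAt hxs) continuousAt_snd
      have h3 : ContinuousAt (fun q : I × R => ho5g c r r' (q.1 : ℝ) (e q.2)) (t, x) :=
        ContinuousAt.comp (g := fun q : ℝ × ℂ => ho5g c r r' q.1 q.2)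
          (f := fun q : I × R => ((q.1 : ℝ), e q.2)) (x := (t, x)) (ho5g_cont hr0 (t : ℝ) hne) h2
      exact ContinuousAt.comp (g := e.symm)
        (f := fun q : I × R => ho5g c r r' (q.1 : ℝ) (e q.2)) (x := (t, x))
        (e.symm.continuousAt htar) h3
    · have hxD : x ∉ e.symm '' closedBall c r' := fun h => hxs (hsrc h)
      have hev : ∀ᶠ q : I × R in 𝓝 (t, x), ρ q = q.2 := by
        have h1 : ∀ᶠ q : I × R in 𝓝 (t, x), q.2 ∈ (e.symm '' closedBall c r')ᶜ :=
          continuousAt_snd.eventually (hD'c.isClosed.isOpen_compl.mem_nhds hxD)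
        filter_upwards [h1] with q hq
        exact hρ2 q.1 q.2 hq
      exact continuousAt_snd.congr (hev.mono fun q hq => hq.symm)
  · intro x
    by_cases hxs : x ∈ e.source
    · rw [hρ1 0 x hxs, Set.Icc.coe_zero, ho5g_zero, e.left_inv hxs]
    · exact if_neg hxs
  · intro t x hx
    have hxs := hsrc hx
    rw [hρ1 t x hxs]
    exact mem_image_of_mem _ (ho5g_mem hr hrr t.2.1 t.2.2 ((hmem x hxs).1 hx))
  · intro x hx hxp
    have hxs := hsrc hx
    have hne : e x ≠ c := fun h => hxp (by rw [← h, e.left_inv hxs])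
    rw [hρ1 1 x hxs, Set.Icc.coe_one]
    rintro ⟨z, hz, hzx⟩
    have h1 := (hmem x hxs).1 hx
    have h2 := hr' (ho5g_mem hr hrr zero_le_one le_rfl h1)
    have h3 : z = ho5g c r r' 1 (e x) := e.symm.injOn (ht hz) h2.1 hzx
    exact ho5g_one hr hrr hne h1 (h3 ▸ hz)

theorem ho5_all {s : Set (Set R)} (hs : s.Finite) : (∀ D ∈ s, IsCDisc D) →
    s.PairwiseDisjoint id → ∀ K : Set R, IsCompact K → (∀ D ∈ s, Disjoint D K) →
    ∃ (P : Set R) (ρ : I × R → R), P.Finite ∧ Disjoint P K ∧ ContinuousOn ρ (univ ×ˢ Pᶜ) ∧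
      (∀ x, ρ (0, x) = x) ∧ (∀ t, ∀ x ∈ K, ρ (t, x) = x) ∧ (∀ t, ∀ x ∉ K, ρ (t, x) ∉ K) ∧
      ∀ x ∉ P, ρ (1, x) ∉ ⋃₀ s := by
  induction s, hs using Set.Finite.induction_on with
  | empty =>
    intro _ _ K _ _
    exact ⟨∅, fun q => q.2, finite_empty, disjoint_bot_left, continuousOn_snd, fun x => rfl,
      fun t x _ => rfl, fun t x hx => hx, fun x _ h => by simp at h⟩
  | @insert D s hDs hfin ih =>
    intro h1 h2 K hK h3
    have hsc : IsCompact (⋃₀ s) := hfin.isCompact_sUnion fun E hE => by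
      obtain ⟨e, _, c, r, _, ht, rfl⟩ := h1 E (mem_insert_of_mem D hE)
      exact (isCompact_closedBall c r).image_of_continuousOn (e.symm.continuousOn.mono ht)
    have hDKs : Disjoint D (K ∪ ⋃₀ s) := by
      rw [disjoint_union_right]
      refine ⟨h3 D (mem_insert D s), ?_⟩
      rw [disjoint_sUnion_right]
      intro E hE
      exact h2 (mem_insert D s) (mem_insert_of_mem D hE) (fun h => hDs (h ▸ hE))
    obtain ⟨p, D', ρ₁, hp, hD'c, hD'K, hDD', hc1, h10, h11, h12, h13⟩ :=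
      ho5_one (hK.union hsc).isClosed (h1 D (mem_insert D s)) hDKs
    rw [disjoint_union_right] at hD'K
    obtain ⟨P, ρ₂, hP, hPK, hc2, h20, h21, h22, h23⟩ :=
      ih (fun E hE => h1 E (mem_insert_of_mem D hE)) (h2.subset (subset_insert D s)) (K ∪ D')
        (hK.union hD'c) (fun E hE => by
          rw [disjoint_union_right]
          refine ⟨h3 E (mem_insert_of_mem D hE), ?_⟩
          exact (disjoint_sUnion_right.1 hD'K.2 E hE).symm)
    rw [disjoint_union_right] at hPK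
    have hD'x : ∀ t, ∀ x ∉ D', ρ₂ (t, x) ∉ D' := by
      intro t x hx hcon
      by_cases hxK : x ∈ K
      · rw [h21 t x (Or.inl hxK)] at hcon
        exact hx hcon
      · exact h22 t x (fun h => h.elim hxK hx) (Or.inr hcon)
    refine ⟨insert p P, fun q => ρ₁ (q.1, ρ₂ q), hP.insert p, ?_, ?_, ?_, ?_, ?_, ?_⟩
    · rw [Set.disjoint_left]
      rintro x (rfl | hx) hxK
      · exact Set.disjoint_left.1 hD'K.1 hp hxK
      · exact Set.disjoint_left.1 hPK.1 hx hxK
    · have hc2' : ContinuousOn (fun q : I × R => (q.1, ρ₂ q)) (univ ×ˢ (insert p P)ᶜ) :=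
        continuousOn_fst.prodMk (hc2.mono (prod_mono_right (by
          intro x hx hxP
          exact hx (mem_insert_of_mem p hxP))))
      refine hc1.comp hc2' ?_
      rintro ⟨t, x⟩ ⟨-, hx⟩
      refine ⟨mem_univ _, ?_⟩
      intro hcon
      have hcon' : ρ₂ (t, x) = p := hcon
      by_cases hxD : x ∈ D'
      · rw [h21 t x (Or.inr hxD)] at hcon'
        exact hx (hcon' ▸ mem_insert _ _)
      · exact hD'x t x hxD (hcon' ▸ hp)
    · intro x
      show ρ₁ (0, ρ₂ (0, x)) = x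
      rw [h20, h10]
    · intro t x hx
      show ρ₁ (t, ρ₂ (t, x)) = x
      rw [h21 t x (Or.inl hx), h11 t x (fun h => Set.disjoint_left.1 hD'K.1 h hx)]
    · intro t x hx
      show ρ₁ (t, ρ₂ (t, x)) ∉ K
      by_cases hxD : x ∈ D'
      · rw [h21 t x (Or.inr hxD)]
        exact fun h => Set.disjoint_left.1 hD'K.1 (h12 t x hxD) h
      · rw [h11 t _ (hD'x t x hxD)]
        exact fun h => h22 t x (fun h => h.elim hx hxD) (Or.inl h)
    · intro x hx
      show ρ₁ (1, ρ₂ (1, x)) ∉ ⋃₀ insert D s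
      rw [sUnion_insert, mem_union, not_or]
      by_cases hxD : x ∈ D'
      · rw [h21 1 x (Or.inr hxD)]
        refine ⟨h13 x hxD fun h => hx (h ▸ mem_insert _ _), fun h => ?_⟩
        exact Set.disjoint_left.1 hD'K.2 (h12 1 x hxD) h
      · rw [h11 1 _ (hD'x 1 x hxD)]
        exact ⟨fun h => hD'x 1 x hxD (hDD' h), h23 x fun h => hx (mem_insert_of_mem _ h)⟩

/-- RADIAL PUSH.  A family of disjoint closed discs `D = e.symm '' closedBall c r`, disjoint from the
compact `K`; slightly larger closed discs (radius `r'`) are still in the target, pairwise disjoint and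
disjoint from `K`.  On the larger disc, in the coordinate, `ρ_t` moves `z = c + u v` (`|v| = 1`,
`0 < u ≤ r'`) to `c + ((1-t) u + t (r + (r'-r) u / r')) v`; identity elsewhere.  `P` = the centres.
(Formula without polar coordinates: `z ↦ c + ((1-t) + t (r/|z-c| + (r'-r)/r')) (z-c)`.) -/
theorem radial_push {K : Set R} (hK : IsCompact K) {s : Set (Set R)} (hs : DiscFam s)
    (hsK : ∀ D ∈ s, Disjoint D K) :
    ∃ (P : Set R) (ρ : I × R → R), P.Finite ∧ Disjoint P K ∧ ContinuousOn ρ (univ ×ˢ Pᶜ) ∧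
      (∀ x, ρ (0, x) = x) ∧ (∀ t, ∀ x ∈ K, ρ (t, x) = x) ∧ ∀ x ∉ P, ρ (1, x) ∉ ⋃₀ s := by
  obtain ⟨P, ρ, h1, h2, h3, h4, h5, _, h6⟩ := ho5_all hs.1 hs.2.1 hs.2.2 K hK hsK
  exact ⟨P, ρ, h1, h2, h3, h4, h5, h6⟩

end Pool.Agent.W_4d259d_h44
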