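import Pool.Agent.W_4d259d_h44.Ho4
import Pool.Agent.W_4d259d_h44.Ho5

/-!
# MP_4d259d_ag, BLOCK HO (section 19): a map homotopic to the identity avoiding the discs
-/

noncomputable section

set_option linter.unusedSectionVars false

namespace Pool.Agent.W_4d259d_h44

open Set Filter Topology Manifold Metric TopologicalSpace
open scoped ContDiff unitInterval
open Pool.Agent.W_4d259d_h46.Defs Pool.Agent.W_4d259d_h46

variable {R : Type} [TopologicalSpace R] [T2Space R] [ConnectedSpace R] [NoncompactSpace R]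
  [SecondCountableTopology R] [ChartedSpace ℂ R] [IsManifold (modelWithCornersSelf ℂ ℂ) ω R]

/-- PUSH OFF THE DISCS: compose `avoid_finite` (for the centres) with `radial_push`; the homotopy is
`id ~ h` followed by `ρ_t ∘ h`. -/
theorem push_off {K : Set R} (hK : IsCompact K) (hR : IsRunge K) {s : Set (Set R)}
    (hs : DiscFam s) (hsK : ∀ D ∈ s, Disjoint D K) :
    ∃ (h : C(R, R)) (G : ContinuousMap.Homotopy (ContinuousMap.id R) h),
      (∀ x, h x ∉ ⋃₀ s) ∧ ∀ t, ∀ x ∈ K, G (t, x) = x := by
  obtain ⟨P, ρ, hP, hPK, hρ, hρ0, hρK, hρs⟩ := radial_push hK hs hsK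
  obtain ⟨h, G, -, hhP, hG⟩ := avoid_finite hK hR hP hPK
  have hc : Continuous fun q : I × R => ρ (q.1, h q.2) := by
    have h1 : Continuous fun q : I × R => (q.1, h q.2) := by fun_prop
    exact hρ.comp_continuous h1 fun q => ⟨mem_univ _, hhP q.2⟩
  let h' : C(R, R) := ⟨fun x => ρ (1, h x), hc.comp (Continuous.prodMk_right 1)⟩
  let G' : ContinuousMap.Homotopy h h' :=
    { toFun := fun q => ρ (q.1, h q.2)
      continuous_toFun := hc
      map_zero_left := fun x => hρ0 _
      map_one_left := fun x => rfl }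
  have hGx : ∀ x ∈ K, h x = x := fun x hx => by
    have h1 := hG 1 x hx
    rwa [G.apply_one] at h1
  refine ⟨h', G.trans G', fun x => hρs _ (hhP x), fun t x hx => ?_⟩
  rw [ContinuousMap.Homotopy.trans_apply]
  split_ifs with ht
  · exact hG _ x hx
  · show ρ (_, h x) = x
    rw [hGx x hx]
    exact hρK _ x hx

/-- Two maps `g`, `f'` which agree off the discs are homotopic by a homotopy constant on `K`:
`g ~ g ∘ h = f' ∘ h ~ f'`. -/
theorem homotopy_of_eq_off {Y : Type} [TopologicalSpace Y] {K : Set R} (hK : IsCompact K)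
    (hR : IsRunge K) {s : Set (Set R)} (hs : DiscFam s) (hsK : ∀ D ∈ s, Disjoint D K)
    (f' g : C(R, Y)) (h : ∀ z ∉ ⋃₀ s, f' z = g z) :
    ∃ H : ContinuousMap.Homotopy f' g, ∀ t, ∀ z ∈ K, H (t, z) = f' z := by
  obtain ⟨φ, G, hφ, hG⟩ := push_off hK hR hs hsK
  have heq : g.comp φ = f'.comp φ := by
    ext x
    exact (h _ (hφ x)).symm
  let H1 : ContinuousMap.Homotopy f' (f'.comp φ) :=
    { toFun := fun q => f' (G q)
      continuous_toFun := f'.continuous.comp (map_continuous G)
      map_zero_left := fun x => by rw [G.apply_zero]; rfl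
      map_one_left := fun x => by rw [G.apply_one]; rfl }
  let H2 : ContinuousMap.Homotopy g (g.comp φ) :=
    { toFun := fun q => g (G q)
      continuous_toFun := g.continuous.comp (map_continuous G)
      map_zero_left := fun x => by rw [G.apply_zero]; rfl
      map_one_left := fun x => by rw [G.apply_one]; rfl }
  refine ⟨H1.trans (H2.symm.cast heq rfl), fun t z hz => ?_⟩
  have hzs : z ∉ ⋃₀ s := by
    rintro ⟨D, hD, hzD⟩
    exact disjoint_left.1 (hsK D hD) hzD hz
  rw [ContinuousMap.Homotopy.trans_apply]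
  split_ifs with ht
  · show f' (G (_, z)) = f' z
    rw [hG _ z hz]
  · show g (G (_, z)) = f' z
    rw [hG _ z hz, h z hzs]

end Pool.Agent.W_4d259d_h44
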