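import Pool.Agent.W_4d259d_h44.TwoDisc
import Pool.Agent.W_4d259d_h44.ApiC
import Pool.Agent.W_4d259d_h41.LocInvA

/-!
# MP_4d259d_ag, BLOCK FR: local inverse of a spray (section 10)
-/

noncomputable section

set_option linter.unusedSectionVars false

namespace Pool.Agent.W_4d259d_h44

open Set Filter Topology Manifold Metric MeasureTheory TopologicalSpace
open scoped ContDiff OnePoint BoundedContinuousFunction
open Pool.Agent.W_4d259d_h46.Defs Pool.Agent.W_4d259d_h46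

variable {R : Type*} [TopologicalSpace R] [ChartedSpace ℂ R]
variable {E : Type*} [NormedAddCommGroup E] [NormedSpace ℂ E]
variable {X : Type*} [MetricSpace X] [ChartedSpace E X]

/-- The pointwise local inverse, with `dist x (f z)` in place of `dist x (f z0)`. -/
theorem li_point [T2Space R] [IsManifold (modelWithCornersSelf ℂ ℂ) ω R]
    [FiniteDimensional ℂ E] [IsManifold (modelWithCornersSelf ℂ E) ω X]
    {W : Opens R} {f : R → X} (hf : HolOn E f W) {δ : ℝ} {s : R → E → X} (hs : IsSpray W f δ s)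
    {z0 : R} (hz0 : z0 ∈ W) {ε : ℝ} (hε : 0 < ε) :
    ∃ (Z : Opens R) (r κ : ℝ) (l : R → X → E), z0 ∈ Z ∧ Z ≤ W ∧ 0 < r ∧ r ≤ ε ∧ 0 < κ ∧
      MDifferentiableOn ((modelWithCornersSelf ℂ ℂ).prod (modelWithCornersSelf ℂ E))
        (modelWithCornersSelf ℂ E) (fun q : R × X => l q.1 q.2)
        {q : R × X | q.1 ∈ Z ∧ dist q.2 (f q.1) < κ} ∧
      (∀ z ∈ Z, ∀ x, dist x (f z) < κ → ‖l z x‖ < r ∧ s z (l z x) = x) ∧
      (∀ z ∈ Z, ∀ w w' : E, ‖w‖ < r → ‖w'‖ < r → s z w = s z w' → w = w') := by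
  obtain ⟨Z, r, κ, l, h1, h2, h3, h4, -, h6, h7, h8, h9⟩ :=
    W_4d259d_h41.locInv_point hf hs hz0 hε
  have hopen : IsOpen ((W : Set R) ∩ f ⁻¹' ball (f z0) (κ / 2)) :=
    hf.continuousOn.isOpen_inter_preimage W.2 isOpen_ball
  have hd : ∀ z x, dist (f z) (f z0) < κ / 2 → dist x (f z) < κ / 2 → dist x (f z0) < κ := by
    intro z x a b
    have := dist_triangle x (f z) (f z0)
    linarith
  refine ⟨Z ⊓ ⟨_, hopen⟩, r, κ / 2, l, ⟨h1, hz0, mem_ball_self (by linarith)⟩,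
    inf_le_left.trans h2, h3, h4, by linarith, ?_, ?_, ?_⟩
  · refine MDifferentiableOn.mono h7 ?_
    rintro ⟨z, x⟩ ⟨a, b⟩
    exact ⟨a.1, hd z x a.2.2 b⟩
  · intro z hz x hx
    exact h8 z hz.1 x (hd z x hz.2.2 hx)
  · intro z hz
    exact h9 z hz.1

/-- Uniform constants over a compact set. -/
theorem li_unif [T2Space R] [IsManifold (modelWithCornersSelf ℂ ℂ) ω R]
    [FiniteDimensional ℂ E] [IsManifold (modelWithCornersSelf ℂ E) ω X]
    {W : Opens R} {f : R → X} (hf : HolOn E f W) {δ : ℝ} {s : R → E → X} (hs : IsSpray W f δ s)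
    {C : Set R} (hC : IsCompact C) (hCW : C ⊆ W) {ε : ℝ} (hε : 0 < ε) :
    ∃ κ > 0, ∃ r0 > 0, ∀ z0 ∈ C, ∃ (Z : Opens R) (r : ℝ) (l : R → X → E), z0 ∈ Z ∧ Z ≤ W ∧
      r0 ≤ r ∧ r ≤ ε ∧
      MDifferentiableOn ((modelWithCornersSelf ℂ ℂ).prod (modelWithCornersSelf ℂ E))
        (modelWithCornersSelf ℂ E) (fun q : R × X => l q.1 q.2)
        {q : R × X | q.1 ∈ Z ∧ dist q.2 (f q.1) < κ} ∧
      (∀ z ∈ Z, ∀ x, dist x (f z) < κ → ‖l z x‖ < r ∧ s z (l z x) = x) ∧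
      (∀ z ∈ Z, ∀ w w' : E, ‖w‖ < r → ‖w'‖ < r → s z w = s z w' → w = w') := by
  refine hC.induction_on (p := fun S : Set R => ∃ κ > 0, ∃ r0 > 0, ∀ z0 ∈ S,
    ∃ (Z : Opens R) (r : ℝ) (l : R → X → E), z0 ∈ Z ∧ Z ≤ W ∧ r0 ≤ r ∧ r ≤ ε ∧
      MDifferentiableOn ((modelWithCornersSelf ℂ ℂ).prod (modelWithCornersSelf ℂ E))
        (modelWithCornersSelf ℂ E) (fun q : R × X => l q.1 q.2)
        {q : R × X | q.1 ∈ Z ∧ dist q.2 (f q.1) < κ} ∧
      (∀ z ∈ Z, ∀ x, dist x (f z) < κ → ‖l z x‖ < r ∧ s z (l z x) = x) ∧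
      (∀ z ∈ Z, ∀ w w' : E, ‖w‖ < r → ‖w'‖ < r → s z w = s z w' → w = w')) ?_ ?_ ?_ ?_
  · exact ⟨1, one_pos, 1, one_pos, fun z hz => absurd hz (notMem_empty z)⟩
  · rintro S T hST ⟨κ, hκ, r0, hr0, h⟩
    exact ⟨κ, hκ, r0, hr0, fun z hz => h z (hST hz)⟩
  · rintro S T ⟨κ, hκ, r0, hr0, h⟩ ⟨κ', hκ', r0', hr0', h'⟩
    refine ⟨min κ κ', lt_min hκ hκ', min r0 r0', lt_min hr0 hr0', ?_⟩
    rintro z (hz | hz)
    · obtain ⟨Z, r, l, a1, a2, a3, a4, a5, a6, a7⟩ := h z hz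
      refine ⟨Z, r, l, a1, a2, (min_le_left _ _).trans a3, a4, a5.mono ?_, ?_, a7⟩
      · rintro q ⟨b1, b2⟩
        exact ⟨b1, b2.trans_le (min_le_left _ _)⟩
      · exact fun z hz x hx => a6 z hz x (hx.trans_le (min_le_left _ _))
    · obtain ⟨Z, r, l, a1, a2, a3, a4, a5, a6, a7⟩ := h' z hz
      refine ⟨Z, r, l, a1, a2, (min_le_right _ _).trans a3, a4, a5.mono ?_, ?_, a7⟩
      · rintro q ⟨b1, b2⟩
        exact ⟨b1, b2.trans_le (min_le_right _ _)⟩
      · exact fun z hz x hx => a6 z hz x (hx.trans_le (min_le_right _ _))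
  · intro z hz
    obtain ⟨Z, r, κ, l, h1, h2, h3, h4, h6, h7, h8, h9⟩ := li_point hf hs (hCW hz) hε
    refine ⟨Z, mem_nhdsWithin_of_mem_nhds (Z.2.mem_nhds h1), κ, h6, r, h3, ?_⟩
    intro z' hz'
    exact ⟨Z, r, l, hz', h2, le_rfl, h4, h7, h8, h9⟩

/-- Section 10 (BLOCK FR): a spray has a local inverse over a neighbourhood of each compact set.
Proof: the inverse function theorem for `(z,w) ↦ (z, s z w)` at the points `(z,0)` (in charts),
and compactness of `C` (injectivity on a uniform ball: sequences). -/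
theorem exists_locInv [T2Space R] [IsManifold (modelWithCornersSelf ℂ ℂ) ω R]
    [FiniteDimensional ℂ E] [IsManifold (modelWithCornersSelf ℂ E) ω X]
    {W : Opens R} {f : R → X} (hf : HolOn E f W) {δ : ℝ} {s : R → E → X} (hs : IsSpray W f δ s)
    {C : Set R} (hC : IsCompact C) (hCW : C ⊆ W) :
    ∃ (W' : Opens R) (δ' κ : ℝ) (l : R → X → E), C ⊆ W' ∧ W' ≤ W ∧ δ' < δ ∧
      IsLocInv W' f δ s δ' κ l := by
  classical
  have hlc : LocallyCompactSpace R := ChartedSpace.locallyCompactSpace ℂ R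
  have hδ := hs.pos
  obtain ⟨C1, hC1, hCC1, hC1W⟩ := exists_compact_between hC W.2 hCW
  obtain ⟨κ, hκ, r0, hr0, hu⟩ := li_unif hf hs hC1 hC1W (ε := δ / 2) (by linarith)
  choose! Z r l hzZ hZW hr hrδ hhol hsol hinj using hu
  -- uniqueness
  have huniq : ∀ z ∈ C1, ∀ z' ∈ C1, z' ∈ Z z → ∀ x, dist x (f z') < κ →
      l z z' x = l z' z' x := by
    intro z hz z' hz' hzz x hx
    obtain ⟨a1, a2⟩ := hsol z hz z' hzz x hx
    obtain ⟨b1, b2⟩ := hsol z' hz' z' (hzZ z' hz') x hx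
    rcases le_total (r z) (r z') with h | h
    · exact hinj z' hz' z' (hzZ z' hz') _ _ (a1.trans_le h) b1 (a2.trans b2.symm)
    · exact hinj z hz z' hzz _ _ a1 (b1.trans_le h) (a2.trans b2.symm)
  obtain ⟨δ1, hδ1, hclose⟩ := W_4d259d_h41.sp_close hs hC1 hC1W κ hκ
  refine ⟨⟨interior C1, isOpen_interior⟩, min (δ / 2) (min r0 δ1), κ, fun z x => l z z x, hCC1,
    fun z hz => hC1W (interior_subset hz), (min_le_left _ _).trans_lt (by linarith), ?_⟩
  refine ⟨lt_min (by linarith) (lt_min hr0 hδ1), hκ, ?_, ?_, ?_, ?_, ?_⟩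
  · -- holomorphic
    rintro ⟨z, x⟩ ⟨hz, hx⟩
    have hzC : z ∈ C1 := interior_subset hz
    simp only at hz hx
    have hopen : IsOpen {q : R × X | q.1 ∈ Z z ∧ dist q.2 (f q.1) < κ} := by
      rw [isOpen_iff_mem_nhds]
      rintro ⟨z', x'⟩ ⟨h1, h2⟩
      have hc1 : ContinuousAt f z' := hf.continuousOn.continuousAt
        (W.2.mem_nhds (hZW z hzC h1))
      have hc2 : ContinuousAt (fun q : R × X => dist q.2 (f q.1)) (z', x') :=
        Filter.Tendsto.dist continuousAt_snd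
          (ContinuousAt.comp (f := Prod.fst) (g := f) hc1 continuousAt_fst)
      have k1 : ∀ᶠ q : R × X in 𝓝 (z', x'), q.1 ∈ Z z :=
        (continuous_fst.tendsto ((z', x') : R × X)) ((Z z).2.mem_nhds h1)
      have k2 : ∀ᶠ q : R × X in 𝓝 (z', x'), dist q.2 (f q.1) < κ :=
        hc2 (Iio_mem_nhds h2)
      filter_upwards [k1, k2] with q m1 m2
      exact ⟨m1, m2⟩
    have hmem : ((z, x) : R × X) ∈ {q : R × X | q.1 ∈ Z z ∧ dist q.2 (f q.1) < κ} :=
      ⟨hzZ z hzC, hx⟩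
    have hd := (hhol z hzC (z, x) hmem).mdifferentiableAt (hopen.mem_nhds hmem)
    apply MDifferentiableAt.mdifferentiableWithinAt
    refine hd.congr_of_eventuallyEq ?_
    have k3 : ∀ᶠ q : R × X in 𝓝 (z, x), q.1 ∈ interior C1 :=
      (continuous_fst.tendsto ((z, x) : R × X)) (isOpen_interior.mem_nhds hz)
    filter_upwards [hopen.mem_nhds hmem, k3] with q m1 m2
    exact (huniq z hzC q.1 (interior_subset m2) m1.1 q.2 m1.2).symm
  · intro z hz x hx
    have hzC : z ∈ C1 := interior_subset hz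
    obtain ⟨a1, a2⟩ := hsol z hzC z (hzZ z hzC) x hx
    have := hrδ z hzC
    exact ⟨by linarith, a2⟩
  · intro z hz w hw
    have hzC : z ∈ C1 := interior_subset hz
    have hw1 : ‖w‖ < r z := hw.trans_le
      (((min_le_right _ _).trans (min_le_left _ _)).trans (hr z hzC))
    have hw2 : ‖w‖ < δ1 := hw.trans_le ((min_le_right _ _).trans (min_le_right _ _))
    have hx := hclose z hzC w hw2
    obtain ⟨a1, a2⟩ := hsol z hzC z (hzZ z hzC) _ hx
    exact ⟨hx, hinj z hzC z (hzZ z hzC) _ _ a1 hw1 a2⟩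
  · intro ε hε
    obtain ⟨κ', hκ', r1, hr1, hu'⟩ := li_unif hf hs hC1 hC1W (ε := ε) hε
    refine ⟨min κ κ', lt_min hκ hκ', ?_⟩
    intro z hz x hx
    have hzC : z ∈ C1 := interior_subset hz
    obtain ⟨a1, a2⟩ := hsol z hzC z (hzZ z hzC) x (hx.trans_le (min_le_left _ _))
    obtain ⟨Z', r', l', c1, c2, c3, c4, c5, c6, c7⟩ := hu' z hzC
    obtain ⟨b1, b2⟩ := c6 z c1 x (hx.trans_le (min_le_right _ _))
    rcases le_total (r z) r' with h | h
    · exact a1.trans_le (h.trans c4)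
    · have := hinj z hzC z (hzZ z hzC) _ _ a1 (b1.trans_le h) (a2.trans b2.symm)
      show ‖l z z x‖ < ε
      rw [this]
      exact b1.trans_le c4
  · intro ε hε
    obtain ⟨δ2, hδ2, h2⟩ := W_4d259d_h41.sp_close hs hC1 hC1W ε hε
    exact ⟨δ2, hδ2, fun z hz w hw => h2 z (interior_subset hz) w hw⟩

end Pool.Agent.W_4d259d_h44
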