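import Pool.Agent.W_4d259d_h44.ApiD

/-!
# MP_4d259d_ag, quadratic contractions with a parameter (used in sections 9, 15)
-/

noncomputable section

set_option linter.unusedSectionVars false

namespace Pool.Agent.W_4d259d_h44

open Set Filter Topology Manifold Metric MeasureTheory TopologicalSpace
open scoped ContDiff OnePoint BoundedContinuousFunction
open Pool.Agent.W_4d259d_h46.Defs Pool.Agent.W_4d259d_h46

variable {E : Type} [NormedAddCommGroup E] [NormedSpace ℂ E] [FiniteDimensional ℂ E]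

/-- QUADRATIC CONTRACTION.  `Φ t y = L t + Q (B (t,y))` with `L`, `B` bounded linear and `Q`
complex differentiable on a ball, `Q 0 = 0`, `‖Q w - Q w'‖ ≤ C (‖w‖ + ‖w'‖) ‖w - w'‖`.  For small
`t` there is a solution `y t = Φ t (y t)`, differentiable in `t`, `‖y t‖ ≤ C' ‖t‖`.
(`ApiD.par` on the ball of radius `ρ` for `‖t‖ < d`, `d = ρ / (4 (‖L‖ + 1))`, `ρ` small; the linear
bound from `‖y t‖ ≤ ‖L‖ ‖t‖ + C ‖B‖² (‖t‖ + ‖y t‖)²`.) -/
theorem quad_contraction {P Y Z : Type*} [NormedAddCommGroup P] [NormedSpace ℂ P]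
    [NormedAddCommGroup Y] [NormedSpace ℂ Y] [CompleteSpace Y] [NormedAddCommGroup Z]
    [NormedSpace ℂ Z] (L : P →L[ℂ] Y) (B : P × Y →L[ℂ] Z) {Q : Z → Y} {ρQ C : ℝ} (hρ : 0 < ρQ)
    (hQ : DifferentiableOn ℂ Q (ball 0 ρQ)) (hQ0 : Q 0 = 0)
    (hlip : ∀ w w' : Z, ‖w‖ < ρQ → ‖w'‖ < ρQ → ‖Q w - Q w'‖ ≤ C * (‖w‖ + ‖w'‖) * ‖w - w'‖)
    {ε : ℝ} (hε : 0 < ε) :
    ∃ d > 0, ∃ C' : ℝ, ∃ y : P → Y, DifferentiableOn ℂ y (ball 0 d) ∧
      ∀ t ∈ ball (0 : P) d, y t = L t + Q (B (t, y t)) ∧ ‖y t‖ ≤ C' * ‖t‖ ∧ ‖y t‖ < ε ∧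
        ‖B (t, y t)‖ < ε := by
  set a : ℝ := ‖B‖ + 1 with ha
  set K : ℝ := |C| + 1 with hK
  have ha1 : 1 ≤ a := by have := norm_nonneg B; linarith
  have hK1 : 1 ≤ K := by have := abs_nonneg C; linarith
  have ha0 : 0 < a := by linarith
  have hK0 : 0 < K := by linarith
  set m : ℝ := min ρQ ε with hm
  have hm0 : 0 < m := lt_min hρ hε
  set ρ : ℝ := min (m / (4 * a)) (1 / (8 * K * a ^ 2)) with hρdef
  have hρ0 : 0 < ρ := lt_min (by positivity) (by positivity)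
  have hρ1 : ρ * (4 * a) ≤ m := by
    have : ρ ≤ m / (4 * a) := min_le_left _ _
    rwa [le_div_iff₀ (by positivity)] at this
  have hρ2 : ρ * (8 * K * a ^ 2) ≤ 1 := by
    have : ρ ≤ 1 / (8 * K * a ^ 2) := min_le_right _ _
    rwa [le_div_iff₀ (by positivity)] at this
  have hρm : ρ < m := by nlinarith
  have hρε : ρ < ε := hρm.trans_le (min_le_right _ _)
  set d : ℝ := ρ / (4 * (‖L‖ + 1)) with hd
  have hL0 : 0 ≤ ‖L‖ := norm_nonneg L
  have hd0 : 0 < d := by positivity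
  have hdL : d * (4 * (‖L‖ + 1)) = ρ := by rw [hd]; field_simp
  have hdρ : d ≤ ρ := by nlinarith
  have hCK : C ≤ K := by have := le_abs_self C; linarith
  have hBle : ∀ (t : P) (y : Y) (r : ℝ), ‖t‖ ≤ r → ‖y‖ ≤ r → ‖B (t, y)‖ ≤ a * r := by
    intro t y r ht hy
    have h1 := B.le_opNorm (t, y)
    have h2 : ‖((t, y) : P × Y)‖ ≤ r := max_le ht hy
    have h3 : 0 ≤ r := (norm_nonneg _).trans ht
    calc ‖B (t, y)‖ ≤ ‖B‖ * ‖((t, y) : P × Y)‖ := h1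
      _ ≤ ‖B‖ * r := by gcongr
      _ ≤ a * r := by nlinarith
  have hBm : ∀ (t : P) (y : Y), ‖t‖ < d → ‖y‖ < 2 * ρ → ‖B (t, y)‖ < m := by
    intro t y ht hy
    have := hBle t y (2 * ρ) (by linarith) hy.le
    nlinarith
  have hQn : ∀ w : Z, ‖w‖ < ρQ → ‖Q w‖ ≤ K * ‖w‖ ^ 2 := by
    intro w hw
    have h1 := hlip w 0 hw (by simpa using hρ)
    rw [hQ0, sub_zero, sub_zero, norm_zero, add_zero] at h1
    have h2 : C * ‖w‖ * ‖w‖ ≤ K * ‖w‖ ^ 2 := by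
      have : 0 ≤ ‖w‖ ^ 2 := by positivity
      nlinarith
    exact h1.trans h2
  have hmQ : m ≤ ρQ := min_le_left _ _
  have hmε : m ≤ ε := min_le_right _ _
  obtain ⟨y, hy, hyd, -⟩ := par (P := P) (Y := Y) (T := ball (0 : P) d) isOpen_ball (ρ := ρ)
    (ρ' := 2 * ρ) hρ0.le (by linarith) (Φ := fun t y => L t + Q (B (t, y))) (by
      intro t ht y hy
      rw [mem_ball_zero_iff] at ht
      have h1 : ‖L t‖ ≤ ρ / 4 := by
        have := L.le_opNorm t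
        have h2 : ‖L‖ * ‖t‖ ≤ ‖L‖ * d := by gcongr
        nlinarith
      have h2 := hBle t y ρ (by linarith) hy
      have h3 := hQn (B (t, y)) ((hBm t y ht (by linarith)).trans_le hmQ)
      have h4 : ‖B (t, y)‖ ^ 2 ≤ (a * ρ) ^ 2 := by gcongr
      have h5 : K * (a * ρ) ^ 2 ≤ ρ / 8 := by
        have : K * (a * ρ) ^ 2 = ρ * (8 * K * a ^ 2) * ρ / 8 := by ring
        rw [this]
        nlinarith
      have h6 : K * ‖B (t, y)‖ ^ 2 ≤ K * (a * ρ) ^ 2 := by gcongr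
      refine (norm_add_le _ _).trans ?_
      linarith) (by
      intro t ht y y' hy hy'
      rw [mem_ball_zero_iff] at ht
      have h1 := hlip (B (t, y)) (B (t, y')) ((hBm t y ht hy).trans_le hmQ)
        ((hBm t y' ht hy').trans_le hmQ)
      have h2 := hBle t y (2 * ρ) (by linarith) hy.le
      have h3 := hBle t y' (2 * ρ) (by linarith) hy'.le
      have h4 : B (t, y) - B (t, y') = B (0, y - y') := by
        rw [← map_sub]
        congr 1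
        ext <;> simp
      have h5 : ‖B (t, y) - B (t, y')‖ ≤ a * ‖y - y'‖ := by
        rw [h4]
        refine hBle 0 (y - y') _ ?_ le_rfl
        rw [norm_zero]
        exact norm_nonneg _
      have h6 : C * (‖B (t, y)‖ + ‖B (t, y')‖) * ‖B (t, y) - B (t, y')‖ ≤
          K * (a * (2 * ρ) + a * (2 * ρ)) * (a * ‖y - y'‖) := by
        have e1 : C * (‖B (t, y)‖ + ‖B (t, y')‖) ≤ K * (a * (2 * ρ) + a * (2 * ρ)) := by
          calc C * (‖B (t, y)‖ + ‖B (t, y')‖) ≤ K * (‖B (t, y)‖ + ‖B (t, y')‖) := by gcongr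
            _ ≤ _ := by gcongr
        have e2 : 0 ≤ K * (a * (2 * ρ) + a * (2 * ρ)) := by positivity
        exact mul_le_mul e1 h5 (norm_nonneg _) e2
      have h7 : L t + Q (B (t, y)) - (L t + Q (B (t, y'))) = Q (B (t, y)) - Q (B (t, y')) := by
        abel
      rw [h7]
      refine h1.trans (h6.trans ?_)
      have h8 : K * (a * (2 * ρ) + a * (2 * ρ)) * (a * ‖y - y'‖) =
          ρ * (8 * K * a ^ 2) * (1 / 2 * ‖y - y'‖) := by ring
      rw [h8]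
      have : 0 ≤ 1 / 2 * ‖y - y'‖ := by positivity
      nlinarith) (by
      refine DifferentiableOn.add (by fun_prop) ?_
      have h1 : DifferentiableOn ℂ (fun q : P × Y => B (q.1, q.2))
          (ball (0 : P) d ×ˢ ball (0 : Y) (2 * ρ)) := by fun_prop
      refine hQ.comp h1 ?_
      rintro ⟨t, y⟩ ⟨ht, hy⟩
      simp only [mem_ball_zero_iff] at ht hy ⊢
      exact (hBm t y ht hy).trans_le hmQ)
  refine ⟨d, hd0, 2 * (‖L‖ + 1), y, hyd, fun t ht => ?_⟩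
  obtain ⟨h1, h2⟩ := hy t ht
  rw [mem_ball_zero_iff] at ht
  have hBt := hBm t (y t) ht (by linarith)
  refine ⟨h2.symm, ?_, h1.trans_lt hρε, hBt.trans_le hmε⟩
  have h3 := hQn (B (t, y t)) (hBt.trans_le hmQ)
  have h4 : ‖B (t, y t)‖ ≤ a * (‖t‖ + ‖y t‖) := hBle t (y t) _ (by
    have := norm_nonneg (y t)
    linarith) (by
    have := norm_nonneg t
    linarith)
  have h5 : ‖B (t, y t)‖ ≤ a * ρ := hBle t (y t) ρ (by linarith) h1
  have h6 : K * ‖B (t, y t)‖ ^ 2 ≤ 1 / 8 * (‖t‖ + ‖y t‖) := by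
    have e1 : ‖B (t, y t)‖ ^ 2 ≤ (a * ρ) * (a * (‖t‖ + ‖y t‖)) := by
      rw [pow_two]
      exact mul_le_mul h5 h4 (norm_nonneg _) (by positivity)
    have e2 : K * ‖B (t, y t)‖ ^ 2 ≤ K * ((a * ρ) * (a * (‖t‖ + ‖y t‖))) := by gcongr
    have e3 : K * ((a * ρ) * (a * (‖t‖ + ‖y t‖))) =
        ρ * (8 * K * a ^ 2) * (1 / 8 * (‖t‖ + ‖y t‖)) := by ring
    have e4 : 0 ≤ 1 / 8 * (‖t‖ + ‖y t‖) := by positivity
    rw [e3] at e2
    nlinarith
  have h7 : ‖y t‖ ≤ ‖L‖ * ‖t‖ + 1 / 8 * (‖t‖ + ‖y t‖) := by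
    calc ‖y t‖ = ‖L t + Q (B (t, y t))‖ := by rw [h2]
      _ ≤ ‖L t‖ + ‖Q (B (t, y t))‖ := norm_add_le _ _
      _ ≤ ‖L‖ * ‖t‖ + 1 / 8 * (‖t‖ + ‖y t‖) := add_le_add (L.le_opNorm t) (h3.trans h6)
  have h8 : 0 ≤ ‖L‖ * ‖t‖ := by positivity
  have := norm_nonneg t
  nlinarith

end Pool.Agent.W_4d259d_h44
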