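import Pool.Agent.W_4d259d_h44.Sec15B
import Pool.Agent.W_4d259d_h44.FlexA
import Pool.Agent.W_4d259d_h44.Pairs

/-!
# MP_4d259d_ag, BLOCK FL: section 15, a free curve gives a flexible point
-/

noncomputable section

set_option linter.unusedSectionVars false

namespace Pool.Agent.W_4d259d_h44

open Set Filter Topology Manifold Metric MeasureTheory TopologicalSpace
open scoped ContDiff OnePoint BoundedContinuousFunction
open Pool.Agent.W_4d259d_h46.Defs Pool.Agent.W_4d259d_h46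

variable {E : Type} [NormedAddCommGroup E] [NormedSpace ℂ E] [FiniteDimensional ℂ E]
variable {X : Type} [MetricSpace X] [ChartedSpace E X] [IsManifold (modelWithCornersSelf ℂ E) ω X]

/-! ### helper lemmas for section 15 -/

section aux

variable {P G : Type} [NormedAddCommGroup P] [NormedSpace ℂ P] [NormedAddCommGroup G]
  [NormedSpace ℂ G]

/-- Change of the model on `ℂ × P`, values in a manifold. -/
private theorem s15_model {Z : Type} [TopologicalSpace Z] [ChartedSpace G Z] {f : ℂ × P → Z}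
    {S : Set (ℂ × P)} :
    MDifferentiableOn ((modelWithCornersSelf ℂ ℂ).prod (modelWithCornersSelf ℂ P))
      (modelWithCornersSelf ℂ G) f S ↔
    MDifferentiableOn (modelWithCornersSelf ℂ (ℂ × P)) (modelWithCornersSelf ℂ G) f S := by
  rw [modelWithCornersSelf_prod, ← chartedSpaceSelf_prod]

/-- Change of the model on `ℂ × P`, values in a vector space. -/
private theorem s15_vec {f : ℂ → P → G} {U : Set ℂ} {T : Set P} (h : HolOn2 G f U T) :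
    DifferentiableOn ℂ (fun q : ℂ × P => f q.1 q.2) (U ×ˢ T) := by
  rw [← mdifferentiableOn_iff_differentiableOn]
  exact s15_model.1 h

end aux

/-- Composition of a spray with holomorphic maps. -/
private theorem s15_comp {Q : Type} [NormedAddCommGroup Q] [NormedSpace ℂ Q] {s : ℂ → E → X}
    {U : Set ℂ} {V : Set E} (hs : HolOn2 E s U V) {ζ : Q → ℂ} {w : Q → E} {S : Set Q}
    (hζ : DifferentiableOn ℂ ζ S) (hw : DifferentiableOn ℂ w S) (hU : ∀ q ∈ S, ζ q ∈ U)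
    (hV : ∀ q ∈ S, w q ∈ V) :
    MDifferentiableOn (modelWithCornersSelf ℂ Q) (modelWithCornersSelf ℂ E)
      (fun q => s (ζ q) (w q)) S := by
  have h1 : MDifferentiableOn (modelWithCornersSelf ℂ Q) (modelWithCornersSelf ℂ (ℂ × E))
      (fun q => (ζ q, w q)) S := (hζ.prodMk hw).mdifferentiableOn
  exact (s15_model.1 hs).comp h1 (fun q hq => ⟨hU q hq, hV q hq⟩)

/-- Section 15: from a two disc model with sections `S0`, `Si` (`g S0 = Si`, `S0 0 = 1`,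
`Si 0 = 0`, `g z = D_w θ(z,0)`), the point `u0 0` is flexible.
Proof: `exists_thin`, `solve15`; `Ui ζ p a = s0 (ζ²) (p + ζ a + ζ² v0 ζ)` for `|ζ| < √t2`,
`Lam η p a = si (η²) (wi η)` for `|η| < 1/√t1` and `= Ui η⁻¹ p a` for `|η| > 1/√t2` (they agree on
the overlap by `θeq`); jointly holomorphic by `ApiD.eval`, `hol2_comp`; jet map
`(τ p, Dτ(p) a)`, `τ p = φ (s0 0 p)`; `flexAt_of_jet`. -/
theorem flexAt_of_free {u0 ui : ℂ → X} (hu : IsPair E u0 ui) {r1 r2 : ℝ} (h1 : 0 < r1)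
    (D : TwoDisc E u0 ui r1 r2) {S0 Si : ℂ → E →L[ℂ] E}
    (hS0 : DifferentiableOn ℂ S0 (ball 0 r2)) (hSi : DifferentiableOn ℂ Si (ball 0 r1⁻¹))
    (hg : ∀ z ∈ annu r1 r2, (fderiv ℂ (D.θ z) 0) * S0 z = Si z⁻¹) (h0 : S0 0 = 1)
    (hi : Si 0 = 0) : FlexAt E (u0 0) := by
  classical
  have hcomp : CompleteSpace E := FiniteDimensional.complete ℂ E
  obtain ⟨t1, t2, ht1, ht12, ht2, hunit⟩ := exists_thin h1 D.hr hS0 h0
  obtain ⟨d, V0, Wi, hd, hV0, hWi, hb0, hbi, heq⟩ :=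
    solve15 h1 D hS0 hSi hg hi ht1 ht12 ht2 hunit
  have ht1p : 0 < t1 := h1.trans ht1
  have ht2p : 0 < t2 := ht1p.trans ht12
  have hs1 : 0 < √t1 := Real.sqrt_pos.2 ht1p
  have hs2 : 0 < √t2 := Real.sqrt_pos.2 ht2p
  have hsq1 : √t1 ^ 2 = t1 := Real.sq_sqrt ht1p.le
  have hsq2 : √t2 ^ 2 = t2 := Real.sq_sqrt ht2p.le
  have hs12 : √t1 < √t2 := Real.sqrt_lt_sqrt ht1p.le ht12
  have hq1 := D.hq1
  have hqr1 := D.hqr1
  have hqr2 := D.hqr2
  have hdδ := D.hdδ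
  have hq1i : t1⁻¹ < D.q1⁻¹ := inv_strictAnti₀ hq1 (hqr1.trans ht1)
  set w0 : ℂ × E × E → E := fun q => q.2.1 + q.1 • q.2.2 + q.1 ^ 2 • (V0 q.2).fn q.1 with hw0
  set wi : ℂ × E × E → E := fun q => (Wi q.2).fn q.1 with hwi
  set Ui : ℂ → E → E → X := fun ζ p a => D.s0 (ζ ^ 2) (w0 (ζ, p, a)) with hUi
  set Li : ℂ → E → E → X := fun η p a => D.si (η ^ 2) (wi (η, p, a)) with hLi
  set Lam : ℂ → E → E → X := fun η p a =>
    if ‖η‖ < (√t1)⁻¹ then Li η p a else Ui η⁻¹ p a with hLam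
  set T : Set (E × E) := ball (0 : E × E) d with hT
  have hTeq : ball (0 : E) d ×ˢ ball (0 : E) d = T := ball_prod_same (0 : E) (0 : E) d
  have hw0d : DifferentiableOn ℂ w0 (ball (0 : ℂ) (√t2) ×ˢ T) := by
    have h2 : DifferentiableOn ℂ (fun q : ℂ × (E × E) => (V0 q.2).fn q.1)
        (ball (0 : ℂ) (√t2) ×ˢ T) := s15_vec (Pool.Agent.W_4d259d_h44.eval isOpen_ball hV0)
    have h3 : DifferentiableOn ℂ (fun q : ℂ × (E × E) => q.2.1 + q.1 • q.2.2)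
        (ball (0 : ℂ) (√t2) ×ˢ T) := by fun_prop
    have h4 : DifferentiableOn ℂ (fun q : ℂ × (E × E) => q.1 ^ 2)
        (ball (0 : ℂ) (√t2) ×ˢ T) := by fun_prop
    exact h3.add (h4.smul h2)
  have hwid : DifferentiableOn ℂ wi (ball (0 : ℂ) (√t1)⁻¹ ×ˢ T) :=
    s15_vec (Pool.Agent.W_4d259d_h44.eval isOpen_ball hWi)
  have hw0b : ∀ q ∈ ball (0 : ℂ) (√t2) ×ˢ T, w0 q ∈ ball (0 : E) D.d := by
    rintro ⟨ζ, t⟩ ⟨hζ, ht⟩
    rw [mem_ball_zero_iff]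
    exact hb0 t ht ζ hζ
  have hdisc : ∀ ζ ∈ ball (0 : ℂ) (√t2), ζ ^ 2 ∈ (disc D.q2 : Set ℂ) := by
    intro ζ hζ
    rw [mem_ball_zero_iff] at hζ
    show ζ ^ 2 ∈ ball (0 : ℂ) D.q2
    rw [mem_ball_zero_iff, norm_pow]
    have h3 : ‖ζ‖ ^ 2 < √t2 ^ 2 := pow_lt_pow_left₀ hζ (norm_nonneg _) two_ne_zero
    linarith
  have hdisci : ∀ η ∈ ball (0 : ℂ) (√t1)⁻¹, η ^ 2 ∈ (disc D.q1⁻¹ : Set ℂ) := by
    intro η hη
    rw [mem_ball_zero_iff] at hη
    show η ^ 2 ∈ ball (0 : ℂ) D.q1⁻¹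
    rw [mem_ball_zero_iff, norm_pow]
    have h3 : ‖η‖ ^ 2 < (√t1)⁻¹ ^ 2 := pow_lt_pow_left₀ hη (norm_nonneg _) two_ne_zero
    rw [inv_pow, hsq1] at h3
    linarith
  -- the two branches are holomorphic
  have hUid : MDifferentiableOn (modelWithCornersSelf ℂ (ℂ × E × E)) (modelWithCornersSelf ℂ E)
      (fun q : ℂ × E × E => Ui q.1 q.2.1 q.2.2) (ball (0 : ℂ) (√t2) ×ˢ T) := by
    refine s15_comp D.spray0.hol (ζ := fun q : ℂ × E × E => q.1 ^ 2) (w := w0) (by fun_prop)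
      hw0d (fun q hq => hdisc _ hq.1) (fun q hq => ?_)
    exact ball_subset_ball hdδ (hw0b q hq)
  have hLid : MDifferentiableOn (modelWithCornersSelf ℂ (ℂ × E × E)) (modelWithCornersSelf ℂ E)
      (fun q : ℂ × E × E => Li q.1 q.2.1 q.2.2) (ball (0 : ℂ) (√t1)⁻¹ ×ˢ T) := by
    refine s15_comp D.sprayi.hol (ζ := fun q : ℂ × E × E => q.1 ^ 2) (w := wi) (by fun_prop)
      hwid (fun q hq => hdisci _ hq.1) ?_
    rintro ⟨η, t⟩ ⟨hη, ht⟩
    rw [mem_ball_zero_iff]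
    exact hbi t ht η hη
  -- they agree on the overlap
  have hover : ∀ η : ℂ, (√t2)⁻¹ < ‖η‖ → ‖η‖ < (√t1)⁻¹ → ∀ p a : E, (p, a) ∈ T →
      Li η p a = Ui η⁻¹ p a := by
    intro η hη1 hη2 p a ht
    have hη0 : 0 < ‖η‖ := lt_trans (by positivity) hη1
    have hz : η⁻¹ ∈ annu (√t1) (√t2) := by
      show √t1 < ‖η⁻¹‖ ∧ ‖η⁻¹‖ < √t2
      rw [norm_inv]
      exact ⟨(lt_inv_comm₀ hs1 hη0).2 hη2, (inv_lt_comm₀ hη0 hs2).2 hη1⟩
    have hz2 : η⁻¹ ^ 2 ∈ annu D.q1 D.q2 := by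
      obtain ⟨h3, h4⟩ := hz
      show D.q1 < ‖η⁻¹ ^ 2‖ ∧ ‖η⁻¹ ^ 2‖ < D.q2
      rw [norm_pow]
      have h5 : √t1 ^ 2 < ‖η⁻¹‖ ^ 2 := pow_lt_pow_left₀ h3 hs1.le two_ne_zero
      have h6 : ‖η⁻¹‖ ^ 2 < √t2 ^ 2 := pow_lt_pow_left₀ h4 (norm_nonneg _) two_ne_zero
      constructor <;> linarith
    have h3 := heq (p, a) ht η⁻¹ hz
    rw [inv_inv] at h3
    have h4 : w0 (η⁻¹, p, a) ∈ ball (0 : E) D.d := hw0b _ ⟨by
      rw [mem_ball_zero_iff]; exact hz.2, ht⟩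
    have h5 := D.θeq (η⁻¹ ^ 2) hz2 (w0 (η⁻¹, p, a)) h4
    rw [← inv_pow, inv_inv] at h5
    show D.si (η ^ 2) ((Wi (p, a)).fn η) = D.s0 (η⁻¹ ^ 2) (w0 (η⁻¹, p, a))
    rw [h3]
    exact h5
  have hLamU : ∀ η : ℂ, (√t2)⁻¹ < ‖η‖ → ∀ p a : E, (p, a) ∈ T → Lam η p a = Ui η⁻¹ p a := by
    intro η hη p a ht
    show (if ‖η‖ < (√t1)⁻¹ then Li η p a else Ui η⁻¹ p a) = Ui η⁻¹ p a
    split_ifs with h3
    · exact hover η hη h3 p a ht
    · rfl
  have hTo : IsOpen T := isOpen_ball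
  have hLamd : MDifferentiableOn (modelWithCornersSelf ℂ (ℂ × E × E)) (modelWithCornersSelf ℂ E)
      (fun q : ℂ × E × E => Lam q.1 q.2.1 q.2.2) (univ ×ˢ T) := by
    rintro ⟨η, t⟩ ⟨-, ht⟩
    refine MDifferentiableAt.mdifferentiableWithinAt ?_
    by_cases hη : ‖η‖ < (√t1)⁻¹
    · have hO : ball (0 : ℂ) (√t1)⁻¹ ×ˢ T ∈ 𝓝 ((η, t) : ℂ × E × E) :=
        (isOpen_ball.prod hTo).mem_nhds ⟨by rw [mem_ball_zero_iff]; exact hη, ht⟩
      refine (hLid.mdifferentiableAt hO).congr_of_eventuallyEq ?_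
      filter_upwards [hO] with q hq
      exact if_pos (mem_ball_zero_iff.1 hq.1)
    · have hη1 : (√t2)⁻¹ < ‖η‖ := lt_of_lt_of_le (inv_strictAnti₀ hs1 hs12) (not_lt.1 hη)
      have hO : {q : ℂ × E × E | (√t2)⁻¹ < ‖q.1‖} ∩ (univ ×ˢ T) ∈ 𝓝 ((η, t) : ℂ × E × E) := by
        refine IsOpen.mem_nhds ?_ ⟨hη1, mem_univ _, ht⟩
        exact (isOpen_lt continuous_const (continuous_norm.comp continuous_fst)).inter
          (isOpen_univ.prod hTo)
      have hη0 : ∀ q : ℂ × E × E, (√t2)⁻¹ < ‖q.1‖ → q.1 ≠ 0 := by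
        intro q hq h3
        rw [h3, norm_zero] at hq
        exact absurd hq (not_lt.2 (by positivity))
      have h3 : MDifferentiableOn (modelWithCornersSelf ℂ (ℂ × E × E)) (modelWithCornersSelf ℂ E)
          (fun q : ℂ × E × E => Ui q.1⁻¹ q.2.1 q.2.2)
          ({q : ℂ × E × E | (√t2)⁻¹ < ‖q.1‖} ∩ (univ ×ˢ T)) := by
        have h4 : DifferentiableOn ℂ (fun q : ℂ × E × E => ((q.1⁻¹, q.2) : ℂ × E × E))
            ({q : ℂ × E × E | (√t2)⁻¹ < ‖q.1‖} ∩ (univ ×ˢ T)) := by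
          refine DifferentiableOn.prodMk ?_ (by fun_prop)
          exact DifferentiableOn.inv (by fun_prop) (fun q hq => hη0 q hq.1)
        refine hUid.comp h4.mdifferentiableOn ?_
        rintro ⟨η', t'⟩ ⟨h5, -, h6⟩
        refine ⟨?_, h6⟩
        show η'⁻¹ ∈ ball (0 : ℂ) (√t2)
        rw [mem_ball_zero_iff, norm_inv]
        have h7 : (√t2)⁻¹ < ‖η'‖ := h5
        exact (inv_lt_comm₀ (lt_trans (by positivity) h7) hs2).2 h7
      refine (h3.mdifferentiableAt hO).congr_of_eventuallyEq ?_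
      filter_upwards [hO] with q hq
      exact hLamU q.1 hq.1 q.2.1 q.2.2 hq.2.2
  -- the chart
  have h0q2 : (0 : ℂ) ∈ (disc D.q2 : Set ℂ) := by
    show (0 : ℂ) ∈ ball (0 : ℂ) D.q2
    exact mem_ball_self (by linarith)
  obtain ⟨φ, hφ, hφx, hφu⟩ := D.spray0.inv 0 h0q2
  have hs00 : D.s0 0 0 = u0 0 := D.spray0.zero 0 h0q2
  have hδ : 0 < D.δ := D.spray0.pos
  have hs0m : MDifferentiableOn (modelWithCornersSelf ℂ (ℂ × E)) (modelWithCornersSelf ℂ E)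
      (fun q : ℂ × E => D.s0 q.1 q.2) ((disc D.q2 : Set ℂ) ×ˢ ball (0 : E) D.δ) :=
    s15_model.1 D.spray0.hol
  have hOo : IsOpen ((disc D.q2 : Set ℂ) ×ˢ ball (0 : E) D.δ) := (disc D.q2).2.prod isOpen_ball
  have h00 : ((0 : ℂ), (0 : E)) ∈ (disc D.q2 : Set ℂ) ×ˢ ball (0 : E) D.δ :=
    ⟨h0q2, mem_ball_self hδ⟩
  have hcont : ContinuousAt (fun q : ℂ × E => D.s0 q.1 q.2) ((0 : ℂ), (0 : E)) :=
    hs0m.continuousOn.continuousAt (hOo.mem_nhds h00)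
  have hev : ∀ᶠ q : ℂ × E in 𝓝 ((0 : ℂ), (0 : E)), D.s0 q.1 q.2 ∈ φ.source :=
    hcont.eventually (φ.open_source.mem_nhds (by
      show D.s0 0 0 ∈ φ.source
      rw [hs00]; exact hφx))
  obtain ⟨ε, hε, hεb⟩ := Metric.eventually_nhds_iff_ball.mp (hev.and (hOo.mem_nhds h00))
  set H : ℂ × E → E := fun q => φ (D.s0 q.1 q.2) with hH
  set B : Set (ℂ × E) := ball ((0 : ℂ), (0 : E)) ε with hB
  have hBo : IsOpen B := isOpen_ball
  have hHd : DifferentiableOn ℂ H B :=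
    diffOn_chart_comp hφ (hs0m.mono fun q hq => (hεb q hq).2) (fun q hq => (hεb q hq).1)
  have hmemB : ∀ p : E, ‖p‖ < ε → ((0 : ℂ), p) ∈ B := by
    intro p hp
    rw [hB, ← ball_prod_same]
    exact ⟨mem_ball_self hε, by rw [mem_ball_zero_iff]; exact hp⟩
  -- the jet
  have hjet : ∀ p a : E, ‖p‖ < ε → (p, a) ∈ T →
      deriv (fun ζ => φ (Ui ζ p a)) 0 = fderiv ℂ H (0, p) (0, a) := by
    intro p a hp ht
    have h3 : HasFDerivAt H (fderiv ℂ H (0, p)) (0, p) :=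
      (hHd.differentiableAt (hBo.mem_nhds (hmemB p hp))).hasFDerivAt
    have h4 : DifferentiableAt ℂ (fun ζ : ℂ => (V0 (p, a)).fn ζ) 0 := by
      have h5 : DifferentiableOn ℂ (V0 (p, a)).fn (ball (0 : ℂ) (√t2)) :=
        holOn_iff.1 (V0 (p, a)).fn_hol
      exact h5.differentiableAt (isOpen_ball.mem_nhds (mem_ball_self hs2))
    have h5 : HasDerivAt (fun ζ : ℂ => ζ ^ 2) 0 0 := by
      have h6 := hasDerivAt_pow 2 (0 : ℂ)
      simpa using h6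
    have h6 : HasDerivAt (fun ζ : ℂ => p + ζ • a + ζ ^ 2 • (V0 (p, a)).fn ζ) a 0 := by
      have h7 := h5.smul h4.hasDerivAt
      have h8 : HasDerivAt (fun ζ : ℂ => p + ζ • a) a 0 := by
        have h9 := ((hasDerivAt_id (0 : ℂ)).smul_const a).const_add p
        simpa using h9
      have h9 := h8.add h7
      refine HasDerivAt.congr_deriv h9 ?_
      simp
    have h7 : HasDerivAt (fun ζ : ℂ => ((ζ ^ 2, p + ζ • a + ζ ^ 2 • (V0 (p, a)).fn ζ) : ℂ × E))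
        ((0 : ℂ), a) 0 := h5.prodMk h6
    have h8 : HasFDerivAt H (fderiv ℂ H (0, p))
        ((fun ζ : ℂ => ((ζ ^ 2, p + ζ • a + ζ ^ 2 • (V0 (p, a)).fn ζ) : ℂ × E)) 0) := by
      have h9 : (fun ζ : ℂ => ((ζ ^ 2, p + ζ • a + ζ ^ 2 • (V0 (p, a)).fn ζ) : ℂ × E)) 0 =
          (0, p) := by simp
      rw [h9]
      exact h3
    exact (h8.comp_hasDerivAt (0 : ℂ) h7).deriv
  have hτ : ∀ v : E, fderiv ℂ (fun w => φ (D.s0 0 w)) 0 v = fderiv ℂ H (0, 0) (0, v) := by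
    have h3 : HasFDerivAt H (fderiv ℂ H (0, 0)) ((0 : ℂ), (0 : E)) :=
      (hHd.differentiableAt (hBo.mem_nhds (hmemB 0 (by rw [norm_zero]; exact hε)))).hasFDerivAt
    have h4 : HasFDerivAt (fun w : E => ((0 : ℂ), w)) (ContinuousLinearMap.inr ℂ ℂ E) 0 :=
      (hasFDerivAt_const (0 : ℂ) (0 : E)).prodMk (hasFDerivAt_id (0 : E)) |>.congr_fderiv (by
        ext v <;> simp)
    intro v
    have h5 := (h3.comp (0 : E) h4).fderiv
    have h6 : fderiv ℂ (fun w => φ (D.s0 0 w)) 0 =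
        (fderiv ℂ H (0, 0)).comp (ContinuousLinearMap.inr ℂ ℂ E) := h5
    rw [h6]
    simp
  obtain ⟨e, he⟩ : ∃ e : E ≃L[ℂ] E, (e : E →L[ℂ] E) = fderiv ℂ (fun w => φ (D.s0 0 w)) 0 := by
    obtain ⟨u, hu'⟩ := hφu
    exact ⟨ContinuousLinearEquiv.unitsEquiv ℂ E u, hu'⟩
  have hJ : HasFDerivAt (fun q : E × E => (H (0, q.1), fderiv ℂ H (0, q.1) (0, q.2)))
      ((e.prodCongr e : (E × E) ≃L[ℂ] (E × E)) : (E × E) →L[ℂ] (E × E)) (0, 0) := by
    have h3 : HasFDerivAt H (fderiv ℂ H (0, 0)) ((0 : ℂ), (0 : E)) :=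
      (hHd.differentiableAt (hBo.mem_nhds (hmemB 0 (by rw [norm_zero]; exact hε)))).hasFDerivAt
    have h4 : HasFDerivAt (fun q : E × E => ((0 : ℂ), q.1))
        ((ContinuousLinearMap.inr ℂ ℂ E).comp (ContinuousLinearMap.fst ℂ E E)) (0, 0) := by
      have h5 := (hasFDerivAt_const (0 : ℂ) ((0 : E), (0 : E))).prodMk
        (hasFDerivAt_fst (𝕜 := ℂ) (p := ((0 : E), (0 : E))))
      exact h5.congr_fderiv (by ext v <;> simp)
    have h4' : HasFDerivAt (fun q : E × E => ((0 : ℂ), q.2))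
        ((ContinuousLinearMap.inr ℂ ℂ E).comp (ContinuousLinearMap.snd ℂ E E)) (0, 0) := by
      have h5 := (hasFDerivAt_const (0 : ℂ) ((0 : E), (0 : E))).prodMk
        (hasFDerivAt_snd (𝕜 := ℂ) (p := ((0 : E), (0 : E))))
      exact h5.congr_fderiv (by ext v <;> simp)
    have h6 := h3.comp ((0 : E), (0 : E)) h4
    have h7 : HasFDerivAt (fderiv ℂ H) (fderiv ℂ (fderiv ℂ H) (0, 0)) ((0 : ℂ), (0 : E)) :=
      ((ApiC.differentiableOn_fderiv hBo hHd).differentiableAt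
        (hBo.mem_nhds (hmemB 0 (by rw [norm_zero]; exact hε)))).hasFDerivAt
    have h8 := h7.comp ((0 : E), (0 : E)) h4
    have h9 := h8.clm_apply h4'
    have h10 := h6.prodMk h9
    refine h10.congr_fderiv ?_
    ext v <;> simp [he, hτ] <;> exact map_zero _
  refine flexAt_of_jet (φ := φ) hφ hφx hd hs2 (Lam := Lam) (Ui := Ui) ?_ ?_ ?_ ?_
    (e.prodCongr e) ?_ ?_
  · rw [hTeq]; exact hLamd
  · rw [hTeq]; exact hUid
  · intro ζ hζ hζ0 p hp a ha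
    have ht : (p, a) ∈ T := by
      rw [← hTeq]
      exact ⟨hp, ha⟩
    rw [hLamU ζ⁻¹ ?_ p a ht, inv_inv]
    rw [norm_inv]
    exact inv_strictAnti₀ (norm_pos_iff.2 hζ0) (mem_ball_zero_iff.1 hζ)
  · show D.s0 (0 ^ 2) (0 + (0 : ℂ) • (0 : E) + (0 : ℂ) ^ 2 • (V0 (0, 0)).fn 0) = u0 0
    rw [zero_pow two_ne_zero, zero_smul, zero_smul, add_zero, add_zero, hs00]
  · refine hJ.congr_of_eventuallyEq ?_
    have hO : T ∩ {q : E × E | ‖q.1‖ < ε} ∈ 𝓝 ((0 : E), (0 : E)) := by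
      refine (hTo.inter (isOpen_lt (continuous_norm.comp continuous_fst)
        continuous_const)).mem_nhds ⟨?_, ?_⟩
      · exact mem_ball_self hd
      · show ‖(0 : E)‖ < ε
        rw [norm_zero]
        exact hε
    filter_upwards [hO] with q hq
    have h3 := hjet q.1 q.2 hq.2 hq.1
    have h4 : Ui 0 q.1 q.2 = D.s0 0 q.1 := by
      show D.s0 (0 ^ 2) (q.1 + (0 : ℂ) • q.2 + (0 : ℂ) ^ 2 • (V0 (q.1, q.2)).fn 0) = _
      rw [zero_pow two_ne_zero, zero_smul, zero_smul, add_zero, add_zero]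
    rw [h3, h4]
  · rw [hjet 0 0 (by rw [norm_zero]; exact hε) (mem_ball_self hd)]
    exact map_zero _

end Pool.Agent.W_4d259d_h44
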