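import Pool.Agent.W_4d259d_h44.FlexB
import Pool.Agent.W_4d259d_h44.Sec15
import Pool.Agent.W_4d259d_h44.TwoDiscB
import Pool.Agent.W_4d259d_h53.TdH

/-!
# MP_4d259d_ag, BLOCK TD: existence of a free curve (section 14)
-/

noncomputable section

set_option linter.unusedSectionVars false

namespace Pool.Agent.W_4d259d_h44

open Set Filter Topology Manifold Metric MeasureTheory TopologicalSpace
open scoped ContDiff OnePoint BoundedContinuousFunction
open Pool.Agent.W_4d259d_h46.Defs Pool.Agent.W_4d259d_h46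

variable {E : Type} [NormedAddCommGroup E] [NormedSpace ℂ E] [FiniteDimensional ℂ E]
variable {X : Type} [MetricSpace X] [ChartedSpace E X]
  [IsManifold (modelWithCornersSelf ℂ E) ω X]

/-- Section 14 (BLOCK TD): a rationally connected manifold with at least two points carries a
rational curve with a two disc model and sections `S0`, `Si` as in section 15. -/
theorem exists_free [SecondCountableTopology X] [Nontrivial E] [Nonempty X] (hS : SprayThm ℂ E X)
    (h : RatConn E X) :
    ∃ (u0 ui : ℂ → X) (_ : IsPair E u0 ui) (r1 r2 : ℝ) (_ : 0 < r1) (D : TwoDisc E u0 ui r1 r2)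
      (S0 Si : ℂ → E →L[ℂ] E), DifferentiableOn ℂ S0 (ball 0 r2) ∧
      DifferentiableOn ℂ Si (ball 0 r1⁻¹) ∧
      (∀ z ∈ annu r1 r2, (fderiv ℂ (D.θ z) 0) * S0 z = Si z⁻¹) ∧ S0 0 = 1 ∧ Si 0 = 0 :=
  Pool.Agent.W_4d259d_h53.exists_free' hS h

end Pool.Agent.W_4d259d_h44
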