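import Pool.Agent.W_4d259d_h44.TwoDisc
import Pool.Agent.W_4d259d_h44.ApiA
import Pool.Agent.W_4d259d_h44.ApiB
import Pool.Agent.W_4d259d_h53.Lau

/-!
# MP_4d259d_ag, section 15: thin annulus and right inverse
-/

noncomputable section

set_option linter.unusedSectionVars false

namespace Pool.Agent.W_4d259d_h44

open Set Filter Topology Manifold Metric MeasureTheory TopologicalSpace
open scoped ContDiff OnePoint BoundedContinuousFunction
open Pool.Agent.W_4d259d_h46.Defs Pool.Agent.W_4d259d_h46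

variable {E : Type} [NormedAddCommGroup E] [NormedSpace ℂ E] [FiniteDimensional ℂ E]

theorem sec15A_det_diff {r : ℝ} {S : ℂ → E →L[ℂ] E} (hS : DifferentiableOn ℂ S (ball 0 r)) :
    DifferentiableOn ℂ (fun z => (S z).det) (ball 0 r) := by
  let b := Module.finBasis ℂ E
  have h1 : (fun z => (S z).det) = fun z => Matrix.det (fun i j => b.repr (S z (b j)) i) := by
    funext z
    show LinearMap.det (S z : E →ₗ[ℂ] E) = _
    rw [← LinearMap.det_toMatrix b]
    congr 1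
    ext i j
    rw [LinearMap.toMatrix_apply]
    rfl
  rw [h1]
  simp only [Matrix.det_apply]
  refine DifferentiableOn.fun_sum fun σ _ => ?_
  refine DifferentiableOn.const_smul ?_ _
  refine DifferentiableOn.fun_finsetProd fun i _ => ?_
  have h2 : DifferentiableOn ℂ (fun z => S z (b i)) (ball 0 r) :=
    hS.clm_apply (differentiableOn_const _)
  exact (LinearMap.toContinuousLinearMap (b.coord (σ i))).differentiable.comp_differentiableOn h2

theorem sec15A_isUnit {L : E →L[ℂ] E} (h : L.det ≠ 0) : IsUnit L :=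
  ⟨ContinuousLinearEquiv.toUnit (L.toContinuousLinearEquivOfDetNeZero h), by ext; rfl⟩

/-- A thin annulus on which `S0` is invertible.  (`det S0` is holomorphic on the disc, `1` at `0`, so
it has finitely many zeros in the closed disc of radius `(r1 + r2)/2`.) -/
theorem exists_thin {r1 r2 : ℝ} (h1 : 0 < r1) (h2 : r1 < r2) {S0 : ℂ → E →L[ℂ] E}
    (hS0 : DifferentiableOn ℂ S0 (ball 0 r2)) (h0 : S0 0 = 1) :
    ∃ t1 t2 : ℝ, r1 < t1 ∧ t1 < t2 ∧ t2 < r2 ∧ ∀ z : ℂ, t1 ≤ ‖z‖ → ‖z‖ ≤ t2 → IsUnit (S0 z) := by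
  have hr2 : 0 < r2 := h1.trans h2
  set d : ℂ → ℂ := fun z => (S0 z).det with hd
  have hdd : DifferentiableOn ℂ d (ball 0 r2) := sec15A_det_diff hS0
  have hd0 : d 0 = 1 := by
    show (S0 0).det = 1
    rw [h0]
    show LinearMap.det ((1 : E →L[ℂ] E) : E →ₗ[ℂ] E) = 1
    exact LinearMap.det_id
  set ρ := (r1 + r2) / 2 with hρ
  have hρ1 : r1 < ρ := by rw [hρ]; linarith
  have hρ2 : ρ < r2 := by rw [hρ]; linarith
  set Z : Set ℂ := closedBall 0 ρ ∩ d ⁻¹' {0} with hZ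
  have hsub : closedBall (0 : ℂ) ρ ⊆ ball 0 r2 := closedBall_subset_ball hρ2
  have hZf : Z.Finite := by
    by_contra hinf
    obtain ⟨x, hx, hacc⟩ := Set.Infinite.exists_accPt_of_subset_isCompact (s := Z) hinf
      (isCompact_closedBall (0 : ℂ) ρ) inter_subset_left
    have hfr : ∃ᶠ z in 𝓝[≠] x, d z = 0 := by
      rw [accPt_iff_frequently_nhdsNE] at hacc
      exact hacc.mono fun z hz => hz.2
    have h3 : EqOn d 0 (ball 0 r2) :=
      (hdd.analyticOnNhd isOpen_ball).eqOn_zero_of_preconnected_of_frequently_eq_zero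
        (convex_ball (0 : ℂ) r2).isPreconnected (hsub hx) hfr
    have h4 := h3 (mem_ball_self hr2)
    rw [hd0] at h4
    exact one_ne_zero h4
  -- the norms of the zeros
  have hNf : ((fun z : ℂ => ‖z‖) '' Z).Finite := hZf.image _
  have hinf : (Ioo r1 ρ \ ((fun z : ℂ => ‖z‖) '' Z)).Infinite :=
    (Ioo_infinite hρ1).sdiff hNf
  obtain ⟨t, ⟨ht1, ht2⟩, ht3⟩ := hinf.nonempty
  have hopen : IsOpen (Ioo r1 ρ ∩ ((fun z : ℂ => ‖z‖) '' Z)ᶜ) :=
    isOpen_Ioo.inter hNf.isClosed.isOpen_compl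
  obtain ⟨ε, hε, hball⟩ := Metric.isOpen_iff.1 hopen t ⟨⟨ht1, ht2⟩, ht3⟩
  have hmem : ∀ u : ℝ, t - ε / 2 ≤ u → u ≤ t + ε / 2 →
      u ∈ Ioo r1 ρ ∩ ((fun z : ℂ => ‖z‖) '' Z)ᶜ := by
    intro u hu1 hu2
    apply hball
    rw [mem_ball, Real.dist_eq, abs_lt]
    constructor <;> linarith
  refine ⟨t - ε / 2, t + ε / 2, (hmem _ le_rfl (by linarith)).1.1, by linarith,
    (hmem _ (by linarith) le_rfl).1.2.trans hρ2, ?_⟩
  intro z hz1 hz2
  obtain ⟨h5, h6⟩ := hmem ‖z‖ hz1 hz2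
  refine sec15A_isUnit fun h7 => h6 ⟨z, ⟨?_, h7⟩, rfl⟩
  rw [mem_closedBall_zero_iff]
  exact h5.2.le

/-- Division: `f z = f 0 + z • (D f) z` on the disc, `D` bounded linear. -/
theorem sec15A_div {b : ℝ} (hb : 0 < b) :
    ∃ D : HB (disc b) E →L[ℂ] HB (disc b) E, ∀ f, ∀ z ∈ disc b,
      f.fn z = f.fn 0 + z • (D f).fn z := by
  have hc : CompleteSpace E := FiniteDimensional.complete ℂ E
  have hdf : ∀ f : HB (disc b) E, DifferentiableOn ℂ f.fn (ball 0 b) := fun f =>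
    holOn_iff_plane.1 f.fn_hol
  have h0 : (ball (0 : ℂ) b) ∈ 𝓝 (0 : ℂ) := ball_mem_nhds 0 hb
  have hda : ∀ f : HB (disc b) E, DifferentiableAt ℂ f.fn 0 := fun f =>
    (hdf f).differentiableAt h0
  obtain ⟨D, -, hD⟩ := exists_clm (V := disc b) (G := E)
    (fun (f : HB (disc b) E) (z : ℂ) => dslope f.fn 0 z)
    (fun f => holOn_iff_plane.2 ((Complex.differentiableOn_dslope h0).2 (hdf f)))
    (by
      intro f g z _
      have e1 : (f + g).fn = fun z => f.fn z + g.fn z := by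
        funext w
        exact HB.fn_add f g w
      by_cases hz : z = 0
      · subst hz
        rw [dslope_same, dslope_same, dslope_same, e1]
        exact deriv_fun_add (hda f) (hda g)
      · rw [dslope_of_ne _ hz, dslope_of_ne _ hz, dslope_of_ne _ hz, slope_def_module,
          slope_def_module, slope_def_module, HB.fn_add, HB.fn_add, ← smul_add]
        congr 1
        abel)
    (by
      intro c f z _
      have e1 : (c • f).fn = fun z => c • f.fn z := by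
        funext w
        exact HB.fn_smul c f w
      by_cases hz : z = 0
      · subst hz
        rw [dslope_same, dslope_same, e1]
        exact deriv_fun_const_smul c (hda f)
      · rw [dslope_of_ne _ hz, dslope_of_ne _ hz, slope_def_module,
          slope_def_module, HB.fn_smul, HB.fn_smul, ← smul_sub, smul_comm])
    (2 / b) (by positivity)
    (by
      intro f z hz
      have h1 : MapsTo f.fn (ball 0 b) (closedBall (f.fn 0) (2 * ‖f‖)) := by
        intro w _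
        rw [mem_closedBall, dist_eq_norm]
        have h2 := f.fn_le w
        have h3 := f.fn_le 0
        have h4 := norm_sub_le (f.fn w) (f.fn 0)
        linarith
      have h2 := Complex.norm_dslope_le_div_of_mapsTo_ball (hdf f) h1 hz
      calc ‖dslope f.fn 0 z‖ ≤ 2 * ‖f‖ / b := h2
        _ = 2 / b * ‖f‖ := by ring)
  refine ⟨D, fun f z hz => ?_⟩
  rw [hD f z hz]
  have := sub_smul_dslope f.fn 0 z
  rw [sub_zero] at this
  rw [this]
  abel

/-- Laurent splitting with the coefficients of `1` and `z` moved to the outer part: for `x` bounded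
holomorphic on the annulus there are `x0` (disc) and `xi` (outer disc) with
`x z = z • xi z⁻¹ - z ^ 2 • x0 z`, depending linearly and boundedly on `x`.
(Laurent splitting `x z = p z + m z⁻¹`, `p z = p 0 + z p' 0 + z² p2 z`, `x0 = -p2`,
`xi η = p' 0 + η (p 0 + m η)`; bounds by the maximum principle / Cauchy estimates.) -/
theorem laurent_two {a1 a2 : ℝ} (h1 : 0 < a1) (h2 : a1 < a2) :
    ∃ (X0 : HB (annu a1 a2) E →L[ℂ] HB (disc a2) E) (Xi : HB (annu a1 a2) E →L[ℂ] HB (disc a1⁻¹) E),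
      ∀ x : HB (annu a1 a2) E, ∀ z ∈ annu a1 a2,
        x.fn z = z • (Xi x).fn z⁻¹ - z ^ 2 • (X0 x).fn z := by
  have hc : CompleteSpace E := FiniteDimensional.complete ℂ E
  have ha2 : 0 < a2 := h1.trans h2
  obtain ⟨Pp, Pm, hP⟩ := W_4d259d_h53.laurent_HB (F := E) h1 h2
  obtain ⟨D, hD⟩ := sec15A_div (E := E) ha2
  obtain ⟨K, -, hK⟩ := exists_const (F := E) (U := disc a1⁻¹)
  obtain ⟨M, -, hM⟩ := exists_mulOp (F := E) (G := E) (U := disc a1⁻¹)
    (fun η : ℂ => η • (1 : E →L[ℂ] E))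
    (holOn_iff_plane.2 (differentiable_id.smul_const _).differentiableOn) (a1⁻¹ * 1)
    (by positivity)
    (by
      intro η hη
      rw [norm_smul]
      have h3 : ‖η‖ < a1⁻¹ := by
        have := hη
        rwa [← SetLike.mem_coe, disc, Opens.coe_mk, mem_ball_zero_iff] at this
      exact mul_le_mul h3.le ContinuousLinearMap.norm_id_le (norm_nonneg _) (by positivity))
  have h0d : (0 : ℂ) ∈ disc a2 := mem_ball_self ha2
  refine ⟨-((D.comp D).comp Pp), (K.comp ((evL 0 : HB (disc a2) E →L[ℂ] E).comp (D.comp Pp))) +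
    M.comp (K.comp ((evL 0 : HB (disc a2) E →L[ℂ] E).comp Pp) + Pm), ?_⟩
  intro x z hz
  have hz1 : a1 < ‖z‖ := hz.1
  have hz2 : ‖z‖ < a2 := hz.2
  have hz0 : z ≠ 0 := by
    rintro rfl
    rw [norm_zero] at hz1
    linarith
  have hzd : z ∈ disc a2 := by
    rw [← SetLike.mem_coe, disc, Opens.coe_mk, mem_ball_zero_iff]
    exact hz2
  have hzi : z⁻¹ ∈ disc a1⁻¹ := by
    rw [← SetLike.mem_coe, disc, Opens.coe_mk, mem_ball_zero_iff, norm_inv]
    exact inv_strictAnti₀ h1 hz1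
  have e1 := (hP x).1 z hz
  have e2 := hD (Pp x) z hzd
  have e3 := hD (D (Pp x)) z hzd
  have e4 : ((K.comp ((evL 0 : HB (disc a2) E →L[ℂ] E).comp (D.comp Pp))) +
    M.comp (K.comp ((evL 0 : HB (disc a2) E →L[ℂ] E).comp Pp) + Pm)) x =
      K ((D (Pp x)).fn 0) + M (K ((Pp x).fn 0) + Pm x) := rfl
  have e5 : (-((D.comp D).comp Pp)) x = -(D (D (Pp x))) := rfl
  rw [e4, e5, HB.fn_add, HB.fn_neg, hM _ _ hzi, HB.fn_add, hK _ _ hzi, hK _ _ hzi]
  show x.fn z = z • ((D (Pp x)).fn 0 + z⁻¹ • ((Pp x).fn 0 + (Pm x).fn z⁻¹)) -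
    z ^ 2 • -((D (D (Pp x))).fn z)
  have e6 : z • z⁻¹ • ((Pp x).fn 0 + (Pm x).fn z⁻¹) = (Pp x).fn 0 + (Pm x).fn z⁻¹ :=
    smul_inv_smul₀ hz0 _
  rw [e1, e2, e3, smul_add z (D (Pp x) |>.fn 0) (z⁻¹ • ((Pp x).fn 0 + (Pm x).fn z⁻¹)), e6]
  module

/-- RIGHT INVERSE of section 15.  `G S0 = Si(1/z)` on the annulus, `Si η = η² Si'`, everything bounded,
`Si z⁻¹` boundedly invertible on the annulus.  For `y` put `x = (Si z⁻¹)⁻¹ y`,
`v0 = z² S0 x0` (with `x0` of `laurent_two`) and `vi η = η Si'(η) xi(η)` where `x z = z xi - z² x0`: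
`vi z⁻¹ - G v0 = z⁻¹ Si' z⁻¹ xi z⁻¹ - z² G S0 x0 = Si z⁻¹ (z xi z⁻¹ - z² x0) = y`. -/
theorem right_inverse15 {a1 a2 : ℝ} (h1 : 0 < a1) (h2 : a1 < a2) {G S0 Si Si' : ℂ → E →L[ℂ] E}
    (hG : DifferentiableOn ℂ G (annu a1 a2)) (hS0 : DifferentiableOn ℂ S0 (ball 0 a2))
    (hSi' : DifferentiableOn ℂ Si' (ball 0 a1⁻¹)) (hSi : ∀ η ∈ ball (0 : ℂ) a1⁻¹,
      Si η = η ^ 2 • Si' η) (hGS : ∀ z ∈ annu a1 a2, G z * S0 z = Si z⁻¹) {C : ℝ}
    (hb0 : ∀ z ∈ ball (0 : ℂ) a2, ‖S0 z‖ ≤ C) (hbi : ∀ η ∈ ball (0 : ℂ) a1⁻¹, ‖Si' η‖ ≤ C)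
    (hu : ∀ z ∈ annu a1 a2, IsUnit (Si z⁻¹) ∧ ‖Ring.inverse (Si z⁻¹)‖ ≤ C) :
    ∃ (V0 : HB (annu a1 a2) E →L[ℂ] HB (disc a2) E) (Vi : HB (annu a1 a2) E →L[ℂ] HB (disc a1⁻¹) E),
      ∀ y : HB (annu a1 a2) E, ∀ z ∈ annu a1 a2,
        (Vi y).fn z⁻¹ - z ^ 2 • G z ((V0 y).fn z) = y.fn z := by
  have hc : CompleteSpace E := FiniteDimensional.complete ℂ E
  have ha2 : 0 < a2 := h1.trans h2
  have hC : 0 ≤ C := (norm_nonneg _).trans (hb0 0 (mem_ball_self ha2))
  have hmem : ∀ z ∈ annu a1 a2, z ≠ 0 ∧ z ∈ disc a2 ∧ z⁻¹ ∈ disc a1⁻¹ := by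
    intro z hz
    have hz1 : a1 < ‖z‖ := hz.1
    have hz2 : ‖z‖ < a2 := hz.2
    refine ⟨?_, ?_, ?_⟩
    · rintro rfl
      rw [norm_zero] at hz1
      linarith
    · rw [← SetLike.mem_coe, disc, Opens.coe_mk, mem_ball_zero_iff]
      exact hz2
    · rw [← SetLike.mem_coe, disc, Opens.coe_mk, mem_ball_zero_iff, norm_inv]
      exact inv_strictAnti₀ h1 hz1
  obtain ⟨X0, Xi, hX⟩ := laurent_two (E := E) h1 h2
  -- `Si z⁻¹` on the annulus
  have hSid : DifferentiableOn ℂ (fun z => Si z⁻¹) (annu a1 a2) := by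
    have h3 : DifferentiableOn ℂ (fun z => G z * S0 z) (annu a1 a2) := by
      have h4 : DifferentiableOn ℂ (fun p : (E →L[ℂ] E) × (E →L[ℂ] E) => p.1 * p.2) univ :=
        (differentiable_fst.mul differentiable_snd).differentiableOn
      have h5 : DifferentiableOn ℂ S0 (annu a1 a2) := hS0.mono fun z hz => (hmem z hz).2.1
      exact h4.comp (hG.prodMk h5) (fun _ _ => mem_univ _)
    exact h3.congr fun z hz => (hGS z hz).symm
  obtain ⟨I, -, hI⟩ := exists_mulOp (F := E) (G := E) (U := annu a1 a2)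
    (fun z => Ring.inverse (Si z⁻¹))
    (holOn_opInv (holOn_iff_plane.2 hSid) fun z hz => (hu z hz).1) C hC
    (fun z hz => (hu z hz).2)
  obtain ⟨M0, -, hM0⟩ := exists_mulOp (F := E) (G := E) (U := disc a2) S0
    (holOn_iff_plane.2 hS0) C hC (fun z hz => hb0 z hz)
  obtain ⟨Mi, -, hMi⟩ := exists_mulOp (F := E) (G := E) (U := disc a1⁻¹)
    (fun η => η • Si' η)
    (holOn_iff_plane.2 (differentiableOn_id.smul hSi')) (a1⁻¹ * C) (by positivity)
    (by
      intro η hη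
      rw [norm_smul]
      have h3 : ‖η‖ < a1⁻¹ := by
        have := hη
        rwa [← SetLike.mem_coe, disc, Opens.coe_mk, mem_ball_zero_iff] at this
      exact mul_le_mul h3.le (hbi η hη) (norm_nonneg _) (by positivity))
  refine ⟨(M0.comp X0).comp I, (Mi.comp Xi).comp I, ?_⟩
  intro y z hz
  obtain ⟨hz0, hzd, hzi⟩ := hmem z hz
  have e0 : ((M0.comp X0).comp I) y = M0 (X0 (I y)) := rfl
  have e0' : ((Mi.comp Xi).comp I) y = Mi (Xi (I y)) := rfl
  rw [e0, e0', hMi _ _ hzi, hM0 _ _ hzd]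
  have e1 := hX (I y) z hz
  rw [hI _ z hz] at e1
  have e2 : Si z⁻¹ (Ring.inverse (Si z⁻¹) (y.fn z)) = y.fn z := by
    have := Ring.mul_inverse_cancel _ (hu z hz).1
    have h3 := congrArg (fun L : E →L[ℂ] E => L (y.fn z)) this
    exact h3
  rw [e1, map_sub, map_smul, map_smul] at e2
  have e3 : G z (S0 z ((X0 (I y)).fn z)) = Si z⁻¹ ((X0 (I y)).fn z) := by
    rw [← hGS z hz]
    rfl
  have e4 : z • Si z⁻¹ ((Xi (I y)).fn z⁻¹) = z⁻¹ • Si' z⁻¹ ((Xi (I y)).fn z⁻¹) := by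
    rw [hSi z⁻¹ hzi]
    show z • (z⁻¹) ^ 2 • Si' z⁻¹ ((Xi (I y)).fn z⁻¹) = _
    rw [smul_smul]
    congr 1
    field_simp
  rw [e3, ← e2, e4]
  rfl

end Pool.Agent.W_4d259d_h44
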