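import Pool.Agent.W_4d259d_h44.Sec15A
import Pool.Agent.W_4d259d_h44.Quad
import Pool.Agent.W_4d259d_h44.ApiD

/-!
# MP_4d259d_ag, section 15: the family of curves near the doubled free curve
-/

noncomputable section

set_option linter.unusedSectionVars false

namespace Pool.Agent.W_4d259d_h44

open Set Filter Topology Manifold Metric MeasureTheory TopologicalSpace
open scoped ContDiff OnePoint BoundedContinuousFunction
open Pool.Agent.W_4d259d_h46.Defs Pool.Agent.W_4d259d_h46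

variable {E : Type} [NormedAddCommGroup E] [NormedSpace ℂ E] [FiniteDimensional ℂ E]
variable {X : Type} [MetricSpace X] [ChartedSpace E X] [IsManifold (modelWithCornersSelf ℂ E) ω X]

theorem sec15B_sq_mem {t1 t2 : ℝ} (h1 : 0 < t1) {z : ℂ} (hz : z ∈ annu (√t1) (√t2)) :
    z ^ 2 ∈ annu t1 t2 := by
  have hz1 : √t1 < ‖z‖ := hz.1
  have hz2 : ‖z‖ < √t2 := hz.2
  have ht2 : 0 < t2 := by
    by_contra h
    rw [Real.sqrt_eq_zero_of_nonpos (not_lt.1 h)] at hz2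
    have := norm_nonneg z
    linarith
  constructor
  · show t1 < ‖z ^ 2‖
    rw [norm_pow, ← Real.sq_sqrt h1.le]
    exact pow_lt_pow_left₀ hz1 (Real.sqrt_nonneg _) two_ne_zero
  · show ‖z ^ 2‖ < t2
    rw [norm_pow, ← Real.sq_sqrt ht2.le]
    exact pow_lt_pow_left₀ hz2 (norm_nonneg _) two_ne_zero

theorem sec15B_sq_disc {t : ℝ} (ht : 0 < t) {z : ℂ} (hz : ‖z‖ < √t) : ‖z ^ 2‖ < t := by
  rw [norm_pow, ← Real.sq_sqrt ht.le]
  exact pow_lt_pow_left₀ hz (norm_nonneg _) two_ne_zero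

/-- the affine part `p + z a` -/
theorem sec15B_aff {a2 : ℝ} (ha2 : 0 < a2) :
    ∃ A : E × E →L[ℂ] HB (disc a2) E, ∀ t : E × E, ∀ z ∈ disc a2,
      (A t).fn z = t.1 + z • t.2 := by
  obtain ⟨K, -, hK⟩ := exists_const (F := E) (U := disc a2)
  obtain ⟨M, -, hM⟩ := exists_mulOp (F := E) (G := E) (U := disc a2)
    (fun η : ℂ => η • (1 : E →L[ℂ] E))
    (holOn_iff_plane.2 (differentiable_id.smul_const _).differentiableOn) (a2 * 1)
    (by positivity)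
    (by
      intro η hη
      rw [norm_smul]
      have h3 : ‖η‖ < a2 := by
        have := hη
        rwa [← SetLike.mem_coe, disc, Opens.coe_mk, mem_ball_zero_iff] at this
      exact mul_le_mul h3.le ContinuousLinearMap.norm_id_le (norm_nonneg _) (by positivity))
  refine ⟨(K.comp (ContinuousLinearMap.fst ℂ E E)) +
    (M.comp (K.comp (ContinuousLinearMap.snd ℂ E E))), fun t z hz => ?_⟩
  have e1 : ((K.comp (ContinuousLinearMap.fst ℂ E E)) +
    (M.comp (K.comp (ContinuousLinearMap.snd ℂ E E)))) t = K t.1 + M (K t.2) := rfl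
  rw [e1, HB.fn_add, hM _ _ hz, hK _ _ hz, hK _ _ hz]
  rfl

/-- multiplication by `z^2` -/
theorem sec15B_sqmul {a2 : ℝ} (ha2 : 0 < a2) :
    ∃ M : HB (disc a2) E →L[ℂ] HB (disc a2) E, ∀ f, ∀ z ∈ disc a2,
      (M f).fn z = z ^ 2 • f.fn z := by
  obtain ⟨M, -, hM⟩ := exists_mulOp (F := E) (G := E) (U := disc a2)
    (fun η : ℂ => (η ^ 2) • (1 : E →L[ℂ] E))
    (holOn_iff_plane.2 ((differentiable_id.pow 2).smul_const _).differentiableOn) (a2 ^ 2 * 1)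
    (by positivity)
    (by
      intro η hη
      rw [norm_smul, norm_pow]
      have h3 : ‖η‖ < a2 := by
        have := hη
        rwa [← SetLike.mem_coe, disc, Opens.coe_mk, mem_ball_zero_iff] at this
      exact mul_le_mul (pow_le_pow_left₀ (norm_nonneg _) h3.le 2) ContinuousLinearMap.norm_id_le
        (norm_nonneg _) (by positivity))
  refine ⟨M, fun f z hz => ?_⟩
  rw [hM _ _ hz]
  rfl

/-- the data of `right_inverse15` -/
theorem sec15B_data {r1 r2 : ℝ} (h1 : 0 < r1) {g S0 Si : ℂ → E →L[ℂ] E}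
    (hgu : ∀ z ∈ annu r1 r2, IsUnit (g z))
    (hS0 : DifferentiableOn ℂ S0 (ball 0 r2))
    (hSi : DifferentiableOn ℂ Si (ball 0 r1⁻¹))
    (hg : ∀ z ∈ annu r1 r2, g z * S0 z = Si z⁻¹)
    (hi : Si 0 = 0) {t1 t2 : ℝ} (ht1 : r1 < t1) (ht12 : t1 < t2) (ht2 : t2 < r2)
    (hu : ∀ z : ℂ, t1 ≤ ‖z‖ → ‖z‖ ≤ t2 → IsUnit (S0 z)) :
    ∃ C : ℝ, 0 ≤ C ∧ DifferentiableOn ℂ (fun z => g (z ^ 2)) (annu (√t1) (√t2)) ∧
      (∀ z ∈ annu (√t1) (√t2), ‖g (z ^ 2)‖ ≤ C) ∧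
      ∃ (V0 : HB (annu (√t1) (√t2)) E →L[ℂ] HB (disc (√t2)) E)
        (Vi : HB (annu (√t1) (√t2)) E →L[ℂ] HB (disc (√t1)⁻¹) E),
      ∀ y : HB (annu (√t1) (√t2)) E, ∀ z ∈ annu (√t1) (√t2),
        (Vi y).fn z⁻¹ - z ^ 2 • g (z ^ 2) ((V0 y).fn z) = y.fn z := by
  have hc : CompleteSpace E := FiniteDimensional.complete ℂ E
  have ht10 : 0 < t1 := h1.trans ht1
  have ht20 : 0 < t2 := ht10.trans ht12
  have ha1 : 0 < √t1 := Real.sqrt_pos.2 ht10
  have ha12 : √t1 < √t2 := Real.sqrt_lt_sqrt ht10.le ht12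
  -- the compact annulus
  set Kc : Set ℂ := {z | t1 ≤ ‖z‖ ∧ ‖z‖ ≤ t2} with hKc
  have hKc1 : IsCompact Kc := by
    refine (isCompact_closedBall (0 : ℂ) t2).of_isClosed_subset ?_ ?_
    · exact (isClosed_le continuous_const continuous_norm).inter
        (isClosed_le continuous_norm continuous_const)
    · intro z hz
      rw [mem_closedBall_zero_iff]
      exact hz.2
  have hKr : ∀ z ∈ Kc, z ∈ annu r1 r2 := fun z hz => ⟨ht1.trans_le hz.1, hz.2.trans_lt ht2⟩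
  have hKinv : ∀ z ∈ Kc, z⁻¹ ∈ ball (0 : ℂ) r1⁻¹ := by
    intro z hz
    rw [mem_ball_zero_iff, norm_inv]
    exact inv_strictAnti₀ h1 (ht1.trans_le hz.1)
  have hK0 : ∀ z ∈ Kc, z ≠ 0 := by
    rintro z hz rfl
    have := hz.1
    rw [norm_zero] at this
    linarith
  have hSiK : ContinuousOn (fun z => Si z⁻¹) Kc := by
    refine hSi.continuousOn.comp (continuousOn_inv₀.mono fun z hz => hK0 z hz) ?_
    intro z hz
    exact hKinv z hz
  have hS0K : ContinuousOn S0 Kc := hS0.continuousOn.mono fun z hz => by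
    rw [mem_ball_zero_iff]
    exact hz.2.trans_lt ht2
  have hSiu : ∀ z ∈ Kc, IsUnit (Si z⁻¹) := by
    intro z hz
    rw [← hg z (hKr z hz)]
    exact (hgu z (hKr z hz)).mul (hu z hz.1 hz.2)
  have hgeq : ∀ z ∈ Kc, g z = Si z⁻¹ * Ring.inverse (S0 z) := by
    intro z hz
    rw [← hg z (hKr z hz), mul_assoc, Ring.mul_inverse_cancel _ (hu z hz.1 hz.2), mul_one]
  have hinvc : ∀ {M : ℂ → E →L[ℂ] E}, ContinuousOn M Kc → (∀ z ∈ Kc, IsUnit (M z)) →
      ContinuousOn (fun z => Ring.inverse (M z)) Kc := by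
    intro M hM hMu z hz
    exact ((differentiableAt_inverse (hMu z hz)).continuousAt (𝕜 := ℂ)).comp_continuousWithinAt
      (hM z hz)
  have hgK : ContinuousOn g Kc := by
    refine (hSiK.mul (hinvc hS0K fun z hz => hu z hz.1 hz.2)).congr ?_
    intro z hz
    exact hgeq z hz
  obtain ⟨C1, hC1⟩ := hKc1.exists_bound_of_continuousOn (hinvc hSiK hSiu)
  obtain ⟨C2, hC2⟩ := hKc1.exists_bound_of_continuousOn hgK
  obtain ⟨C3, hC3⟩ := (isCompact_closedBall (0 : ℂ) t2).exists_bound_of_continuousOn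
    (hS0.continuousOn.mono (closedBall_subset_ball ht2))
  set Sd : ℂ → E →L[ℂ] E := dslope Si 0 with hSd
  have hr1i : 0 < r1⁻¹ := inv_pos.2 h1
  have hSdd : DifferentiableOn ℂ Sd (ball 0 r1⁻¹) :=
    (Complex.differentiableOn_dslope (ball_mem_nhds 0 hr1i)).2 hSi
  have hti : t1⁻¹ < r1⁻¹ := inv_strictAnti₀ h1 ht1
  obtain ⟨C4, hC4⟩ := (isCompact_closedBall (0 : ℂ) t1⁻¹).exists_bound_of_continuousOn
    (hSdd.continuousOn.mono (closedBall_subset_ball hti))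
  set C := max (max C1 C2) (max C3 (max C4 0)) with hC
  have hC0 : 0 ≤ C := (le_max_right _ _).trans ((le_max_right _ _).trans (le_max_right _ _))
  have hCC1 : C1 ≤ C := (le_max_left _ _).trans (le_max_left _ _)
  have hCC2 : C2 ≤ C := (le_max_right _ _).trans (le_max_left _ _)
  have hCC3 : C3 ≤ C := (le_max_left _ _).trans (le_max_right _ _)
  have hCC4 : C4 ≤ C := (le_max_left _ _).trans ((le_max_right _ _).trans (le_max_right _ _))
  have hsqK : ∀ z ∈ annu (√t1) (√t2), z ^ 2 ∈ Kc := fun z hz =>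
    ⟨(sec15B_sq_mem ht10 hz).1.le, (sec15B_sq_mem ht10 hz).2.le⟩
  have hz0 : ∀ z ∈ annu (√t1) (√t2), z ≠ 0 := by
    rintro z hz rfl
    have h3 : √t1 < ‖(0 : ℂ)‖ := hz.1
    rw [norm_zero] at h3
    linarith
  have hinvd : ∀ z ∈ annu (√t1) (√t2), z⁻¹ ∈ ball (0 : ℂ) (√t1)⁻¹ := by
    intro z hz
    rw [mem_ball_zero_iff, norm_inv]
    exact inv_strictAnti₀ ha1 hz.1
  have hsqd : ∀ η ∈ ball (0 : ℂ) (√t1)⁻¹, η ^ 2 ∈ closedBall (0 : ℂ) t1⁻¹ := by
    intro η hη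
    rw [mem_ball_zero_iff] at hη
    rw [mem_closedBall_zero_iff, norm_pow]
    have h3 := pow_le_pow_left₀ (norm_nonneg η) hη.le 2
    rwa [inv_pow, Real.sq_sqrt ht10.le] at h3
  have hsq0 : ∀ z ∈ ball (0 : ℂ) (√t2), z ^ 2 ∈ closedBall (0 : ℂ) t2 := by
    intro z hz
    rw [mem_ball_zero_iff] at hz
    rw [mem_closedBall_zero_iff]
    exact (sec15B_sq_disc ht20 hz).le
  have hGd : DifferentiableOn ℂ (fun z => g (z ^ 2)) (annu (√t1) (√t2)) := by
    have h3 : DifferentiableOn ℂ (fun z : ℂ => Si (z ^ 2)⁻¹) (annu (√t1) (√t2)) := by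
      refine hSi.comp (g := Si) ?_ ?_
      · refine DifferentiableOn.inv (differentiable_id.pow 2).differentiableOn ?_
        intro z hz
        exact pow_ne_zero 2 (hz0 z hz)
      · intro z hz
        exact hKinv _ (hsqK z hz)
    have h4 : DifferentiableOn ℂ (fun z : ℂ => S0 (z ^ 2)) (annu (√t1) (√t2)) := by
      refine hS0.comp (differentiable_id.pow 2).differentiableOn ?_
      intro z hz
      show z ^ 2 ∈ ball (0 : ℂ) r2
      rw [mem_ball_zero_iff]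
      exact (hsqK z hz).2.trans_lt ht2
    have h5 : DifferentiableOn ℂ (fun z : ℂ => Ring.inverse (S0 (z ^ 2))) (annu (√t1) (√t2)) := by
      intro z hz
      exact (differentiableAt_inverse (hu _ (hsqK z hz).1 (hsqK z hz).2)).comp_differentiableWithinAt
        z (h4 z hz)
    have h6 : DifferentiableOn ℂ (fun p : (E →L[ℂ] E) × (E →L[ℂ] E) => p.1 * p.2) univ :=
      (differentiable_fst.mul differentiable_snd).differentiableOn
    have h7 := h6.comp (h3.prodMk h5) (fun _ _ => mem_univ _)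
    exact h7.congr fun z hz => hgeq _ (hsqK z hz)
  refine ⟨C, hC0, hGd, fun z hz => (hC2 _ (hsqK z hz)).trans hCC2, ?_⟩
  refine right_inverse15 (E := E) ha1 ha12 (G := fun z => g (z ^ 2)) (S0 := fun z => S0 (z ^ 2))
    (Si := fun η => Si (η ^ 2)) (Si' := fun η => Sd (η ^ 2)) hGd ?_ ?_ ?_ ?_ (C := C) ?_ ?_ ?_
  · refine hS0.comp (differentiable_id.pow 2).differentiableOn ?_
    intro z hz
    exact closedBall_subset_ball ht2 (hsq0 z hz)
  · refine hSdd.comp (differentiable_id.pow 2).differentiableOn ?_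
    intro z hz
    exact closedBall_subset_ball hti (hsqd z hz)
  · intro η _
    have := sub_smul_dslope Si 0 (η ^ 2)
    rw [hi, sub_zero, sub_zero] at this
    exact this.symm
  · intro z hz
    show g (z ^ 2) * S0 (z ^ 2) = Si (z⁻¹ ^ 2)
    rw [inv_pow]
    exact hg _ (hKr _ (hsqK z hz))
  · intro z hz
    exact (hC3 _ (hsq0 z hz)).trans hCC3
  · intro η hη
    exact (hC4 _ (hsqd η hη)).trans hCC4
  · intro z hz
    show IsUnit (Si (z⁻¹ ^ 2)) ∧ ‖Ring.inverse (Si (z⁻¹ ^ 2))‖ ≤ C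
    rw [inv_pow]
    exact ⟨hSiu _ (hsqK z hz), (hC1 _ (hsqK z hz)).trans hCC1⟩

/-- SOLUTION of `wi z⁻¹ = θ(z², w0 z)` with `w0 = p + z a + z² v0`.  Data: the two disc model `D`,
the thin annulus `t1 < |z| < t2` on which `S0`, `Si z⁻¹` are invertible; radii `a1 = √t1`,
`a2 = √t2`.  For small `(p,a)` there are bounded holomorphic `v0`, `wi` depending complex
differentiably on `(p,a)`, small, vanishing at `(0,0)`.
Proof: `G z = g (z²)`, `ξ z w = θ (z², w) - G z w` has `ξ z 0 = 0`, `D_w ξ z 0 = 0`; `nem`,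
`nem_lip`, `quad_contraction` for `Y = HB (annu a1 a2) E`: `Y = G (p + z a) + ξ(·, w0)`,
`w0 = p + z a + z² V0 Y` (right_inverse15, with `S0 (z²)`, `Si (η²) = η² Si'`), `wi = Vi Y`. -/
theorem solve15 {u0 ui : ℂ → X} {r1 r2 : ℝ} (h1 : 0 < r1) (D : TwoDisc E u0 ui r1 r2)
    {S0 Si : ℂ → E →L[ℂ] E} (hS0 : DifferentiableOn ℂ S0 (ball 0 r2))
    (hSi : DifferentiableOn ℂ Si (ball 0 r1⁻¹))
    (hg : ∀ z ∈ annu r1 r2, (fderiv ℂ (D.θ z) 0) * S0 z = Si z⁻¹)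
    (hi : Si 0 = 0) {t1 t2 : ℝ} (ht1 : r1 < t1) (ht12 : t1 < t2) (ht2 : t2 < r2)
    (hu : ∀ z : ℂ, t1 ≤ ‖z‖ → ‖z‖ ≤ t2 → IsUnit (S0 z)) :
    ∃ (d : ℝ) (V0 : E × E → HB (disc (√t2)) E) (Wi : E × E → HB (disc (√t1)⁻¹) E), 0 < d ∧
      DifferentiableOn ℂ V0 (ball 0 d) ∧ DifferentiableOn ℂ Wi (ball 0 d) ∧
      (∀ t ∈ ball (0 : E × E) d, ∀ z ∈ disc (√t2), ‖t.1 + z • t.2 + z ^ 2 • (V0 t).fn z‖ < D.d) ∧
      (∀ t ∈ ball (0 : E × E) d, ∀ η ∈ disc (√t1)⁻¹, ‖(Wi t).fn η‖ < D.δ) ∧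
      (∀ t ∈ ball (0 : E × E) d, ∀ z ∈ annu (√t1) (√t2),
        (Wi t).fn z⁻¹ = D.θ (z ^ 2) (t.1 + z • t.2 + z ^ 2 • (V0 t).fn z)) := by
  have hc : CompleteSpace E := FiniteDimensional.complete ℂ E
  have ht10 : 0 < t1 := h1.trans ht1
  have ht20 : 0 < t2 := ht10.trans ht12
  have ha1 : 0 < √t1 := Real.sqrt_pos.2 ht10
  have ha2 : 0 < √t2 := Real.sqrt_pos.2 ht20
  have ha12 : √t1 < √t2 := Real.sqrt_lt_sqrt ht10.le ht12
  have hrq : ∀ z ∈ annu r1 r2, z ∈ annu D.q1 D.q2 := fun z hz =>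
    ⟨D.hqr1.trans hz.1, lt_trans hz.2 D.hqr2⟩
  set g : ℂ → E →L[ℂ] E := fun z => fderiv ℂ (D.θ z) 0 with hgdef
  set U : Opens ℂ := annu (√t1) (√t2) with hU
  obtain ⟨C, hC0, hGd, hGb, T0, Ti, hT⟩ : ∃ C : ℝ, 0 ≤ C ∧
      DifferentiableOn ℂ (fun z => g (z ^ 2)) (U : Set ℂ) ∧
      (∀ z ∈ U, ‖g (z ^ 2)‖ ≤ C) ∧
      ∃ (V0 : HB U E →L[ℂ] HB (disc (√t2)) E) (Vi : HB U E →L[ℂ] HB (disc (√t1)⁻¹) E),
      ∀ y : HB U E, ∀ z ∈ U,
        (Vi y).fn z⁻¹ - z ^ 2 • g (z ^ 2) ((V0 y).fn z) = y.fn z :=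
    sec15B_data (E := E) h1 (g := g)
      (fun z hz => D.θunit z (hrq z hz)) hS0 hSi hg hi ht1 ht12 ht2 hu
  have hUd : U ≤ disc (√t2) := by
    intro z hz
    show z ∈ ball (0 : ℂ) (√t2)
    rw [mem_ball_zero_iff]
    exact hz.2
  have hUq : ∀ z ∈ U, z ^ 2 ∈ annu D.q1 D.q2 := fun z hz =>
    hrq _ ⟨ht1.trans (sec15B_sq_mem ht10 hz).1, lt_trans (sec15B_sq_mem ht10 hz).2 ht2⟩
  -- the nonlinear part
  set ξ : ℂ → E → E := fun z w => D.θ (z ^ 2) w - g (z ^ 2) w with hξ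
  have hθ2 : HolOn2 E (fun (z : ℂ) (w : E) => D.θ (z ^ 2) w) (U : Set ℂ) (ball (0 : E) D.d) := by
    have h3 : MDifferentiableOn ((modelWithCornersSelf ℂ ℂ).prod (modelWithCornersSelf ℂ E))
        ((modelWithCornersSelf ℂ ℂ).prod (modelWithCornersSelf ℂ E))
        (fun q : ℂ × E => (q.1 ^ 2, q.2)) ((U : Set ℂ) ×ˢ ball (0 : E) D.d) := by
      have h4 : MDifferentiable (modelWithCornersSelf ℂ ℂ) (modelWithCornersSelf ℂ ℂ)
          (fun z : ℂ => z ^ 2) := (differentiable_id.pow 2).mdifferentiable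
      exact ((h4.comp mdifferentiable_fst).mdifferentiableOn).prodMk
        mdifferentiable_snd.mdifferentiableOn
    exact D.θhol.comp h3 (fun q hq => ⟨hUq q.1 hq.1, hq.2⟩)
  have hG2 : HolOn2 E (fun (z : ℂ) (w : E) => g (z ^ 2) w) (U : Set ℂ) (ball (0 : E) D.d) := by
    have h3 : MDifferentiableOn ((modelWithCornersSelf ℂ ℂ).prod (modelWithCornersSelf ℂ E))
        (modelWithCornersSelf ℂ (E →L[ℂ] E)) (fun q : ℂ × E => g (q.1 ^ 2))
        ((U : Set ℂ) ×ˢ ball (0 : E) D.d) := by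
      have h4 : MDifferentiableOn (modelWithCornersSelf ℂ ℂ) (modelWithCornersSelf ℂ (E →L[ℂ] E))
        (fun z : ℂ => g (z ^ 2)) (U : Set ℂ) := holOn_iff_plane.2 hGd
      exact h4.comp mdifferentiable_fst.mdifferentiableOn (fun q hq => hq.1)
    exact h3.clm_apply mdifferentiable_snd.mdifferentiableOn
  have hξ2 : HolOn2 E ξ (U : Set ℂ) (ball (0 : E) D.d) := MDifferentiableOn.sub hθ2 hG2
  have hξb : ∀ z ∈ U, ∀ w ∈ ball (0 : E) D.d, ‖ξ z w‖ ≤ D.δ + C * D.d := by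
    intro z hz w hw
    have h3 := (D.θlt _ (hUq z hz) w hw).le
    have h4 : ‖g (z ^ 2) w‖ ≤ C * D.d := by
      refine ((g (z ^ 2)).le_opNorm w).trans ?_
      rw [mem_ball_zero_iff] at hw
      exact mul_le_mul (hGb z hz) hw.le (norm_nonneg _) hC0
    exact (norm_sub_le _ _).trans (add_le_add h3 h4)
  have hξ0 : ∀ z ∈ U, ξ z 0 = 0 := by
    intro z hz
    show D.θ (z ^ 2) 0 - g (z ^ 2) 0 = 0
    rw [D.θzero _ (hUq z hz), map_zero, sub_zero]
  have hξ1 : ∀ z ∈ U, fderiv ℂ (ξ z) 0 = 0 := by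
    intro z hz
    have h3 : DifferentiableOn ℂ (D.θ (z ^ 2)) (ball (0 : E) D.d) :=
      hol2_slice (U := (annu D.q1 D.q2 : Set ℂ)) D.θhol (hUq z hz)
    have h4 : DifferentiableAt ℂ (D.θ (z ^ 2)) 0 :=
      h3.differentiableAt (isOpen_ball.mem_nhds (mem_ball_self D.hd))
    show fderiv ℂ (fun w => D.θ (z ^ 2) w - g (z ^ 2) w) 0 = 0
    rw [fderiv_fun_sub h4 (g (z ^ 2)).differentiableAt, ContinuousLinearMap.fderiv]
    exact sub_self _
  have hδ0 : 0 < D.δ := lt_of_lt_of_le D.hd D.hdδ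
  have hM0 : 0 ≤ D.δ + C * D.d := add_nonneg hδ0.le (mul_nonneg hC0 D.hd.le)
  obtain ⟨Q, hQ1, hQ2, -⟩ := nem (U := U) (F := E) (δ := D.d) (δ' := D.d / 2)
    (by linarith [D.hd]) hξ2 hξb
  have hnl := nem_lip (U := U) (F := E) hξ2 hξb hξ0 hξ1
  have hQ0 : Q 0 = 0 := by
    apply HB.ext'
    intro z hz
    rw [hQ1 0 (by rw [norm_zero]; linarith [D.hd]) z hz, HB.fn_zero, hξ0 z hz]
  have hL0 : 0 ≤ 4 * (D.δ + C * D.d) / D.d ^ 2 := by positivity
  have hQL : ∀ w w' : HB U E, ‖w‖ < D.d / 2 → ‖w'‖ < D.d / 2 →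
      ‖Q w - Q w'‖ ≤ 4 * (D.δ + C * D.d) / D.d ^ 2 * (‖w‖ + ‖w'‖) * ‖w - w'‖ := by
    intro y y' hy hy'
    refine HB.norm_le_of (by positivity) ?_
    intro z hz
    rw [HB.fn_sub, hQ1 y hy z hz, hQ1 y' hy' z hz]
    have a1 := y.fn_le z
    have a2 := y'.fn_le z
    have a3 := (y - y').fn_le z
    rw [HB.fn_sub] at a3
    refine (hnl z hz _ _ (a1.trans_lt hy) (a2.trans_lt hy')).trans ?_
    refine mul_le_mul (mul_le_mul_of_nonneg_left (add_le_add a1 a2) hL0) a3 (norm_nonneg _) ?_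
    positivity
  -- the linear operators
  obtain ⟨A, hA⟩ := sec15B_aff (E := E) ha2
  obtain ⟨M2, hM2⟩ := sec15B_sqmul (E := E) ha2
  obtain ⟨rs, -, hrs⟩ := exists_res (F := E) hUd
  obtain ⟨Gop, -, hGop⟩ := exists_mulOp (F := E) (G := E) (U := U) (fun z => g (z ^ 2))
    (holOn_iff_plane.2 hGd) C hC0 hGb
  set W : (E × E) × HB U E →L[ℂ] HB (disc (√t2)) E :=
    A.comp (ContinuousLinearMap.fst ℂ (E × E) (HB U E)) +
      (M2.comp T0).comp (ContinuousLinearMap.snd ℂ (E × E) (HB U E)) with hW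
  have hWval : ∀ (t : E × E) (y : HB U E), ∀ z ∈ disc (√t2),
      (W (t, y)).fn z = t.1 + z • t.2 + z ^ 2 • (T0 y).fn z := by
    intro t y z hz
    have e1 : W (t, y) = A t + M2 (T0 y) := rfl
    rw [e1, HB.fn_add, hA t z hz, hM2 _ z hz]
  -- smallness
  set ε := min (D.d / 2) (D.δ / (2 * (‖Ti‖ + 1))) with hε
  have hTi := norm_nonneg Ti
  have hε0 : 0 < ε := lt_min (by linarith [D.hd]) (by positivity)
  obtain ⟨d0, hd0, C', y, hy1, hy2⟩ := quad_contraction (P := E × E) (Y := HB U E)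
    (Z := HB U E) (Gop.comp (rs.comp A)) (rs.comp W) (Q := Q) (ρQ := D.d / 2)
    (C := 4 * (D.δ + C * D.d) / D.d ^ 2) (by linarith [D.hd]) hQ2 hQ0 hQL hε0
  -- `W (t, y t)` is small
  have hWc : ContinuousAt (fun t : E × E => W (t, y t)) 0 := by
    have h3 : ContinuousAt y 0 :=
      (hy1.differentiableAt (isOpen_ball.mem_nhds (mem_ball_self hd0))).continuousAt
    exact W.continuous.continuousAt.comp (continuousAt_id.prodMk h3)
  have hy0 : y 0 = 0 := by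
    have h3 := (hy2 0 (mem_ball_self hd0)).2.1
    rw [norm_zero, mul_zero] at h3
    exact norm_le_zero_iff.1 h3
  have hW0 : W (0, y 0) = 0 := by
    rw [hy0]
    exact map_zero W
  have hev : ∀ᶠ t : E × E in 𝓝 0, ‖W (t, y t)‖ < D.d := by
    have h3 : Tendsto (fun t : E × E => ‖W (t, y t)‖) (𝓝 0) (𝓝 ‖W (0, y 0)‖) := hWc.norm
    rw [hW0, norm_zero] at h3
    exact h3.eventually (gt_mem_nhds D.hd)
  obtain ⟨d1, hd1, hball⟩ := Metric.eventually_nhds_iff_ball.1 hev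
  refine ⟨min d0 d1, fun t => T0 (y t), fun t => Ti (y t), lt_min hd0 hd1, ?_, ?_, ?_, ?_, ?_⟩
  · exact T0.differentiable.comp_differentiableOn (hy1.mono (ball_subset_ball (min_le_left _ _)))
  · exact Ti.differentiable.comp_differentiableOn (hy1.mono (ball_subset_ball (min_le_left _ _)))
  · intro t ht z hz
    rw [← hWval t (y t) z hz]
    exact ((W (t, y t)).fn_le z).trans_lt (hball t (ball_subset_ball (min_le_right _ _) ht))
  · intro t ht η _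
    have h3 := (hy2 t (ball_subset_ball (min_le_left _ _) ht)).2.2.1
    have h4 : ε ≤ D.δ / (2 * (‖Ti‖ + 1)) := min_le_right _ _
    calc ‖(Ti (y t)).fn η‖ ≤ ‖Ti (y t)‖ := (Ti (y t)).fn_le η
      _ ≤ ‖Ti‖ * ‖y t‖ := Ti.le_opNorm _
      _ ≤ ‖Ti‖ * (D.δ / (2 * (‖Ti‖ + 1))) :=
          mul_le_mul_of_nonneg_left (h3.le.trans h4) hTi
      _ < D.δ := by
          rw [mul_div_assoc', div_lt_iff₀ (by positivity)]
          nlinarith
  · intro t ht z hz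
    obtain ⟨h3, -, -, h4⟩ := hy2 t (ball_subset_ball (min_le_left _ _) ht)
    have hzd : z ∈ disc (√t2) := hUd hz
    have h5 : ‖(rs.comp W) (t, y t)‖ < D.d / 2 := h4.trans_le (min_le_left _ _)
    have e1 : ((rs.comp W) (t, y t)).fn z = t.1 + z • t.2 + z ^ 2 • (T0 (y t)).fn z := by
      have e2 : (rs.comp W) (t, y t) = rs (W (t, y t)) := rfl
      rw [e2, hrs _ z hz, hWval t (y t) z hzd]
    have e3 : (y t).fn z = g (z ^ 2) (t.1 + z • t.2) +
        ξ z (t.1 + z • t.2 + z ^ 2 • (T0 (y t)).fn z) := by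
      have e4 : (y t).fn z = (Gop (rs (A t)) + Q ((rs.comp W) (t, y t))).fn z := by
        conv_lhs => rw [h3]
        rfl
      rw [e4, HB.fn_add, hGop _ z hz, hrs _ z hz, hA t z hzd, hQ1 _ h5 z hz, e1]
    have e5 := hT (y t) z hz
    rw [e3] at e5
    have e6 : (Ti (y t)).fn z⁻¹ = g (z ^ 2) (t.1 + z • t.2) +
        ξ z (t.1 + z • t.2 + z ^ 2 • (T0 (y t)).fn z) +
        z ^ 2 • g (z ^ 2) ((T0 (y t)).fn z) := eq_add_of_sub_eq e5
    rw [e6]
    show _ + (D.θ (z ^ 2) (t.1 + z • t.2 + z ^ 2 • (T0 (y t)).fn z) -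
      g (z ^ 2) (t.1 + z • t.2 + z ^ 2 • (T0 (y t)).fn z)) + _ = _
    rw [map_add (g (z ^ 2)) (t.1 + z • t.2) (z ^ 2 • (T0 (y t)).fn z), map_smul]
    abel

end Pool.Agent.W_4d259d_h44
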