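import Pool.Agent.W_4d259d_h44.Iface

/-!
# MP_4d259d_ag: local inverse of a spray (section 10) and the two disc model (section 11): definitions
-/

noncomputable section

set_option linter.unusedSectionVars false

namespace Pool.Agent.W_4d259d_h44

open Set Filter Topology Manifold Metric MeasureTheory TopologicalSpace
open scoped ContDiff OnePoint BoundedContinuousFunction
open Pool.Agent.W_4d259d_h46.Defs Pool.Agent.W_4d259d_h46

/-- The open disc as an `Opens`. -/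
def disc (r : ℝ) : Opens ℂ := ⟨ball 0 r, isOpen_ball⟩

/-- The open annulus `r1 < |z| < r2`. -/
def annu (r1 r2 : ℝ) : Opens ℂ :=
  ⟨{z | r1 < ‖z‖ ∧ ‖z‖ < r2}, (isOpen_lt continuous_const continuous_norm).inter
    (isOpen_lt continuous_norm continuous_const)⟩

section localInverse

variable {R : Type*} [TopologicalSpace R] [ChartedSpace ℂ R]
variable {E : Type*} [NormedAddCommGroup E] [NormedSpace ℂ E]
variable {X : Type*} [MetricSpace X] [ChartedSpace E X]

/-- `l` is a local inverse of the spray `s` (along `f`) over `W'`, with constants `δ'`, `κ`. -/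
structure IsLocInv (W' : Opens R) (f : R → X) (δ : ℝ) (s : R → E → X) (δ' κ : ℝ)
    (l : R → X → E) : Prop where
  dpos : 0 < δ'
  kpos : 0 < κ
  hol : MDifferentiableOn ((modelWithCornersSelf ℂ ℂ).prod (modelWithCornersSelf ℂ E))
    (modelWithCornersSelf ℂ E) (fun q : R × X => l q.1 q.2)
    {q : R × X | q.1 ∈ W' ∧ dist q.2 (f q.1) < κ}
  right : ∀ z ∈ W', ∀ x, dist x (f z) < κ → ‖l z x‖ < δ ∧ s z (l z x) = x
  left : ∀ z ∈ W', ∀ w : E, ‖w‖ < δ' → dist (s z w) (f z) < κ ∧ l z (s z w) = w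
  small : ∀ ε > 0, ∃ κ' > 0, ∀ z ∈ W', ∀ x, dist x (f z) < κ' → ‖l z x‖ < ε
  small' : ∀ ε > 0, ∃ δ'' > 0, ∀ z ∈ W', ∀ w : E, ‖w‖ < δ'' → dist (s z w) (f z) < ε

end localInverse

section model

variable (E : Type) [NormedAddCommGroup E] [NormedSpace ℂ E]
variable {X : Type} [MetricSpace X] [ChartedSpace E X]

/-- A rational curve as a pair `(u0, ui)`, `ui (1/t) = u0 t`. -/
structure IsPair (u0 ui : ℂ → X) : Prop where
  hol0 : HolOn E u0 univ
  holi : HolOn E ui univ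
  eq : ∀ t : ℂ, t ≠ 0 → ui t⁻¹ = u0 t

/-- The two disc model along the rational curve `(u0, ui)` (section 11): radii
`q1 < r1 < r2 < q2`, sprays `s0` over `|z| < q2` along `u0` and `si` over `|η| < 1/q1` along `ui`
with local inverses `l0`, `li`, and the transition `θ` on the annulus `q1 < |z| < q2`:
`si z⁻¹ (θ z w) = s0 z w`. -/
structure TwoDisc (u0 ui : ℂ → X) (r1 r2 : ℝ) where
  q1 : ℝ
  q2 : ℝ
  hq1 : 0 < q1
  hqr1 : q1 < r1
  hr : r1 < r2
  hqr2 : r2 < q2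
  /-- radius of the sprays -/
  δ : ℝ
  s0 : ℂ → E → X
  si : ℂ → E → X
  spray0 : IsSpray (disc q2) u0 δ s0
  sprayi : IsSpray (disc q1⁻¹) ui δ si
  δ' : ℝ
  κ : ℝ
  l0 : ℂ → X → E
  li : ℂ → X → E
  inv0 : IsLocInv (disc q2) u0 δ s0 δ' κ l0
  invi : IsLocInv (disc q1⁻¹) ui δ si δ' κ li
  /-- radius of the transition map -/
  d : ℝ
  hd : 0 < d
  hdδ : d ≤ δ
  θ : ℂ → E → E
  θhol : HolOn2 E θ (annu q1 q2 : Set ℂ) (ball (0 : E) d)
  θzero : ∀ z ∈ annu q1 q2, θ z 0 = 0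
  θunit : ∀ z ∈ annu q1 q2, IsUnit (fderiv ℂ (θ z) 0)
  θlt : ∀ z ∈ annu q1 q2, ∀ w ∈ ball (0 : E) d, ‖θ z w‖ < δ
  θeq : ∀ z ∈ annu q1 q2, ∀ w ∈ ball (0 : E) d, si z⁻¹ (θ z w) = s0 z w
  /-- uniqueness: the transition is the only small solution -/
  θuniq : ∀ z ∈ annu q1 q2, ∀ w ∈ ball (0 : E) d, ∀ w' ∈ ball (0 : E) d,
    si z⁻¹ w' = s0 z w → w' = θ z w

end model

end Pool.Agent.W_4d259d_h44
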